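import Pool.Agent.Lib.MP_2a9317_an.TP.Trig

set_option autoImplicit false

/-!
# TP-AppT: uniform approximation by real trigonometric polynomials

`approx_trig`: `f` as an element `g'` of `C(UnitAddTorus (Fin 2), ℂ)` is within `ε` of some
`P ∈ span ℂ (range mFourier)` (`UnitAddTorus.span_mFourier_closure_eq_top`, exactly as in `N1.F2_dens`),
so `|Re P (qq p) - f (qq p)| ≤ ε`.  `p ↦ Re (z * P (qq p))` is a `tp Q α β` for every `z : ℂ`
(`Submodule.span_induction` with the statement `∀ z, ∃ Q α β, ∀ p, (z * P (qq p)).re = tp Q α β p`, as in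
`N1.F2_good`; single frequency: `N1.mFourier_qq` with `Q = {(n 0, n 1)}`; sums: `tp_union`).
`tp_union`: two polynomials can be written with the same frequency set `Q ∪ Q'` (extend the coefficients by
`0`: `α q` if `q ∈ Q`, `0` otherwise; `Finset.sum_subset`).
-/

namespace Pool.Agent.Lib.MP_2a9317_an.TP

open MeasureTheory Matrix Filter Topology Pool.Agent.Lib.MP_2a9317_an.N1
open scoped ContDiff

theorem tp_extend (Q Q' : Finset (ℤ × ℤ)) (hQ : Q ⊆ Q') (α β : ℤ × ℤ → ℝ) (p : ℝ × ℝ) :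
    tp Q' (fun q => if q ∈ Q then α q else 0) (fun q => if q ∈ Q then β q else 0) p
      = tp Q α β p := by
  unfold tp
  rw [← Finset.sum_subset hQ]
  · refine Finset.sum_congr rfl fun q hq => ?_
    simp only [if_pos hq]
  · intro q _ hq
    simp only [if_neg hq]
    ring

private theorem tp_union (Q Q' : Finset (ℤ × ℤ)) (α β α' β' : ℤ × ℤ → ℝ) :
    ∃ (R : Finset (ℤ × ℤ)) (a b : ℤ × ℤ → ℝ), ∀ p, tp R a b p = tp Q α β p + tp Q' α' β' p := by
  refine ⟨Q ∪ Q', fun q => (if q ∈ Q then α q else 0) + (if q ∈ Q' then α' q else 0),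
    fun q => (if q ∈ Q then β q else 0) + (if q ∈ Q' then β' q else 0), fun p => ?_⟩
  rw [← tp_extend Q (Q ∪ Q') Finset.subset_union_left, ← tp_extend Q' (Q ∪ Q')
    Finset.subset_union_right]
  unfold tp
  rw [← Finset.sum_add_distrib]
  refine Finset.sum_congr rfl fun q _ => ?_
  ring

private theorem good_span {P : C(UnitAddTorus (Fin 2), ℂ)}
    (hP : P ∈ Submodule.span ℂ (Set.range (UnitAddTorus.mFourier (d := Fin 2)))) :
    ∀ z : ℂ, ∃ (Q : Finset (ℤ × ℤ)) (α β : ℤ × ℤ → ℝ), ∀ p, (z * P (qq p)).re = tp Q α β p := by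
  induction hP using Submodule.span_induction with
  | mem x hx =>
    obtain ⟨n, rfl⟩ := hx
    intro z
    refine ⟨{(n 0, n 1)}, fun _ => z.re, fun _ => -z.im, fun p => ?_⟩
    rw [mFourier_qq]
    unfold tp
    rw [Finset.sum_singleton]
  | zero =>
    intro z
    refine ⟨∅, fun _ => 0, fun _ => 0, fun p => ?_⟩
    unfold tp
    simp
  | add x y _ _ hx hy =>
    intro z
    obtain ⟨Q, α, β, h1⟩ := hx z
    obtain ⟨Q', α', β', h2⟩ := hy z
    obtain ⟨R, a, b, h3⟩ := tp_union Q Q' α β α' β'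
    refine ⟨R, a, b, fun p => ?_⟩
    rw [h3, ← h1, ← h2]
    simp only [ContinuousMap.add_apply, mul_add, Complex.add_re]
  | smul c x _ hx =>
    intro z
    obtain ⟨Q, α, β, h1⟩ := hx (z * c)
    refine ⟨Q, α, β, fun p => ?_⟩
    rw [← h1]
    simp only [ContinuousMap.smul_apply, smul_eq_mul, mul_assoc]

theorem approx_trig {f : UnitAddTorus (Fin 2) → ℝ} (hf : Continuous f) {ε : ℝ} (hε : 0 < ε) :
    ∃ (Q : Finset (ℤ × ℤ)) (α β : ℤ × ℤ → ℝ), ∀ p, |tp Q α β p - f (qq p)| ≤ ε := by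
  obtain ⟨g', hg'⟩ : ∃ g' : C(UnitAddTorus (Fin 2), ℂ), ∀ t, g' t = ((f t : ℝ) : ℂ) :=
    ⟨⟨fun t => ((f t : ℝ) : ℂ), Complex.continuous_ofReal.comp hf⟩, fun t => rfl⟩
  have hcl : g' ∈ closure (Submodule.span ℂ (Set.range (UnitAddTorus.mFourier (d := Fin 2))) :
      Set C(UnitAddTorus (Fin 2), ℂ)) := by
    rw [← Submodule.topologicalClosure_coe, UnitAddTorus.span_mFourier_closure_eq_top]
    exact Submodule.mem_top
  obtain ⟨P, hP, hdist⟩ := Metric.mem_closure_iff.mp hcl ε hε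
  obtain ⟨Q, α, β, h1⟩ := good_span hP 1
  refine ⟨Q, α, β, fun p => ?_⟩
  rw [← h1, one_mul]
  have h2 : ‖g' (qq p) - P (qq p)‖ ≤ ε := by
    have := ContinuousMap.dist_apply_le_dist (f := g') (g := P) (qq p)
    rw [dist_eq_norm] at this
    linarith
  have h3 : (g' (qq p) - P (qq p)).re = f (qq p) - (P (qq p)).re := by
    rw [hg', Complex.sub_re, Complex.ofReal_re]
  have h4 : |f (qq p) - (P (qq p)).re| ≤ ‖g' (qq p) - P (qq p)‖ := by
    rw [← h3]
    exact Complex.abs_re_le_norm _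
  rw [abs_sub_comm]
  exact h4.trans h2

end Pool.Agent.Lib.MP_2a9317_an.TP
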