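import Pool.Agent.Lib.MP_2a9317_an.TP.AppC
import Pool.Agent.Lib.MP_2a9317_an.TP.AppT

set_option autoImplicit false

/-!
# TP-App: approximation of a composite by trigonometric polynomials with values in a convex set

`f` from `approx_cont` with `ε / 4`; `η > 0` such that every point of the plane whose two coordinates differ
by at most `η` from those of a point of `K` lies in `K'` (`K` compact, `K ⊆ interior K'` open:
`IsCompact.exists_thickening_subset_open`; the distance of `ℝ × ℝ` is the maximum), and `4 η² ≤ ε / 2`.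
`approx_trig` for the two components of `f` with `η / 2`; a common frequency set by `tp_extend`.  The values
lie in `K'`, and `(tp - s)² ≤ 2 (tp - f)² + 2 (f - s)²`: the mean square is
`≤ 2 * ε / 4 + 2 * 2 * η² ≤ ε`.
-/

namespace Pool.Agent.Lib.MP_2a9317_an.TP

open MeasureTheory Matrix Filter Topology Pool.Agent.Lib.MP_2a9317_an.N1
open scoped ContDiff

private theorem app_bm (Q : Finset (ℤ × ℤ)) (α β : ℤ × ℤ → ℝ) : BM (tp Q α β) := by
  have hc : ∀ k l : ℤ, BM (fun p => Real.cos (ph k l p)) := fun k l =>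
    ⟨by unfold ph; fun_prop, 1, fun p => Real.abs_cos_le_one _⟩
  have hs : ∀ k l : ℤ, BM (fun p => Real.sin (ph k l p)) := fun k l =>
    ⟨by unfold ph; fun_prop, 1, fun p => Real.abs_sin_le_one _⟩
  have h : BM (fun p => ∑ q ∈ Q, (α q * Real.cos (ph q.1 q.2 p) + β q * Real.sin (ph q.1 q.2 p))) :=
    BM.sum Q (f := fun q p => α q * Real.cos (ph q.1 q.2 p) + β q * Real.sin (ph q.1 q.2 p))
      (fun q _ => ((hc q.1 q.2).const_mul (α q)).add ((hs q.1 q.2).const_mul (β q)))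
  exact h

theorem approx {k : ℕ} (s : Fin k → ℝ × ℝ) {χ : ℝ × ℝ → Fin k} (hχ : IsPartition χ)
    {K K' : Set (ℝ × ℝ)} (hKc : Convex ℝ K) (hK : IsCompact K) (hKK : K ⊆ interior K')
    (hs : ∀ j, s j ∈ K) {ε : ℝ} (hε : 0 < ε) :
    ∃ (Q : Finset (ℤ × ℤ)) (α₁ β₁ α₂ β₂ : ℤ × ℤ → ℝ),
      (∀ p, (tp Q α₁ β₁ p, tp Q α₂ β₂ p) ∈ K') ∧
      avg (fun p => (tp Q α₁ β₁ p - (s (χ p)).1) ^ 2 + (tp Q α₂ β₂ p - (s (χ p)).2) ^ 2) ≤ ε := by
  obtain ⟨f, hfc, hfK, hfa⟩ := approx_cont s hχ hKc hK hs (ε := ε / 4) (by positivity)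
  obtain ⟨δ, hδ, hδK⟩ := hK.exists_thickening_subset_open isOpen_interior hKK
  obtain ⟨η, hη⟩ : ∃ η : ℝ, η = min (δ / 2) (min 1 (ε / 8)) := ⟨_, rfl⟩
  have hη0 : 0 < η := by rw [hη]; positivity
  have hηδ : η ≤ δ / 2 := by rw [hη]; exact min_le_left _ _
  have hη1 : η ≤ 1 := by rw [hη]; exact (min_le_right _ _).trans (min_le_left _ _)
  have hη2 : η ≤ ε / 8 := by rw [hη]; exact (min_le_right _ _).trans (min_le_right _ _)
  have hηη : η ^ 2 ≤ ε / 8 := by nlinarith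
  obtain ⟨Q₁, a₁, b₁, h₁⟩ := approx_trig (f := fun t => (f t).1) hfc.fst hη0
  obtain ⟨Q₂, a₂, b₂, h₂⟩ := approx_trig (f := fun t => (f t).2) hfc.snd hη0
  have e₁ : tp (Q₁ ∪ Q₂) (fun q => if q ∈ Q₁ then a₁ q else 0) (fun q => if q ∈ Q₁ then b₁ q else 0)
      = tp Q₁ a₁ b₁ := funext (tp_extend Q₁ _ Finset.subset_union_left a₁ b₁)
  have e₂ : tp (Q₁ ∪ Q₂) (fun q => if q ∈ Q₂ then a₂ q else 0) (fun q => if q ∈ Q₂ then b₂ q else 0)
      = tp Q₂ a₂ b₂ := funext (tp_extend Q₂ _ Finset.subset_union_right a₂ b₂)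
  refine ⟨Q₁ ∪ Q₂, fun q => if q ∈ Q₁ then a₁ q else 0, fun q => if q ∈ Q₁ then b₁ q else 0,
    fun q => if q ∈ Q₂ then a₂ q else 0, fun q => if q ∈ Q₂ then b₂ q else 0, ?_, ?_⟩
  rotate_left
  · rw [e₁, e₂]
    have hb₁ := app_bm Q₁ a₁ b₁
    have hb₂ := app_bm Q₂ a₂ b₂
    have hχm := hχ.1
    have hs1 : BM (fun p => (s (χ p)).1) := BM.phase (fun j => (s j).1) hχm
    have hs2 : BM (fun p => (s (χ p)).2) := BM.phase (fun j => (s j).2) hχm
    obtain ⟨B, hB⟩ := hK.isBounded.exists_norm_le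
    have hfm : Measurable (fun p => f (qq p)) := (hfc.comp qq_cont).measurable
    have hf1 : BM (fun p => (f (qq p)).1) :=
      ⟨hfm.fst, B, fun p => (norm_fst_le (f (qq p))).trans (hB _ (hfK _))⟩
    have hf2 : BM (fun p => (f (qq p)).2) :=
      ⟨hfm.snd, B, fun p => (norm_snd_le (f (qq p))).trans (hB _ (hfK _))⟩
    have hbL : BM (fun p => (tp Q₁ a₁ b₁ p - (s (χ p)).1) ^ 2
        + (tp Q₂ a₂ b₂ p - (s (χ p)).2) ^ 2) := ((hb₁.sub hs1).sq).add ((hb₂.sub hs2).sq)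
    have hbM : BM (fun p => ((f (qq p)).1 - (s (χ p)).1) ^ 2
        + ((f (qq p)).2 - (s (χ p)).2) ^ 2) := ((hf1.sub hs1).sq).add ((hf2.sub hs2).sq)
    have hbR : BM (fun p => 2 * (((f (qq p)).1 - (s (χ p)).1) ^ 2
        + ((f (qq p)).2 - (s (χ p)).2) ^ 2) + ε / 2) := (hbM.const_mul 2).add (BM.const (ε / 2))
    refine (avg_mono' hbL hbR fun p => ?_).trans ?_
    · have k1 := h₁ p
      have k2 := h₂ p
      have m1 : (tp Q₁ a₁ b₁ p - (f (qq p)).1) ^ 2 ≤ η ^ 2 := by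
        rw [← sq_abs]
        exact pow_le_pow_left₀ (abs_nonneg _) k1 2
      have m2 : (tp Q₂ a₂ b₂ p - (f (qq p)).2) ^ 2 ≤ η ^ 2 := by
        rw [← sq_abs]
        exact pow_le_pow_left₀ (abs_nonneg _) k2 2
      nlinarith [sq_nonneg ((tp Q₁ a₁ b₁ p - (f (qq p)).1) - ((f (qq p)).1 - (s (χ p)).1)),
        sq_nonneg ((tp Q₂ a₂ b₂ p - (f (qq p)).2) - ((f (qq p)).2 - (s (χ p)).2))]
    · rw [avg_add' (hbM.const_mul 2) (BM.const (ε / 2)), avg_mul', avg_const]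
      linarith
  · intro p
    rw [e₁, e₂]
    refine interior_subset (hδK ?_)
    rw [Metric.mem_thickening_iff]
    refine ⟨f (qq p), hfK _, ?_⟩
    rw [Prod.dist_eq, max_lt_iff, Real.dist_eq, Real.dist_eq]
    have k1 := h₁ p
    have k2 := h₂ p
    constructor
    · exact k1.trans_lt (by linarith)
    · exact k2.trans_lt (by linarith)

end Pool.Agent.Lib.MP_2a9317_an.TP
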