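import Pool.Agent.Lib.MP_2a9317_an.TP.Q0

set_option autoImplicit false

/-!
# TP-AppC: approximation of a composite by a continuous field with values in a convex set

A continuous map `f : UnitAddTorus (Fin 2) → ℝ × ℝ` with values in `K` and `⟨|f(qq p) - s (χ p)|²⟩ ≤ ε`.
As in `N1.F2_dens` work on the torus with `ν = (volume.restrict cell).map qq` (finite measure) and
`X t = χ (rep (t 0), rep (t 1))`; `X (qq p) = χ p` (proof of `N1.F2_lift` with `N1.rep_int` and the integer
periods of `χ`: apply `N1.F2_per` to the real functions `if χ = j then 1 else 0`, or to `fun p => ((χ p : ℕ) : ℝ)`).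
The sets `X⁻¹{j}` are measurable; choose compact `C_j ⊆ X⁻¹{j}` with
`ν (X⁻¹{j} \ C_j) ≤ η` (`MeasurableSet.exists_isCompact_diff_lt` or `exists_isCompact_lt_add`), pairwise
disjoint.  The open sets `U_j = (⋃_{i ≠ j} C_i)ᶜ` cover the torus (a point lies in at most one `C_i`); take a
partition of unity `ρ_j` subordinate to them (`PartitionOfUnity.exists_isSubordinate`, finite index
`Fin k`), and `f = ∑ ρ_j s_j ∈ K` (`Convex.sum_mem`).  On `C_j` one has `ρ_i = 0` for `i ≠ j`, so `f = s_j`;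
elsewhere `|f - s_χ|² ≤ R` (`f`, `s` take values in the compact, hence bounded, set `K`); the exceptional set
has measure `≤ k η`.  `k ≥ 1` because `χ` exists.
(Any other construction is fine: e.g. continuous `x_j` with values in `[0, 1]`, close to the indicator of
`χ = j` in `L²` (`MemLp.exists_boundedContinuous_integral_rpow_sub_le` as in `F2_dens`, then clip), and stick
breaking `f = ∑_j x_j ∏_{i<j} (1 - x_i) s_j + ∏_i (1 - x_i) s_0`.)
-/

namespace Pool.Agent.Lib.MP_2a9317_an.TP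

open MeasureTheory Matrix Filter Topology Pool.Agent.Lib.MP_2a9317_an.N1
open scoped ContDiff

/-- a continuous field on the torus from closed pieces -/
private theorem appC_field {k : ℕ} (s : Fin k → ℝ × ℝ) (hk : 0 < k) {K : Set (ℝ × ℝ)}
    (hKc : Convex ℝ K) (hs : ∀ j, s j ∈ K) (C : Fin k → Set (UnitAddTorus (Fin 2)))
    (hC : ∀ j, IsClosed (C j)) (hd : ∀ i j t, t ∈ C i → t ∈ C j → i = j) :
    ∃ f : UnitAddTorus (Fin 2) → ℝ × ℝ, Continuous f ∧ (∀ t, f t ∈ K) ∧
      ∀ j t, t ∈ C j → f t = s j := by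
  obtain ⟨U, hU⟩ : ∃ U : Fin k → Set (UnitAddTorus (Fin 2)),
      U = fun j => ⋂ i ∈ Finset.univ.filter (fun i => i ≠ j), (C i)ᶜ := ⟨_, rfl⟩
  have hUo : ∀ j, IsOpen (U j) := by
    intro j
    rw [hU]
    exact isOpen_biInter_finset (fun i _ => (hC i).isOpen_compl)
  have hUm : ∀ j t, t ∈ U j ↔ ∀ i, i ≠ j → t ∉ C i := by
    intro j t
    rw [hU]
    simp
  have hcov : (Set.univ : Set (UnitAddTorus (Fin 2))) ⊆ ⋃ j, U j := by
    intro t _
    rw [Set.mem_iUnion]
    by_cases h : ∃ j, t ∈ C j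
    · obtain ⟨j, hj⟩ := h
      refine ⟨j, (hUm j t).2 (fun i hi hti => hi (hd i j t hti hj))⟩
    · push Not at h
      exact ⟨⟨0, hk⟩, (hUm _ t).2 (fun i _ => h i)⟩
  obtain ⟨ρ, hρ⟩ := PartitionOfUnity.exists_isSubordinate isClosed_univ U hUo hcov
  have hsum : ∀ t, ∑ j, ρ j t = 1 := by
    intro t
    have := ρ.sum_eq_one (Set.mem_univ t)
    rwa [finsum_eq_sum_of_fintype] at this
  refine ⟨fun t => ∑ j, ρ j t • s j, ?_, ?_, ?_⟩
  · exact continuous_finsetSum _ (fun j _ => (ρ j).continuous.smul continuous_const)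
  · intro t
    exact hKc.sum_mem (fun j _ => ρ.nonneg j t) (hsum t) (fun j _ => hs j)
  · intro j t ht
    have hz : ∀ i, i ≠ j → ρ i t = 0 := by
      intro i hi
      by_contra hne
      have h1 : t ∈ tsupport (ρ i) := subset_tsupport _ hne
      have h2 := (hUm i t).1 (hρ i h1) j (fun e => hi e.symm)
      exact h2 ht
    have h1 : ρ j t = 1 := by
      have := hsum t
      rwa [Finset.sum_eq_single j (fun i _ hi => hz i hi) (fun h => absurd (Finset.mem_univ j) h)] at this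
    show ∑ i, ρ i t • s i = s j
    rw [Finset.sum_eq_single j (fun i _ hi => by rw [hz i hi, zero_smul])
      (fun h => absurd (Finset.mem_univ j) h), h1, one_smul]

theorem approx_cont {k : ℕ} (s : Fin k → ℝ × ℝ) {χ : ℝ × ℝ → Fin k} (hχ : IsPartition χ)
    {K : Set (ℝ × ℝ)} (hKc : Convex ℝ K) (hK : IsCompact K) (hs : ∀ j, s j ∈ K) {ε : ℝ}
    (hε : 0 < ε) :
    ∃ f : UnitAddTorus (Fin 2) → ℝ × ℝ, Continuous f ∧ (∀ t, f t ∈ K) ∧
      avg (fun p => ((f (qq p)).1 - (s (χ p)).1) ^ 2 + ((f (qq p)).2 - (s (χ p)).2) ^ 2) ≤ ε := by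
  have hk : 0 < k := (χ (0, 0)).pos
  obtain ⟨hm, hp⟩ := hχ
  -- the bound
  obtain ⟨B, hB⟩ := hK.isBounded.exists_norm_le
  have hB0 : 0 ≤ B := (norm_nonneg _).trans (hB _ (hs ⟨0, hk⟩))
  obtain ⟨R, hR⟩ : ∃ R : ℝ, R = 8 * B ^ 2 + 1 := ⟨_, rfl⟩
  have hR0 : 0 < R := by rw [hR]; positivity
  have hbd : ∀ z ∈ K, ∀ w ∈ K, (z.1 - w.1) ^ 2 + (z.2 - w.2) ^ 2 ≤ R := by
    intro z hz w hw
    have h1 := hB z hz
    have h2 := hB w hw
    have a1 : |z.1| ≤ B := (norm_fst_le z).trans h1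
    have a2 : |z.2| ≤ B := (norm_snd_le z).trans h1
    have b1 : |w.1| ≤ B := (norm_fst_le w).trans h2
    have b2 : |w.2| ≤ B := (norm_snd_le w).trans h2
    have c1 : (z.1 - w.1) ^ 2 ≤ (2 * B) ^ 2 := by
      rw [← sq_abs]
      exact pow_le_pow_left₀ (abs_nonneg _) ((abs_sub _ _).trans (by linarith)) 2
    have c2 : (z.2 - w.2) ^ 2 ≤ (2 * B) ^ 2 := by
      rw [← sq_abs]
      exact pow_le_pow_left₀ (abs_nonneg _) ((abs_sub _ _).trans (by linarith)) 2
    rw [hR]
    nlinarith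
  -- the phase on the torus
  obtain ⟨X, hX⟩ : ∃ X : UnitAddTorus (Fin 2) → Fin k, X = fun t => χ (rep (t 0), rep (t 1)) :=
    ⟨_, rfl⟩
  have hXq : ∀ p, X (qq p) = χ p := by
    intro p
    have hper : Per (fun p => (((χ p : Fin k) : ℕ) : ℝ)) := by
      intro x y
      simp only [(hp x y).1, (hp x y).2, and_self]
    have h := F2_lift hper p
    rw [hX]
    exact Fin.ext (Nat.cast_injective h)
  have hXm : Measurable X := by
    rw [hX]
    exact hm.comp ((rep_meas.comp (measurable_pi_apply 0)).prodMk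
      (rep_meas.comp (measurable_pi_apply 1)))
  obtain ⟨ν, hν⟩ : ∃ ν : Measure (UnitAddTorus (Fin 2)), ν = (volume.restrict cell).map qq :=
    ⟨_, rfl⟩
  have hqm : Measurable qq := qq_cont.measurable
  have : IsFiniteMeasure (volume.restrict cell : Measure (ℝ × ℝ)) := by
    refine ⟨?_⟩
    rw [Measure.restrict_apply_univ, volume_cell]
    simp
  have : IsFiniteMeasure ν := by
    rw [hν]
    exact Measure.isFiniteMeasure_map _ _
  obtain ⟨η, hη⟩ : ∃ η : ℝ, η = ε / (R * k) := ⟨_, rfl⟩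
  have hkR : (0 : ℝ) < k := by exact_mod_cast hk
  have hη0 : 0 < η := by rw [hη]; positivity
  have hex : ∀ j : Fin k, ∃ F : Set (UnitAddTorus (Fin 2)), F ⊆ X ⁻¹' {j} ∧ IsClosed F ∧
      ν (X ⁻¹' {j} \ F) < ENNReal.ofReal η := by
    intro j
    have h1 : MeasurableSet (X ⁻¹' {j}) := hXm (measurableSet_singleton j)
    exact h1.exists_isClosed_sdiff_lt (measure_ne_top ν _)
      (by rw [Ne, ENNReal.ofReal_eq_zero]; linarith)
  choose C hCs hCc hCm using hex
  obtain ⟨f, hfc, hfK, hfs⟩ := appC_field s hk hKc hs C hCc (by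
    intro i j t hi hj
    have h1 := hCs i hi
    have h2 := hCs j hj
    simp only [Set.mem_preimage, Set.mem_singleton_iff] at h1 h2
    rw [← h1, ← h2])
  refine ⟨f, hfc, hfK, ?_⟩
  -- the exceptional set
  obtain ⟨E, hE⟩ : ∃ E : Set (UnitAddTorus (Fin 2)), E = ⋃ j, (X ⁻¹' {j} \ C j) := ⟨_, rfl⟩
  have hEm : MeasurableSet E := by
    rw [hE]
    exact MeasurableSet.iUnion (fun j =>
      (hXm (measurableSet_singleton j)).diff (hCc j).measurableSet)
  have hEν : ν.real E ≤ k * η := by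
    have h1 : ν E ≤ ENNReal.ofReal (k * η) := by
      rw [hE]
      calc ν (⋃ j, (X ⁻¹' {j} \ C j)) ≤ ∑ j, ν (X ⁻¹' {j} \ C j) :=
            measure_iUnion_fintype_le ν _
        _ ≤ ∑ j : Fin k, ENNReal.ofReal η := Finset.sum_le_sum (fun j _ => (hCm j).le)
        _ = ENNReal.ofReal (k * η) := by
            rw [Finset.sum_const, Finset.card_univ, Fintype.card_fin, nsmul_eq_mul,
              ENNReal.ofReal_mul hkR.le, ENNReal.ofReal_natCast]
    have h2 := ENNReal.toReal_mono ENNReal.ofReal_ne_top h1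
    rwa [ENNReal.toReal_ofReal (by positivity)] at h2
  have hfm : Measurable (fun p => f (qq p)) := (hfc.comp qq_cont).measurable
  have hsm : Measurable (fun p => s (χ p)) := (measurable_from_top (f := s)).comp hm
  have hpt : ∀ p, ((f (qq p)).1 - (s (χ p)).1) ^ 2 + ((f (qq p)).2 - (s (χ p)).2) ^ 2
      ≤ R * (qq ⁻¹' E).indicator (fun _ => (1 : ℝ)) p := by
    intro p
    by_cases h : qq p ∈ E
    · rw [Set.indicator_of_mem (show p ∈ qq ⁻¹' E from h), mul_one]
      exact hbd _ (hfK _) _ (hs _)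
    · rw [Set.indicator_of_notMem (show p ∉ qq ⁻¹' E from h), mul_zero]
      have h1 : qq p ∈ C (χ p) := by
        by_contra hcon
        apply h
        rw [hE, Set.mem_iUnion]
        exact ⟨χ p, by rw [Set.mem_preimage, hXq]; rfl, hcon⟩
      rw [hfs _ _ h1]
      simp
  have hEq : MeasurableSet (qq ⁻¹' E) := hqm hEm
  have hi1 : IntegrableOn (fun p => ((f (qq p)).1 - (s (χ p)).1) ^ 2
      + ((f (qq p)).2 - (s (χ p)).2) ^ 2) cell := by
    refine F2_int (((hfm.fst.sub hsm.fst).pow_const 2).add ((hfm.snd.sub hsm.snd).pow_const 2))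
      (C := R) (fun p => ?_)
    rw [abs_of_nonneg (by positivity)]
    exact hbd _ (hfK _) _ (hs _)
  have hi2 : IntegrableOn (fun p => R * (qq ⁻¹' E).indicator (fun _ => (1 : ℝ)) p) cell := by
    refine F2_int ((measurable_const.indicator hEq).const_mul R) (C := R) (fun p => ?_)
    by_cases h : p ∈ qq ⁻¹' E
    · rw [Set.indicator_of_mem h, mul_one, abs_of_pos hR0]
    · rw [Set.indicator_of_notMem h, mul_zero, abs_zero]
      exact hR0.le
  calc avg (fun p => ((f (qq p)).1 - (s (χ p)).1) ^ 2 + ((f (qq p)).2 - (s (χ p)).2) ^ 2)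
      ≤ avg (fun p => R * (qq ⁻¹' E).indicator (fun _ => (1 : ℝ)) p) := avg_mono hi1 hi2 hpt
    _ = R * ν.real E := by
        rw [avg_mul, avg_eq, hν, map_measureReal_apply hqm hEm]
        congr 1
        rw [integral_indicator hEq]
        simp [Measure.real]
    _ ≤ R * (k * η) := mul_le_mul_of_nonneg_left hEν hR0.le
    _ = ε := by
        rw [hη]
        field_simp
    _ ≤ ε := le_rfl

end Pool.Agent.Lib.MP_2a9317_an.TP
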