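import Pool.Agent.Lib.MP_2a9317_an.TP.Defs

set_option autoImplicit false

/-!
# TP-By: integration by parts on the torus
-/

namespace Pool.Agent.Lib.MP_2a9317_an.TP

open MeasureTheory Matrix Filter Topology Pool.Agent.Lib.MP_2a9317_an.N1
open scoped ContDiff

private lemma By_bm {u : ℝ × ℝ → ℝ} (hu : IsPot u) : BM u := bm_of_continuous hu.continuous hu.2

theorem avg_byX {h g : ℝ × ℝ → ℝ} (hh : IsPot h) (hg : IsPot g) :
    avg (fun p => h p * dX g p) = - avg (fun p => dX h p * g p) := by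
  have h1 := avg_dX (hh.mul hg)
  have h2 : dX (fun p => h p * g p) = fun p => dX h p * g p + h p * dX g p := by
    funext p
    exact dX_mul hh hg p
  rw [h2, avg_add' ((bm_dX hh).mul (By_bm hg)) ((By_bm hh).mul (bm_dX hg))] at h1
  linarith

theorem avg_byY {h g : ℝ × ℝ → ℝ} (hh : IsPot h) (hg : IsPot g) :
    avg (fun p => h p * dY g p) = - avg (fun p => dY h p * g p) := by
  have h1 := avg_dY (hh.mul hg)
  have h2 : dY (fun p => h p * g p) = fun p => dY h p * g p + h p * dY g p := by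
    funext p
    exact dY_mul hh hg p
  rw [h2, avg_add' ((bm_dY hh).mul (By_bm hg)) ((By_bm hh).mul (bm_dY hg))] at h1
  linarith

/-- `⟨h ∇·(G)⟩ = - ⟨∇h · G⟩` -/
theorem avg_div {h g k : ℝ × ℝ → ℝ} (hh : IsPot h) (hg : IsPot g) (hk : IsPot k) :
    avg (fun p => h p * (dX g p + dY k p)) = - avg (fun p => dX h p * g p + dY h p * k p) := by
  have e1 : (fun p => h p * (dX g p + dY k p)) = fun p => h p * dX g p + h p * dY k p := by
    funext p
    ring
  rw [e1, avg_add' ((By_bm hh).mul (bm_dX hg)) ((By_bm hh).mul (bm_dY hk)),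
    avg_add' ((bm_dX hh).mul (By_bm hg)) ((bm_dY hh).mul (By_bm hk)),
    avg_byX hh hg, avg_byY hh hk]
  ring

/-- `⟨h ∇·(A∇v)⟩ = - ⟨∇h · A∇v⟩` -/
theorem avg_lap (A : Mod) {h v : ℝ × ℝ → ℝ} (hh : IsPot h) (hv : IsPot v) :
    avg (fun p => h p * A.lap v p) = - avg (fun p => A.a * dX h p * dX v p
      + A.b * (dX h p * dY v p + dY h p * dX v p) + A.c * dY h p * dY v p) := by
  have hX := hv.dX
  have hY := hv.dY
  have hg : IsPot (fun p => A.a * dX v p + A.b * dY v p) := (hX.smul A.a).add (hY.smul A.b)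
  have hk : IsPot (fun p => A.b * dX v p + A.c * dY v p) := (hX.smul A.b).add (hY.smul A.c)
  have h1 := avg_div hh hg hk
  have e1 : (fun p => h p * A.lap v p) = fun p => h p *
      (dX (fun p => A.a * dX v p + A.b * dY v p) p +
        dY (fun p => A.b * dX v p + A.c * dY v p) p) := by
    funext p
    rw [dX_add (hX.smul A.a) (hY.smul A.b), dY_add (hX.smul A.b) (hY.smul A.c),
      dX_smul A.a hX, dX_smul A.b hY, dY_smul A.b hX, dY_smul A.c hY]
    unfold Mod.lap
    rw [← dX_dY hv p]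
    ring
  rw [e1, h1]
  congr 2
  funext p
  ring

end Pool.Agent.Lib.MP_2a9317_an.TP
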