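import Pool.Agent.Lib.MP_2a9317_an.TP.Sem

set_option autoImplicit false

/-!
# TP-Lt: elementary facts on laminates of states

* `lt_exists`: `{z | ∃ q, LamT A s D z q}` is convex (layers with `ξ = (1, 0)`; the weights `0`, `1` are
  trivial) and contains the `s j`, hence contains `convexHull ℝ (Set.range s)` (`convexHull_min`).
* `lt_mem`: by induction `z ∈ convexHull`.
* `lt_convex`: for fixed `z` layer `(z, q)`, `(z, q')`: `z - z = 0`, `NN_zero`.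
* `lt_nonneg`, `lt_le`: by induction; `C = ∑ j, ((D i (s j)).1² + (D i (s j)).2²) / lo`, prove
  `q i + ((D i z).1² + (D i z).2²) / lo ≤ C` using `NN_le` and the identity
  `θ|x|² + (1-θ)|y|² - |θ x + (1-θ) y|² = θ(1-θ)|x - y|²` for `x = D i z`, `y = D i z'`.
* `lt_near`: near the vertex: with `q0` for `z0` (`lt_exists`), layer the phase `j` (fraction `1 - κ`) with
  `(z0, q0)` (`ξ = (1, 0)`): `q i = κ q0 i + κ (1 - κ) NN ξ (D i (s j - z0)) ∈ [0, κ C]`.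
* `val ℓ z = sInf {∑ ℓ i q i | LamT A s D z q}`; `val_semi`: `Semi A D (-ℓ) (val ℓ) (Om s)`: for
  `η > 0` choose `q`, `q'` with `∑ ℓ i q i ≤ val ℓ z + η`, ... (`exists_lt_of_csInf_lt`; nonempty by
  `lt_exists`, bounded below by `lt_nonneg`, `lt_le`), layer them, `csInf_le`, `η → 0`.
* `val_near`: `csInf_le` and `lt_near`.
* `val_le`: `csInf_le`; `le_val`: `le_csInf`.
-/

namespace Pool.Agent.Lib.MP_2a9317_an.TP

open MeasureTheory Matrix Filter Topology Pool.Agent.Lib.MP_2a9317_an.N1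
open scoped ContDiff

variable (A : Mod) {k : ℕ} {ι : Type} (s : Fin k → ℝ × ℝ) (D : ι → (ℝ × ℝ) →ₗ[ℝ] (ℝ × ℝ))

private theorem xi_ne : ((1, 0) : ℝ × ℝ) ≠ 0 := by
  simp

theorem lt_exists {z : ℝ × ℝ} (hz : z ∈ convexHull ℝ (Set.range s)) :
    ∃ q, LamT A s D z q := by
  have h1 : Convex ℝ {z : ℝ × ℝ | ∃ q, LamT A s D z q} := by
    rw [convex_iff_forall_pos]
    rintro x ⟨q, hq⟩ y ⟨q', hq'⟩ a b ha hb hab
    obtain rfl : b = 1 - a := by linarith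
    exact ⟨_, LamT.layer x y q q' a (1, 0) hq hq' ha (by linarith) xi_ne⟩
  have h2 : Set.range s ⊆ {z : ℝ × ℝ | ∃ q, LamT A s D z q} := by
    rintro _ ⟨j, rfl⟩
    exact ⟨_, LamT.phase j⟩
  exact convexHull_min h2 h1 hz

theorem lt_mem {z : ℝ × ℝ} {q : ι → ℝ} (h : LamT A s D z q) :
    z ∈ convexHull ℝ (Set.range s) := by
  induction h with
  | phase j => exact subset_convexHull ℝ _ ⟨j, rfl⟩
  | layer z z' q q' θ ξ _ _ t0 t1 _ ih ih' =>
    exact convex_convexHull ℝ _ ih ih' t0.le (by linarith) (by ring)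

theorem lt_convex (z : ℝ × ℝ) : Convex ℝ {q : ι → ℝ | LamT A s D z q} := by
  rw [convex_iff_forall_pos]
  intro q hq q' hq' a b ha hb hab
  obtain rfl : b = 1 - a := by linarith
  have h := LamT.layer z z q q' a (1, 0) hq hq' ha (by linarith) xi_ne
  have e1 : a • z + (1 - a) • z = z := by
    rw [← add_smul]
    simp
  have e2 : (fun i => a * q i + (1 - a) * q' i + a * (1 - a) * A.NN (1, 0) (D i (z - z))) =
      a • q + (1 - a) • q' := by
    funext i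
    rw [sub_self, map_zero, NN_zero]
    simp
  rw [e1, e2] at h
  exact h

theorem lt_nonneg {z : ℝ × ℝ} {q : ι → ℝ} (h : LamT A s D z q) (i : ι) : 0 ≤ q i := by
  induction h with
  | phase j => exact le_rfl
  | layer z z' q q' θ ξ _ _ t0 t1 _ ih ih' =>
    have h1 := NN_nonneg A ξ (D i (z - z'))
    have h2 : 0 < 1 - θ := by linarith
    positivity

theorem lt_le (i : ι) : ∃ C : ℝ, ∀ (z : ℝ × ℝ) (q : ι → ℝ), LamT A s D z q → q i ≤ C := by
  have hlo := lo_pos A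
  refine ⟨∑ j, ((D i (s j)).1 ^ 2 + (D i (s j)).2 ^ 2) / A.lo, fun z q h => ?_⟩
  have key : q i + ((D i z).1 ^ 2 + (D i z).2 ^ 2) / A.lo ≤
      ∑ j, ((D i (s j)).1 ^ 2 + (D i (s j)).2 ^ 2) / A.lo := by
    induction h with
    | phase j =>
      rw [zero_add]
      exact Finset.single_le_sum (f := fun j => ((D i (s j)).1 ^ 2 + (D i (s j)).2 ^ 2) / A.lo)
        (fun j _ => by positivity) (Finset.mem_univ j)
    | layer z z' q q' θ ξ _ _ t0 t1 _ ih ih' =>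
      have t2 : 0 < 1 - θ := by linarith
      have h1 := NN_le A ξ (D i (z - z'))
      have e1 : D i (z - z') = D i z - D i z' := map_sub _ _ _
      have e2 : D i (θ • z + (1 - θ) • z') = θ • D i z + (1 - θ) • D i z' := by
        rw [map_add, map_smul, map_smul]
      change θ * q i + (1 - θ) * q' i + θ * (1 - θ) * A.NN ξ (D i (z - z')) +
        ((D i (θ • z + (1 - θ) • z')).1 ^ 2 + (D i (θ • z + (1 - θ) • z')).2 ^ 2) / A.lo ≤ _
      rw [e1] at h1 ⊢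
      rw [e2]
      generalize hx : D i z = x at *
      generalize hy : D i z' = y at *
      simp only [Prod.fst_add, Prod.snd_add, Prod.smul_fst, Prod.smul_snd, smul_eq_mul,
        Prod.fst_sub, Prod.snd_sub] at *
      have h2 : θ * (1 - θ) * A.NN ξ (x - y) ≤
          θ * (1 - θ) * (((x.1 - y.1) ^ 2 + (x.2 - y.2) ^ 2) / A.lo) :=
        mul_le_mul_of_nonneg_left h1 (by positivity)
      have h3 : θ * (1 - θ) * (((x.1 - y.1) ^ 2 + (x.2 - y.2) ^ 2) / A.lo) +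
          ((θ * x.1 + (1 - θ) * y.1) ^ 2 + (θ * x.2 + (1 - θ) * y.2) ^ 2) / A.lo =
          θ * ((x.1 ^ 2 + x.2 ^ 2) / A.lo) + (1 - θ) * ((y.1 ^ 2 + y.2 ^ 2) / A.lo) := by
        field_simp
        ring
      have h4 := mul_le_mul_of_nonneg_left ih t0.le
      have h5 := mul_le_mul_of_nonneg_left ih' t2.le
      linarith
  have h1 : 0 ≤ ((D i z).1 ^ 2 + (D i z).2 ^ 2) / A.lo := by positivity
  linarith

theorem lt_near [Fintype ι] {z0 : ℝ × ℝ} (hz0 : z0 ∈ Om s) :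
    ∃ C : ℝ, 0 ≤ C ∧ ∀ κ : ℝ, 0 < κ → κ < 1 → ∀ j, ∃ q, LamT A s D ((1 - κ) • s j + κ • z0) q ∧
      ∀ i, |q i| ≤ κ * C := by
  obtain ⟨q0, hq0⟩ := lt_exists A s D (interior_subset hz0)
  have hN : ∀ (i : ι) (j : Fin k), 0 ≤ A.NN (1, 0) (D i (s j - z0)) := fun i j =>
    NN_nonneg A _ _
  have hS : ∀ i : ι, 0 ≤ |q0 i| + ∑ j, A.NN (1, 0) (D i (s j - z0)) := fun i =>
    add_nonneg (abs_nonneg _) (Finset.sum_nonneg fun j _ => hN i j)
  refine ⟨∑ i, (|q0 i| + ∑ j, A.NN (1, 0) (D i (s j - z0))),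
    Finset.sum_nonneg fun i _ => hS i, fun κ hκ0 hκ1 j => ?_⟩
  have h := LamT.layer (s j) z0 (fun _ => 0) q0 (1 - κ) (1, 0) (LamT.phase (A := A) (D := D) j)
    hq0 (by linarith) (by linarith) xi_ne
  have e1 : (1 : ℝ) - (1 - κ) = κ := by ring
  rw [e1] at h
  refine ⟨_, h, fun i => ?_⟩
  have h1 : A.NN (1, 0) (D i (s j - z0)) ≤ ∑ j, A.NN (1, 0) (D i (s j - z0)) :=
    Finset.single_le_sum (f := fun j => A.NN (1, 0) (D i (s j - z0))) (fun j _ => hN i j)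
      (Finset.mem_univ j)
  have h2 : |q0 i| + ∑ j, A.NN (1, 0) (D i (s j - z0)) ≤
      ∑ i, (|q0 i| + ∑ j, A.NN (1, 0) (D i (s j - z0))) :=
    Finset.single_le_sum (f := fun i => |q0 i| + ∑ j, A.NN (1, 0) (D i (s j - z0)))
      (fun i _ => hS i) (Finset.mem_univ i)
  have h3 := hN i j
  have h4 : 0 < 1 - κ := by linarith
  have h5 : |(1 - κ) * 0 + κ * q0 i + (1 - κ) * κ * A.NN (1, 0) (D i (s j - z0))| ≤
      κ * |q0 i| + κ * A.NN (1, 0) (D i (s j - z0)) := by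
    have h6 : (1 - κ) * κ * A.NN (1, 0) (D i (s j - z0)) ≤
        κ * A.NN (1, 0) (D i (s j - z0)) := by
      apply mul_le_mul_of_nonneg_right _ h3
      nlinarith
    have h7 : 0 ≤ (1 - κ) * κ * A.NN (1, 0) (D i (s j - z0)) := by positivity
    calc |(1 - κ) * 0 + κ * q0 i + (1 - κ) * κ * A.NN (1, 0) (D i (s j - z0))|
        = |κ * q0 i + (1 - κ) * κ * A.NN (1, 0) (D i (s j - z0))| := by
          congr 1
          ring
      _ ≤ |κ * q0 i| + |(1 - κ) * κ * A.NN (1, 0) (D i (s j - z0))| := abs_add_le _ _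
      _ = κ * |q0 i| + (1 - κ) * κ * A.NN (1, 0) (D i (s j - z0)) := by
          rw [abs_mul, abs_of_pos hκ0, abs_of_nonneg h7]
      _ ≤ _ := by linarith
  refine h5.trans ?_
  rw [← mul_add]
  exact mul_le_mul_of_nonneg_left (by linarith) hκ0.le

/-- the least value of the linear functional `ℓ` over the laminates with barycentre `z` -/
noncomputable def val [Fintype ι] (ℓ : ι → ℝ) (z : ℝ × ℝ) : ℝ :=
  sInf {x : ℝ | ∃ q, LamT A s D z q ∧ x = ∑ i, ℓ i * q i}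

private theorem val_bdd [Fintype ι] (ℓ : ι → ℝ) (z : ℝ × ℝ) :
    BddBelow {x : ℝ | ∃ q, LamT A s D z q ∧ x = ∑ i, ℓ i * q i} := by
  choose C hC using lt_le A s D
  refine ⟨-∑ i, |ℓ i| * C i, ?_⟩
  rintro _ ⟨q, hq, rfl⟩
  rw [← Finset.sum_neg_distrib]
  apply Finset.sum_le_sum
  intro i _
  have h1 := lt_nonneg A s D hq i
  have h2 := hC i z q hq
  have h3 := neg_abs_le (ℓ i)
  have h4 : |ℓ i| * q i ≤ |ℓ i| * C i := mul_le_mul_of_nonneg_left h2 (abs_nonneg _)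
  have h5 : -|ℓ i| * q i ≤ ℓ i * q i := mul_le_mul_of_nonneg_right h3 h1
  linarith

theorem val_le [Fintype ι] (ℓ : ι → ℝ) {z : ℝ × ℝ} {q : ι → ℝ} (h : LamT A s D z q) :
    val A s D ℓ z ≤ ∑ i, ℓ i * q i :=
  csInf_le (val_bdd A s D ℓ z) ⟨q, h, rfl⟩

private theorem val_nonempty [Fintype ι] (ℓ : ι → ℝ) {z : ℝ × ℝ} (hz : z ∈ Om s) :
    {x : ℝ | ∃ q, LamT A s D z q ∧ x = ∑ i, ℓ i * q i}.Nonempty := by
  obtain ⟨q, hq⟩ := lt_exists A s D (interior_subset hz)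
  exact ⟨_, q, hq, rfl⟩

theorem le_val [Fintype ι] (ℓ : ι → ℝ) {z : ℝ × ℝ} (hz : z ∈ Om s) {c : ℝ}
    (h : ∀ q, LamT A s D z q → c ≤ ∑ i, ℓ i * q i) : c ≤ val A s D ℓ z := by
  apply le_csInf (val_nonempty A s D ℓ hz)
  rintro _ ⟨q, hq, rfl⟩
  exact h q hq

theorem val_semi [Fintype ι] (ℓ : ι → ℝ) : Semi A D (fun i => -ℓ i) (val A s D ℓ) (Om s) := by
  intro z hz z' hz' θ t0 t1 ξ hξ
  have t2 : 0 < 1 - θ := by linarith
  apply le_of_forall_pos_le_add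
  intro η hη
  obtain ⟨_, ⟨q, hq, rfl⟩, h1⟩ := exists_lt_of_csInf_lt (val_nonempty A s D ℓ hz)
    (show val A s D ℓ z < val A s D ℓ z + η by linarith)
  obtain ⟨_, ⟨q', hq', rfl⟩, h2⟩ := exists_lt_of_csInf_lt (val_nonempty A s D ℓ hz')
    (show val A s D ℓ z' < val A s D ℓ z' + η by linarith)
  have h3 := val_le A s D ℓ (LamT.layer z z' q q' θ ξ hq hq' t0 t1 hξ)
  have h4 : ∑ i, ℓ i * (θ * q i + (1 - θ) * q' i + θ * (1 - θ) * A.NN ξ (D i (z - z'))) =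
      θ * ∑ i, ℓ i * q i + (1 - θ) * ∑ i, ℓ i * q' i -
        θ * (1 - θ) * ∑ i, -ℓ i * A.NN ξ (D i (z - z')) := by
    rw [Finset.mul_sum, Finset.mul_sum, Finset.mul_sum, ← Finset.sum_add_distrib,
      ← Finset.sum_sub_distrib]
    apply Finset.sum_congr rfl
    intro i _
    ring
  rw [h4] at h3
  have h5 := mul_le_mul_of_nonneg_left h1.le t0.le
  have h6 := mul_le_mul_of_nonneg_left h2.le t2.le
  linarith

theorem val_near [Fintype ι] {z0 : ℝ × ℝ} (hz0 : z0 ∈ Om s) :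
    ∃ C : ℝ, 0 ≤ C ∧ ∀ κ : ℝ, 0 < κ → κ < 1 → ∀ (ℓ : ι → ℝ) (j : Fin k),
      val A s D ℓ ((1 - κ) • s j + κ • z0) ≤ κ * C * ∑ i, |ℓ i| := by
  obtain ⟨C, hC, h⟩ := lt_near A s D hz0
  refine ⟨C, hC, fun κ h0 h1 ℓ j => ?_⟩
  obtain ⟨q, hq, hq2⟩ := h κ h0 h1 j
  refine (val_le A s D ℓ hq).trans ?_
  rw [Finset.mul_sum]
  apply Finset.sum_le_sum
  intro i _
  calc ℓ i * q i ≤ |ℓ i * q i| := le_abs_self _
    _ = |ℓ i| * |q i| := abs_mul _ _
    _ ≤ |ℓ i| * (κ * C) := mul_le_mul_of_nonneg_left (hq2 i) (abs_nonneg _)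
    _ = κ * C * |ℓ i| := by ring

end Pool.Agent.Lib.MP_2a9317_an.TP
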