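import Pool.Agent.Lib.MP_2a9317_an.TP.Hp
import Pool.Agent.Lib.MP_2a9317_an.TP.Lt

set_option autoImplicit false

/-!
# TP-Cor: composites are approximated by laminates (states in the plane)

Let `G i = gain (D i s_χ) ≥ 0`, `m = mean s_χ ∈ convexHull` (mean of values in the compact convex set:
`Convex.integral_mem` on `volume.restrict cell`, a probability measure: `volume_cell`), `z0 ∈ Om s`,
`z_κ = (1 - κ) • m + κ • z0 ∈ Om s`.
Claim: for small `κ` there is `q` with `LamT A s D z_κ q` and `|q i - G i| ≤ ε` for all `i`.  Otherwise the convex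
set `T = {q | LamT A s D z_κ q}` (`lt_convex`) is disjoint from the open ball `B` of radius `ε` about `G` in
`ι → ℝ` (sup norm); `geometric_hahn_banach_open` gives a continuous linear `f` and `u` with `f < u` on `B`,
`u ≤ f` on `T`.  Write `f q = ∑ ℓ i q i` (`ℓ i = f (Pi.single i 1)`), `S = ∑ |ℓ i| > 0` (else `f = 0`, impossible
since `B`, `T` are nonempty).  Testing with `G + ε' sign ℓ`, `ε' < ε`: `f G + ε' S ≤ u`, so `f G + ε S ≤ u`.
`le_val`: `f G + ε S ≤ val ℓ z_κ`.  `Hp` with `cc = -ℓ`, `v = val ℓ` (`val_semi`):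
`val ℓ z_κ - (1 - κ)² f G ≤ ⟨val ℓ (s'_χ)⟩ ≤ κ C S` (`val_near`; the right side is the average of a function
of the phase, `avg_mono'`, `BM.phase`).  So `ε S ≤ κ C S + |1 - (1 - κ)²| |f G| ≤ κ C S + 2 κ S max G`,
a contradiction if `κ (C + 2 max G) < ε`.  Finally `‖z_κ - m‖ ≤ κ ‖z0 - m‖ ≤ ε` for small `κ`.
-/

namespace Pool.Agent.Lib.MP_2a9317_an.TP

open MeasureTheory Matrix Filter Topology Pool.Agent.Lib.MP_2a9317_an.N1
open scoped ContDiff

private theorem cor_mean {k : ℕ} (s : Fin k → ℝ × ℝ) {χ : ℝ × ℝ → Fin k} (hχ : IsPartition χ) :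
    mean (fun p => s (χ p)) ∈ convexHull ℝ (Set.range s) := by
  have hb := BV_phase s hχ
  have hp : IsProbabilityMeasure (volume.restrict cell : Measure (ℝ × ℝ)) := by
    refine ⟨?_⟩
    rw [Measure.restrict_apply_univ, volume_cell]
  have h1 : Integrable (fun p => (s (χ p)).1) (volume.restrict cell) := hb.1.integrableOn
  have h2 : Integrable (fun p => (s (χ p)).2) (volume.restrict cell) := hb.2.integrableOn
  have h3 : mean (fun p => s (χ p)) = ∫ p in cell, s (χ p) := by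
    have := integral_pair h1 h2
    unfold mean
    rw [avg_eq, avg_eq, ← this]
  rw [h3]
  refine Convex.integral_mem (convex_convexHull ℝ _) ?_ ?_ (h1.prodMk h2)
  · exact ((Set.finite_range s).isCompact_convexHull (𝕜 := ℝ)).isClosed
  · exact Filter.Eventually.of_forall fun p => subset_convexHull ℝ _ ⟨χ p, rfl⟩

private theorem cor_lin {ι : Type} [Fintype ι] (f : StrongDual ℝ (ι → ℝ)) :
    ∃ ℓ : ι → ℝ, ∀ q, f q = ∑ i, ℓ i * q i := by
  classical
  refine ⟨fun i => f (Pi.single i 1), fun q => ?_⟩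
  have h := LinearMap.pi_apply_eq_sum_univ (f : (ι → ℝ) →ₗ[ℝ] ℝ) q
  have h2 : f q = ∑ i, q i • f (fun j => if i = j then 1 else 0) := h
  rw [h2]
  refine Finset.sum_congr rfl fun i _ => ?_
  rw [smul_eq_mul, mul_comm]
  congr 2
  funext j
  rw [Pi.single_apply]
  simp only [eq_comm]

theorem core (A : Mod) {ι : Type} [Fintype ι] (D : ι → (ℝ × ℝ) →ₗ[ℝ] (ℝ × ℝ))
    {k : ℕ} (s : Fin k → ℝ × ℝ) (hs : (Om s).Nonempty) {χ : ℝ × ℝ → Fin k}
    (hχ : IsPartition χ) {ε : ℝ} (hε : 0 < ε) :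
    ∃ (z : ℝ × ℝ) (q : ι → ℝ), LamT A s D z q ∧ ‖z - mean (fun p => s (χ p))‖ ≤ ε ∧
      ∀ i, |q i - A.gain (fun p => D i (s (χ p)))| ≤ ε := by
  classical
  obtain ⟨z0, hz0⟩ := hs
  obtain ⟨m, hm⟩ : ∃ m, m = mean (fun p => s (χ p)) := ⟨_, rfl⟩
  obtain ⟨G, hG⟩ : ∃ G : ι → ℝ, ∀ i, G i = A.gain (fun p => D i (s (χ p))) := ⟨_, fun _ => rfl⟩
  have hG0 : ∀ i, 0 ≤ G i := fun i => by
    rw [hG]
    exact gain_nonneg A (BV_phase (fun j => D i (s j)) hχ)
  have hmem : m ∈ convexHull ℝ (Set.range s) := by rw [hm]; exact cor_mean s hχ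
  obtain ⟨C, hC, hnear⟩ := val_near A s D hz0
  obtain ⟨Gs, hGs⟩ : ∃ Gs, Gs = ∑ i, G i := ⟨_, rfl⟩
  have hGs0 : 0 ≤ Gs := by rw [hGs]; exact Finset.sum_nonneg fun i _ => hG0 i
  have hN0 : 0 ≤ ‖z0 - m‖ := norm_nonneg _
  obtain ⟨κ, hκ0, hκ1, hκ2⟩ : ∃ κ : ℝ, 0 < κ ∧ κ < 1 ∧ κ * (C + 2 * Gs + ‖z0 - m‖ + 1) < ε := by
    have hd : 0 < C + 2 * Gs + ‖z0 - m‖ + 1 := by positivity
    refine ⟨min (1 / 2) (ε / (2 * (C + 2 * Gs + ‖z0 - m‖ + 1))), by positivity,
      lt_of_le_of_lt (min_le_left _ _) (by norm_num), ?_⟩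
    refine lt_of_le_of_lt (mul_le_mul_of_nonneg_right (min_le_right _ _) hd.le) ?_
    rw [div_mul_eq_mul_div, div_lt_iff₀ (by positivity)]
    nlinarith [mul_pos hε hd]
  have hκN : κ * ‖z0 - m‖ < ε := by nlinarith [mul_nonneg hκ0.le hC, mul_nonneg hκ0.le hGs0]
  have hκC : κ * (C + 2 * Gs) < ε := by nlinarith [mul_nonneg hκ0.le hN0]
  have ht0 : 0 ≤ κ * (C + 2 * Gs) := by positivity
  obtain ⟨zk, hzk⟩ : ∃ zk, zk = (1 - κ) • m + κ • z0 := ⟨_, rfl⟩
  have hzO : zk ∈ Om s := by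
    rw [hzk]
    exact (convex_convexHull ℝ (Set.range s)).combo_self_interior_mem_interior hmem hz0
      (by linarith) hκ0 (by ring)
  have hnorm : ‖zk - m‖ ≤ ε := by
    have e : zk - m = κ • (z0 - m) := by
      rw [hzk, sub_smul, one_smul, smul_sub]
      abel
    rw [e, norm_smul, Real.norm_of_nonneg hκ0.le]
    exact hκN.le
  by_contra hcon
  push Not at hcon
  have hdisj : Disjoint (Metric.ball G ε) {q : ι → ℝ | LamT A s D zk q} := by
    rw [Set.disjoint_left]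
    intro q hq hT
    obtain ⟨i, hi⟩ := hcon zk q hT (by rw [← hm]; exact hnorm)
    rw [← hG] at hi
    rw [Metric.mem_ball] at hq
    have := dist_le_pi_dist q G i
    rw [Real.dist_eq] at this
    linarith
  obtain ⟨f, u, hfB, hfT⟩ := geometric_hahn_banach_open (convex_ball G ε) Metric.isOpen_ball
    (lt_convex A s D zk) hdisj
  obtain ⟨ℓ, hℓ⟩ := cor_lin f
  have hval : u ≤ val A s D ℓ zk := by
    refine le_val A s D ℓ hzO fun q hq => ?_
    rw [← hℓ]
    exact hfT q hq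
  obtain ⟨S, hS⟩ : ∃ S, S = ∑ i, |ℓ i| := ⟨_, rfl⟩
  have hS0 : 0 ≤ S := by rw [hS]; exact Finset.sum_nonneg fun _ _ => abs_nonneg _
  obtain ⟨t, ht⟩ : ∃ t, t = κ * (C + 2 * Gs) := ⟨_, rfl⟩
  rw [← ht] at hκC ht0
  have h1 : f G + t * S < u := by
    have hmb : (fun i => G i + t * (SignType.sign (ℓ i) : ℝ)) ∈ Metric.ball G ε := by
      rw [Metric.mem_ball]
      refine lt_of_le_of_lt ((dist_pi_le_iff ht0).2 fun i => ?_) hκC
      rw [Real.dist_eq, add_sub_cancel_left, abs_mul, abs_of_nonneg ht0]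
      refine mul_le_of_le_one_right ht0 ?_
      rcases lt_trichotomy (ℓ i) 0 with h | h | h
      · rw [sign_neg h]; simp
      · rw [h]; simp
      · rw [sign_pos h]; simp
    have h2 := hfB _ hmb
    have h3 : f (fun i => G i + t * (SignType.sign (ℓ i) : ℝ)) = f G + t * S := by
      rw [hℓ, hℓ, hS, Finset.mul_sum, ← Finset.sum_add_distrib]
      refine Finset.sum_congr rfl fun i _ => ?_
      rw [← self_mul_sign (ℓ i)]
      ring
    rwa [h3] at h2
  have h4 := Hp A D (fun i => -ℓ i) s hz0 (val_semi A s D ℓ) hχ hκ0 hκ1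
  rw [← hm, ← hzk] at h4
  have h5 : avg (fun p => val A s D ℓ ((1 - κ) • s (χ p) + κ • z0)) ≤ κ * C * S := by
    rw [← avg_const (κ * C * S)]
    refine avg_mono' (BM.phase (fun j => val A s D ℓ ((1 - κ) • s j + κ • z0)) hχ.1) (BM.const _) ?_
    intro p
    rw [hS]
    exact hnear κ hκ0 hκ1 ℓ (χ p)
  have h6 : ∑ i, -ℓ i * A.gain (fun p => D i (s (χ p))) = -f G := by
    rw [hℓ, ← Finset.sum_neg_distrib]
    refine Finset.sum_congr rfl fun i _ => ?_
    rw [hG]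
    ring
  rw [h6] at h4
  have h7 : |f G| ≤ S * Gs := by
    rw [hℓ, hS, hGs, Finset.sum_mul]
    refine le_trans (Finset.abs_sum_le_sum_abs _ _) (Finset.sum_le_sum fun i _ => ?_)
    rw [abs_mul, abs_of_nonneg (hG0 i)]
    exact mul_le_mul_of_nonneg_left
      (Finset.single_le_sum (f := fun i => G i) (fun i _ => hG0 i) (Finset.mem_univ i)) (abs_nonneg _)
  have h8 := (abs_le.1 h7).1
  have h9 : -(2 * κ - κ ^ 2) * f G ≤ 2 * κ * (S * Gs) := by
    have e0 : 0 ≤ 2 * κ - κ ^ 2 := by nlinarith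
    have e1 : (2 * κ - κ ^ 2) * (-f G) ≤ (2 * κ - κ ^ 2) * (S * Gs) :=
      mul_le_mul_of_nonneg_left (by linarith) e0
    have e2 : (2 * κ - κ ^ 2) * (S * Gs) ≤ 2 * κ * (S * Gs) :=
      mul_le_mul_of_nonneg_right (by nlinarith) (mul_nonneg hS0 hGs0)
    linarith
  have h10 : t * S = κ * C * S + 2 * κ * (S * Gs) := by rw [ht]; ring
  nlinarith

end Pool.Agent.Lib.MP_2a9317_an.TP
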