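import Pool.Agent.Lib.MP_2a9317_an.N1.Bm
import Pool.Agent.Lib.MP_2a9317_an.N1.F1
import Pool.Agent.Lib.MP_2a9317_an.N1.F2

set_option autoImplicit false

/-!
# Board TP (MP_2a9317_an: three phases with equal moduli never separate): definitions

States are points of the plane `ℝ × ℝ`; phase `j` has the state `s j`.  A composite `χ` gives the
state field `G p = s (χ p)`; more generally `G : ℝ × ℝ → ℝ × ℝ` is a bounded measurable field.
-/

namespace Pool.Agent.Lib.MP_2a9317_an.TP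

open MeasureTheory Matrix Filter Topology Pool.Agent.Lib.MP_2a9317_an.N1
open scoped ContDiff

/-- a positive definite quadratic form `a x² + 2 b x y + c y²` -/
structure Mod where
  a : ℝ
  b : ℝ
  c : ℝ
  ha : 0 < a
  hd : 0 < a * c - b ^ 2

namespace Mod

/-- the quadratic form -/
def q (A : Mod) (ξ : ℝ × ℝ) : ℝ := A.a * ξ.1 ^ 2 + 2 * A.b * ξ.1 * ξ.2 + A.c * ξ.2 ^ 2

/-- the gain of a simple layering: `(ξ · δ)² / (ξ · A ξ)` -/
noncomputable def NN (A : Mod) (ξ δ : ℝ × ℝ) : ℝ := (ξ.1 * δ.1 + ξ.2 * δ.2) ^ 2 / A.q ξ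

/-- a lower bound of the form: `lo * |ξ|² ≤ q ξ` -/
noncomputable def lo (A : Mod) : ℝ := (A.a * A.c - A.b ^ 2) / (A.a + A.c)

/-- `⟨- 2 G · ∇u - ∇u · A ∇u⟩` -/
noncomputable def J (A : Mod) (G : ℝ × ℝ → ℝ × ℝ) (u : ℝ × ℝ → ℝ) : ℝ :=
  avg fun p => -2 * ((G p).1 * dX u p + (G p).2 * dY u p) - A.q (dX u p, dY u p)

/-- the gain of the field `G`: `sup_u ⟨- 2 G · ∇u - ∇u · A ∇u⟩` -/
noncomputable def gain (A : Mod) (G : ℝ × ℝ → ℝ × ℝ) : ℝ :=
  ⨆ u : {u : ℝ × ℝ → ℝ // IsPot u}, A.J G u.1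

end Mod

/-- bounded measurable fields -/
def BV (G : ℝ × ℝ → ℝ × ℝ) : Prop := BM (fun p => (G p).1) ∧ BM (fun p => (G p).2)

/-- the mean of a field -/
noncomputable def mean (G : ℝ × ℝ → ℝ × ℝ) : ℝ × ℝ := (avg fun p => (G p).1, avg fun p => (G p).2)

/-- the mean square of a field -/
noncomputable def msq (G : ℝ × ℝ → ℝ × ℝ) : ℝ := avg fun p => (G p).1 ^ 2 + (G p).2 ^ 2

/-- Laminates of the states `s j`: barycentre `z` and the gains `q i` for the linear maps `D i`. -/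
inductive LamT (A : Mod) {k : ℕ} {ι : Type} (s : Fin k → ℝ × ℝ)
    (D : ι → (ℝ × ℝ) →ₗ[ℝ] (ℝ × ℝ)) : ℝ × ℝ → (ι → ℝ) → Prop
  | phase (j : Fin k) : LamT A s D (s j) (fun _ => 0)
  | layer (z z' : ℝ × ℝ) (q q' : ι → ℝ) (θ : ℝ) (ξ : ℝ × ℝ) : LamT A s D z q →
      LamT A s D z' q' → 0 < θ → θ < 1 → ξ ≠ 0 →
      LamT A s D (θ • z + (1 - θ) • z')
        (fun i => θ * q i + (1 - θ) * q' i + θ * (1 - θ) * A.NN ξ (D i (z - z')))

/-! ### trigonometric polynomials and the heat flow -/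

/-- real trigonometric polynomial with the frequencies `Q` -/
noncomputable def tp (Q : Finset (ℤ × ℤ)) (α β : ℤ × ℤ → ℝ) (p : ℝ × ℝ) : ℝ :=
  ∑ q ∈ Q, (α q * Real.cos (ph q.1 q.2 p) + β q * Real.sin (ph q.1 q.2 p))

/-- decay rate of the frequency `q` -/
noncomputable def Mod.lam (A : Mod) (q : ℤ × ℤ) : ℝ := 4 * Real.pi ^ 2 * A.q ((q.1 : ℝ), (q.2 : ℝ))

/-- coefficients at time `t` -/
noncomputable def Mod.hf (A : Mod) (α : ℤ × ℤ → ℝ) (t : ℝ) (q : ℤ × ℤ) : ℝ :=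
  Real.exp (-(A.lam q * t)) * α q

/-- the second derivative of `w` at `z` in the direction `ζ` -/
noncomputable def hess (w : ℝ × ℝ → ℝ) (z ζ : ℝ × ℝ) : ℝ :=
  dX (dX w) z * ζ.1 ^ 2 + 2 * dX (dY w) z * ζ.1 * ζ.2 + dY (dY w) z * ζ.2 ^ 2

/-- `∇ · (A ∇ u)` -/
noncomputable def Mod.lap (A : Mod) (u : ℝ × ℝ → ℝ) (p : ℝ × ℝ) : ℝ :=
  A.a * dX (dX u) p + 2 * A.b * dX (dY u) p + A.c * dY (dY u) p

/-- the interior of the convex hull of the states -/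
def Om {k : ℕ} (s : Fin k → ℝ × ℝ) : Set (ℝ × ℝ) := interior (convexHull ℝ (Set.range s))

end Pool.Agent.Lib.MP_2a9317_an.TP
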