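import Pool.Agent.Lib.MP_2a9317_an.TP.Q0
import Pool.Agent.Lib.MP_2a9317_an.TP.By

set_option autoImplicit false

/-!
# TP-G0: the gain of a field

`A.gain G = sup_u A.J G u`, `A.J G u = ⟨-2 G·∇u - q(∇u)⟩`.
* `J_le`: pointwise `fen`, then `avg_mono'` (`BM` of the integrand: `bm_dX`, `bm_dY`, `BM.mul`, ...;
  unfold `Mod.q`), `avg (g² + h²) / lo`.  So the range is bounded above: `le_ciSup`, `ciSup_le`
  (the constant `0` is a potential: `IsPot.const 0`, nonempty), `exists_lt_of_lt_ciSup`.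
* `gain_nonneg`: `u = 0` gives `J = 0`.
* `gain_add_const`: `avg (dX u) = 0 = avg (dY u)`, so `J (G + v) u = J G u`.
* `gain_smul`: `κ = 0`: `J 0 u = ⟨-q⟩ ≤ 0` and `gain ≥ 0`.  `κ ≠ 0`: `J (κ G) (κ u) = κ² J G u`
  (`dX_smul`); `u ↦ κ u` is a bijection of the potentials; two inequalities suffice, the second from
  the first with `κ⁻¹`.
* `gain_scale` (`τ > 0`): `⟨-2 G·∇u - τ q(∇u)⟩ = (1/τ) J G (τ u) ≤ (1/τ) gain G`.
* `gain_add_le`: `-2 (G + H)·∇u - q = (-2 G·∇u - q/(1+t)) + (-2 H·∇u - q t/(1+t))`, `gain_scale` with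
  `τ = 1/(1+t)` and `τ = t/(1+t)`: `≤ (1+t) gain G + ((1+t)/t) gain H`.
* `gain_cont`: with `m = msq (H - G)`: `gain H ≤ (1+t) gain G + (1+1/t) m/lo` and
  `gain G ≤ (1+t) gain H + (1+1/t) m/lo`; choose `t` small, then `δ` small (`gain H ≤ 2 gain G + 2 m/lo`
  bounds `gain H`).
* `gain_smooth`: if `∇·(A∇u) = -∇·(g,h)` then for every `v`: `⟨(g,h)·∇v⟩ = -⟨v ∇·(g,h)⟩ = ⟨v ∇·A∇u⟩
  = -⟨∇v·A∇u⟩` (`avg_div`, `avg_lap`), so `J v = ⟨2 ∇v·A∇u - q(∇v)⟩ = ⟨q(∇u)⟩ - ⟨q(∇u - ∇v)⟩ ≤ ⟨q(∇u)⟩`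
  with equality for `v = u`.
-/

namespace Pool.Agent.Lib.MP_2a9317_an.TP

open MeasureTheory Matrix Filter Topology Pool.Agent.Lib.MP_2a9317_an.N1
open scoped ContDiff

variable {G H : ℝ × ℝ → ℝ × ℝ}

private lemma G0_bmq (A : Mod) {f g : ℝ × ℝ → ℝ} (hf : BM f) (hg : BM g) :
    BM (fun p => A.q (f p, g p)) := by
  unfold Mod.q
  exact ((hf.sq.const_mul A.a).add (((hf.const_mul (2 * A.b))).mul hg)).add (hg.sq.const_mul A.c)

private lemma G0_bmd (hG : BV G) {u : ℝ × ℝ → ℝ} (hu : IsPot u) :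
    BM (fun p => (G p).1 * dX u p + (G p).2 * dY u p) :=
  (hG.1.mul (bm_dX hu)).add (hG.2.mul (bm_dY hu))

private lemma G0_bmJ (A : Mod) (hG : BV G) {u : ℝ × ℝ → ℝ} (hu : IsPot u) (τ : ℝ) :
    BM (fun p => -2 * ((G p).1 * dX u p + (G p).2 * dY u p) - τ * A.q (dX u p, dY u p)) :=
  ((G0_bmd hG hu).const_mul (-2)).sub ((G0_bmq A (bm_dX hu) (bm_dY hu)).const_mul τ)

private lemma G0_bmJ' (A : Mod) (hG : BV G) {u : ℝ × ℝ → ℝ} (hu : IsPot u) :
    BM (fun p => -2 * ((G p).1 * dX u p + (G p).2 * dY u p) - A.q (dX u p, dY u p)) :=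
  ((G0_bmd hG hu).const_mul (-2)).sub (G0_bmq A (bm_dX hu) (bm_dY hu))

private lemma G0_bmsq (hG : BV G) : BM (fun p => (G p).1 ^ 2 + (G p).2 ^ 2) :=
  hG.1.sq.add hG.2.sq

private instance G0_ne : Nonempty {u : ℝ × ℝ → ℝ // IsPot u} := ⟨⟨_, IsPot.const 0⟩⟩

theorem J_le (A : Mod) (hG : BV G) {u : ℝ × ℝ → ℝ} (hu : IsPot u) :
    A.J G u ≤ msq G / A.lo := by
  have h1 : A.J G u ≤ avg (fun p => ((G p).1 ^ 2 + (G p).2 ^ 2) * A.lo⁻¹) := by
    refine avg_mono' (G0_bmJ' A hG hu) ((G0_bmsq hG).mul_const _) fun p => ?_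
    rw [← div_eq_mul_inv]
    exact fen A _ _ _ _
  rw [avg_mul_const', ← div_eq_mul_inv] at h1
  exact h1

private lemma G0_bdd (A : Mod) (hG : BV G) :
    BddAbove (Set.range fun u : {u : ℝ × ℝ → ℝ // IsPot u} => A.J G u.1) := by
  refine ⟨msq G / A.lo, ?_⟩
  rintro _ ⟨u, rfl⟩
  exact J_le A hG u.2

theorem J_le_gain (A : Mod) (hG : BV G) {u : ℝ × ℝ → ℝ} (hu : IsPot u) :
    A.J G u ≤ A.gain G :=
  le_ciSup (f := fun u : {u : ℝ × ℝ → ℝ // IsPot u} => A.J G u.1) (G0_bdd A hG) ⟨u, hu⟩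

theorem gain_le_of (A : Mod) {c : ℝ} (h : ∀ u, IsPot u → A.J G u ≤ c) : A.gain G ≤ c :=
  ciSup_le fun u => h u.1 u.2

theorem exists_J (A : Mod) (hG : BV G) {ε : ℝ} (hε : 0 < ε) :
    ∃ u, IsPot u ∧ A.gain G - ε < A.J G u := by
  have _ := hG
  obtain ⟨u, hu⟩ := exists_lt_of_lt_ciSup (f := fun u : {u : ℝ × ℝ → ℝ // IsPot u} => A.J G u.1)
    (show A.gain G - ε < ⨆ u : {u : ℝ × ℝ → ℝ // IsPot u}, A.J G u.1 from by
      have : A.gain G - ε < A.gain G := by linarith
      exact this)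
  exact ⟨u.1, u.2, hu⟩

theorem gain_nonneg (A : Mod) (hG : BV G) : 0 ≤ A.gain G := by
  have h1 := J_le_gain A hG (IsPot.const 0)
  have h2 : A.J G (fun _ => (0 : ℝ)) = 0 := by
    have h3 : (fun p : ℝ × ℝ => -2 * ((G p).1 * dX (fun _ => (0 : ℝ)) p +
        (G p).2 * dY (fun _ => (0 : ℝ)) p) -
        A.q (dX (fun _ => (0 : ℝ)) p, dY (fun _ => (0 : ℝ)) p)) = fun _ => 0 := by
      funext p
      rw [dX_const, dY_const]
      unfold Mod.q
      ring
    unfold Mod.J
    rw [h3, avg_const]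
  rw [h2] at h1
  exact h1

theorem gain_le (A : Mod) (hG : BV G) : A.gain G ≤ msq G / A.lo :=
  gain_le_of A fun _ hu => J_le A hG hu

theorem gain_add_const (A : Mod) (hG : BV G) (v : ℝ × ℝ) :
    A.gain (fun p => G p + v) = A.gain G := by
  have key : ∀ u, IsPot u → A.J (fun p => G p + v) u = A.J G u := by
    intro u hu
    unfold Mod.J
    have e : (fun p => -2 * ((G p + v).1 * dX u p + (G p + v).2 * dY u p) - A.q (dX u p, dY u p)) =
        fun p => (-2 * ((G p).1 * dX u p + (G p).2 * dY u p) - A.q (dX u p, dY u p)) +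
          ((-2 * v.1) * dX u p + (-2 * v.2) * dY u p) := by
      funext p
      rw [Prod.fst_add, Prod.snd_add]
      ring
    have b1 := (bm_dX hu).const_mul (-2 * v.1)
    have b2 := (bm_dY hu).const_mul (-2 * v.2)
    rw [e, avg_add' (G0_bmJ' A hG hu) (b1.add b2), avg_add' b1 b2, avg_mul', avg_mul',
      avg_dX hu, avg_dY hu]
    ring
  unfold Mod.gain
  congr 1
  funext u
  exact key u.1 u.2

private lemma G0_bv_smul (hG : BV G) (κ : ℝ) : BV (fun p => κ • G p) :=
  ⟨by simpa only [Prod.smul_fst, smul_eq_mul] using hG.1.const_mul κ,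
    by simpa only [Prod.smul_snd, smul_eq_mul] using hG.2.const_mul κ⟩

private lemma G0_bv_add (hG : BV G) (hH : BV H) : BV (fun p => G p + H p) :=
  ⟨by simpa only [Prod.fst_add] using hG.1.add hH.1,
    by simpa only [Prod.snd_add] using hG.2.add hH.2⟩

private lemma G0_bv_sub (hG : BV G) (hH : BV H) : BV (fun p => G p - H p) :=
  ⟨by simpa only [Prod.fst_sub] using hG.1.sub hH.1,
    by simpa only [Prod.snd_sub] using hG.2.sub hH.2⟩

private lemma G0_smul_le (A : Mod) (hG : BV G) {κ : ℝ} (hκ : κ ≠ 0) :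
    A.gain (fun p => κ • G p) ≤ κ ^ 2 * A.gain G := by
  refine gain_le_of A fun u hu => ?_
  have hw : IsPot (fun p => κ⁻¹ * u p) := hu.smul κ⁻¹
  have e : A.J (fun p => κ • G p) u = κ ^ 2 * A.J G (fun p => κ⁻¹ * u p) := by
    unfold Mod.J
    rw [← avg_mul']
    congr 1
    funext p
    rw [dX_smul κ⁻¹ hu, dY_smul κ⁻¹ hu, Prod.smul_fst, Prod.smul_snd, smul_eq_mul, smul_eq_mul]
    unfold Mod.q
    field_simp
  rw [e]
  exact mul_le_mul_of_nonneg_left (J_le_gain A hG hw) (sq_nonneg κ)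

theorem gain_smul (A : Mod) (hG : BV G) (κ : ℝ) :
    A.gain (fun p => κ • G p) = κ ^ 2 * A.gain G := by
  rcases eq_or_ne κ 0 with h | h
  · subst h
    refine le_antisymm ?_ ?_
    · refine gain_le_of A fun u hu => ?_
      have e : A.J (fun p => (0 : ℝ) • G p) u ≤ avg (fun _ => (0 : ℝ)) := by
        refine avg_mono' (G0_bmJ' A (G0_bv_smul hG 0) hu) (BM.const 0) fun p => ?_
        have := q_nonneg A (dX u p, dY u p)
        simp only [zero_smul, Prod.fst_zero, Prod.snd_zero, zero_mul, add_zero, mul_zero, zero_sub]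
        linarith
      rw [avg_const] at e
      linarith
    · have := gain_nonneg A (G0_bv_smul hG 0)
      linarith
  · refine le_antisymm (G0_smul_le A hG h) ?_
    have h1 := G0_smul_le A (G0_bv_smul hG κ) (inv_ne_zero h)
    have h2 : (fun p => κ⁻¹ • κ • G p) = G := by
      funext p
      rw [inv_smul_smul₀ h]
    rw [h2] at h1
    have h3 : κ ^ 2 * A.gain G ≤ κ ^ 2 * (κ⁻¹ ^ 2 * A.gain (fun p => κ • G p)) :=
      mul_le_mul_of_nonneg_left h1 (sq_nonneg κ)
    have h4 : κ ^ 2 * (κ⁻¹ ^ 2 * A.gain (fun p => κ • G p)) = A.gain (fun p => κ • G p) := by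
      rw [← mul_assoc, ← mul_pow, mul_inv_cancel₀ h, one_pow, one_mul]
    rw [h4] at h3
    exact h3

theorem gain_scale (A : Mod) (hG : BV G) {τ : ℝ} (hτ : 0 < τ) {u : ℝ × ℝ → ℝ} (hu : IsPot u) :
    avg (fun p => -2 * ((G p).1 * dX u p + (G p).2 * dY u p) - τ * A.q (dX u p, dY u p))
      ≤ A.gain G / τ := by
  have h1 := J_le_gain A hG (hu.smul τ)
  have e : A.J G (fun p => τ * u p) = τ * avg (fun p => -2 * ((G p).1 * dX u p +
      (G p).2 * dY u p) - τ * A.q (dX u p, dY u p)) := by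
    unfold Mod.J
    rw [← avg_mul']
    congr 1
    funext p
    rw [dX_smul τ hu, dY_smul τ hu]
    unfold Mod.q
    ring
  rw [e] at h1
  rw [le_div_iff₀ hτ]
  linarith

theorem gain_add_le (A : Mod) (hG : BV G) (hH : BV H) {t : ℝ} (ht : 0 < t) :
    A.gain (fun p => G p + H p) ≤ (1 + t) * A.gain G + (1 + 1 / t) * A.gain H := by
  refine gain_le_of A fun u hu => ?_
  have t1 : 0 < 1 + t := by linarith
  have h1 := gain_scale A hG (show 0 < 1 / (1 + t) by positivity) hu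
  have h2 := gain_scale A hH (show 0 < t / (1 + t) by positivity) hu
  have e : A.J (fun p => G p + H p) u =
      avg (fun p => -2 * ((G p).1 * dX u p + (G p).2 * dY u p) -
        1 / (1 + t) * A.q (dX u p, dY u p)) +
      avg (fun p => -2 * ((H p).1 * dX u p + (H p).2 * dY u p) -
        t / (1 + t) * A.q (dX u p, dY u p)) := by
    rw [← avg_add' (G0_bmJ A hG hu _) (G0_bmJ A hH hu _)]
    unfold Mod.J
    congr 1
    funext p
    rw [Prod.fst_add, Prod.snd_add]
    field_simp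
    ring
  have e1 : A.gain G / (1 / (1 + t)) = (1 + t) * A.gain G := by
    field_simp
  have e2 : A.gain H / (t / (1 + t)) = (1 + 1 / t) * A.gain H := by
    field_simp
    ring
  rw [e1] at h1
  rw [e2] at h2
  rw [e]
  linarith

theorem gain_cont (A : Mod) (hG : BV G) {ε : ℝ} (hε : 0 < ε) :
    ∃ δ : ℝ, 0 < δ ∧ ∀ H : ℝ × ℝ → ℝ × ℝ, BV H → msq (fun p => H p - G p) ≤ δ →
      |A.gain H - A.gain G| ≤ ε := by
  have hlo := lo_pos A
  have hg0 := gain_nonneg A hG
  set g := A.gain G with hgdef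
  have hd : 0 < 4 * (g + ε + 1) := by positivity
  set t : ℝ := ε / (4 * (g + ε + 1)) with htdef
  have ht : 0 < t := div_pos hε hd
  have htg : t * (g + ε + 1) = ε / 4 := by
    rw [htdef]
    field_simp
  have hc : 0 < 1 + 1 / t := by positivity
  refine ⟨A.lo * (ε / (4 * (1 + 1 / t))), by positivity, fun H hH hm => ?_⟩
  have hHG : BV (fun p => H p - G p) := G0_bv_sub hH hG
  have hGH : BV (fun p => G p - H p) := G0_bv_sub hG hH
  have m1 : (1 + 1 / t) * A.gain (fun p => H p - G p) ≤ ε / 4 := by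
    have h1 := gain_le A hHG
    have h2 : msq (fun p => H p - G p) / A.lo ≤ ε / (4 * (1 + 1 / t)) := by
      rw [div_le_iff₀ hlo]
      linarith
    have h3 := mul_le_mul_of_nonneg_left (h1.trans h2) hc.le
    have h4 : (1 + 1 / t) * (ε / (4 * (1 + 1 / t))) = ε / 4 := by
      field_simp
    rw [h4] at h3
    exact h3
  have hmm : msq (fun p => G p - H p) = msq (fun p => H p - G p) := by
    unfold msq
    congr 1
    funext p
    simp only [Prod.fst_sub, Prod.snd_sub]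
    ring
  have m2 : (1 + 1 / t) * A.gain (fun p => G p - H p) ≤ ε / 4 := by
    have h1 := gain_le A hGH
    rw [hmm] at h1
    have h2 : msq (fun p => H p - G p) / A.lo ≤ ε / (4 * (1 + 1 / t)) := by
      rw [div_le_iff₀ hlo]
      linarith
    have h3 := mul_le_mul_of_nonneg_left (h1.trans h2) hc.le
    have h4 : (1 + 1 / t) * (ε / (4 * (1 + 1 / t))) = ε / 4 := by
      field_simp
    rw [h4] at h3
    exact h3
  have u1 := gain_add_le A hG hHG ht
  have e1 : (fun p => G p + (H p - G p)) = H := by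
    funext p
    abel
  rw [e1] at u1
  have u2 := gain_add_le A hH hGH ht
  have e2 : (fun p => H p + (G p - H p)) = G := by
    funext p
    abel
  rw [e2] at u2
  have hh0 := gain_nonneg A hH
  rw [← hgdef] at u1 u2
  have k1 : t * g ≤ ε / 4 := by
    have : t * g ≤ t * (g + ε + 1) := mul_le_mul_of_nonneg_left (by linarith) ht.le
    linarith
  have k2 : A.gain H ≤ g + ε / 2 := by linarith
  have k3 : t * A.gain H ≤ ε / 4 := by
    have : t * A.gain H ≤ t * (g + ε + 1) := mul_le_mul_of_nonneg_left (by linarith) ht.le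
    linarith
  rw [abs_le]
  constructor <;> linarith

private lemma G0_bmpot {u : ℝ × ℝ → ℝ} (hu : IsPot u) : BM u := bm_of_continuous hu.continuous hu.2

theorem gain_smooth (A : Mod) {u g h : ℝ × ℝ → ℝ} (hu : IsPot u) (hg : IsPot g) (hh : IsPot h)
    (h0 : ∀ p, A.lap u p = -(dX g p + dY h p)) :
    A.gain (fun p => (g p, h p)) = avg (fun p => A.q (dX u p, dY u p)) := by
  have hBV : BV (fun p => (g p, h p)) := ⟨G0_bmpot hg, G0_bmpot hh⟩
  have key : ∀ v, IsPot v → avg (fun p => g p * dX v p + h p * dY v p) =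
      - avg (fun p => A.a * dX v p * dX u p + A.b * (dX v p * dY u p + dY v p * dX u p)
        + A.c * dY v p * dY u p) := by
    intro v hv
    have h1 := avg_div hv hg hh
    have h2 := avg_lap A hv hu
    have e1 : (fun p => v p * A.lap u p) = fun p => -(v p * (dX g p + dY h p)) := by
      funext p
      rw [h0 p]
      ring
    rw [e1, avg_neg', h1, neg_neg] at h2
    rw [← h2]
    congr 1
    funext p
    ring
  have bB : ∀ v, IsPot v → BM (fun p => A.a * dX v p * dX u p + A.b * (dX v p * dY u p +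
      dY v p * dX u p) + A.c * dY v p * dY u p) := by
    intro v hv
    have x1 := bm_dX hv
    have y1 := bm_dY hv
    have x2 := bm_dX hu
    have y2 := bm_dY hu
    exact (((x1.const_mul A.a).mul x2).add (((x1.mul y2).add (y1.mul x2)).const_mul A.b)).add
      ((y1.const_mul A.c).mul y2)
  have hJ : ∀ v, IsPot v → A.J (fun p => (g p, h p)) v =
      avg (fun p => 2 * (A.a * dX v p * dX u p + A.b * (dX v p * dY u p +
        dY v p * dX u p) + A.c * dY v p * dY u p) - A.q (dX v p, dY v p)) := by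
    intro v hv
    have b1 : BM (fun p => g p * dX v p + h p * dY v p) :=
      ((G0_bmpot hg).mul (bm_dX hv)).add ((G0_bmpot hh).mul (bm_dY hv))
    have b2 := G0_bmq A (bm_dX hv) (bm_dY hv)
    unfold Mod.J
    rw [avg_sub' ((bB v hv).const_mul 2) b2, avg_mul']
    have e : (fun p => -2 * ((g p, h p).1 * dX v p + (g p, h p).2 * dY v p) -
        A.q (dX v p, dY v p)) = fun p => (-2) * (g p * dX v p + h p * dY v p) -
        A.q (dX v p, dY v p) := rfl
    rw [e, avg_sub' (b1.const_mul (-2)) b2, avg_mul', key v hv]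
    ring
  refine le_antisymm ?_ ?_
  · refine gain_le_of A fun v hv => ?_
    rw [hJ v hv]
    refine avg_mono' (((bB v hv).const_mul 2).sub (G0_bmq A (bm_dX hv) (bm_dY hv)))
      (G0_bmq A (bm_dX hu) (bm_dY hu)) fun p => ?_
    have h1 := q_nonneg A (dX u p - dX v p, dY u p - dY v p)
    unfold Mod.q at h1 ⊢
    simp only at h1 ⊢
    linarith
  · have h1 := J_le_gain A hBV hu
    rw [hJ u hu] at h1
    have e : (fun p => 2 * (A.a * dX u p * dX u p + A.b * (dX u p * dY u p +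
        dY u p * dX u p) + A.c * dY u p * dY u p) - A.q (dX u p, dY u p)) =
        fun p => A.q (dX u p, dY u p) := by
      funext p
      unfold Mod.q
      simp only
      ring
    rw [e] at h1
    exact h1

end Pool.Agent.Lib.MP_2a9317_an.TP
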