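import Pool.Agent.Lib.MP_2a9317_an.TP.Defs

set_option autoImplicit false

/-!
# TP-Par: differentiation of an average with respect to a parameter

`hasDerivAt_integral_of_dominated_loc_of_deriv_le` on `volume.restrict cell` (`avg_eq`, `cell` compact of
measure one): the derivative `t ↦ fderiv ℝ F (t, p) (1, 0)` of `t ↦ F (t, p)` is continuous in `(t, p)`
(`hF.continuous_fderiv`), hence bounded on the compact set `Icc (t - 1) (t + 1) ×ˢ cell`; all functions
are continuous, hence measurable.  (`(1, 0)` is `(1, (0, 0)) : ℝ × (ℝ × ℝ)`.)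
-/

namespace Pool.Agent.Lib.MP_2a9317_an.TP

open MeasureTheory Matrix Filter Topology Pool.Agent.Lib.MP_2a9317_an.N1
open scoped ContDiff

theorem hasDerivAt_avg {F F' : ℝ × (ℝ × ℝ) → ℝ} (hF : Continuous F) (hF' : Continuous F')
    (hd : ∀ (t : ℝ) (p : ℝ × ℝ), HasDerivAt (fun t => F (t, p)) (F' (t, p)) t) (t : ℝ) :
    HasDerivAt (fun t => avg fun p => F (t, p)) (avg fun p => F' (t, p)) t := by
  have hcomp : IsCompact (Set.Icc (t - 1) (t + 1) ×ˢ cell) := isCompact_Icc.prod isCompact_cell
  obtain ⟨C, hC⟩ := hcomp.exists_bound_of_continuousOn hF'.continuousOn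
  have hsec : ∀ r : ℝ, Continuous fun p : ℝ × ℝ => (r, p) := fun r =>
    continuous_const.prodMk continuous_id
  have hfin : volume cell < ⊤ := by rw [volume_cell]; exact ENNReal.one_lt_top
  have key := hasDerivAt_integral_of_dominated_loc_of_deriv_le
    (μ := volume.restrict cell) (F := fun r p => F (r, p)) (F' := fun r p => F' (r, p))
    (x₀ := t) (bound := fun _ => C) (s := Set.Icc (t - 1) (t + 1))
    (Icc_mem_nhds (by linarith) (by linarith))
    (Filter.Eventually.of_forall fun r => (hF.comp (hsec r)).aestronglyMeasurable)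
    ((hF.comp (hsec t)).continuousOn.integrableOn_compact isCompact_cell)
    ((hF'.comp (hsec t)).aestronglyMeasurable)
    (by
      rw [ae_restrict_iff' measurableSet_cell]
      refine Filter.Eventually.of_forall fun p hp r hr => ?_
      exact hC (r, p) ⟨hr, hp⟩)
    (by
      rw [integrable_const_iff]
      right
      constructor
      rw [Measure.restrict_apply_univ]
      exact hfin)
    (Filter.Eventually.of_forall fun p r _ => hd r p)
  exact key.2

end Pool.Agent.Lib.MP_2a9317_an.TP
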