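import Pool.Agent.Lib.MP_2a9317_an.TP.Trig
import Pool.Agent.Lib.MP_2a9317_an.TP.G0
import Pool.Agent.Lib.MP_2a9317_an.TP.Par

set_option autoImplicit false

/-!
# TP-Dg: the derivative of the gain along the heat flow

Let `μ q = 2π (q.1 β q + q.2 β' q) / A.lam q`, `ν q = -(2π (q.1 α q + q.2 α' q)) / A.lam q` and
`u t = tp Q (A.hf μ t) (A.hf ν t)`.  `tp_div` applied to the coefficients at time `t` (note that
`A.hf μ t q` is the same expression with `A.hf α t`, ...) gives `A.lap (u t) = -(dX (f t) + dY (h t))`,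
`f t = tp Q (A.hf α t) (A.hf β t)`, `h t = tp Q (A.hf α' t) (A.hf β' t)`, so `gain_smooth` gives
`A.gain (f t, h t) = avg (A.q (dX (u t), dY (u t)))`.
Derivative: `hasDerivAt_avg` for `F (t, p) = A.q (dX (u t) p, dY (u t) p)` (by `dX_tp`, `dY_tp` the
functions `dX (u t)`, `dY (u t)` are `tp Q (A.hf _ t) (A.hf _ t)`, so `tp_hf_deriv`, `tp_hf_cont` apply to
them), `F' = 2 (a uX wX + b (uX wY + uY wX) + c uY wY)` with `wX = A.lap (dX u) = dX (A.lap u)`,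
`wY = dY (A.lap u)` (compare coefficients).  By `avg_lap` with `h = A.lap u`, `v = u`:
`avg F' = -2 avg ((A.lap u)²) = -2 avg ((dX f + dY h)²)`.
-/

namespace Pool.Agent.Lib.MP_2a9317_an.TP

open MeasureTheory Matrix Filter Topology Pool.Agent.Lib.MP_2a9317_an.N1
open scoped ContDiff

private lemma Dg_lap_pot (A : Mod) {u : ℝ × ℝ → ℝ} (hu : IsPot u) : IsPot (A.lap u) := by
  have h := (((hu.dX.dX).smul A.a).add ((hu.dY.dX).smul (2 * A.b))).add ((hu.dY.dY).smul A.c)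
  exact h

private lemma Dg_dX (A : Mod) (Q : Finset (ℤ × ℤ)) (μ ν : ℤ × ℤ → ℝ) (t : ℝ) :
    dX (tp Q (A.hf μ t) (A.hf ν t)) = tp Q (A.hf (fun q => 2 * Real.pi * q.1 * ν q) t)
      (A.hf (fun q => -(2 * Real.pi * q.1 * μ q)) t) := by
  rw [dX_tp]
  congr 1
  · funext q
    unfold Mod.hf
    ring
  · funext q
    unfold Mod.hf
    ring

private lemma Dg_dY (A : Mod) (Q : Finset (ℤ × ℤ)) (μ ν : ℤ × ℤ → ℝ) (t : ℝ) :
    dY (tp Q (A.hf μ t) (A.hf ν t)) = tp Q (A.hf (fun q => 2 * Real.pi * q.2 * ν q) t)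
      (A.hf (fun q => -(2 * Real.pi * q.2 * μ q)) t) := by
  rw [dY_tp]
  congr 1
  · funext q
    unfold Mod.hf
    ring
  · funext q
    unfold Mod.hf
    ring

private lemma Dg_lap (A : Mod) (Q : Finset (ℤ × ℤ)) (μ ν : ℤ × ℤ → ℝ) (t : ℝ) :
    A.lap (tp Q (A.hf μ t) (A.hf ν t)) = tp Q (A.hf (fun q => -(A.lam q * μ q)) t)
      (A.hf (fun q => -(A.lam q * ν q)) t) := by
  rw [lap_tp]
  congr 1
  · funext q
    unfold Mod.hf
    ring
  · funext q
    unfold Mod.hf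
    ring

private lemma Dg_lap_dX (A : Mod) (Q : Finset (ℤ × ℤ)) (μ ν : ℤ × ℤ → ℝ) (t : ℝ) :
    dX (A.lap (tp Q (A.hf μ t) (A.hf ν t))) = A.lap (dX (tp Q (A.hf μ t) (A.hf ν t))) := by
  rw [Dg_lap, Dg_dX, Dg_dX, Dg_lap]
  congr 1
  · congr 1
    funext q
    ring
  · congr 1
    funext q
    ring

private lemma Dg_lap_dY (A : Mod) (Q : Finset (ℤ × ℤ)) (μ ν : ℤ × ℤ → ℝ) (t : ℝ) :
    dY (A.lap (tp Q (A.hf μ t) (A.hf ν t))) = A.lap (dY (tp Q (A.hf μ t) (A.hf ν t))) := by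
  rw [Dg_lap, Dg_dY, Dg_dY, Dg_lap]
  congr 1
  · congr 1
    funext q
    ring
  · congr 1
    funext q
    ring

private lemma Dg_avg (A : Mod) {u : ℝ × ℝ → ℝ} (hu : IsPot u) (hX : dX (A.lap u) = A.lap (dX u))
    (hY : dY (A.lap u) = A.lap (dY u)) :
    avg (fun p => 2 * (A.a * dX u p * A.lap (dX u) p
      + A.b * (dX u p * A.lap (dY u) p + dY u p * A.lap (dX u) p)
      + A.c * dY u p * A.lap (dY u) p)) = -2 * avg fun p => (A.lap u p) ^ 2 := by
  have h1 := avg_lap A (Dg_lap_pot A hu) hu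
  have e1 : (fun p => (A.lap u p) ^ 2) = fun p => A.lap u p * A.lap u p := by
    funext p
    ring
  rw [avg_mul', e1, h1, hX, hY]
  have e2 : (fun p => A.a * dX u p * A.lap (dX u) p
      + A.b * (dX u p * A.lap (dY u) p + dY u p * A.lap (dX u) p)
      + A.c * dY u p * A.lap (dY u) p) = fun p => A.a * A.lap (dX u) p * dX u p
      + A.b * (A.lap (dX u) p * dY u p + A.lap (dY u) p * dX u p)
      + A.c * A.lap (dY u) p * dY u p := by
    funext p
    ring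
  rw [e2]
  ring

theorem deriv_gain (A : Mod) (Q : Finset (ℤ × ℤ)) (α β α' β' : ℤ × ℤ → ℝ) (t : ℝ) :
    HasDerivAt (fun t => A.gain (fun p =>
        (tp Q (A.hf α t) (A.hf β t) p, tp Q (A.hf α' t) (A.hf β' t) p)))
      (-2 * avg fun p => (dX (tp Q (A.hf α t) (A.hf β t)) p
        + dY (tp Q (A.hf α' t) (A.hf β' t)) p) ^ 2) t := by
  obtain ⟨μ, hμ⟩ : ∃ μ : ℤ × ℤ → ℝ, μ = fun q => 2 * Real.pi * (q.1 * β q + q.2 * β' q) / A.lam q :=
    ⟨_, rfl⟩
  obtain ⟨ν, hν⟩ : ∃ ν : ℤ × ℤ → ℝ,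
      ν = fun q => -(2 * Real.pi * (q.1 * α q + q.2 * α' q)) / A.lam q := ⟨_, rfl⟩
  -- the potential at time `s`
  have hdiv : ∀ (s : ℝ) (p : ℝ × ℝ), A.lap (tp Q (A.hf μ s) (A.hf ν s)) p
      = -(dX (tp Q (A.hf α s) (A.hf β s)) p + dY (tp Q (A.hf α' s) (A.hf β' s)) p) := by
    intro s p
    rw [← tp_div Q (A.hf α s) (A.hf β s) (A.hf α' s) (A.hf β' s) A p]
    have e1 : A.hf μ s = fun q => 2 * Real.pi * (q.1 * A.hf β s q + q.2 * A.hf β' s q) / A.lam q := by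
      rw [hμ]
      funext q
      unfold Mod.hf
      ring
    have e2 : A.hf ν s = fun q =>
        -(2 * Real.pi * (q.1 * A.hf α s q + q.2 * A.hf α' s q)) / A.lam q := by
      rw [hν]
      funext q
      unfold Mod.hf
      ring
    rw [e1, e2]
  have hgain : ∀ s : ℝ, A.gain (fun p =>
      (tp Q (A.hf α s) (A.hf β s) p, tp Q (A.hf α' s) (A.hf β' s) p))
      = avg (fun p => A.q (dX (tp Q (A.hf μ s) (A.hf ν s)) p,
        dY (tp Q (A.hf μ s) (A.hf ν s)) p)) := fun s =>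
    gain_smooth A (tp_pot Q _ _) (tp_pot Q _ _) (tp_pot Q _ _) (hdiv s)
  have hfun : (fun s => A.gain (fun p =>
      (tp Q (A.hf α s) (A.hf β s) p, tp Q (A.hf α' s) (A.hf β' s) p)))
      = fun s => avg (fun p => A.q (dX (tp Q (A.hf μ s) (A.hf ν s)) p,
        dY (tp Q (A.hf μ s) (A.hf ν s)) p)) := funext hgain
  rw [hfun]
  have hval : (-2 * avg fun p => (dX (tp Q (A.hf α t) (A.hf β t)) p
        + dY (tp Q (A.hf α' t) (A.hf β' t)) p) ^ 2)
      = avg (fun p => 2 * (A.a * dX (tp Q (A.hf μ t) (A.hf ν t)) p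
          * A.lap (dX (tp Q (A.hf μ t) (A.hf ν t))) p
      + A.b * (dX (tp Q (A.hf μ t) (A.hf ν t)) p * A.lap (dY (tp Q (A.hf μ t) (A.hf ν t))) p
        + dY (tp Q (A.hf μ t) (A.hf ν t)) p * A.lap (dX (tp Q (A.hf μ t) (A.hf ν t))) p)
      + A.c * dY (tp Q (A.hf μ t) (A.hf ν t)) p * A.lap (dY (tp Q (A.hf μ t) (A.hf ν t))) p)) := by
    rw [Dg_avg A (tp_pot Q _ _) (Dg_lap_dX A Q μ ν t) (Dg_lap_dY A Q μ ν t)]
    congr 2
    funext p
    rw [hdiv t p]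
    ring
  rw [hval]
  -- the functions along the flow
  have cX : Continuous fun x : ℝ × (ℝ × ℝ) => dX (tp Q (A.hf μ x.1) (A.hf ν x.1)) x.2 := by
    simp only [Dg_dX]
    exact tp_hf_cont Q _ _ A
  have cY : Continuous fun x : ℝ × (ℝ × ℝ) => dY (tp Q (A.hf μ x.1) (A.hf ν x.1)) x.2 := by
    simp only [Dg_dY]
    exact tp_hf_cont Q _ _ A
  have cLX : Continuous fun x : ℝ × (ℝ × ℝ) =>
      A.lap (dX (tp Q (A.hf μ x.1) (A.hf ν x.1))) x.2 := by
    simp only [Dg_dX, Dg_lap]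
    exact tp_hf_cont Q _ _ A
  have cLY : Continuous fun x : ℝ × (ℝ × ℝ) =>
      A.lap (dY (tp Q (A.hf μ x.1) (A.hf ν x.1))) x.2 := by
    simp only [Dg_dY, Dg_lap]
    exact tp_hf_cont Q _ _ A
  have dXt : ∀ (s : ℝ) (p : ℝ × ℝ), HasDerivAt (fun s => dX (tp Q (A.hf μ s) (A.hf ν s)) p)
      (A.lap (dX (tp Q (A.hf μ s) (A.hf ν s))) p) s := by
    intro s p
    simp only [Dg_dX]
    exact tp_hf_deriv Q _ _ A s p
  have dYt : ∀ (s : ℝ) (p : ℝ × ℝ), HasDerivAt (fun s => dY (tp Q (A.hf μ s) (A.hf ν s)) p)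
      (A.lap (dY (tp Q (A.hf μ s) (A.hf ν s))) p) s := by
    intro s p
    simp only [Dg_dY]
    exact tp_hf_deriv Q _ _ A s p
  have key := hasDerivAt_avg
    (F := fun x : ℝ × (ℝ × ℝ) => A.q (dX (tp Q (A.hf μ x.1) (A.hf ν x.1)) x.2,
      dY (tp Q (A.hf μ x.1) (A.hf ν x.1)) x.2))
    (F' := fun x : ℝ × (ℝ × ℝ) => 2 * (A.a * dX (tp Q (A.hf μ x.1) (A.hf ν x.1)) x.2
          * A.lap (dX (tp Q (A.hf μ x.1) (A.hf ν x.1))) x.2
      + A.b * (dX (tp Q (A.hf μ x.1) (A.hf ν x.1)) x.2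
          * A.lap (dY (tp Q (A.hf μ x.1) (A.hf ν x.1))) x.2
        + dY (tp Q (A.hf μ x.1) (A.hf ν x.1)) x.2
          * A.lap (dX (tp Q (A.hf μ x.1) (A.hf ν x.1))) x.2)
      + A.c * dY (tp Q (A.hf μ x.1) (A.hf ν x.1)) x.2
          * A.lap (dY (tp Q (A.hf μ x.1) (A.hf ν x.1))) x.2))
    (by
      unfold Mod.q
      exact (((continuous_const.mul (cX.pow 2)).add ((continuous_const.mul cX).mul cY)).add
        (continuous_const.mul (cY.pow 2))))
    (by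
      exact continuous_const.mul ((((continuous_const.mul cX).mul cLX).add
        (continuous_const.mul ((cX.mul cLY).add (cY.mul cLX)))).add
          ((continuous_const.mul cY).mul cLY)))
    (by
      intro s p
      have h1 := dXt s p
      have h2 := dYt s p
      have h3 := (((h1.pow 2).const_mul A.a).add ((h1.const_mul (2 * A.b)).mul h2)).add
        ((h2.pow 2).const_mul A.c)
      unfold Mod.q
      refine h3.congr_deriv ?_
      simp only [Nat.cast_ofNat]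
      ring)
    t
  exact key

end Pool.Agent.Lib.MP_2a9317_an.TP
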