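import Pool.Agent.Lib.MP_2a9317_an.TP.Fins

set_option autoImplicit false

/-!
# TP-Sel: polynomial choice of the multiplier

For `z ∈ K` let `c_z` be given by `finsler (B z)`.  For `z'` close to `z`,
`|x ⬝ (B z' - B z) x| ≤ (ε/2) x ⬝ x` (entries small: `|x ⬝ N x| ≤ 4 max|N i j| x ⬝ x`), so `c_z` satisfies
`c_z d x ≤ x ⬝ B z' x + (ε/2) x ⬝ x`.  Apply `exists_continuous_forall_mem_convex_of_local_const` on
`ℝ × ℝ` (paracompact, normal) to `t z' = {c | z' ∈ K → ∀ x, c * d x ≤ x ⬝ B z' x + (ε/2) x ⬝ x}`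
(convex; locally constant choice: `c_z` near `z ∈ K`, `0` near `z ∉ K` since `K` is closed):
a continuous `c` on `ℝ × ℝ`.  Stone-Weierstrass on the compact set `K`
(`ContinuousMap.subalgebra_topologicalClosure_eq_top_of_separatesPoints` for the range of
`MvPolynomial.aeval` at the two coordinate functions of `C(K, ℝ)`): a polynomial `P` with
`|P z - c z| ≤ ε` on `K`; `|d x| ≤ x ⬝ x / 2`, so `P z * d x ≤ c z * d x + (ε/2) x ⬝ x`.
-/

namespace Pool.Agent.Lib.MP_2a9317_an.TP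

open Matrix

private theorem Sel_quad (N : Matrix (Fin 4) (Fin 4) ℝ) {δ : ℝ} (hN : ∀ i j, |N i j| ≤ δ)
    (x : Fin 4 → ℝ) : |x ⬝ᵥ (N *ᵥ x)| ≤ 4 * δ * (x ⬝ᵥ x) := by
  have hδ : 0 ≤ δ := (abs_nonneg _).trans (hN 0 0)
  have h1 : x ⬝ᵥ (N *ᵥ x) = ∑ i, ∑ j, x i * (N i j * x j) := by
    simp only [dotProduct, Matrix.mulVec, Finset.mul_sum]
  have h2 : |x ⬝ᵥ (N *ᵥ x)| ≤ ∑ i, ∑ j, δ * ((x i ^ 2 + x j ^ 2) / 2) := by
    rw [h1]
    refine (Finset.abs_sum_le_sum_abs _ _).trans (Finset.sum_le_sum fun i _ => ?_)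
    refine (Finset.abs_sum_le_sum_abs _ _).trans (Finset.sum_le_sum fun j _ => ?_)
    have h3 : |x i * (N i j * x j)| = |N i j| * (|x i| * |x j|) := by
      rw [abs_mul, abs_mul]
      ring
    rw [h3]
    have h4 : |x i| * |x j| ≤ (x i ^ 2 + x j ^ 2) / 2 := by
      have := sq_nonneg (|x i| - |x j|)
      have e1 : |x i| ^ 2 = x i ^ 2 := sq_abs _
      have e2 : |x j| ^ 2 = x j ^ 2 := sq_abs _
      nlinarith
    exact mul_le_mul (hN i j) h4 (by positivity) hδ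
  refine h2.trans (le_of_eq ?_)
  simp only [dotProduct, Fin.sum_univ_four]
  ring

private theorem Sel_det (x : Fin 4 → ℝ) : |x 0 * x 3 - x 1 * x 2| ≤ (x ⬝ᵥ x) / 2 := by
  have h1 : x ⬝ᵥ x = x 0 ^ 2 + x 1 ^ 2 + x 2 ^ 2 + x 3 ^ 2 := by
    simp only [dotProduct, Fin.sum_univ_four]
    ring
  rw [h1, abs_le]
  constructor
  · nlinarith [sq_nonneg (x 0 + x 3), sq_nonneg (x 1 - x 2)]
  · nlinarith [sq_nonneg (x 0 - x 3), sq_nonneg (x 1 + x 2)]

private theorem Sel_eval (P : MvPolynomial (Fin 2) ℝ) (z : ℝ × ℝ) :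
    (MvPolynomial.aeval (![ContinuousMap.fst, ContinuousMap.snd] : Fin 2 → C(ℝ × ℝ, ℝ)) P) z =
      MvPolynomial.eval ![z.1, z.2] P := by
  induction P using MvPolynomial.induction_on with
  | C a => simp
  | add p q hp hq => rw [map_add, map_add, ContinuousMap.add_apply, hp, hq]
  | mul_X p i hp =>
    rw [map_mul, map_mul, ContinuousMap.mul_apply, hp]
    congr 1
    fin_cases i <;> simp

theorem selection {K : Set (ℝ × ℝ)} (hK : IsCompact K) (B : ℝ × ℝ → Matrix (Fin 4) (Fin 4) ℝ)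
    (hB : Continuous B)
    (h : ∀ z ∈ K, ∀ x : Fin 4 → ℝ, x 0 * x 3 - x 1 * x 2 = 0 → 0 ≤ x ⬝ᵥ (B z *ᵥ x))
    {ε : ℝ} (hε : 0 < ε) :
    ∃ P : MvPolynomial (Fin 2) ℝ, ∀ z ∈ K, ∀ x : Fin 4 → ℝ,
      MvPolynomial.eval ![z.1, z.2] P * (x 0 * x 3 - x 1 * x 2)
        ≤ x ⬝ᵥ (B z *ᵥ x) + ε * (x ⬝ᵥ x) := by
  classical
  have hxx : ∀ x : Fin 4 → ℝ, 0 ≤ x ⬝ᵥ x := by
    intro x
    simp only [dotProduct]
    exact Finset.sum_nonneg fun i _ => mul_self_nonneg _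
  let t : ℝ × ℝ → Set ℝ := fun z => {c | z ∈ K → ∀ x : Fin 4 → ℝ,
    c * (x 0 * x 3 - x 1 * x 2) ≤ x ⬝ᵥ (B z *ᵥ x) + ε / 2 * (x ⬝ᵥ x)}
  have ht : ∀ z, Convex ℝ (t z) := by
    intro z c1 h1 c2 h2 a b ha hb hab hz x
    have e1 := h1 hz x
    have e2 := h2 hz x
    have e3 := mul_le_mul_of_nonneg_left e1 ha
    have e4 := mul_le_mul_of_nonneg_left e2 hb
    have e5 : (a • c1 + b • c2) * (x 0 * x 3 - x 1 * x 2) =
        a * (c1 * (x 0 * x 3 - x 1 * x 2)) + b * (c2 * (x 0 * x 3 - x 1 * x 2)) := by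
      simp only [smul_eq_mul]
      ring
    rw [e5]
    refine (add_le_add e3 e4).trans (le_of_eq ?_)
    rw [← add_mul, hab, one_mul]
  have hloc : ∀ z, ∃ c : ℝ, ∀ᶠ y in nhds z, c ∈ t y := by
    intro z
    by_cases hz : z ∈ K
    · obtain ⟨c, hc⟩ := finsler (B z) (h z hz)
      refine ⟨c, ?_⟩
      have h1 : ∀ᶠ y in nhds z, ∀ i j, |B y i j - B z i j| ≤ ε / 8 := by
        refine Filter.eventually_all.2 fun i => Filter.eventually_all.2 fun j => ?_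
        have h2 : Continuous fun y => B y i j := hB.matrix_elem i j
        have h3 := Metric.continuousAt_iff'.1 (h2.continuousAt (x := z)) (ε / 8) (by positivity)
        filter_upwards [h3] with y hy
        rw [Real.dist_eq] at hy
        exact hy.le
      filter_upwards [h1] with y hy hyK x
      have h4 := Sel_quad (B z - B y) (δ := ε / 8) (fun i j => by
        rw [Matrix.sub_apply, abs_sub_comm]
        exact hy i j) x
      have h5 : x ⬝ᵥ ((B z - B y) *ᵥ x) = x ⬝ᵥ (B z *ᵥ x) - x ⬝ᵥ (B y *ᵥ x) := by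
        rw [Matrix.sub_mulVec, dotProduct_sub]
      rw [h5] at h4
      have h6 := (abs_le.1 h4).2
      have h7 := hc x
      linarith
    · refine ⟨0, ?_⟩
      filter_upwards [hK.isClosed.isOpen_compl.mem_nhds hz] with y hy hyK
      exact absurd hyK hy
  obtain ⟨g, hg⟩ := exists_continuous_forall_mem_convex_of_local_const ht hloc
  set φ : MvPolynomial (Fin 2) ℝ →ₐ[ℝ] C(ℝ × ℝ, ℝ) :=
    MvPolynomial.aeval (![ContinuousMap.fst, ContinuousMap.snd] : Fin 2 → C(ℝ × ℝ, ℝ)) with hφ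
  have hsep : φ.range.SeparatesPoints := by
    intro z1 z2 hne
    by_cases h1 : z1.1 = z2.1
    · have h2 : z1.2 ≠ z2.2 := fun h2 => hne (Prod.ext h1 h2)
      refine ⟨_, ⟨φ (MvPolynomial.X 1), ⟨MvPolynomial.X 1, rfl⟩, rfl⟩, ?_⟩
      change φ (MvPolynomial.X 1) z1 ≠ φ (MvPolynomial.X 1) z2
      rw [hφ, Sel_eval, Sel_eval]
      simpa using h2
    · refine ⟨_, ⟨φ (MvPolynomial.X 0), ⟨MvPolynomial.X 0, rfl⟩, rfl⟩, ?_⟩
      change φ (MvPolynomial.X 0) z1 ≠ φ (MvPolynomial.X 0) z2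
      rw [hφ, Sel_eval, Sel_eval]
      simpa using h1
  obtain ⟨f, ⟨P, hP⟩, hf⟩ :=
    ContinuousMap.exists_mem_subalgebra_near_continuous_of_isCompact_of_separatesPoints
      hsep g hK hε
  refine ⟨P, fun z hz x => ?_⟩
  have h1 := hf z hz
  have h2 : (f : ℝ × ℝ → ℝ) z = MvPolynomial.eval ![z.1, z.2] P := by
    rw [← hP]
    exact Sel_eval P z
  rw [h2, Real.norm_eq_abs] at h1
  have h3 := hg z hz x
  have h4 := Sel_det x
  have h5 : (MvPolynomial.eval ![z.1, z.2] P - g z) * (x 0 * x 3 - x 1 * x 2) ≤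
      ε * ((x ⬝ᵥ x) / 2) := by
    refine (le_abs_self _).trans ?_
    rw [abs_mul]
    exact mul_le_mul h1.le h4 (abs_nonneg _) hε.le
  nlinarith [h3, h5]

end Pool.Agent.Lib.MP_2a9317_an.TP
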