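import Pool.Agent.Lib.MP_2a9317_an.TP.Q0
import Pool.Agent.Lib.MP_2a9317_an.TP.Sel

set_option autoImplicit false

/-!
# TP-Pt: the pointwise inequality with a null Lagrangian

`hess2 A w z X Y` is the quadratic form `a w''(X, X) + 2 b w''(X, Y) + c w''(Y, Y)` at `z` in the vector
`x = ![X.1, X.2, Y.1, Y.2]` (`X = ∂₁ g`, `Y = ∂₂ g`), and the `D i` term is `r_i(x)²` with the linear
functional `r_i(x) = (D i X).1 + (D i Y).2`, i.e. the vector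
`ρ_i = ![(D i (1,0)).1, (D i (0,1)).1, (D i (1,0)).2, (D i (0,1)).2]`, `r_i x = ρ_i ⬝ x`
(`D i X = X.1 • D i (1,0) + X.2 • D i (0,1)`).  Let `B z` be the 4 × 4 matrix of
`hess2 - 2 ∑ cc_i ρ_i ρ_iᵀ`:
`!![a w11, a w12, b w11, b w12; a w12, a w22, b w12, b w22; b w11, b w12, c w11, c w12; b w12, b w22, c w12, c w22]`
minus `2 ∑ cc_i ρ_i ρ_iᵀ`, `w11 = dX (dX w) z`, `w12 = dX (dY w) z`, `w22 = dY (dY w) z`, continuous in `z`
(`w` is smooth).  If `x 0 * x 3 = x 1 * x 2` then `X = ξ.1 • ζ`, `Y = ξ.2 • ζ` with `ξ ≠ 0` (if `X = 0`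
take `ζ = Y`, `ξ = (0, 1)`; if `X ≠ 0` take `ζ = X`, `ξ = (1, τ)`, `Y = τ • X`), and the form is
`A.q ξ * hess w z ζ - 2 ∑ cc_i (ξ.1 (D i ζ).1 + ξ.2 (D i ζ).2)² = A.q ξ * (hess w z ζ - 2 ∑ cc_i NN)
≥ 0` (`NN ξ δ * q ξ = (ξ·δ)²`, `q_pos`).  Apply `selection`.
-/

namespace Pool.Agent.Lib.MP_2a9317_an.TP

open MeasureTheory Matrix Filter Topology Pool.Agent.Lib.MP_2a9317_an.N1
open scoped ContDiff

/-- `a w''(X, X) + 2 b w''(X, Y) + c w''(Y, Y)` -/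
noncomputable def hess2 (A : Mod) (w : ℝ × ℝ → ℝ) (z X Y : ℝ × ℝ) : ℝ :=
  A.a * hess w z X
    + 2 * A.b * (dX (dX w) z * X.1 * Y.1 + dX (dY w) z * (X.1 * Y.2 + X.2 * Y.1)
      + dY (dY w) z * X.2 * Y.2)
    + A.c * hess w z Y

private theorem pt_cdX {w : ℝ × ℝ → ℝ} (hw : ContDiff ℝ ∞ w) : ContDiff ℝ ∞ (dX w) := by
  unfold dX
  exact (hw.fderiv_right (m := ∞) (by simp)).clm_apply contDiff_const

private theorem pt_cdY {w : ℝ × ℝ → ℝ} (hw : ContDiff ℝ ∞ w) : ContDiff ℝ ∞ (dY w) := by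
  unfold dY
  exact (hw.fderiv_right (m := ∞) (by simp)).clm_apply contDiff_const

/-- the vector of the functional `x ↦ (D (x 0, x 1)).1 + (D (x 2, x 3)).2` -/
private noncomputable def pt_rho (D : (ℝ × ℝ) →ₗ[ℝ] (ℝ × ℝ)) : Fin 4 → ℝ :=
  ![(D (1, 0)).1, (D (0, 1)).1, (D (1, 0)).2, (D (0, 1)).2]

/-- the matrix of `hess2` -/
private noncomputable def pt_M (A : Mod) (w : ℝ × ℝ → ℝ) (z : ℝ × ℝ) : Matrix (Fin 4) (Fin 4) ℝ :=
  !![A.a * dX (dX w) z, A.a * dX (dY w) z, A.b * dX (dX w) z, A.b * dX (dY w) z;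
    A.a * dX (dY w) z, A.a * dY (dY w) z, A.b * dX (dY w) z, A.b * dY (dY w) z;
    A.b * dX (dX w) z, A.b * dX (dY w) z, A.c * dX (dX w) z, A.c * dX (dY w) z;
    A.b * dX (dY w) z, A.b * dY (dY w) z, A.c * dX (dY w) z, A.c * dY (dY w) z]

private theorem pt_D (D : (ℝ × ℝ) →ₗ[ℝ] (ℝ × ℝ)) (X : ℝ × ℝ) :
    D X = X.1 • D (1, 0) + X.2 • D (0, 1) := by
  rw [← map_smul, ← map_smul, ← map_add]
  congr 1
  ext <;> simp

private theorem pt_quadM (A : Mod) (w : ℝ × ℝ → ℝ) (z : ℝ × ℝ) (x : Fin 4 → ℝ) :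
    x ⬝ᵥ (pt_M A w z *ᵥ x) = hess2 A w z (x 0, x 1) (x 2, x 3) := by
  unfold pt_M hess2 hess
  simp only [dotProduct, Matrix.mulVec, Fin.sum_univ_four, Matrix.of_apply, Matrix.cons_val',
    Matrix.cons_val_zero, Matrix.cons_val_one, Matrix.cons_val, Matrix.cons_val_fin_one]
  ring

private theorem pt_quadR (D : (ℝ × ℝ) →ₗ[ℝ] (ℝ × ℝ)) (x : Fin 4 → ℝ) :
    x ⬝ᵥ (Matrix.vecMulVec (pt_rho D) (pt_rho D) *ᵥ x) =
      ((D (x 0, x 1)).1 + (D (x 2, x 3)).2) ^ 2 := by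
  rw [pt_D D (x 0, x 1), pt_D D (x 2, x 3)]
  simp only [dotProduct, Matrix.mulVec, Fin.sum_univ_four, Matrix.vecMulVec_apply, pt_rho,
    Matrix.cons_val_zero, Matrix.cons_val_one, Matrix.cons_val, Prod.fst_add, Prod.snd_add,
    Prod.smul_fst, Prod.smul_snd, smul_eq_mul]
  ring

private theorem pt_cases (x : Fin 4 → ℝ) (h : x 0 * x 3 - x 1 * x 2 = 0) :
    ∃ ζ ξ : ℝ × ℝ, ξ ≠ 0 ∧ (x 0, x 1) = ξ.1 • ζ ∧ (x 2, x 3) = ξ.2 • ζ := by
  by_cases h0 : x 0 = 0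
  · by_cases h1 : x 1 = 0
    · refine ⟨(x 2, x 3), (0, 1), ?_, ?_, ?_⟩
      · intro h
        have := congrArg Prod.snd h
        simp at this
      · simp [h0, h1]
      · simp
    · have h2 : x 2 = 0 := by
        rw [h0] at h
        have h3 : x 1 * x 2 = 0 := by linarith
        rcases mul_eq_zero.1 h3 with h4 | h4
        · exact absurd h4 h1
        · exact h4
      refine ⟨(x 0, x 1), (1, x 3 / x 1), ?_, ?_, ?_⟩
      · intro h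
        have := congrArg Prod.fst h
        simp at this
      · simp
      · ext
        · simp [h0, h2]
        · simp only [Prod.smul_snd, smul_eq_mul]
          field_simp
  · refine ⟨(x 0, x 1), (1, x 2 / x 0), ?_, ?_, ?_⟩
    · intro h
      have := congrArg Prod.fst h
      simp at this
    · simp
    · ext
      · simp only [Prod.smul_fst, smul_eq_mul]
        field_simp
      · simp only [Prod.smul_snd, smul_eq_mul]
        field_simp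
        linarith

theorem pointwise (A : Mod) {ι : Type} [Fintype ι] (D : ι → (ℝ × ℝ) →ₗ[ℝ] (ℝ × ℝ)) (cc : ι → ℝ)
    {w : ℝ × ℝ → ℝ} (hw : ContDiff ℝ ∞ w) {K : Set (ℝ × ℝ)} (hK : IsCompact K)
    (hconv : ∀ z ∈ K, ∀ ζ ξ : ℝ × ℝ, ξ ≠ 0 → 2 * ∑ i, cc i * A.NN ξ (D i ζ) ≤ hess w z ζ)
    {ε : ℝ} (hε : 0 < ε) :
    ∃ P : MvPolynomial (Fin 2) ℝ, ∀ z ∈ K, ∀ X Y : ℝ × ℝ,
      MvPolynomial.eval ![z.1, z.2] P * (X.1 * Y.2 - X.2 * Y.1)
        ≤ hess2 A w z X Y - 2 * ∑ i, cc i * ((D i X).1 + (D i Y).2) ^ 2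
          + ε * (X.1 ^ 2 + X.2 ^ 2 + Y.1 ^ 2 + Y.2 ^ 2) := by
  classical
  have c11 : Continuous (dX (dX w)) := (pt_cdX (pt_cdX hw)).continuous
  have c12 : Continuous (dX (dY w)) := (pt_cdX (pt_cdY hw)).continuous
  have c22 : Continuous (dY (dY w)) := (pt_cdY (pt_cdY hw)).continuous
  set R : Matrix (Fin 4) (Fin 4) ℝ :=
    ∑ i, (2 * cc i) • Matrix.vecMulVec (pt_rho (D i)) (pt_rho (D i)) with hR
  have hquad : ∀ (z : ℝ × ℝ) (x : Fin 4 → ℝ), x ⬝ᵥ ((pt_M A w z - R) *ᵥ x) =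
      hess2 A w z (x 0, x 1) (x 2, x 3) -
        2 * ∑ i, cc i * ((D i (x 0, x 1)).1 + (D i (x 2, x 3)).2) ^ 2 := by
    intro z x
    rw [Matrix.sub_mulVec, dotProduct_sub, pt_quadM]
    congr 1
    rw [hR, Matrix.sum_mulVec, dotProduct_sum, Finset.mul_sum]
    refine Finset.sum_congr rfl fun i _ => ?_
    rw [Matrix.smul_mulVec, dotProduct_smul, pt_quadR, smul_eq_mul]
    ring
  have hB : Continuous fun z => pt_M A w z - R := by
    refine Continuous.sub ?_ continuous_const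
    refine continuous_matrix fun i j => ?_
    unfold pt_M
    fin_cases i <;> fin_cases j <;> simp <;> fun_prop
  obtain ⟨P, hP⟩ := selection hK (fun z => pt_M A w z - R) hB (by
    intro z hz x hx
    show 0 ≤ x ⬝ᵥ ((pt_M A w z - R) *ᵥ x)
    obtain ⟨ζ, ξ, hξ, h1, h2⟩ := pt_cases x hx
    rw [hquad, h1, h2]
    have hq := q_pos A hξ
    have h3 := hconv z hz ζ ξ hξ
    have h4 : hess2 A w z (ξ.1 • ζ) (ξ.2 • ζ) = A.q ξ * hess w z ζ := by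
      unfold hess2 hess Mod.q
      simp only [Prod.smul_fst, Prod.smul_snd, smul_eq_mul]
      ring
    have h5 : ∀ i, ((D i (ξ.1 • ζ)).1 + (D i (ξ.2 • ζ)).2) ^ 2 = A.q ξ * A.NN ξ (D i ζ) := by
      intro i
      rw [map_smul, map_smul]
      unfold Mod.NN
      simp only [Prod.smul_fst, Prod.smul_snd, smul_eq_mul]
      rw [mul_div_cancel₀ _ hq.ne']
    rw [h4]
    have h6 : 2 * ∑ i, cc i * ((D i (ξ.1 • ζ)).1 + (D i (ξ.2 • ζ)).2) ^ 2 =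
        A.q ξ * (2 * ∑ i, cc i * A.NN ξ (D i ζ)) := by
      rw [← mul_assoc, mul_comm (A.q ξ) 2, mul_assoc, Finset.mul_sum (a := A.q ξ)]
      congr 1
      refine Finset.sum_congr rfl fun i _ => ?_
      rw [h5]
      ring
    rw [h6, ← mul_sub]
    exact mul_nonneg hq.le (sub_nonneg.2 h3)) hε
  refine ⟨P, fun z hz X Y => ?_⟩
  have h1 := hP z hz ![X.1, X.2, Y.1, Y.2]
  have h2 : (![X.1, X.2, Y.1, Y.2] : Fin 4 → ℝ) ⬝ᵥ
      ((pt_M A w z - R) *ᵥ ![X.1, X.2, Y.1, Y.2]) = hess2 A w z X Y -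
        2 * ∑ i, cc i * ((D i X).1 + (D i Y).2) ^ 2 := hquad z _
  have h3 : (![X.1, X.2, Y.1, Y.2] : Fin 4 → ℝ) ⬝ᵥ ![X.1, X.2, Y.1, Y.2] =
      X.1 ^ 2 + X.2 ^ 2 + Y.1 ^ 2 + Y.2 ^ 2 := by
    simp only [dotProduct, Fin.sum_univ_four, Matrix.cons_val_zero, Matrix.cons_val_one,
      Matrix.cons_val]
    ring
  simp only [h2, h3] at h1
  exact h1

end Pool.Agent.Lib.MP_2a9317_an.TP
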