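import Pool.Agent.Lib.MP_2a9317_an.TP.Trig
import Pool.Agent.Lib.MP_2a9317_an.TP.By
import Pool.Agent.Lib.MP_2a9317_an.TP.Par
import Pool.Agent.Lib.MP_2a9317_an.TP.Pt

set_option autoImplicit false

/-!
# TP-Dw: the derivative of `⟨w(g_t)⟩` along the heat flow

`g_t = (g1 t, g2 t)`, `gj t = tp Q (A.hf αj t) (A.hf βj t)`.
* `comp_pot`: `w ∘ (g, h)` is smooth and periodic for smooth `w` and potentials `g`, `h`.
* `dX_comp`, `dY_comp`: the chain rule `dX (w ∘ (g, h)) p = dX w z dX g p + dY w z dX h p`, `z = (g p, h p)`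
  (`fderiv` of the composition; `fderiv w z (x, y) = x * dX w z + y * dY w z`).
* `deriv_w`: `hasDerivAt_avg` with `F (t, p) = w (g1 t p, g2 t p)`,
  `F' (t, p) = dX w z * A.lap (g1 t) p + dY w z * A.lap (g2 t) p` (`tp_hf_deriv`; joint continuity of
  `A.lap (gj t) p`: `lap_tp` and `tp_hf_cont` with the coefficients `-(lam q * α q)`; note
  `A.lam q * A.hf α t q = A.hf (fun q => A.lam q * α q) t q`).  Then `avg_lap` with the potentials
  `h = dX w ∘ (g1, g2)`, `v = g1` and `h = dY w ∘ (g1, g2)`, `v = g2`, `dX_comp`, `dY_comp` for `dX w`,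
  `dY w`, and `dX (dY w) = dY (dX w)` (symmetry of the second derivative; as in `N1.dX_dY`, which is
  stated for potentials only): the sum is `- avg (hess2 A w z X Y)`, `X = (dX g1, dX g2)`,
  `Y = (dY g1, dY g2)`.
* `deriv_sq`: the same with `w z = z.1² + z.2²`, or directly: `avg_lap` with `h = v = gj`.
-/

namespace Pool.Agent.Lib.MP_2a9317_an.TP

open MeasureTheory Matrix Filter Topology Pool.Agent.Lib.MP_2a9317_an.N1
open scoped ContDiff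

theorem comp_pot {w : ℝ × ℝ → ℝ} (hw : ContDiff ℝ ∞ w) {g h : ℝ × ℝ → ℝ} (hg : IsPot g)
    (hh : IsPot h) : IsPot (fun p => w (g p, h p)) := by
  refine ⟨hw.comp (hg.1.prodMk hh.1), fun x y => ⟨?_, ?_⟩⟩
  · change w (g (x + 1, y), h (x + 1, y)) = w (g (x, y), h (x, y))
    rw [(hg.2 x y).1, (hh.2 x y).1]
  · change w (g (x, y + 1), h (x, y + 1)) = w (g (x, y), h (x, y))
    rw [(hg.2 x y).2, (hh.2 x y).2]

/-- the derivative in a direction in terms of the partial derivatives -/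
private lemma fderiv_split {w : ℝ × ℝ → ℝ} (z : ℝ × ℝ) (x y : ℝ) :
    fderiv ℝ w z (x, y) = dX w z * x + dY w z * y := by
  have e : ((x, y) : ℝ × ℝ) = x • ((1, 0) : ℝ × ℝ) + y • ((0, 1) : ℝ × ℝ) := by
    simp
  rw [e, map_add, map_smul, map_smul]
  unfold dX dY
  simp only [smul_eq_mul]
  ring

private lemma fderiv_comp2 {w : ℝ × ℝ → ℝ} (hw : ContDiff ℝ ∞ w) {g h : ℝ × ℝ → ℝ} (hg : IsPot g)
    (hh : IsPot h) (p e : ℝ × ℝ) :
    fderiv ℝ (fun p => w (g p, h p)) p e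
      = dX w (g p, h p) * fderiv ℝ g p e + dY w (g p, h p) * fderiv ℝ h p e := by
  have h1 : HasFDerivAt (fun p => (g p, h p)) ((fderiv ℝ g p).prod (fderiv ℝ h p)) p :=
    (hg.differentiable p).hasFDerivAt.prodMk (hh.differentiable p).hasFDerivAt
  have h2 : HasFDerivAt w (fderiv ℝ w (g p, h p)) (g p, h p) :=
    (hw.differentiable (by simp) _).hasFDerivAt
  have h3 := (h2.comp p h1).fderiv
  have h4 : fderiv ℝ (fun p => w (g p, h p)) p
      = (fderiv ℝ w (g p, h p)).comp ((fderiv ℝ g p).prod (fderiv ℝ h p)) := h3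
  rw [h4, ContinuousLinearMap.comp_apply, ContinuousLinearMap.prod_apply, fderiv_split]

theorem dX_comp {w : ℝ × ℝ → ℝ} (hw : ContDiff ℝ ∞ w) {g h : ℝ × ℝ → ℝ} (hg : IsPot g)
    (hh : IsPot h) (p : ℝ × ℝ) :
    dX (fun p => w (g p, h p)) p = dX w (g p, h p) * dX g p + dY w (g p, h p) * dX h p :=
  fderiv_comp2 hw hg hh p (1, 0)

theorem dY_comp {w : ℝ × ℝ → ℝ} (hw : ContDiff ℝ ∞ w) {g h : ℝ × ℝ → ℝ} (hg : IsPot g)
    (hh : IsPot h) (p : ℝ × ℝ) :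
    dY (fun p => w (g p, h p)) p = dX w (g p, h p) * dY g p + dY w (g p, h p) * dY h p :=
  fderiv_comp2 hw hg hh p (0, 1)

private lemma cd_dX {w : ℝ × ℝ → ℝ} (hw : ContDiff ℝ ∞ w) : ContDiff ℝ ∞ (dX w) :=
  (hw.fderiv_right (m := ∞) (by simp)).clm_apply contDiff_const

private lemma cd_dY {w : ℝ × ℝ → ℝ} (hw : ContDiff ℝ ∞ w) : ContDiff ℝ ∞ (dY w) :=
  (hw.fderiv_right (m := ∞) (by simp)).clm_apply contDiff_const

private lemma symm2 {v : ℝ × ℝ → ℝ} (hv : ContDiff ℝ ∞ v) (p : ℝ × ℝ) :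
    dX (dY v) p = dY (dX v) p := by
  have hd : DifferentiableAt ℝ (fderiv ℝ v) p :=
    (hv.fderiv_right (m := ∞) (by simp)).differentiable (by simp) p
  have h1 : dX (dY v) p = fderiv ℝ (fderiv ℝ v) p (1, 0) (0, 1) := by
    change fderiv ℝ (fun q => fderiv ℝ v q (0, 1)) p (1, 0) = _
    rw [fderiv_clm_apply hd (differentiableAt_const _)]
    simp
  have h2 : dY (dX v) p = fderiv ℝ (fderiv ℝ v) p (0, 1) (1, 0) := by
    change fderiv ℝ (fun q => fderiv ℝ v q (1, 0)) p (0, 1) = _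
    rw [fderiv_clm_apply hd (differentiableAt_const _)]
    simp
  rw [h1, h2]
  refine (hv.contDiffAt.isSymmSndFDerivAt ?_) _ _
  simp only [minSmoothness_of_isRCLikeNormedField]
  exact WithTop.coe_le_coe.2 (le_top : (2 : ℕ∞) ≤ ⊤)

private lemma bmp {u : ℝ × ℝ → ℝ} (hu : IsPot u) : BM u := bm_of_continuous hu.continuous hu.2

private lemma lap_cont (A : Mod) (Q : Finset (ℤ × ℤ)) (α β : ℤ × ℤ → ℝ) :
    Continuous (fun x : ℝ × (ℝ × ℝ) => A.lap (tp Q (A.hf α x.1) (A.hf β x.1)) x.2) := by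
  have h1 := tp_hf_cont Q (fun q => -(A.lam q * α q)) (fun q => -(A.lam q * β q)) A
  have e : (fun x : ℝ × (ℝ × ℝ) => A.lap (tp Q (A.hf α x.1) (A.hf β x.1)) x.2)
      = fun x : ℝ × (ℝ × ℝ) => tp Q (A.hf (fun q => -(A.lam q * α q)) x.1)
        (A.hf (fun q => -(A.lam q * β q)) x.1) x.2 := by
    funext x
    rw [lap_tp]
    have e1 : ∀ γ : ℤ × ℤ → ℝ, (fun q => -(A.lam q * A.hf γ x.1 q))
        = A.hf (fun q => -(A.lam q * γ q)) x.1 := by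
      intro γ
      funext q
      unfold Mod.hf
      ring
    rw [e1, e1]
  rw [e]
  exact h1

theorem deriv_w (A : Mod) {w : ℝ × ℝ → ℝ} (hw : ContDiff ℝ ∞ w) (Q : Finset (ℤ × ℤ))
    (α₁ β₁ α₂ β₂ : ℤ × ℤ → ℝ) (t : ℝ) :
    HasDerivAt (fun t => avg fun p =>
        w (tp Q (A.hf α₁ t) (A.hf β₁ t) p, tp Q (A.hf α₂ t) (A.hf β₂ t) p))
      (- avg fun p => hess2 A w (tp Q (A.hf α₁ t) (A.hf β₁ t) p, tp Q (A.hf α₂ t) (A.hf β₂ t) p)
        (dX (tp Q (A.hf α₁ t) (A.hf β₁ t)) p, dX (tp Q (A.hf α₂ t) (A.hf β₂ t)) p)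
        (dY (tp Q (A.hf α₁ t) (A.hf β₁ t)) p, dY (tp Q (A.hf α₂ t) (A.hf β₂ t)) p)) t := by
  have hc1 := tp_hf_cont Q α₁ β₁ A
  have hc2 := tp_hf_cont Q α₂ β₂ A
  have hcc := hc1.prodMk hc2
  have hF : Continuous (fun x : ℝ × (ℝ × ℝ) =>
      w (tp Q (A.hf α₁ x.1) (A.hf β₁ x.1) x.2, tp Q (A.hf α₂ x.1) (A.hf β₂ x.1) x.2)) :=
    hw.continuous.comp hcc
  have hF' : Continuous (fun x : ℝ × (ℝ × ℝ) =>
      dX w (tp Q (A.hf α₁ x.1) (A.hf β₁ x.1) x.2, tp Q (A.hf α₂ x.1) (A.hf β₂ x.1) x.2)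
        * A.lap (tp Q (A.hf α₁ x.1) (A.hf β₁ x.1)) x.2
      + dY w (tp Q (A.hf α₁ x.1) (A.hf β₁ x.1) x.2, tp Q (A.hf α₂ x.1) (A.hf β₂ x.1) x.2)
        * A.lap (tp Q (A.hf α₂ x.1) (A.hf β₂ x.1)) x.2) :=
    (((cd_dX hw).continuous.comp hcc).mul (lap_cont A Q α₁ β₁)).add
      (((cd_dY hw).continuous.comp hcc).mul (lap_cont A Q α₂ β₂))
  have hd := hasDerivAt_avg hF hF' (fun t p => by
    have h1 := (tp_hf_deriv Q α₁ β₁ A t p).prodMk (tp_hf_deriv Q α₂ β₂ A t p)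
    have h2 : HasFDerivAt w (fderiv ℝ w (tp Q (A.hf α₁ t) (A.hf β₁ t) p,
        tp Q (A.hf α₂ t) (A.hf β₂ t) p)) (tp Q (A.hf α₁ t) (A.hf β₁ t) p,
        tp Q (A.hf α₂ t) (A.hf β₂ t) p) := (hw.differentiable (by simp) _).hasFDerivAt
    have h3 := h2.comp_hasDerivAt t h1
    rw [fderiv_split] at h3
    exact h3) t
  have hg1 : IsPot (tp Q (A.hf α₁ t) (A.hf β₁ t)) := tp_pot Q _ _
  have hg2 : IsPot (tp Q (A.hf α₂ t) (A.hf β₂ t)) := tp_pot Q _ _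
  obtain ⟨g₁, hg₁⟩ : ∃ g, g = tp Q (A.hf α₁ t) (A.hf β₁ t) := ⟨_, rfl⟩
  obtain ⟨g₂, hg₂⟩ : ∃ g, g = tp Q (A.hf α₂ t) (A.hf β₂ t) := ⟨_, rfl⟩
  simp only at hd
  rw [← hg₁, ← hg₂] at hd ⊢
  rw [← hg₁] at hg1
  rw [← hg₂] at hg2
  have hh1 : IsPot (fun p => dX w (g₁ p, g₂ p)) := comp_pot (cd_dX hw) hg1 hg2
  have hh2 : IsPot (fun p => dY w (g₁ p, g₂ p)) := comp_pot (cd_dY hw) hg1 hg2
  have hl : ∀ {u : ℝ × ℝ → ℝ}, IsPot u → IsPot (fun p => A.lap u p) := by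
    intro u hu
    unfold Mod.lap
    exact ((hu.dX.dX.smul A.a).add (hu.dY.dX.smul (2 * A.b))).add (hu.dY.dY.smul A.c)
  have e1 : (avg fun p => dX w (g₁ p, g₂ p) * A.lap g₁ p + dY w (g₁ p, g₂ p) * A.lap g₂ p)
      = - avg fun p => hess2 A w (g₁ p, g₂ p) (dX g₁ p, dX g₂ p) (dY g₁ p, dY g₂ p) := by
    rw [avg_add' (bmp (hh1.mul (hl hg1))) (bmp (hh2.mul (hl hg2))), avg_lap A hh1 hg1,
      avg_lap A hh2 hg2]
    have b1 : BM (fun p => A.a * dX (fun p => dX w (g₁ p, g₂ p)) p * dX g₁ p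
        + A.b * (dX (fun p => dX w (g₁ p, g₂ p)) p * dY g₁ p
          + dY (fun p => dX w (g₁ p, g₂ p)) p * dX g₁ p)
        + A.c * dY (fun p => dX w (g₁ p, g₂ p)) p * dY g₁ p) :=
      ((((bm_dX hh1).const_mul A.a).mul (bm_dX hg1)).add
        (((((bm_dX hh1).mul (bm_dY hg1)).add ((bm_dY hh1).mul (bm_dX hg1)))).const_mul A.b)).add
        (((bm_dY hh1).const_mul A.c).mul (bm_dY hg1))
    have b2 : BM (fun p => A.a * dX (fun p => dY w (g₁ p, g₂ p)) p * dX g₂ p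
        + A.b * (dX (fun p => dY w (g₁ p, g₂ p)) p * dY g₂ p
          + dY (fun p => dY w (g₁ p, g₂ p)) p * dX g₂ p)
        + A.c * dY (fun p => dY w (g₁ p, g₂ p)) p * dY g₂ p) :=
      ((((bm_dX hh2).const_mul A.a).mul (bm_dX hg2)).add
        (((((bm_dX hh2).mul (bm_dY hg2)).add ((bm_dY hh2).mul (bm_dX hg2)))).const_mul A.b)).add
        (((bm_dY hh2).const_mul A.c).mul (bm_dY hg2))
    rw [← neg_add, ← avg_add' b1 b2]
    congr 2
    funext p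
    rw [dX_comp (cd_dX hw) hg1 hg2, dX_comp (cd_dY hw) hg1 hg2, dY_comp (cd_dX hw) hg1 hg2,
      dY_comp (cd_dY hw) hg1 hg2]
    unfold hess2 hess
    simp only
    rw [← symm2 hw (g₁ p, g₂ p)]
    ring
  rw [← e1]
  exact hd

theorem deriv_sq (A : Mod) (Q : Finset (ℤ × ℤ)) (α β : ℤ × ℤ → ℝ) (t : ℝ) :
    HasDerivAt (fun t => avg fun p => tp Q (A.hf α t) (A.hf β t) p ^ 2)
      (-2 * avg fun p => A.q (dX (tp Q (A.hf α t) (A.hf β t)) p,
        dY (tp Q (A.hf α t) (A.hf β t)) p)) t := by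
  have hc := tp_hf_cont Q α β A
  have hF : Continuous (fun x : ℝ × (ℝ × ℝ) => tp Q (A.hf α x.1) (A.hf β x.1) x.2 ^ 2) := hc.pow 2
  have hF' : Continuous (fun x : ℝ × (ℝ × ℝ) => 2 * (tp Q (A.hf α x.1) (A.hf β x.1) x.2
      * A.lap (tp Q (A.hf α x.1) (A.hf β x.1)) x.2)) :=
    continuous_const.mul (hc.mul (lap_cont A Q α β))
  have hd := hasDerivAt_avg hF hF' (fun t p => by
    have h1 := (tp_hf_deriv Q α β A t p).pow 2
    refine h1.congr_deriv ?_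
    simp only
    ring) t
  have hg : IsPot (tp Q (A.hf α t) (A.hf β t)) := tp_pot Q _ _
  simp only at hd
  obtain ⟨g, hge⟩ : ∃ g, g = tp Q (A.hf α t) (A.hf β t) := ⟨_, rfl⟩
  rw [← hge] at hd hg ⊢
  have e1 : (avg fun p => 2 * (g p * A.lap g p)) = -2 * avg fun p => A.q (dX g p, dY g p) := by
    rw [avg_mul', avg_lap A hg hg]
    have e2 : (fun p => A.a * dX g p * dX g p + A.b * (dX g p * dY g p + dY g p * dX g p)
        + A.c * dY g p * dY g p) = fun p => A.q (dX g p, dY g p) := by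
      funext p
      unfold Mod.q
      ring
    rw [e2]
    ring
  rw [← e1]
  exact hd

end Pool.Agent.Lib.MP_2a9317_an.TP
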