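import Pool.Agent.Lib.MP_2a9317_an.TP.G0
import Pool.Agent.Lib.MP_2a9317_an.N1.Bm

set_option autoImplicit false

/-!
# TP-Eq: effective tensors of one potential with a common quadratic part

`kp A v e` is the phase with energy `q(x, y) + 2 v·(x, y) + e`.
* `eff_gain`: for a potential `u`, expand `W (kp ..) (x + dX u) (y + dY u)`; with `avg (dX u) = avg (dY u) = 0`
  (`avg_dX`, `avg_dY`) `En .. x y u = W (kp A m ē) x y - A.J v_χ u`, `m = mean v_χ`, `ē = ⟨e_χ⟩` (`avg_add'`,
  `BM.phase`, `bm_dX`, ...).  Then `J_le_gain` and `exists_J` are the two parts of `Eff`.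
* `eff_unique`: both parts of `Eff` give `W M x y = W M' x y`, then `ph_ext`.
* `layM_kp`: the layering formula `layM` (`N1.CD`) for two phases with the same quadratic part: the
  differences of the first three coefficients vanish, `Q (kp ..) ξ η = A.q (ξ, η)`,
  `(1 - θ) Q + θ Q = Q`.
-/

namespace Pool.Agent.Lib.MP_2a9317_an.TP

open MeasureTheory Matrix Filter Topology Pool.Agent.Lib.MP_2a9317_an.N1
open scoped ContDiff

/-- the phase with the energy `q(x, y) + 2 v·(x, y) + e` -/
def kp (A : Mod) (v : ℝ × ℝ) (e : ℝ) : Ph := ![A.a, A.b, A.c, v.1, v.2, e]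

theorem kp_ell (A : Mod) (v : ℝ × ℝ) (e : ℝ) : Ell (kp A v e) := by
  refine ⟨A.ha, ?_⟩
  show 0 < A.a * A.c - A.b ^ 2
  exact A.hd

private lemma W_kp (A : Mod) (v : ℝ × ℝ) (e x y : ℝ) :
    W (kp A v e) x y = A.q (x, y) + 2 * v.1 * x + 2 * v.2 * y + e := by
  show A.a * x ^ 2 + 2 * A.b * x * y + A.c * y ^ 2 + 2 * v.1 * x + 2 * v.2 * y + e = _
  unfold Mod.q
  ring

theorem eff_gain (A : Mod) {k : ℕ} (v : Fin k → ℝ × ℝ) (e : Fin k → ℝ) {χ : ℝ × ℝ → Fin k}
    (hχ : IsPartition χ) :
    Eff (fun j => kp A (v j) (e j)) χ (kp A (mean fun p => v (χ p))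
      ((avg fun p => e (χ p)) - A.gain (fun p => v (χ p)))) := by
  have b1 : BM (fun p => (v (χ p)).1) := BM.phase (fun j => (v j).1) hχ.1
  have b2 : BM (fun p => (v (χ p)).2) := BM.phase (fun j => (v j).2) hχ.1
  have b3 : BM (fun p => e (χ p)) := BM.phase e hχ.1
  have hBV : BV (fun p => v (χ p)) := ⟨b1, b2⟩
  have key : ∀ (x y : ℝ) (u : ℝ × ℝ → ℝ), IsPot u →
      En (fun j => kp A (v j) (e j)) χ x y u =
        A.q (x, y) + 2 * (avg fun p => (v (χ p)).1) * x + 2 * (avg fun p => (v (χ p)).2) * y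
          + (avg fun p => e (χ p)) - A.J (fun p => v (χ p)) u := by
    intro x y u hu
    have hX := bm_dX hu
    have hY := bm_dY hu
    have bq : BM (fun p => -2 * ((v (χ p)).1 * dX u p + (v (χ p)).2 * dY u p)
        - A.q (dX u p, dY u p)) := by
      have b4 : BM (fun p => A.q (dX u p, dY u p)) := by
        have e1 : (fun p => A.q (dX u p, dY u p)) = fun p => (A.a * dX u p ^ 2 +
            2 * A.b * (dX u p * dY u p)) + A.c * dY u p ^ 2 := by
          funext p
          unfold Mod.q
          ring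
        rw [e1]
        exact ((hX.sq.const_mul A.a).add ((hX.mul hY).const_mul (2 * A.b))).add
          (hY.sq.const_mul A.c)
      exact (((b1.mul hX).add (b2.mul hY)).const_mul (-2)).sub b4
    have e0 : En (fun j => kp A (v j) (e j)) χ x y u = avg (fun p =>
        ((((A.q (x, y) + (2 * x) * (v (χ p)).1) + (2 * y) * (v (χ p)).2) + e (χ p))
          + ((2 * (A.a * x + A.b * y)) * dX u p + (2 * (A.b * x + A.c * y)) * dY u p))
          - (-2 * ((v (χ p)).1 * dX u p + (v (χ p)).2 * dY u p) - A.q (dX u p, dY u p))) := by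
      unfold En
      congr 1
      funext p
      rw [W_kp]
      unfold Mod.q
      ring
    rw [e0, avg_sub' ((((((BM.const (A.q (x, y))).add (b1.const_mul (2 * x))).add
      (b2.const_mul (2 * y)))).add b3).add ((hX.const_mul _).add (hY.const_mul _))) bq,
      avg_add' (((((BM.const (A.q (x, y))).add (b1.const_mul (2 * x))).add
      (b2.const_mul (2 * y)))).add b3) ((hX.const_mul _).add (hY.const_mul _)),
      avg_add' ((((BM.const (A.q (x, y))).add (b1.const_mul (2 * x))).add
      (b2.const_mul (2 * y)))) b3,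
      avg_add' ((BM.const (A.q (x, y))).add (b1.const_mul (2 * x))) (b2.const_mul (2 * y)),
      avg_add' (BM.const (A.q (x, y))) (b1.const_mul (2 * x)),
      avg_add' (hX.const_mul _) (hY.const_mul _), avg_mul', avg_mul', avg_mul', avg_mul',
      avg_const, avg_dX hu, avg_dY hu]
    unfold Mod.J
    ring
  intro x y
  constructor
  · intro u hu
    rw [key x y u hu, W_kp]
    have := J_le_gain A hBV hu
    unfold mean
    linarith
  · intro ε hε
    obtain ⟨u, hu, h1⟩ := exists_J A hBV hε
    refine ⟨u, hu, ?_⟩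
    rw [key x y u hu, W_kp]
    unfold mean
    linarith

theorem eff_unique {k : ℕ} {K : Fin k → Ph} {χ : ℝ × ℝ → Fin k} {M M' : Ph} (h : Eff K χ M)
    (h' : Eff K χ M') : M = M' := by
  have key : ∀ {M M' : Ph}, Eff K χ M → Eff K χ M' → ∀ x y, W M x y ≤ W M' x y := by
    intro M M' h h' x y
    refine le_of_forall_pos_le_add fun ε hε => ?_
    obtain ⟨u, hu, h1⟩ := (h' x y).2 ε hε
    exact ((h x y).1 u hu).trans h1
  exact ph_ext fun x y => le_antisymm (key h h' x y) (key h' h x y)

end Pool.Agent.Lib.MP_2a9317_an.TP
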