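import Mathlib

set_option autoImplicit false

/-!
# TP-Fins: Finsler's lemma for the determinant of a 2 × 2 matrix

Write `S x = x ⬝ B x`, `d x = x 0 * x 3 - x 1 * x 2`.
1. If `d x = 1` and `d y = -1` then `0 ≤ S x + S y`.  Let `m` be the polar of `d`:
   `d (x + t y) = 1 + 2 m t - t²` with `2 m = x 0 y 3 + x 3 y 0 - x 1 y 2 - x 2 y 1`.  Let
   `t₁ = m + √(m² + 1) > 0` and `t₂ = - 1 / t₁` be the roots (`t₁ + t₂ = 2 m`, `t₁ t₂ = -1`).  Then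
   `0 ≤ S (x + t_i y) = S x + t_i P + t_i² S y`, `P = x ⬝ B y + y ⬝ B x`.  The combination with the
   weights `1 / t₁` (for `i = 1`) and `t₁` (for `i = 2`) has no `P`:
   `(1/t₁) t₁ + t₁ t₂ = 1 - 1 = 0`, and `(1/t₁) t₁² + t₁ t₂² = t₁ + 1/t₁`, so
   `0 ≤ (t₁ + 1/t₁) (S x + S y)`.
2. `c = sup {- S y | d y = -1}` exists (nonempty: `y = (1, 0, 0, -1)`, bounded above by `S x` for any
   `x` with `d x = 1`), and `c ≤ S x` for all `x` with `d x = 1`.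
3. `c * d x ≤ S x` for all `x`: if `d x > 0` apply 2 to `x / √(d x)`; if `d x < 0` apply
   `- S y ≤ c` to `y = x / √(- d x)`; if `d x = 0` it is the hypothesis.  (`S (r x) = r² S x`.)
-/

namespace Pool.Agent.Lib.MP_2a9317_an.TP

open Matrix

private theorem S_comb (B : Matrix (Fin 4) (Fin 4) ℝ) (x y : Fin 4 → ℝ) (s t : ℝ) :
    (s • x + t • y) ⬝ᵥ (B *ᵥ (s • x + t • y)) =
      s ^ 2 * (x ⬝ᵥ (B *ᵥ x)) + s * t * (x ⬝ᵥ (B *ᵥ y) + y ⬝ᵥ (B *ᵥ x)) +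
        t ^ 2 * (y ⬝ᵥ (B *ᵥ y)) := by
  simp only [Matrix.mulVec_add, Matrix.mulVec_smul, add_dotProduct, dotProduct_add,
    smul_dotProduct, dotProduct_smul, smul_eq_mul]
  ring

private theorem S_smul (B : Matrix (Fin 4) (Fin 4) ℝ) (x : Fin 4 → ℝ) (s : ℝ) :
    (s • x) ⬝ᵥ (B *ᵥ (s • x)) = s ^ 2 * (x ⬝ᵥ (B *ᵥ x)) := by
  simp only [Matrix.mulVec_smul, smul_dotProduct, dotProduct_smul, smul_eq_mul]
  ring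

private theorem d_comb (x y : Fin 4 → ℝ) (s t : ℝ) :
    (s • x + t • y) 0 * (s • x + t • y) 3 - (s • x + t • y) 1 * (s • x + t • y) 2 =
      s ^ 2 * (x 0 * x 3 - x 1 * x 2) + s * t * (x 0 * y 3 + x 3 * y 0 - x 1 * y 2 - x 2 * y 1) +
        t ^ 2 * (y 0 * y 3 - y 1 * y 2) := by
  simp only [Pi.add_apply, Pi.smul_apply, smul_eq_mul]
  ring

private theorem step_one (B : Matrix (Fin 4) (Fin 4) ℝ)
    (h : ∀ x : Fin 4 → ℝ, x 0 * x 3 - x 1 * x 2 = 0 → 0 ≤ x ⬝ᵥ (B *ᵥ x)) (x y : Fin 4 → ℝ)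
    (hx : x 0 * x 3 - x 1 * x 2 = 1) (hy : y 0 * y 3 - y 1 * y 2 = -1) :
    0 ≤ x ⬝ᵥ (B *ᵥ x) + y ⬝ᵥ (B *ᵥ y) := by
  set Q : ℝ := x 0 * y 3 + x 3 * y 0 - x 1 * y 2 - x 2 * y 1 with hQ
  set m : ℝ := Q / 2 with hm
  have hQm : Q = 2 * m := by rw [hm]; ring
  set t : ℝ := m + √(m ^ 2 + 1) with ht
  have h0 : (0:ℝ) ≤ m ^ 2 + 1 := by positivity
  have hsq : √(m ^ 2 + 1) ^ 2 = m ^ 2 + 1 := Real.sq_sqrt h0
  have ht2 : t ^ 2 = 2 * m * t + 1 := by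
    rw [ht]
    linear_combination hsq
  have e1 := h ((1:ℝ) • x + t • y) (by
    rw [d_comb, hx, hy, ← hQ, hQm]
    linear_combination (-1 : ℝ) * ht2)
  have e2 := h (t • x + (-1 : ℝ) • y) (by
    rw [d_comb, hx, hy, ← hQ, hQm]
    linear_combination ht2)
  rw [S_comb] at e1 e2
  have e3 : 0 ≤ (1 + t ^ 2) * (x ⬝ᵥ (B *ᵥ x) + y ⬝ᵥ (B *ᵥ y)) := by
    nlinarith [e1, e2]
  exact nonneg_of_mul_nonneg_right e3 (by positivity)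

theorem finsler (B : Matrix (Fin 4) (Fin 4) ℝ)
    (h : ∀ x : Fin 4 → ℝ, x 0 * x 3 - x 1 * x 2 = 0 → 0 ≤ x ⬝ᵥ (B *ᵥ x)) :
    ∃ c : ℝ, ∀ x : Fin 4 → ℝ, c * (x 0 * x 3 - x 1 * x 2) ≤ x ⬝ᵥ (B *ᵥ x) := by
  set A : Set ℝ := {r | ∃ y : Fin 4 → ℝ, y 0 * y 3 - y 1 * y 2 = -1 ∧ r = -(y ⬝ᵥ (B *ᵥ y))} with hA
  have hne : A.Nonempty := by
    refine ⟨_, ![1, 0, 0, -1], ?_, rfl⟩
    simp
  have hub : ∀ x : Fin 4 → ℝ, x 0 * x 3 - x 1 * x 2 = 1 → ∀ r ∈ A, r ≤ x ⬝ᵥ (B *ᵥ x) := by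
    rintro x hx r ⟨y, hy, rfl⟩
    have := step_one B h x y hx hy
    linarith
  have hbdd : BddAbove A := by
    refine ⟨(![1, 0, 0, 1] : Fin 4 → ℝ) ⬝ᵥ (B *ᵥ ![1, 0, 0, 1]), fun r hr => ?_⟩
    refine hub _ ?_ r hr
    simp
  refine ⟨sSup A, fun x => ?_⟩
  rcases lt_trichotomy (x 0 * x 3 - x 1 * x 2) 0 with hd | hd | hd
  · set s : ℝ := √(-(x 0 * x 3 - x 1 * x 2)) with hs
    have hs2 : s ^ 2 = -(x 0 * x 3 - x 1 * x 2) := Real.sq_sqrt (by linarith)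
    have hs0 : 0 < s := Real.sqrt_pos.2 (by linarith)
    have h1 : -((s⁻¹ • x) ⬝ᵥ (B *ᵥ (s⁻¹ • x))) ≤ sSup A := by
      refine le_csSup hbdd ⟨s⁻¹ • x, ?_, rfl⟩
      simp only [Pi.smul_apply, smul_eq_mul]
      have e1 : s⁻¹ * x 0 * (s⁻¹ * x 3) - s⁻¹ * x 1 * (s⁻¹ * x 2) =
          (s⁻¹) ^ 2 * (x 0 * x 3 - x 1 * x 2) := by ring
      have e2 : x 0 * x 3 - x 1 * x 2 = - s ^ 2 := by rw [hs2]; ring
      rw [e1, e2]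
      field_simp
    rw [S_smul] at h1
    have h2 : s ^ 2 * (-(s⁻¹ ^ 2 * (x ⬝ᵥ (B *ᵥ x)))) ≤ s ^ 2 * sSup A :=
      mul_le_mul_of_nonneg_left h1 (by positivity)
    have h3 : s ^ 2 * (-(s⁻¹ ^ 2 * (x ⬝ᵥ (B *ᵥ x)))) = -(x ⬝ᵥ (B *ᵥ x)) := by
      field_simp
    rw [h3, hs2] at h2
    linarith
  · rw [hd, mul_zero]
    exact h x hd
  · set s : ℝ := √(x 0 * x 3 - x 1 * x 2) with hs
    have hs2 : s ^ 2 = x 0 * x 3 - x 1 * x 2 := Real.sq_sqrt hd.le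
    have hs0 : 0 < s := Real.sqrt_pos.2 hd
    have h1 : sSup A ≤ (s⁻¹ • x) ⬝ᵥ (B *ᵥ (s⁻¹ • x)) := by
      refine csSup_le hne (hub _ ?_)
      simp only [Pi.smul_apply, smul_eq_mul]
      have e1 : s⁻¹ * x 0 * (s⁻¹ * x 3) - s⁻¹ * x 1 * (s⁻¹ * x 2) =
          (s⁻¹) ^ 2 * (x 0 * x 3 - x 1 * x 2) := by ring
      rw [e1, ← hs2]
      field_simp
    rw [S_smul] at h1
    have h2 : s ^ 2 * sSup A ≤ s ^ 2 * (s⁻¹ ^ 2 * (x ⬝ᵥ (B *ᵥ x))) :=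
      mul_le_mul_of_nonneg_left h1 (by positivity)
    have h3 : s ^ 2 * (s⁻¹ ^ 2 * (x ⬝ᵥ (B *ᵥ x))) = x ⬝ᵥ (B *ᵥ x) := by
      field_simp
    rw [h3, hs2] at h2
    linarith

end Pool.Agent.Lib.MP_2a9317_an.TP
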