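import Pool.Agent.Lib.MP_2a9317_an.TP.Trig

set_option autoImplicit false

/-!
# TP-Gau: the heat flow keeps the values in a convex set

`A.q (k, l) = (k c₁ + l c₂)² + (l d)²` with `c₁ = √a`, `c₂ = b / √a`, `d = √((a c - b²) / a)`.  With a
standard Gaussian variable, `E cos (φ + s X) = exp (-s²/2) cos φ`, `E sin (φ + s X) = exp (-s²/2) sin φ`
(`charFun_gaussianReal`, or `ProbabilityTheory.mgf`/`charFun` of `gaussianReal 0 1`).  Hence
`tp Q (A.hf α t) (A.hf β t) p = ∫∫ tp Q α β (p + √(2t) (x C₁ + y C₂)) dγ(x) dγ(y)`, `C₁ = (c₁, c₂)`,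
`C₂ = (0, d)`: for one frequency `ph` increases by `2π √(2t) (x (k c₁ + l c₂) + y l d)`, and
`(2π)² 2t /2 = 4π² t`.  Then `Convex.integral_mem` for the probability measure `γ × γ`, the closed
convex set `K` and the continuous bounded map
`(x, y) ↦ (tp Q α₁ β₁ (..), tp Q α₂ β₂ (..))`.
-/

namespace Pool.Agent.Lib.MP_2a9317_an.TP

open MeasureTheory Matrix Filter Topology Pool.Agent.Lib.MP_2a9317_an.N1
open scoped ContDiff

/-- the Gaussian average of one frequency -/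
private theorem gexp (φ s₁ s₂ : ℝ) :
    ∫ z : ℝ × ℝ, Complex.exp (((φ + s₁ * z.1 + s₂ * z.2 : ℝ) : ℂ) * Complex.I)
      ∂((ProbabilityTheory.gaussianReal 0 1).prod (ProbabilityTheory.gaussianReal 0 1))
    = ((Real.exp (-((s₁ ^ 2 + s₂ ^ 2) / 2)) : ℝ) : ℂ) * Complex.exp ((φ : ℂ) * Complex.I) := by
  have h1 : ∀ s : ℝ, ∫ x : ℝ, Complex.exp ((s : ℂ) * (x : ℂ) * Complex.I)
      ∂(ProbabilityTheory.gaussianReal 0 1) = Complex.exp (-((s : ℂ) ^ 2 / 2)) := by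
    intro s
    rw [← charFun_apply_real, ProbabilityTheory.charFun_gaussianReal]
    congr 1
    simp
  have h2 : (fun z : ℝ × ℝ => Complex.exp (((φ + s₁ * z.1 + s₂ * z.2 : ℝ) : ℂ) * Complex.I))
      = fun z : ℝ × ℝ => Complex.exp ((φ : ℂ) * Complex.I) *
        (Complex.exp ((s₁ : ℂ) * (z.1 : ℂ) * Complex.I) *
          Complex.exp ((s₂ : ℂ) * (z.2 : ℂ) * Complex.I)) := by
    funext z
    rw [← Complex.exp_add, ← Complex.exp_add]
    congr 1
    push_cast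
    ring
  rw [h2, MeasureTheory.integral_const_mul,
    MeasureTheory.integral_prod_mul (fun x : ℝ => Complex.exp ((s₁ : ℂ) * (x : ℂ) * Complex.I))
      (fun y : ℝ => Complex.exp ((s₂ : ℂ) * (y : ℂ) * Complex.I)), h1, h1, ← Complex.exp_add,
    mul_comm]
  congr 1
  rw [Complex.ofReal_exp]
  congr 1
  push_cast
  ring

private theorem gint (f : ℝ × ℝ → ℂ) (hf : Continuous f) (C : ℝ) (hb : ∀ z, ‖f z‖ ≤ C) :
    Integrable f ((ProbabilityTheory.gaussianReal 0 1).prod (ProbabilityTheory.gaussianReal 0 1)) :=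
  Integrable.of_bound hf.aestronglyMeasurable C (Eventually.of_forall hb)

private theorem gcont (φ s₁ s₂ : ℝ) : Continuous (fun z : ℝ × ℝ =>
    Complex.exp (((φ + s₁ * z.1 + s₂ * z.2 : ℝ) : ℂ) * Complex.I)) := by
  fun_prop

private theorem gexp_int (φ s₁ s₂ : ℝ) : Integrable (fun z : ℝ × ℝ =>
    Complex.exp (((φ + s₁ * z.1 + s₂ * z.2 : ℝ) : ℂ) * Complex.I))
    ((ProbabilityTheory.gaussianReal 0 1).prod (ProbabilityTheory.gaussianReal 0 1)) := by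
  refine gint _ (gcont φ s₁ s₂) 1 fun z => ?_
  rw [Complex.norm_exp_ofReal_mul_I]

private theorem gcos_int (φ s₁ s₂ : ℝ) : Integrable (fun z : ℝ × ℝ =>
    Real.cos (φ + s₁ * z.1 + s₂ * z.2))
    ((ProbabilityTheory.gaussianReal 0 1).prod (ProbabilityTheory.gaussianReal 0 1)) := by
  have := (gexp_int φ s₁ s₂).re
  exact this.congr (Eventually.of_forall fun z => Complex.exp_ofReal_mul_I_re _)

private theorem gsin_int (φ s₁ s₂ : ℝ) : Integrable (fun z : ℝ × ℝ =>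
    Real.sin (φ + s₁ * z.1 + s₂ * z.2))
    ((ProbabilityTheory.gaussianReal 0 1).prod (ProbabilityTheory.gaussianReal 0 1)) := by
  have := (gexp_int φ s₁ s₂).im
  exact this.congr (Eventually.of_forall fun z => Complex.exp_ofReal_mul_I_im _)

private theorem gcos (φ s₁ s₂ : ℝ) :
    ∫ z : ℝ × ℝ, Real.cos (φ + s₁ * z.1 + s₂ * z.2)
      ∂((ProbabilityTheory.gaussianReal 0 1).prod (ProbabilityTheory.gaussianReal 0 1))
    = Real.exp (-((s₁ ^ 2 + s₂ ^ 2) / 2)) * Real.cos φ := by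
  have h := congrArg Complex.re (gexp φ s₁ s₂)
  rw [Complex.re_ofReal_mul, Complex.exp_ofReal_mul_I_re] at h
  rw [← h]
  have h2 := integral_re (𝕜 := ℂ) (gexp_int φ s₁ s₂)
  simp only [RCLike.re_to_complex, Complex.exp_ofReal_mul_I_re] at h2
  exact h2

private theorem gsin (φ s₁ s₂ : ℝ) :
    ∫ z : ℝ × ℝ, Real.sin (φ + s₁ * z.1 + s₂ * z.2)
      ∂((ProbabilityTheory.gaussianReal 0 1).prod (ProbabilityTheory.gaussianReal 0 1))
    = Real.exp (-((s₁ ^ 2 + s₂ ^ 2) / 2)) * Real.sin φ := by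
  have h := congrArg Complex.im (gexp φ s₁ s₂)
  rw [Complex.im_ofReal_mul, Complex.exp_ofReal_mul_I_im] at h
  rw [← h]
  have h2 := integral_im (𝕜 := ℂ) (gexp_int φ s₁ s₂)
  simp only [RCLike.im_to_complex, Complex.exp_ofReal_mul_I_im] at h2
  exact h2

theorem flow_mem (A : Mod) (Q : Finset (ℤ × ℤ)) (α₁ β₁ α₂ β₂ : ℤ × ℤ → ℝ) {K : Set (ℝ × ℝ)}
    (hK : IsClosed K) (hKc : Convex ℝ K) (h : ∀ p, (tp Q α₁ β₁ p, tp Q α₂ β₂ p) ∈ K) {t : ℝ}
    (ht : 0 ≤ t) (p : ℝ × ℝ) :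
    (tp Q (A.hf α₁ t) (A.hf β₁ t) p, tp Q (A.hf α₂ t) (A.hf β₂ t) p) ∈ K := by
  set γ := (ProbabilityTheory.gaussianReal 0 1).prod (ProbabilityTheory.gaussianReal 0 1) with hγ
  obtain ⟨c₁, c₂, d, hform⟩ : ∃ c₁ c₂ d : ℝ, ∀ x y : ℝ,
      (x * c₁ + y * c₂) ^ 2 + (y * d) ^ 2 = A.q (x, y) := by
    have ha := A.ha
    have hd := A.hd
    have hs : Real.sqrt A.a ^ 2 = A.a := Real.sq_sqrt ha.le
    have hs0 : 0 < Real.sqrt A.a := Real.sqrt_pos.2 ha
    refine ⟨Real.sqrt A.a, A.b / Real.sqrt A.a, Real.sqrt ((A.a * A.c - A.b ^ 2) / A.a), ?_⟩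
    intro x y
    have h1 : Real.sqrt ((A.a * A.c - A.b ^ 2) / A.a) ^ 2 = (A.a * A.c - A.b ^ 2) / A.a :=
      Real.sq_sqrt (by positivity)
    unfold Mod.q
    have e : (x * Real.sqrt A.a + y * (A.b / Real.sqrt A.a)) ^ 2
        = x ^ 2 * Real.sqrt A.a ^ 2 + 2 * A.b * x * y + y ^ 2 * (A.b ^ 2 / Real.sqrt A.a ^ 2) := by
      field_simp
      ring
    rw [e, mul_pow, h1, hs]
    field_simp
    ring
  set r := Real.sqrt (2 * t) with hr
  have hr2 : r ^ 2 = 2 * t := Real.sq_sqrt (by positivity)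
  -- the shifted point
  set F : ℝ × ℝ → ℝ × ℝ := fun z => (p.1 + r * (z.1 * c₁), p.2 + r * (z.1 * c₂ + z.2 * d)) with hF
  have hph : ∀ (q : ℤ × ℤ) (z : ℝ × ℝ), ph q.1 q.2 (F z) = ph q.1 q.2 p
      + (2 * Real.pi * r * (q.1 * c₁ + q.2 * c₂)) * z.1 + (2 * Real.pi * r * (q.2 * d)) * z.2 := by
    intro q z
    simp only [ph, hF]
    ring
  have hexp : ∀ q : ℤ × ℤ, Real.exp (-(((2 * Real.pi * r * (q.1 * c₁ + q.2 * c₂)) ^ 2
      + (2 * Real.pi * r * (q.2 * d)) ^ 2) / 2)) = Real.exp (-(A.lam q * t)) := by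
    intro q
    congr 2
    unfold Mod.lam
    rw [← hform]
    have : ((2 * Real.pi * r * (q.1 * c₁ + q.2 * c₂)) ^ 2 + (2 * Real.pi * r * (q.2 * d)) ^ 2) / 2
        = 2 * Real.pi ^ 2 * r ^ 2 * ((q.1 * c₁ + q.2 * c₂) ^ 2 + (q.2 * d) ^ 2) := by ring
    rw [this, hr2]
    ring
  have hint : ∀ α β : ℤ × ℤ → ℝ, Integrable (fun z => tp Q α β (F z)) γ := by
    intro α β
    unfold tp
    refine integrable_finsetSum _ fun q _ => ?_
    simp only [hph]
    exact ((gcos_int _ _ _).const_mul _).add ((gsin_int _ _ _).const_mul _)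
  have hval : ∀ α β : ℤ × ℤ → ℝ, ∫ z, tp Q α β (F z) ∂γ = tp Q (A.hf α t) (A.hf β t) p := by
    intro α β
    unfold tp
    rw [integral_finsetSum]
    · refine Finset.sum_congr rfl fun q _ => ?_
      simp only [hph]
      rw [integral_add ((gcos_int _ _ _).const_mul _) ((gsin_int _ _ _).const_mul _),
        integral_const_mul, integral_const_mul, gcos, gsin, hexp]
      unfold Mod.hf
      ring
    · intro q _
      simp only [hph]
      exact ((gcos_int _ _ _).const_mul _).add ((gsin_int _ _ _).const_mul _)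
  have hI : Integrable (fun z => (tp Q α₁ β₁ (F z), tp Q α₂ β₂ (F z))) γ :=
    (hint α₁ β₁).prodMk (hint α₂ β₂)
  have hmem := hKc.integral_mem hK (μ := γ) (f := fun z => (tp Q α₁ β₁ (F z), tp Q α₂ β₂ (F z)))
    (Eventually.of_forall fun z => h (F z)) hI
  have e : ∫ z, (tp Q α₁ β₁ (F z), tp Q α₂ β₂ (F z)) ∂γ
      = (tp Q (A.hf α₁ t) (A.hf β₁ t) p, tp Q (A.hf α₂ t) (A.hf β₂ t) p) := by
    rw [integral_pair (hint α₁ β₁) (hint α₂ β₂), hval, hval]
  rw [← e]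
  exact hmem

end Pool.Agent.Lib.MP_2a9317_an.TP
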