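import Pool.Agent.Lib.MP_2a9317_an.TP.Defs

set_option autoImplicit false

/-!
# TP-Jac: `⟨P(g, h) det (∇g, ∇h)⟩ = 0` for every polynomial `P`

By linearity (`MvPolynomial.induction_on'''` / `MvPolynomial.induction_on'` or `P.as_sum` /
`MvPolynomial.eval_eq'`) it suffices to treat `g ^ i * h ^ j`:
`g ^ i h ^ j (dX g dY h - dY g dX h) = (1 / ((i+1) (j+1))) (dX (g^(i+1)) dY (h^(j+1)) -
dY (g^(i+1)) dX (h^(j+1)))`, and `N1.avg_jac` applies to the smooth periodic functions `g ^ (i+1)`,
`h ^ (j+1)` (powers of `IsPot` by induction with `IsPot.mul`; `dX (g^(i+1)) = (i+1) g^i dX g` by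
`dX_mul` and induction).  Integrability of the terms: continuous periodic functions are `BM`
(`bm_of_continuous`).
-/

namespace Pool.Agent.Lib.MP_2a9317_an.TP

open MeasureTheory Matrix Filter Topology Pool.Agent.Lib.MP_2a9317_an.N1
open scoped ContDiff

private theorem jac_pow {g : ℝ × ℝ → ℝ} (hg : IsPot g) (n : ℕ) : IsPot (fun p => g p ^ n) := by
  induction n with
  | zero => simpa using IsPot.const 1
  | succ n ih => simpa [pow_succ] using ih.mul hg

private theorem jac_dX {g : ℝ × ℝ → ℝ} (hg : IsPot g) (n : ℕ) (p : ℝ × ℝ) :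
    dX (fun p => g p ^ (n + 1)) p = ((n : ℝ) + 1) * g p ^ n * dX g p := by
  induction n with
  | zero => simp
  | succ n ih =>
    have h1 : (fun p => g p ^ (n + 1 + 1)) = fun p => g p ^ (n + 1) * g p := by
      funext p; rw [pow_succ]
    rw [h1, dX_mul (jac_pow hg (n + 1)) hg, ih]
    push_cast
    ring

private theorem jac_dY {g : ℝ × ℝ → ℝ} (hg : IsPot g) (n : ℕ) (p : ℝ × ℝ) :
    dY (fun p => g p ^ (n + 1)) p = ((n : ℝ) + 1) * g p ^ n * dY g p := by
  induction n with
  | zero => simp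
  | succ n ih =>
    have h1 : (fun p => g p ^ (n + 1 + 1)) = fun p => g p ^ (n + 1) * g p := by
      funext p; rw [pow_succ]
    rw [h1, dY_mul (jac_pow hg (n + 1)) hg, ih]
    push_cast
    ring

private theorem jac_mono {g h : ℝ × ℝ → ℝ} (hg : IsPot g) (hh : IsPot h) (i j : ℕ) :
    avg (fun p => (g p ^ i * h p ^ j) * (dX g p * dY h p - dY g p * dX h p)) = 0 := by
  have h1 : (fun p => (g p ^ i * h p ^ j) * (dX g p * dY h p - dY g p * dX h p)) =
      fun p => (1 / (((i : ℝ) + 1) * ((j : ℝ) + 1))) *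
        (dX (fun p => g p ^ (i + 1)) p * dY (fun p => h p ^ (j + 1)) p -
          dY (fun p => g p ^ (i + 1)) p * dX (fun p => h p ^ (j + 1)) p) := by
    funext p
    rw [jac_dX hg, jac_dY hh, jac_dY hg, jac_dX hh]
    have hi : ((i : ℝ) + 1) ≠ 0 := by positivity
    have hj : ((j : ℝ) + 1) ≠ 0 := by positivity
    field_simp
  rw [h1, avg_mul', avg_jac (jac_pow hg (i + 1)) (jac_pow hh (j + 1)), mul_zero]

private theorem jac_bm {g : ℝ × ℝ → ℝ} (hg : IsPot g) : BM g :=
  bm_of_continuous hg.continuous hg.2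

theorem jac_poly (P : MvPolynomial (Fin 2) ℝ) {g h : ℝ × ℝ → ℝ} (hg : IsPot g) (hh : IsPot h) :
    avg (fun p => MvPolynomial.eval ![g p, h p] P * (dX g p * dY h p - dY g p * dX h p)) = 0 := by
  have h1 : (fun p => MvPolynomial.eval ![g p, h p] P *
      (dX g p * dY h p - dY g p * dX h p)) = fun p => ∑ d ∈ P.support,
        P.coeff d * ((g p ^ (d 0) * h p ^ (d 1)) *
          (dX g p * dY h p - dY g p * dX h p)) := by
    funext p
    rw [MvPolynomial.eval_eq', Finset.sum_mul]
    refine Finset.sum_congr rfl fun d _ => ?_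
    rw [Fin.prod_univ_two]
    simp only [cons_val_zero, cons_val_one]
    ring
  have hb : ∀ i j : ℕ, BM (fun p => (g p ^ i * h p ^ j) *
      (dX g p * dY h p - dY g p * dX h p)) := by
    intro i j
    exact (((jac_bm (jac_pow hg i)).mul (jac_bm (jac_pow hh j)))).mul
      (((bm_dX hg).mul (bm_dY hh)).sub ((bm_dY hg).mul (bm_dX hh)))
  rw [h1]
  have h2 : ∀ s : Finset (Fin 2 →₀ ℕ), BM (fun p => ∑ d ∈ s,
      P.coeff d * ((g p ^ (d 0) * h p ^ (d 1)) *
        (dX g p * dY h p - dY g p * dX h p))) ∧ avg (fun p => ∑ d ∈ s,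
      P.coeff d * ((g p ^ (d 0) * h p ^ (d 1)) *
        (dX g p * dY h p - dY g p * dX h p))) = 0 := by
    intro s
    induction s using Finset.induction_on with
    | empty =>
      simp only [Finset.sum_empty]
      refine ⟨BM.const 0, ?_⟩
      have := avg_mul' 0 (fun _ => (0 : ℝ))
      simpa using this
    | insert d s hd ih =>
      simp only [Finset.sum_insert hd]
      have hbd : BM (fun p => P.coeff d * ((g p ^ (d 0) * h p ^ (d 1)) *
        (dX g p * dY h p - dY g p * dX h p))) := (hb _ _).const_mul _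
      refine ⟨hbd.add ih.1, ?_⟩
      rw [avg_add' hbd ih.1, ih.2, avg_mul', jac_mono hg hh, mul_zero, add_zero]
  exact (h2 P.support).2

end Pool.Agent.Lib.MP_2a9317_an.TP
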