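import Pool.Agent.Lib.MP_2a9317_an.TP.Gau
import Pool.Agent.Lib.MP_2a9317_an.TP.Dw
import Pool.Agent.Lib.MP_2a9317_an.TP.Dg
import Pool.Agent.Lib.MP_2a9317_an.TP.Jac

set_option autoImplicit false

/-!
# TP-H0: the inequality for trigonometric polynomials

`g_t = (g1 t, g2 t)`, `gj t = tp Q (A.hf αj t) (A.hf βj t)`, `g_0 = g` (`hf_zero`), `g_t p ∈ K` for `t ≥ 0`
(`flow_mem`).  For `i : ι` the field `D i (g_t p)` is `(tp Q (A.hf α t) (A.hf β t) p, tp Q (A.hf α' t) (A.hf β' t) p)`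
with `α q = (D i (α₁ q, α₂ q)).1`, `β q = (D i (β₁ q, β₂ q)).1`, `α' q = (D i (α₁ q, α₂ q)).2`, ...
(linearity, `tp_lin`); so `deriv_gain` gives the derivative `-2 ⟨((D i X).1 + (D i Y).2)²⟩`,
`X = (dX g1, dX g2)`, `Y = (dY g1, dY g2)` at time `t` (`dX` of the first component is `(D i X).1`).
Fix `ε > 0`, `P` from `pointwise`, and let
`Ψ t = ⟨w(g_t)⟩ - ∑ cc i * gain (D i g_t) + ε / (2 lo) * ⟨g1² + g2²⟩`.
`Ψ' t = -⟨hess2 - 2 ∑ cc_i (..)² + (ε / lo) (q ∇g1 + q ∇g2)⟩ ≤ -⟨hess2 - 2 ∑ .. + ε |∇g|²⟩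
≤ -⟨P(g) (dX g1 dY g2 - dX g2 dY g1)⟩ = 0` (`deriv_w`, `deriv_gain`, `deriv_sq`, `lo_le`, `pointwise`,
`jac_poly`; note `X.1 * Y.2 - X.2 * Y.1 = dX g1 * dY g2 - dY g1 * dX g2`) for `t ≥ 0`.  So `Ψ` is
antitone on `[0, ∞)` (`antitoneOn_of_deriv_nonpos`).  As `t → ∞`: `⟨w(g_t)⟩ → w(m)`, `m = mean g`
(`tp_hf_lim`, continuity of `w` at `m`), `gain (D i g_t) → 0` (`gain_add_const`, `gain_le` for
`D i (g_t - m)`), and the last term is nonnegative.  Hence `w m ≤ Ψ 0 + small`, i.e.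
`w m ≤ ⟨w(g)⟩ - ∑ cc i gain (D i g) + ε / (2 lo) ⟨|g|²⟩` for every `ε > 0`.
-/

namespace Pool.Agent.Lib.MP_2a9317_an.TP

open MeasureTheory Matrix Filter Topology Pool.Agent.Lib.MP_2a9317_an.N1
open scoped ContDiff

private theorem H0_cdX {w : ℝ × ℝ → ℝ} (hw : ContDiff ℝ ∞ w) : ContDiff ℝ ∞ (dX w) :=
  (hw.fderiv_right (m := ∞) (by simp)).clm_apply contDiff_const

private theorem H0_cdY {w : ℝ × ℝ → ℝ} (hw : ContDiff ℝ ∞ w) : ContDiff ℝ ∞ (dY w) :=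
  (hw.fderiv_right (m := ∞) (by simp)).clm_apply contDiff_const

private theorem H0_bmp {u : ℝ × ℝ → ℝ} (hu : IsPot u) : BM u := bm_of_continuous hu.continuous hu.2

private theorem H0_lin (L : (ℝ × ℝ) →ₗ[ℝ] (ℝ × ℝ)) (x y : ℝ) :
    L (x, y) = ((L (1, 0)).1 * x + (L (0, 1)).1 * y, (L (1, 0)).2 * x + (L (0, 1)).2 * y) := by
  have e : ((x, y) : ℝ × ℝ) = x • ((1, 0) : ℝ × ℝ) + y • ((0, 1) : ℝ × ℝ) := by simp
  conv_lhs => rw [e, map_add, map_smul, map_smul]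
  ext
  · simp only [Prod.fst_add, Prod.smul_fst, smul_eq_mul]
    ring
  · simp only [Prod.snd_add, Prod.smul_snd, smul_eq_mul]
    ring

/-- the coefficients of a linear combination -/
private noncomputable def cmb (x y : ℝ) (α₁ α₂ : ℤ × ℤ → ℝ) (q : ℤ × ℤ) : ℝ := x * α₁ q + y * α₂ q

private theorem H0_hf (A : Mod) (x y : ℝ) (α₁ α₂ : ℤ × ℤ → ℝ) (t : ℝ) :
    A.hf (cmb x y α₁ α₂) t = fun q => x * A.hf α₁ t q + y * A.hf α₂ t q := by
  funext q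
  unfold Mod.hf cmb
  ring

private theorem H0_tp (A : Mod) (Q : Finset (ℤ × ℤ)) (x y : ℝ) (α₁ β₁ α₂ β₂ : ℤ × ℤ → ℝ) (t : ℝ) :
    tp Q (A.hf (cmb x y α₁ α₂) t) (A.hf (cmb x y β₁ β₂) t)
      = fun p => x * tp Q (A.hf α₁ t) (A.hf β₁ t) p + y * tp Q (A.hf α₂ t) (A.hf β₂ t) p := by
  funext p
  rw [H0_hf, H0_hf, tp_lin]

private theorem H0_dX (A : Mod) (Q : Finset (ℤ × ℤ)) (x y : ℝ) (α₁ β₁ α₂ β₂ : ℤ × ℤ → ℝ) (t : ℝ)
    (p : ℝ × ℝ) :
    dX (tp Q (A.hf (cmb x y α₁ α₂) t) (A.hf (cmb x y β₁ β₂) t)) p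
      = x * dX (tp Q (A.hf α₁ t) (A.hf β₁ t)) p + y * dX (tp Q (A.hf α₂ t) (A.hf β₂ t)) p := by
  have h1 : IsPot (tp Q (A.hf α₁ t) (A.hf β₁ t)) := tp_pot Q _ _
  have h2 : IsPot (tp Q (A.hf α₂ t) (A.hf β₂ t)) := tp_pot Q _ _
  rw [H0_tp, dX_add (h1.smul x) (h2.smul y), dX_smul x h1, dX_smul y h2]

private theorem H0_dY (A : Mod) (Q : Finset (ℤ × ℤ)) (x y : ℝ) (α₁ β₁ α₂ β₂ : ℤ × ℤ → ℝ) (t : ℝ)
    (p : ℝ × ℝ) :
    dY (tp Q (A.hf (cmb x y α₁ α₂) t) (A.hf (cmb x y β₁ β₂) t)) p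
      = x * dY (tp Q (A.hf α₁ t) (A.hf β₁ t)) p + y * dY (tp Q (A.hf α₂ t) (A.hf β₂ t)) p := by
  have h1 : IsPot (tp Q (A.hf α₁ t) (A.hf β₁ t)) := tp_pot Q _ _
  have h2 : IsPot (tp Q (A.hf α₂ t) (A.hf β₂ t)) := tp_pot Q _ _
  rw [H0_tp, dY_add (h1.smul x) (h2.smul y), dY_smul x h1, dY_smul y h2]

/-- the derivative of the gain of the image under a linear map -/
private theorem H0_gain (A : Mod) (L : (ℝ × ℝ) →ₗ[ℝ] (ℝ × ℝ)) (Q : Finset (ℤ × ℤ))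
    (α₁ β₁ α₂ β₂ : ℤ × ℤ → ℝ) (t : ℝ) :
    HasDerivAt (fun t => A.gain (fun p =>
        L (tp Q (A.hf α₁ t) (A.hf β₁ t) p, tp Q (A.hf α₂ t) (A.hf β₂ t) p)))
      (-2 * avg fun p =>
        ((L (dX (tp Q (A.hf α₁ t) (A.hf β₁ t)) p, dX (tp Q (A.hf α₂ t) (A.hf β₂ t)) p)).1
        + (L (dY (tp Q (A.hf α₁ t) (A.hf β₁ t)) p, dY (tp Q (A.hf α₂ t) (A.hf β₂ t)) p)).2) ^ 2)
      t := by
  have h := deriv_gain A Q (cmb (L (1, 0)).1 (L (0, 1)).1 α₁ α₂) (cmb (L (1, 0)).1 (L (0, 1)).1 β₁ β₂)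
    (cmb (L (1, 0)).2 (L (0, 1)).2 α₁ α₂) (cmb (L (1, 0)).2 (L (0, 1)).2 β₁ β₂) t
  have e1 : (fun t => A.gain (fun p =>
        L (tp Q (A.hf α₁ t) (A.hf β₁ t) p, tp Q (A.hf α₂ t) (A.hf β₂ t) p)))
      = fun t => A.gain (fun p =>
        (tp Q (A.hf (cmb (L (1, 0)).1 (L (0, 1)).1 α₁ α₂) t)
          (A.hf (cmb (L (1, 0)).1 (L (0, 1)).1 β₁ β₂) t) p,
        tp Q (A.hf (cmb (L (1, 0)).2 (L (0, 1)).2 α₁ α₂) t)
          (A.hf (cmb (L (1, 0)).2 (L (0, 1)).2 β₁ β₂) t) p)) := by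
    funext s
    congr 1
    funext p
    rw [H0_lin, H0_tp, H0_tp]
  rw [e1]
  refine h.congr_deriv ?_
  congr 2
  funext p
  rw [H0_dX, H0_dY, H0_lin L (dX _ _), H0_lin L (dY _ _)]

private theorem H0_bv (A : Mod) (L : (ℝ × ℝ) →ₗ[ℝ] (ℝ × ℝ)) (Q : Finset (ℤ × ℤ))
    (α₁ β₁ α₂ β₂ : ℤ × ℤ → ℝ) (t : ℝ) :
    BV (fun p => L (tp Q (A.hf α₁ t) (A.hf β₁ t) p, tp Q (A.hf α₂ t) (A.hf β₂ t) p)) := by
  have h1 := H0_bmp (tp_pot Q (A.hf α₁ t) (A.hf β₁ t))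
  have h2 := H0_bmp (tp_pot Q (A.hf α₂ t) (A.hf β₂ t))
  constructor
  · have e : (fun p => (L (tp Q (A.hf α₁ t) (A.hf β₁ t) p, tp Q (A.hf α₂ t) (A.hf β₂ t) p)).1)
        = fun p => (L (1, 0)).1 * tp Q (A.hf α₁ t) (A.hf β₁ t) p
          + (L (0, 1)).1 * tp Q (A.hf α₂ t) (A.hf β₂ t) p := by
      funext p
      rw [H0_lin L (tp _ _ _ _)]
    rw [e]
    exact (h1.const_mul _).add (h2.const_mul _)
  · have e : (fun p => (L (tp Q (A.hf α₁ t) (A.hf β₁ t) p, tp Q (A.hf α₂ t) (A.hf β₂ t) p)).2)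
        = fun p => (L (1, 0)).2 * tp Q (A.hf α₁ t) (A.hf β₁ t) p
          + (L (0, 1)).2 * tp Q (A.hf α₂ t) (A.hf β₂ t) p := by
      funext p
      rw [H0_lin L (tp _ _ _ _)]
    rw [e]
    exact (h1.const_mul _).add (h2.const_mul _)

private theorem H0_gain_lim (A : Mod) (L : (ℝ × ℝ) →ₗ[ℝ] (ℝ × ℝ)) (Q : Finset (ℤ × ℤ))
    (α₁ β₁ α₂ β₂ : ℤ × ℤ → ℝ) :
    Tendsto (fun t => A.gain (fun p =>
        L (tp Q (A.hf α₁ t) (A.hf β₁ t) p, tp Q (A.hf α₂ t) (A.hf β₂ t) p))) atTop (𝓝 0) := by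
  have hlo := lo_pos A
  obtain ⟨m₁, hm₁⟩ : ∃ m, m = avg (tp Q α₁ β₁) := ⟨_, rfl⟩
  obtain ⟨m₂, hm₂⟩ : ∃ m, m = avg (tp Q α₂ β₂) := ⟨_, rfl⟩
  obtain ⟨a, ha⟩ : ∃ a, a = (L (1, 0)).1 := ⟨_, rfl⟩
  obtain ⟨b, hb⟩ : ∃ b, b = (L (0, 1)).1 := ⟨_, rfl⟩
  obtain ⟨c, hc⟩ : ∃ c, c = (L (1, 0)).2 := ⟨_, rfl⟩
  obtain ⟨d, hd⟩ : ∃ d, d = (L (0, 1)).2 := ⟨_, rfl⟩
  have hL : ∀ x y : ℝ, L (x, y) = (a * x + b * y, c * x + d * y) := fun x y => by
    rw [H0_lin, ha, hb, hc, hd]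
  -- the bound
  have key : ∀ e : ℝ, 0 < e → ∀ᶠ t in atTop, A.gain (fun p =>
      L (tp Q (A.hf α₁ t) (A.hf β₁ t) p, tp Q (A.hf α₂ t) (A.hf β₂ t) p))
      ≤ 2 * (a ^ 2 + b ^ 2 + c ^ 2 + d ^ 2) / A.lo * e ^ 2 := by
    intro e he
    filter_upwards [tp_hf_lim Q α₁ β₁ A he, tp_hf_lim Q α₂ β₂ A he] with t h1 h2
    have hbv := H0_bv A L Q α₁ β₁ α₂ β₂ t
    have g1 := gain_add_const A hbv (-(L (m₁, m₂)))
    rw [← g1]
    have hbv' : BV (fun p => L (tp Q (A.hf α₁ t) (A.hf β₁ t) p, tp Q (A.hf α₂ t) (A.hf β₂ t) p)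
        + -(L (m₁, m₂))) :=
      ⟨hbv.1.add (BM.const _), hbv.2.add (BM.const _)⟩
    refine (gain_le A hbv').trans ?_
    rw [div_mul_eq_mul_div]
    refine div_le_div_of_nonneg_right ?_ hlo.le
    have h3 : msq (fun p => L (tp Q (A.hf α₁ t) (A.hf β₁ t) p, tp Q (A.hf α₂ t) (A.hf β₂ t) p)
        + -(L (m₁, m₂))) ≤ avg (fun _ => 2 * (a ^ 2 + b ^ 2 + c ^ 2 + d ^ 2) * e ^ 2) := by
      refine avg_mono' (hbv'.1.sq.add hbv'.2.sq) (BM.const _) fun p => ?_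
      have h1p := h1 p
      have h2p := h2 p
      rw [← hm₁] at h1p
      rw [← hm₂] at h2p
      simp only [hL, Prod.fst_add, Prod.snd_add, Prod.fst_neg, Prod.snd_neg]
      obtain ⟨x, hx⟩ : ∃ x, x = tp Q (A.hf α₁ t) (A.hf β₁ t) p - m₁ := ⟨_, rfl⟩
      obtain ⟨y, hy⟩ : ∃ y, y = tp Q (A.hf α₂ t) (A.hf β₂ t) p - m₂ := ⟨_, rfl⟩
      rw [← hx] at h1p
      rw [← hy] at h2p
      have e1 : a * tp Q (A.hf α₁ t) (A.hf β₁ t) p + b * tp Q (A.hf α₂ t) (A.hf β₂ t) p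
          + -(a * m₁ + b * m₂) = a * x + b * y := by rw [hx, hy]; ring
      have e2 : c * tp Q (A.hf α₁ t) (A.hf β₁ t) p + d * tp Q (A.hf α₂ t) (A.hf β₂ t) p
          + -(c * m₁ + d * m₂) = c * x + d * y := by rw [hx, hy]; ring
      rw [e1, e2]
      have hx2 : x ^ 2 ≤ e ^ 2 := by
        rw [← sq_abs x]
        exact pow_le_pow_left₀ (abs_nonneg _) h1p 2
      have hy2 : y ^ 2 ≤ e ^ 2 := by
        rw [← sq_abs y]
        exact pow_le_pow_left₀ (abs_nonneg _) h2p 2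
      have f1 : (a * x + b * y) ^ 2 ≤ (a ^ 2 + b ^ 2) * (x ^ 2 + y ^ 2) := by
        nlinarith [sq_nonneg (a * y - b * x)]
      have f2 : (c * x + d * y) ^ 2 ≤ (c ^ 2 + d ^ 2) * (x ^ 2 + y ^ 2) := by
        nlinarith [sq_nonneg (c * y - d * x)]
      have f3 : (a ^ 2 + b ^ 2 + (c ^ 2 + d ^ 2)) * (x ^ 2 + y ^ 2)
          ≤ (a ^ 2 + b ^ 2 + (c ^ 2 + d ^ 2)) * (2 * e ^ 2) :=
        mul_le_mul_of_nonneg_left (by linarith) (by positivity)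
      nlinarith [f1, f2, f3]
    rw [avg_const] at h3
    exact h3
  rw [Metric.tendsto_nhds]
  intro η hη
  obtain ⟨C, hC⟩ : ∃ C, C = 2 * (a ^ 2 + b ^ 2 + c ^ 2 + d ^ 2) / A.lo := ⟨_, rfl⟩
  have hC0 : 0 ≤ C := by rw [hC]; positivity
  rw [← hC] at key
  have he : 0 < Real.sqrt (η / (2 * (C + 1))) := Real.sqrt_pos.2 (by positivity)
  filter_upwards [key _ he] with t ht
  rw [Real.sq_sqrt (by positivity)] at ht
  have h0 := gain_nonneg A (H0_bv A L Q α₁ β₁ α₂ β₂ t)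
  rw [Real.dist_eq, sub_zero, abs_of_nonneg h0]
  refine lt_of_le_of_lt ht ?_
  rw [← mul_div_assoc, div_lt_iff₀ (by positivity)]
  nlinarith

/-- the derivative of the Lyapunov function is nonpositive -/
private theorem H0_sign (A : Mod) {ι : Type} [Fintype ι] (D : ι → (ℝ × ℝ) →ₗ[ℝ] (ℝ × ℝ)) (cc : ι → ℝ)
    {w : ℝ × ℝ → ℝ} (hw : ContDiff ℝ ∞ w) {K : Set (ℝ × ℝ)} {ε : ℝ} (hε : 0 < ε)
    {P : MvPolynomial (Fin 2) ℝ}
    (hP : ∀ z ∈ K, ∀ X Y : ℝ × ℝ, MvPolynomial.eval ![z.1, z.2] P * (X.1 * Y.2 - X.2 * Y.1)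
        ≤ hess2 A w z X Y - 2 * ∑ i, cc i * ((D i X).1 + (D i Y).2) ^ 2
          + ε * (X.1 ^ 2 + X.2 ^ 2 + Y.1 ^ 2 + Y.2 ^ 2))
    {g h : ℝ × ℝ → ℝ} (hg : IsPot g) (hh : IsPot h) (hK : ∀ p, (g p, h p) ∈ K) :
    - (avg fun p => hess2 A w (g p, h p) (dX g p, dX h p) (dY g p, dY h p))
      - ∑ i, cc i * (-2 * avg fun p =>
        ((D i (dX g p, dX h p)).1 + (D i (dY g p, dY h p)).2) ^ 2)
      + ε / (2 * A.lo) * ((-2 * avg fun p => A.q (dX g p, dY g p))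
        + (-2 * avg fun p => A.q (dX h p, dY h p))) ≤ 0 := by
  have hlo := lo_pos A
  have bX1 := bm_dX hg
  have bX2 := bm_dX hh
  have bY1 := bm_dY hg
  have bY2 := bm_dY hh
  have p1 : IsPot (fun p => dX (dX w) (g p, h p)) := comp_pot (H0_cdX (H0_cdX hw)) hg hh
  have p2 : IsPot (fun p => dX (dY w) (g p, h p)) := comp_pot (H0_cdX (H0_cdY hw)) hg hh
  have p3 : IsPot (fun p => dY (dY w) (g p, h p)) := comp_pot (H0_cdY (H0_cdY hw)) hg hh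
  have b1 := H0_bmp p1
  have b2 := H0_bmp p2
  have b3 := H0_bmp p3
  have bh : BM (fun p => hess2 A w (g p, h p) (dX g p, dX h p) (dY g p, dY h p)) := by
    unfold hess2 hess
    exact (((((b1.mul bX1.sq).add (((b2.const_mul 2).mul bX1).mul bX2)).add
      (b3.mul bX2.sq)).const_mul A.a).add
      (((((b1.mul bX1).mul bY1).add (b2.mul ((bX1.mul bY2).add (bX2.mul bY1)))).add
        ((b3.mul bX2).mul bY2)).const_mul (2 * A.b))).add
      ((((b1.mul bY1.sq).add (((b2.const_mul 2).mul bY1).mul bY2)).add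
      (b3.mul bY2.sq)).const_mul A.c)
  have bq : ∀ {u v : ℝ × ℝ → ℝ}, BM u → BM v → BM (fun p => A.q (u p, v p)) := by
    intro u v hu hv
    unfold Mod.q
    exact ((hu.sq.const_mul A.a).add (((hu.const_mul (2 * A.b))).mul hv)).add (hv.sq.const_mul A.c)
  have bD : ∀ i, BM (fun p => ((D i (dX g p, dX h p)).1 + (D i (dY g p, dY h p)).2) ^ 2) := by
    intro i
    have e : (fun p => ((D i (dX g p, dX h p)).1 + (D i (dY g p, dY h p)).2) ^ 2)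
        = fun p => (((D i (1, 0)).1 * dX g p + (D i (0, 1)).1 * dX h p)
          + ((D i (1, 0)).2 * dY g p + (D i (0, 1)).2 * dY h p)) ^ 2 := by
      funext p
      rw [H0_lin (D i) (dX _ _), H0_lin (D i) (dY _ _)]
    rw [e]
    exact (((bX1.const_mul _).add (bX2.const_mul _)).add
      ((bY1.const_mul _).add (bY2.const_mul _))).sq
  have hsum : (avg fun p => hess2 A w (g p, h p) (dX g p, dX h p) (dY g p, dY h p)
      - 2 * (∑ i, cc i * ((D i (dX g p, dX h p)).1 + (D i (dY g p, dY h p)).2) ^ 2)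
      + ε / A.lo * (A.q (dX g p, dY g p) + A.q (dX h p, dY h p)))
      = (avg fun p => hess2 A w (g p, h p) (dX g p, dX h p) (dY g p, dY h p))
      - 2 * (∑ i, cc i * avg fun p =>
        ((D i (dX g p, dX h p)).1 + (D i (dY g p, dY h p)).2) ^ 2)
      + ε / A.lo * ((avg fun p => A.q (dX g p, dY g p)) + (avg fun p => A.q (dX h p, dY h p))) := by
    have bs : BM (fun p => ∑ i, cc i * ((D i (dX g p, dX h p)).1 + (D i (dY g p, dY h p)).2) ^ 2) :=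
      BM.sum Finset.univ fun i _ => (bD i).const_mul _
    rw [avg_add' (bh.sub (bs.const_mul 2)) (((bq bX1 bY1).add (bq bX2 bY2)).const_mul _),
      avg_sub' bh (bs.const_mul 2), avg_mul', avg_mul', avg_add' (bq bX1 bY1) (bq bX2 bY2),
      avg_sum' Finset.univ fun i _ => (bD i).const_mul _]
    congr 3
    refine Finset.sum_congr rfl fun i _ => ?_
    rw [avg_mul']
  have hge : 0 ≤ (avg fun p => hess2 A w (g p, h p) (dX g p, dX h p) (dY g p, dY h p)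
      - 2 * (∑ i, cc i * ((D i (dX g p, dX h p)).1 + (D i (dY g p, dY h p)).2) ^ 2)
      + ε / A.lo * (A.q (dX g p, dY g p) + A.q (dX h p, dY h p))) := by
    rw [← jac_poly P hg hh]
    have bs : BM (fun p => ∑ i, cc i * ((D i (dX g p, dX h p)).1 + (D i (dY g p, dY h p)).2) ^ 2) :=
      BM.sum Finset.univ fun i _ => (bD i).const_mul _
    have bP : BM (fun p => MvPolynomial.eval ![g p, h p] P) := by
      refine bm_of_continuous ?_ ?_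
      · have e : (fun p => MvPolynomial.eval ![g p, h p] P)
            = fun p => (MvPolynomial.eval (![g p, h p] : Fin 2 → ℝ)) P := rfl
        rw [e]
        refine (MvPolynomial.continuous_eval P).comp ?_
        refine continuous_pi fun j => ?_
        fin_cases j
        · exact hg.continuous
        · exact hh.continuous
      · intro x y
        constructor
        · change MvPolynomial.eval ![g (x + 1, y), h (x + 1, y)] P
            = MvPolynomial.eval ![g (x, y), h (x, y)] P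
          rw [(hg.2 x y).1, (hh.2 x y).1]
        · change MvPolynomial.eval ![g (x, y + 1), h (x, y + 1)] P
            = MvPolynomial.eval ![g (x, y), h (x, y)] P
          rw [(hg.2 x y).2, (hh.2 x y).2]
    refine avg_mono' (bP.mul ((bX1.mul bY2).sub (bY1.mul bX2)))
      ((bh.sub (bs.const_mul 2)).add (((bq bX1 bY1).add (bq bX2 bY2)).const_mul _)) fun p => ?_
    have h1 := hP _ (hK p) (dX g p, dX h p) (dY g p, dY h p)
    simp only at h1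
    have h2 := lo_le A (dX g p) (dY g p)
    have h3 := lo_le A (dX h p) (dY h p)
    have h4 : ε * (dX g p ^ 2 + dX h p ^ 2 + dY g p ^ 2 + dY h p ^ 2)
        ≤ ε / A.lo * (A.q (dX g p, dY g p) + A.q (dX h p, dY h p)) := by
      have e1 : ε * (dX g p ^ 2 + dX h p ^ 2 + dY g p ^ 2 + dY h p ^ 2)
          = ε / A.lo * (A.lo * (dX g p ^ 2 + dY g p ^ 2) + A.lo * (dX h p ^ 2 + dY h p ^ 2)) := by
        field_simp
        ring
      rw [e1]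
      exact mul_le_mul_of_nonneg_left (by linarith) (by positivity)
    have e2 : dX g p * dY h p - dY g p * dX h p = dX g p * dY h p - dX h p * dY g p := by ring
    rw [e2]
    linarith
  rw [hsum] at hge
  have e3 : ∑ i, cc i * (-2 * avg fun p =>
        ((D i (dX g p, dX h p)).1 + (D i (dY g p, dY h p)).2) ^ 2)
      = -2 * ∑ i, cc i * avg fun p =>
        ((D i (dX g p, dX h p)).1 + (D i (dY g p, dY h p)).2) ^ 2 := by
    rw [Finset.mul_sum]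
    exact Finset.sum_congr rfl fun i _ => by ring
  rw [e3]
  have e4 : ε / (2 * A.lo) * ((-2 * avg fun p => A.q (dX g p, dY g p))
        + (-2 * avg fun p => A.q (dX h p, dY h p)))
      = - (ε / A.lo * ((avg fun p => A.q (dX g p, dY g p))
        + (avg fun p => A.q (dX h p, dY h p)))) := by
    field_simp
    ring
  rw [e4]
  linarith

theorem H0 (A : Mod) {ι : Type} [Fintype ι] (D : ι → (ℝ × ℝ) →ₗ[ℝ] (ℝ × ℝ)) (cc : ι → ℝ)
    {w : ℝ × ℝ → ℝ} (hw : ContDiff ℝ ∞ w) {K : Set (ℝ × ℝ)} (hK : IsCompact K)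
    (hKc : Convex ℝ K)
    (hconv : ∀ z ∈ K, ∀ ζ ξ : ℝ × ℝ, ξ ≠ 0 → 2 * ∑ i, cc i * A.NN ξ (D i ζ) ≤ hess w z ζ)
    (Q : Finset (ℤ × ℤ)) (α₁ β₁ α₂ β₂ : ℤ × ℤ → ℝ)
    (hg : ∀ p, (tp Q α₁ β₁ p, tp Q α₂ β₂ p) ∈ K) :
    w (mean fun p => (tp Q α₁ β₁ p, tp Q α₂ β₂ p))
        + ∑ i, cc i * A.gain (fun p => D i (tp Q α₁ β₁ p, tp Q α₂ β₂ p))
      ≤ avg fun p => w (tp Q α₁ β₁ p, tp Q α₂ β₂ p) := by
  have hlo := lo_pos A
  obtain ⟨S, hS⟩ : ∃ S : ℝ, S = (avg fun p => tp Q α₁ β₁ p ^ 2) + avg fun p => tp Q α₂ β₂ p ^ 2 :=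
    ⟨_, rfl⟩
  obtain ⟨m₁, hm₁⟩ : ∃ m, m = avg (tp Q α₁ β₁) := ⟨_, rfl⟩
  obtain ⟨m₂, hm₂⟩ : ∃ m, m = avg (tp Q α₂ β₂) := ⟨_, rfl⟩
  have hmean : (mean fun p => (tp Q α₁ β₁ p, tp Q α₂ β₂ p)) = (m₁, m₂) := by
    unfold mean
    rw [hm₁, hm₂]
  rw [hmean]
  have hS0 : 0 ≤ S := by
    have h1 : (0:ℝ) ≤ avg fun p => tp Q α₁ β₁ p ^ 2 := by
      have := avg_mono' (BM.const 0) (H0_bmp (tp_pot Q α₁ β₁)).sq fun p => sq_nonneg (tp Q α₁ β₁ p)
      rwa [avg_const] at this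
    have h2 : (0:ℝ) ≤ avg fun p => tp Q α₂ β₂ p ^ 2 := by
      have := avg_mono' (BM.const 0) (H0_bmp (tp_pot Q α₂ β₂)).sq fun p => sq_nonneg (tp Q α₂ β₂ p)
      rwa [avg_const] at this
    rw [hS]
    linarith
  -- the Lyapunov function
  have key : ∀ ε : ℝ, 0 < ε → ∀ η : ℝ, 0 < η →
      w (m₁, m₂) ≤ (avg fun p => w (tp Q α₁ β₁ p, tp Q α₂ β₂ p))
        - ∑ i, cc i * A.gain (fun p => D i (tp Q α₁ β₁ p, tp Q α₂ β₂ p))
        + ε / (2 * A.lo) * S + 2 * η := by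
    intro ε hε η hη
    obtain ⟨P, hP⟩ := pointwise A D cc hw hK hconv hε
    have hpotα : ∀ t, IsPot (tp Q (A.hf α₁ t) (A.hf β₁ t)) := fun t => tp_pot Q _ _
    have hpotβ : ∀ t, IsPot (tp Q (A.hf α₂ t) (A.hf β₂ t)) := fun t => tp_pot Q _ _
    obtain ⟨Ψ, hΨ⟩ : ∃ Ψ : ℝ → ℝ, Ψ = fun t =>
        ((avg fun p => w (tp Q (A.hf α₁ t) (A.hf β₁ t) p, tp Q (A.hf α₂ t) (A.hf β₂ t) p))
        - ∑ i, cc i * A.gain (fun p =>
          D i (tp Q (A.hf α₁ t) (A.hf β₁ t) p, tp Q (A.hf α₂ t) (A.hf β₂ t) p)))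
        + ε / (2 * A.lo) * ((avg fun p => tp Q (A.hf α₁ t) (A.hf β₁ t) p ^ 2)
          + avg fun p => tp Q (A.hf α₂ t) (A.hf β₂ t) p ^ 2) := ⟨_, rfl⟩
    have hder : ∀ t, HasDerivAt Ψ
        (- (avg fun p => hess2 A w (tp Q (A.hf α₁ t) (A.hf β₁ t) p, tp Q (A.hf α₂ t) (A.hf β₂ t) p)
            (dX (tp Q (A.hf α₁ t) (A.hf β₁ t)) p, dX (tp Q (A.hf α₂ t) (A.hf β₂ t)) p)
            (dY (tp Q (A.hf α₁ t) (A.hf β₁ t)) p, dY (tp Q (A.hf α₂ t) (A.hf β₂ t)) p))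
          - ∑ i, cc i * (-2 * avg fun p =>
            ((D i (dX (tp Q (A.hf α₁ t) (A.hf β₁ t)) p, dX (tp Q (A.hf α₂ t) (A.hf β₂ t)) p)).1
            + (D i (dY (tp Q (A.hf α₁ t) (A.hf β₁ t)) p,
              dY (tp Q (A.hf α₂ t) (A.hf β₂ t)) p)).2) ^ 2)
          + ε / (2 * A.lo) * ((-2 * avg fun p => A.q (dX (tp Q (A.hf α₁ t) (A.hf β₁ t)) p,
              dY (tp Q (A.hf α₁ t) (A.hf β₁ t)) p))
            + (-2 * avg fun p => A.q (dX (tp Q (A.hf α₂ t) (A.hf β₂ t)) p,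
              dY (tp Q (A.hf α₂ t) (A.hf β₂ t)) p)))) t := by
      intro t
      rw [hΨ]
      have h1 := deriv_w A hw Q α₁ β₁ α₂ β₂ t
      have h2 : HasDerivAt (fun t => ∑ i, cc i * A.gain (fun p =>
          D i (tp Q (A.hf α₁ t) (A.hf β₁ t) p, tp Q (A.hf α₂ t) (A.hf β₂ t) p)))
          (∑ i, cc i * (-2 * avg fun p =>
            ((D i (dX (tp Q (A.hf α₁ t) (A.hf β₁ t)) p, dX (tp Q (A.hf α₂ t) (A.hf β₂ t)) p)).1
            + (D i (dY (tp Q (A.hf α₁ t) (A.hf β₁ t)) p,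
              dY (tp Q (A.hf α₂ t) (A.hf β₂ t)) p)).2) ^ 2)) t :=
        HasDerivAt.fun_sum fun i _ => (H0_gain A (D i) Q α₁ β₁ α₂ β₂ t).const_mul (cc i)
      have h3 := ((deriv_sq A Q α₁ β₁ t).add (deriv_sq A Q α₂ β₂ t)).const_mul (ε / (2 * A.lo))
      exact (h1.sub h2).add h3
    have hanti : AntitoneOn Ψ (Set.Ici 0) := by
      refine antitoneOn_of_deriv_nonpos (convex_Ici 0)
        (fun t _ => (hder t).continuousAt.continuousWithinAt)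
        (fun t _ => (hder t).differentiableAt.differentiableWithinAt) fun t ht => ?_
      rw [interior_Ici, Set.mem_Ioi] at ht
      rw [(hder t).deriv]
      exact H0_sign A D cc hw hε hP (hpotα t) (hpotβ t)
        (fun p => flow_mem A Q α₁ β₁ α₂ β₂ hK.isClosed hKc hg ht.le p)
    -- the limit
    have hlim2 : Tendsto (fun t => ∑ i, cc i * A.gain (fun p =>
          D i (tp Q (A.hf α₁ t) (A.hf β₁ t) p, tp Q (A.hf α₂ t) (A.hf β₂ t) p))) atTop (𝓝 0) := by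
      have := tendsto_finsetSum (Finset.univ : Finset ι) fun i _ =>
        (H0_gain_lim A (D i) Q α₁ β₁ α₂ β₂).const_mul (cc i)
      simpa using this
    have hev2 := Metric.tendsto_nhds.1 hlim2 η hη
    have hcont : ContinuousAt w (m₁, m₂) := hw.continuous.continuousAt
    obtain ⟨δ, hδ, hδw⟩ := Metric.continuousAt_iff.1 hcont η hη
    have hev1 : ∀ᶠ t in atTop, w (m₁, m₂) - η
        ≤ avg fun p => w (tp Q (A.hf α₁ t) (A.hf β₁ t) p, tp Q (A.hf α₂ t) (A.hf β₂ t) p) := by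
      filter_upwards [tp_hf_lim Q α₁ β₁ A (half_pos hδ), tp_hf_lim Q α₂ β₂ A (half_pos hδ)]
        with t h1 h2
      have h3 := avg_mono' (BM.const (w (m₁, m₂) - η))
        (H0_bmp (comp_pot hw (hpotα t) (hpotβ t))) fun p => by
          have h1p := h1 p
          have h2p := h2 p
          rw [← hm₁] at h1p
          rw [← hm₂] at h2p
          have h4 : dist ((tp Q (A.hf α₁ t) (A.hf β₁ t) p, tp Q (A.hf α₂ t) (A.hf β₂ t) p) : ℝ × ℝ)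
              (m₁, m₂) < δ := by
            rw [Prod.dist_eq, Real.dist_eq, Real.dist_eq]
            exact max_lt (by simp only; linarith) (by simp only; linarith)
          have h5 := hδw h4
          rw [Real.dist_eq] at h5
          have h6 := (abs_lt.1 h5).1
          linarith
      rw [avg_const] at h3
      exact h3
    obtain ⟨t, ht0, ht1, ht2⟩ := ((eventually_ge_atTop (0:ℝ)).and (hev1.and hev2)).exists
    have h5 := hanti (Set.mem_Ici.2 le_rfl) (Set.mem_Ici.2 ht0) ht0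
    have e0 : Ψ 0 = (avg fun p => w (tp Q α₁ β₁ p, tp Q α₂ β₂ p))
        - ∑ i, cc i * A.gain (fun p => D i (tp Q α₁ β₁ p, tp Q α₂ β₂ p))
        + ε / (2 * A.lo) * S := by
      rw [hΨ, hS]
      simp only [hf_zero]
    have et : w (m₁, m₂) - 2 * η ≤ Ψ t := by
      rw [hΨ]
      simp only
      rw [Real.dist_eq, sub_zero] at ht2
      have h6 := (abs_lt.1 ht2).2
      have h7 : (0:ℝ) ≤ avg fun p => tp Q (A.hf α₁ t) (A.hf β₁ t) p ^ 2 := by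
        have := avg_mono' (BM.const 0) (H0_bmp (hpotα t)).sq fun p => sq_nonneg _
        rwa [avg_const] at this
      have h8 : (0:ℝ) ≤ avg fun p => tp Q (A.hf α₂ t) (A.hf β₂ t) p ^ 2 := by
        have := avg_mono' (BM.const 0) (H0_bmp (hpotβ t)).sq fun p => sq_nonneg _
        rwa [avg_const] at this
      have h9 : 0 ≤ ε / (2 * A.lo) * ((avg fun p => tp Q (A.hf α₁ t) (A.hf β₁ t) p ^ 2)
          + avg fun p => tp Q (A.hf α₂ t) (A.hf β₂ t) p ^ 2) :=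
        mul_nonneg (by positivity) (by linarith)
      linarith
    rw [e0] at h5
    linarith
  refine le_of_forall_pos_le_add fun κ hκ => ?_
  have h1 := key (A.lo * κ / (S + 1)) (by positivity) (κ / 4) (by positivity)
  have h2 : A.lo * κ / (S + 1) / (2 * A.lo) * S ≤ κ / 2 := by
    have e : A.lo * κ / (S + 1) / (2 * A.lo) * S = κ / 2 * (S / (S + 1)) := by
      field_simp
    rw [e]
    have : S / (S + 1) ≤ 1 := by
      rw [div_le_one (by positivity)]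
      linarith
    nlinarith
  linarith

end Pool.Agent.Lib.MP_2a9317_an.TP
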