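import Pool.Agent.Lib.MP_2a9317_an.TP.Sem

set_option autoImplicit false

/-!
# TP-Mol: mollification of a semiconvex function

`v` is continuous on `O` (`semi_cont`).  Choose a compact `K'` with `K ⊆ interior K'`, `K' ⊆ O`
(`exists_compact_between`), and `r > 0` with `ball z (2 r) ⊆ K'` for `z ∈ K`
(`IsCompact.exists_thickening_subset_open` or `Metric.infDist`), and (uniform continuity of `v` on
`K'`) `|v x - v z| ≤ ε` for `x ∈ K'`, `z ∈ K`, `dist x z < r`.  Let `f = K'.indicator v` (bounded,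
integrable) and `w z = ∫ y, φ y * f (z - y)` with a `ContDiffBump` `φ` at `0` of outer radius `≤ r`,
normalised to have integral one (`ContDiffBump.normed`): `w = φ.normed μ ⋆ f` is smooth
(`HasCompactSupport.contDiff_convolution_left`) and `|w z - v z| ≤ ε` on `K`
(`ContDiffBump.dist_normed_convolution_le`, or directly).
Second derivative: let `z ∈ K`, `ζ`, `ξ ≠ 0`, `S = ∑ cc i NN ξ (D i ζ)`.  For small `h > 0` and every `y` in the
support of `φ` the points `z - y`, `z - y ± h ζ` lie in `K' ⊆ O`, and the inequality with `θ = 1/2`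
gives `v (z - y) ≤ (v (z - y + hζ) + v (z - y - hζ)) / 2 - (1/4) (2h)² S` (`NN_smul`); integrate:
`0 ≤ w (z + hζ) + w (z - hζ) - 2 w z - 2 h² S =: ψ h`.  `ψ` is smooth, even, `ψ 0 = 0`, `ψ ≥ 0` near `0`;
`ψ'' 0 = 2 hess w z ζ - 4 S`, which must be `≥ 0` (otherwise `ψ h < 0` for small `h`: e.g. divide
by `h²` and let `h → 0`, by Taylor's formula or l'Hopital).
`hess w z ζ` is the second derivative of `h ↦ w (z + h ζ)` at `0`:
`d/dh w (z + hζ) = dX w (z + hζ) ζ.1 + dY w (z + hζ) ζ.2`, and `dX (dY w) = dY (dX w)`.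
-/

namespace Pool.Agent.Lib.MP_2a9317_an.TP

open MeasureTheory Matrix Filter Topology Pool.Agent.Lib.MP_2a9317_an.N1
open scoped ContDiff

private lemma mol_sd {w : ℝ × ℝ → ℝ} (hw : ContDiff ℝ ∞ w) (z a b : ℝ × ℝ) :
    fderiv ℝ (fun p => fderiv ℝ w p a) z b = fderiv ℝ (fderiv ℝ w) z b a := by
  have hd : DifferentiableAt ℝ (fderiv ℝ w) z :=
    (hw.fderiv_right (m := ∞) (by simp)).differentiable (by simp) z
  rw [fderiv_clm_apply hd (differentiableAt_const _)]
  simp

private lemma mol_symm {w : ℝ × ℝ → ℝ} (hw : ContDiff ℝ ∞ w) (z a b : ℝ × ℝ) :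
    fderiv ℝ (fderiv ℝ w) z b a = fderiv ℝ (fderiv ℝ w) z a b := by
  refine (hw.contDiffAt.isSymmSndFDerivAt ?_) _ _
  simp only [minSmoothness_of_isRCLikeNormedField]
  exact WithTop.coe_le_coe.2 (le_top : (2 : ℕ∞) ≤ ⊤)

private lemma mol_hess {w : ℝ × ℝ → ℝ} (hw : ContDiff ℝ ∞ w) (z ζ : ℝ × ℝ) :
    hess w z ζ = fderiv ℝ (fun p => fderiv ℝ w p ζ) z ζ := by
  obtain ⟨B, hB⟩ : ∃ B, B = fderiv ℝ (fderiv ℝ w) z := ⟨_, rfl⟩
  have h11 : dX (dX w) z = B (1, 0) (1, 0) := by
    rw [hB]; exact mol_sd hw z (1, 0) (1, 0)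
  have h12 : dX (dY w) z = B (1, 0) (0, 1) := by
    rw [hB]; exact mol_sd hw z (0, 1) (1, 0)
  have h22 : dY (dY w) z = B (0, 1) (0, 1) := by
    rw [hB]; exact mol_sd hw z (0, 1) (0, 1)
  have h21 : B (0, 1) (1, 0) = B (1, 0) (0, 1) := by
    rw [hB]; exact mol_symm hw z (1, 0) (0, 1)
  have hζ : ζ = ζ.1 • ((1 : ℝ), (0 : ℝ)) + ζ.2 • ((0 : ℝ), (1 : ℝ)) := by
    ext <;> simp
  rw [mol_sd hw, ← hB]
  unfold hess
  rw [h11, h12, h22]
  conv_rhs => rw [hζ]
  simp only [map_add, map_smul, _root_.add_apply, _root_.smul_apply, smul_eq_mul, h21]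
  ring

private lemma mol_second {w : ℝ × ℝ → ℝ} (hw : ContDiff ℝ ∞ w) (z ζ : ℝ × ℝ) (S : ℝ)
    (h : ∀ᶠ t : ℝ in 𝓝 0, 2 * t ^ 2 * S ≤ w (z + t • ζ) + w (z - t • ζ) - 2 * w z) :
    2 * S ≤ hess w z ζ := by
  by_contra hcon
  push Not at hcon
  obtain ⟨F, hF⟩ : ∃ F : ℝ × ℝ → ℝ, F = fun p => fderiv ℝ w p ζ := ⟨_, rfl⟩
  have hwd : Differentiable ℝ w := hw.differentiable (by simp)
  have hFd : Differentiable ℝ F := by
    rw [hF]
    exact ((hw.fderiv_right (m := ∞) (by simp)).clm_apply contDiff_const).differentiable (by simp)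
  have hline : ∀ t : ℝ, HasDerivAt (fun t : ℝ => z + t • ζ) ζ t := by
    intro t
    have := ((hasDerivAt_id t).smul_const ζ).const_add z
    simpa using this
  have hline' : ∀ t : ℝ, HasDerivAt (fun t : ℝ => z - t • ζ) (-ζ) t := by
    intro t
    have := ((hasDerivAt_id t).smul_const ζ).const_sub z
    simpa using this
  have hcomp : ∀ (g : ℝ × ℝ → ℝ), Differentiable ℝ g → ∀ t : ℝ,
      HasDerivAt (fun t : ℝ => g (z + t • ζ)) (fderiv ℝ g (z + t • ζ) ζ) t := by
    intro g hg t
    exact (hg (z + t • ζ)).hasFDerivAt.comp_hasDerivAt t (hline t)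
  have hcomp' : ∀ (g : ℝ × ℝ → ℝ), Differentiable ℝ g → ∀ t : ℝ,
      HasDerivAt (fun t : ℝ => g (z - t • ζ)) (-(fderiv ℝ g (z - t • ζ) ζ)) t := by
    intro g hg t
    have := (hg (z - t • ζ)).hasFDerivAt.comp_hasDerivAt t (hline' t)
    rw [map_neg] at this
    exact this
  obtain ⟨ψ, hψ⟩ : ∃ ψ : ℝ → ℝ, ψ = fun t =>
      -(w (z + t • ζ) + w (z - t • ζ) - 2 * w z - 2 * t ^ 2 * S) := ⟨_, rfl⟩
  have hd1 : ∀ t, HasDerivAt ψ (-(F (z + t • ζ) - F (z - t • ζ) - 4 * t * S)) t := by
    intro t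
    rw [hψ, hF]
    have h1 := (hcomp w hwd t).add (hcomp' w hwd t)
    have h2 := h1.sub_const (2 * w z)
    have h3 : HasDerivAt (fun t : ℝ => 2 * t ^ 2 * S) (4 * t * S) t := by
      have := ((hasDerivAt_pow 2 t).const_mul 2).mul_const S
      refine this.congr_deriv ?_
      have e : (2 : ℕ) - 1 = 1 := rfl
      rw [e, pow_one]
      push_cast
      ring
    have h4 := (h2.sub h3).neg
    refine h4.congr_deriv ?_
    ring
  have hderiv : deriv ψ = fun t => -(F (z + t • ζ) - F (z - t • ζ) - 4 * t * S) :=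
    funext fun t => (hd1 t).deriv
  have hd2 : HasDerivAt (deriv ψ) (-(2 * hess w z ζ - 4 * S)) 0 := by
    rw [hderiv]
    have h1 := (hcomp F hFd 0).sub (hcomp' F hFd 0)
    have h3 : HasDerivAt (fun t : ℝ => 4 * t * S) (4 * S) 0 := by
      have := ((hasDerivAt_id (0 : ℝ)).const_mul 4).mul_const S
      refine this.congr_deriv ?_
      ring
    have h4 := (h1.sub h3).neg
    refine h4.congr_deriv ?_
    rw [mol_hess hw, ← hF]
    simp
    ring
  have hψ0 : ψ 0 = 0 := by
    rw [hψ]
    simp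
    ring
  have hmin : IsLocalMin ψ 0 := by
    apply isLocalMin_of_deriv_deriv_pos
    · rw [hd2.deriv]
      linarith
    · rw [hderiv]
      simp
    · exact (hd1 0).continuousAt
  have hzero : ψ =ᶠ[𝓝 0] fun _ => 0 := by
    filter_upwards [hmin, h] with t h1 h2
    rw [hψ0] at h1
    apply le_antisymm _ h1
    rw [hψ]
    simp only
    linarith
  have h1 := hzero.deriv
  have h2 := h1.deriv_eq
  rw [hd2.deriv] at h2
  simp at h2
  linarith

theorem moll (A : Mod) {ι : Type} [Fintype ι] (D : ι → (ℝ × ℝ) →ₗ[ℝ] (ℝ × ℝ)) (cc : ι → ℝ)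
    {v : ℝ × ℝ → ℝ} {O : Set (ℝ × ℝ)} (hO : IsOpen O) (hOc : Convex ℝ O)
    (hv : Semi A D cc v O) {K : Set (ℝ × ℝ)} (hK : IsCompact K) (hKO : K ⊆ O) {ε : ℝ}
    (hε : 0 < ε) :
    ∃ w : ℝ × ℝ → ℝ, ContDiff ℝ ∞ w ∧ (∀ z ∈ K, |w z - v z| ≤ ε) ∧
      ∀ z ∈ K, ∀ ζ ξ : ℝ × ℝ, ξ ≠ 0 → 2 * ∑ i, cc i * A.NN ξ (D i ζ) ≤ hess w z ζ := by
  have hvc := semi_cont A D cc hO hOc hv
  obtain ⟨δ, hδ, hδO⟩ := hK.exists_cthickening_subset_open hO hKO
  obtain ⟨K', hK'⟩ : ∃ K', K' = Metric.cthickening δ K := ⟨_, rfl⟩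
  rw [← hK'] at hδO
  have hK'c : IsCompact K' := by
    rw [hK']
    exact hK.cthickening
  have hmemK' : ∀ z ∈ K, ∀ x, dist x z ≤ δ → x ∈ K' := by
    intro z hz x hx
    rw [hK']
    exact Metric.mem_cthickening_of_dist_le x z δ K hz hx
  have hvK : ContinuousOn v K' := hvc.mono hδO
  have huc := hK'c.uniformContinuousOn_of_continuous hvK
  rw [Metric.uniformContinuousOn_iff] at huc
  obtain ⟨η, hη, hηv⟩ := huc ε hε
  obtain ⟨r, hr⟩ : ∃ r, r = min (δ / 2) η := ⟨_, rfl⟩
  have hr0 : 0 < r := by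
    rw [hr]
    exact lt_min (by linarith) hη
  have hrδ : r ≤ δ / 2 := by
    rw [hr]
    exact min_le_left _ _
  have hrη : r ≤ η := by
    rw [hr]
    exact min_le_right _ _
  obtain ⟨f, hf⟩ : ∃ f, f = K'.indicator v := ⟨_, rfl⟩
  have hfK : ∀ x ∈ K', f x = v x := by
    intro x hx
    rw [hf]
    exact Set.indicator_of_mem hx v
  have hfint : Integrable f volume := by
    rw [hf, integrable_indicator_iff hK'c.isClosed.measurableSet]
    exact hvK.integrableOn_compact hK'c
  have hfloc : LocallyIntegrable f volume := hfint.locallyIntegrable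
  let φ : ContDiffBump (0 : ℝ × ℝ) := ⟨r / 2, r, by linarith, by linarith⟩
  have hφr : φ.rOut = r := rfl
  obtain ⟨w, hw⟩ : ∃ w : ℝ × ℝ → ℝ, w = fun x =>
      convolution (φ.normed volume) f (ContinuousLinearMap.lsmul ℝ ℝ) volume x := ⟨_, rfl⟩
  have hwval : ∀ x, w x = ∫ t, φ.normed volume t * f (x - t) := by
    intro x
    rw [hw]
    rfl
  have hex : ∀ x, Integrable (fun t => φ.normed volume t * f (x - t)) volume := by
    intro x
    exact φ.hasCompactSupport_normed.convolutionExists_left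
      (ContinuousLinearMap.lsmul ℝ ℝ) (φ.contDiff_normed (n := 0)).continuous hfloc x
  refine ⟨w, ?_, ?_, ?_⟩
  · rw [hw]
    exact φ.hasCompactSupport_normed.contDiff_convolution_left (n := ⊤) _ φ.contDiff_normed hfloc
  · intro z hz
    have hzK' : z ∈ K' := hmemK' z hz z (by rw [dist_self]; exact hδ.le)
    have h1 := φ.dist_normed_convolution_le (μ := volume) (g := f) (x₀ := z) (ε := ε)
      hfint.aestronglyMeasurable (by
        intro x hx
        rw [Metric.mem_ball, hφr] at hx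
        have hxK' : x ∈ K' := hmemK' z hz x (by linarith)
        rw [hfK x hxK', hfK z hzK']
        exact (hηv x hxK' z hzK' (by linarith)).le)
    rw [hfK z hzK', Real.dist_eq] at h1
    rw [hw]
    exact h1
  · intro z hz ζ ξ hξ
    have hwsm : ContDiff ℝ ∞ w := by
      rw [hw]
      exact φ.hasCompactSupport_normed.contDiff_convolution_left (n := ⊤) _ φ.contDiff_normed hfloc
    apply mol_second hwsm
    have hsmall : ∀ᶠ t : ℝ in 𝓝 0, ‖t • ζ‖ < δ / 2 := by
      have hc : Continuous (fun t : ℝ => ‖t • ζ‖) := by fun_prop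
      have h0 : (fun t : ℝ => ‖t • ζ‖) 0 < δ / 2 := by
        simp only [zero_smul, norm_zero]
        linarith
      exact (hc.tendsto 0).eventually (gt_mem_nhds h0)
    filter_upwards [hsmall] with t ht
    obtain ⟨S, hS⟩ : ∃ S, S = ∑ i, cc i * A.NN ξ (D i ζ) := ⟨_, rfl⟩
    rw [← hS]
    have hpt : ∀ y : ℝ × ℝ, 0 ≤ φ.normed volume y * (f (z + t • ζ - y) + f (z - t • ζ - y) -
        2 * f (z - y) - 2 * t ^ 2 * S) := by
      intro y
      by_cases hy : y ∈ Metric.ball (0 : ℝ × ℝ) r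
      · refine mul_nonneg (φ.nonneg_normed y) ?_
        have hy' : ‖y‖ < r := by
          rwa [mem_ball_zero_iff] at hy
        have m1 : z + t • ζ - y ∈ K' := by
          apply hmemK' z hz
          rw [dist_eq_norm]
          have : z + t • ζ - y - z = t • ζ - y := by abel
          rw [this]
          have := norm_sub_le (t • ζ) y
          linarith
        have m2 : z - t • ζ - y ∈ K' := by
          apply hmemK' z hz
          rw [dist_eq_norm]
          have : z - t • ζ - y - z = -(t • ζ + y) := by abel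
          rw [this, norm_neg]
          have := norm_add_le (t • ζ) y
          linarith
        have m3 : z - y ∈ K' := by
          apply hmemK' z hz
          rw [dist_eq_norm]
          have : z - y - z = -y := by abel
          rw [this, norm_neg]
          linarith
        rw [hfK _ m1, hfK _ m2, hfK _ m3]
        have h1 := hv _ (hδO m1) _ (hδO m2) (1 / 2) (by norm_num) (by norm_num) ξ hξ
        have e1 : (1 / 2 : ℝ) • (z + t • ζ - y) + (1 - 1 / 2 : ℝ) • (z - t • ζ - y) = z - y := by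
          ext <;> simp <;> ring
        have e2 : (z + t • ζ - y) - (z - t • ζ - y) = (2 * t) • ζ := by
          ext <;> simp <;> ring
        rw [e1, e2] at h1
        have e3 : ∑ i, cc i * A.NN ξ (D i ((2 * t) • ζ)) = (2 * t) ^ 2 * S := by
          rw [hS, Finset.mul_sum]
          refine Finset.sum_congr rfl fun i _ => ?_
          rw [map_smul, NN_smul]
          ring
        rw [e3] at h1
        nlinarith
      · have h0 : φ.normed volume y = 0 := by
          have : y ∉ Function.support (φ.normed volume) := by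
            rw [φ.support_normed_eq, hφr]
            exact hy
          rwa [Function.mem_support, not_not] at this
        rw [h0, zero_mul]
    have hint : 0 ≤ ∫ y, φ.normed volume y * (f (z + t • ζ - y) + f (z - t • ζ - y) -
        2 * f (z - y) - 2 * t ^ 2 * S) := integral_nonneg fun y => hpt y
    have e4 : (∫ y, φ.normed volume y * (f (z + t • ζ - y) + f (z - t • ζ - y) -
        2 * f (z - y) - 2 * t ^ 2 * S)) =
        w (z + t • ζ) + w (z - t • ζ) - 2 * w z - 2 * t ^ 2 * S := by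
      have hφint : Integrable (φ.normed volume) volume :=
        φ.integrable_normed
      have e5 : (fun y => φ.normed volume y * (f (z + t • ζ - y) + f (z - t • ζ - y) -
        2 * f (z - y) - 2 * t ^ 2 * S)) = fun y =>
          ((φ.normed volume y * f (z + t • ζ - y) + φ.normed volume y * f (z - t • ζ - y)) -
            2 * (φ.normed volume y * f (z - y))) - (2 * t ^ 2 * S) * φ.normed volume y := by
        funext y
        ring
      rw [e5, integral_sub, integral_sub, integral_add, integral_const_mul, integral_const_mul,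
        φ.integral_normed, ← hwval, ← hwval, ← hwval, mul_one]
      · exact hex _
      · exact hex _
      · exact (hex _).add (hex _)
      · exact (hex _).const_mul 2
      · exact ((hex _).add (hex _)).sub ((hex _).const_mul 2)
      · exact hφint.const_mul _
    rw [e4] at hint
    linarith

end Pool.Agent.Lib.MP_2a9317_an.TP
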