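import Pool.Agent.Lib.MP_2a9317_an.TP.H0
import Pool.Agent.Lib.MP_2a9317_an.TP.Mol
import Pool.Agent.Lib.MP_2a9317_an.TP.App

set_option autoImplicit false

/-!
# TP-Hp: the inequality for composites

`Om s` is the interior of the convex hull of the states, `z0 ∈ Om s`, `0 < κ < 1`,
`s' j = (1 - κ) • s j + κ • z0 ∈ Om s` (`Convex.combo_self_interior_mem_interior` or similar).
`K = convexHull {s' j}` is compact, convex, `K ⊆ Om s` (`Om s` is convex: `Convex.interior`).  Choose a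
compact convex `K'` with `K ⊆ interior K'`, `K' ⊆ Om s`: `K' = Metric.cthickening δ K`
(`IsCompact.exists_cthickening_subset_open`, `Convex.cthickening`, `IsCompact.cthickening`).
Let `ε > 0`, `w` from `moll` for `K'` and `ε`.  For `n`: trigonometric `g_n` with values in `K'` and
`⟨|g_n - s'_χ|²⟩ ≤ 1/(n+1)` (`approx` for `s'`).  `H0` for `w`, `K'`, `g_n`:
`w (mean g_n) + ∑ cc i gain (D i g_n) ≤ ⟨w(g_n)⟩`.  Limits: `mean g_n → mean s'_χ =: m` (`avg_cs`:
`|⟨f⟩|² ≤ ⟨f²⟩`), `m = (1 - κ) • mean s_χ + κ • z0 ∈ K` (`m` is a convex combination; e.g. apply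
`Convex.integral_mem`, or conclude from `mean g_n ∈ K'`, closed: `m ∈ K' ⊆ Om s` is enough);
`gain (D i g_n) → gain (D i s'_χ) = (1 - κ)² gain (D i s_χ)` (`gain_cont` for `G = D i s'_χ`,
`msq (D i g_n - D i s'_χ) ≤ C ⟨|g_n - s'_χ|²⟩`; `gain_add_const`, `gain_smul`);
`⟨w(g_n)⟩ → ⟨w(s'_χ)⟩`: `w` is Lipschitz on the compact convex `K'` (or: uniformly continuous), `avg_cs`.
So `w m + (1 - κ)² ∑ cc i gain (D i s_χ) ≤ ⟨w(s'_χ)⟩`, and `|w - v| ≤ ε` on `K'`; `ε → 0`.
-/

namespace Pool.Agent.Lib.MP_2a9317_an.TP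

open MeasureTheory Matrix Filter Topology Pool.Agent.Lib.MP_2a9317_an.N1
open scoped ContDiff

/-- phases give bounded measurable fields -/
theorem BV_phase {k : ℕ} (s : Fin k → ℝ × ℝ) {χ : ℝ × ℝ → Fin k} (hχ : IsPartition χ) :
    BV (fun p => s (χ p)) :=
  ⟨BM.phase (fun j => (s j).1) hχ.1, BM.phase (fun j => (s j).2) hχ.1⟩

/-- linear maps are bounded (for the euclidean square) -/
private theorem hp_lin (L : (ℝ × ℝ) →ₗ[ℝ] (ℝ × ℝ)) :
    ∃ C : ℝ, 0 ≤ C ∧ ∀ ζ : ℝ × ℝ, (L ζ).1 ^ 2 + (L ζ).2 ^ 2 ≤ C * (ζ.1 ^ 2 + ζ.2 ^ 2) := by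
  refine ⟨2 * ((L (1, 0)).1 ^ 2 + (L (1, 0)).2 ^ 2 + (L (0, 1)).1 ^ 2 + (L (0, 1)).2 ^ 2),
    by positivity, fun ζ => ?_⟩
  have e : L ζ = ζ.1 • L (1, 0) + ζ.2 • L (0, 1) := by
    rw [← map_smul, ← map_smul, ← map_add]
    congr 1
    ext <;> simp
  rw [e]
  simp only [Prod.fst_add, Prod.snd_add, Prod.smul_fst, Prod.smul_snd, smul_eq_mul]
  nlinarith [sq_nonneg (ζ.1 * (L (1, 0)).1 - ζ.2 * (L (0, 1)).1),
    sq_nonneg (ζ.1 * (L (1, 0)).2 - ζ.2 * (L (0, 1)).2),
    mul_nonneg (sq_nonneg ζ.1) (sq_nonneg (L (0, 1)).1),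
    mul_nonneg (sq_nonneg ζ.1) (sq_nonneg (L (0, 1)).2),
    mul_nonneg (sq_nonneg ζ.2) (sq_nonneg (L (1, 0)).1),
    mul_nonneg (sq_nonneg ζ.2) (sq_nonneg (L (1, 0)).2)]

private theorem hp_BV_lin {G : ℝ × ℝ → ℝ × ℝ} (hG : BV G) (L : (ℝ × ℝ) →ₗ[ℝ] (ℝ × ℝ)) :
    BV (fun p => L (G p)) := by
  have e : ∀ ζ : ℝ × ℝ, L ζ = ζ.1 • L (1, 0) + ζ.2 • L (0, 1) := by
    intro ζ
    rw [← map_smul, ← map_smul, ← map_add]
    congr 1
    ext <;> simp
  have e1 : (fun p => (L (G p)).1) = fun p => (G p).1 * (L (1, 0)).1 + (G p).2 * (L (0, 1)).1 := by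
    funext p
    rw [e (G p)]
    simp
  have e2 : (fun p => (L (G p)).2) = fun p => (G p).1 * (L (1, 0)).2 + (G p).2 * (L (0, 1)).2 := by
    funext p
    rw [e (G p)]
    simp
  refine ⟨?_, ?_⟩
  · rw [e1]
    exact (hG.1.mul_const _).add (hG.2.mul_const _)
  · rw [e2]
    exact (hG.1.mul_const _).add (hG.2.mul_const _)

/-- bound of a continuous function on a compact set by the distance -/
private theorem hp_uc {K : Set (ℝ × ℝ)} (hK : IsCompact K) {w : ℝ × ℝ → ℝ}
    (hw : ContinuousOn w K) {η : ℝ} (hη : 0 < η) :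
    ∃ C : ℝ, 0 ≤ C ∧ ∀ x ∈ K, ∀ y ∈ K,
      |w x - w y| ≤ η + C * ((x.1 - y.1) ^ 2 + (x.2 - y.2) ^ 2) := by
  obtain ⟨M, hM⟩ := hK.exists_bound_of_continuousOn hw
  have huc := hK.uniformContinuousOn_of_continuous hw
  rw [Metric.uniformContinuousOn_iff] at huc
  obtain ⟨δ, hδ, h⟩ := huc η hη
  have hM0 : 0 ≤ |M| := abs_nonneg _
  refine ⟨2 * |M| / δ ^ 2, by positivity, fun x hx y hy => ?_⟩
  by_cases hd : dist x y < δ
  · have h1 := h x hx y hy hd
    rw [Real.dist_eq] at h1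
    have : 0 ≤ 2 * |M| / δ ^ 2 * ((x.1 - y.1) ^ 2 + (x.2 - y.2) ^ 2) := by positivity
    linarith
  · push Not at hd
    have h1 : |w x - w y| ≤ 2 * |M| := by
      have a := hM x hx
      have b := hM y hy
      rw [Real.norm_eq_abs] at a b
      have c := le_abs_self M
      have := abs_sub (w x) (w y)
      linarith
    have h2 : δ ^ 2 ≤ (x.1 - y.1) ^ 2 + (x.2 - y.2) ^ 2 := by
      rw [Prod.dist_eq, Real.dist_eq, Real.dist_eq] at hd
      rcases le_max_iff.1 hd with h3 | h3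
      · have := pow_le_pow_left₀ hδ.le h3 2
        rw [sq_abs] at this
        nlinarith [sq_nonneg (x.2 - y.2)]
      · have := pow_le_pow_left₀ hδ.le h3 2
        rw [sq_abs] at this
        nlinarith [sq_nonneg (x.1 - y.1)]
    have h3 : 2 * |M| ≤ 2 * |M| / δ ^ 2 * ((x.1 - y.1) ^ 2 + (x.2 - y.2) ^ 2) := by
      rw [div_mul_eq_mul_div, le_div_iff₀ (by positivity)]
      exact mul_le_mul_of_nonneg_left h2 (by positivity)
    linarith

/-- the square of the average is at most the average of the square -/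
private theorem hp_sq {f : ℝ × ℝ → ℝ} (hf : BM f) : avg f ^ 2 ≤ avg (fun p => f p ^ 2) := by
  have h := avg_cs hf (BM.const 1)
  have e : (fun _ : ℝ × ℝ => (1 : ℝ) ^ 2) = fun _ => 1 := by
    funext p
    norm_num
  simp only [mul_one] at h
  rw [e, avg_const, mul_one] at h
  exact h

/-- the mean of a field with values in a closed convex set -/
private theorem hp_mean {K : Set (ℝ × ℝ)} (hK : IsClosed K) (hc : Convex ℝ K)
    {G : ℝ × ℝ → ℝ × ℝ} (hG : BV G) (h : ∀ p, G p ∈ K) : mean G ∈ K := by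
  have : IsProbabilityMeasure ((volume : Measure (ℝ × ℝ)).restrict cell) := by
    refine ⟨?_⟩
    rw [Measure.restrict_apply_univ]
    exact volume_cell
  have hi : Integrable G ((volume : Measure (ℝ × ℝ)).restrict cell) := by
    have h1 := hG.1.integrableOn
    have h2 := hG.2.integrableOn
    exact (h1.prodMk h2)
  have h1 := hc.integral_mem hK (Filter.Eventually.of_forall h) hi
  have e : mean G = ∫ p in cell, G p := by
    refine Prod.ext ?_ ?_
    · rw [fst_integral hi]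
      rfl
    · rw [snd_integral hi]
      rfl
  rw [e]
  exact h1

/-- The inequality for a smooth function and a composite with states in a compact convex set. -/
private theorem hp_core (A : Mod) {ι : Type} [Fintype ι] (D : ι → (ℝ × ℝ) →ₗ[ℝ] (ℝ × ℝ))
    (cc : ι → ℝ) {w : ℝ × ℝ → ℝ} (hw : ContDiff ℝ ∞ w) {K K' : Set (ℝ × ℝ)} (hK : IsCompact K)
    (hKc : Convex ℝ K) (hK' : IsCompact K') (hKc' : Convex ℝ K') (hKK : K ⊆ interior K')
    (hconv : ∀ z ∈ K', ∀ ζ ξ : ℝ × ℝ, ξ ≠ 0 → 2 * ∑ i, cc i * A.NN ξ (D i ζ) ≤ hess w z ζ)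
    {k : ℕ} (s : Fin k → ℝ × ℝ) {χ : ℝ × ℝ → Fin k} (hχ : IsPartition χ) (hs : ∀ j, s j ∈ K) :
    w (mean fun p => s (χ p)) + ∑ i, cc i * A.gain (fun p => D i (s (χ p)))
      ≤ avg fun p => w (s (χ p)) := by
  have hsK' : ∀ j, s j ∈ K' := fun j => interior_subset (hKK (hs j))
  have hwc : Continuous w := hw.continuous
  have hBs : BV (fun p => s (χ p)) := BV_phase s hχ
  -- approximants
  have happ : ∀ n : ℕ, ∃ G : ℝ × ℝ → ℝ × ℝ, BV G ∧ (∀ p, G p ∈ K') ∧
      avg (fun p => ((G p).1 - (s (χ p)).1) ^ 2 + ((G p).2 - (s (χ p)).2) ^ 2) ≤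
        1 / ((n : ℝ) + 1) ∧
      w (mean G) + ∑ i, cc i * A.gain (fun p => D i (G p)) ≤ avg fun p => w (G p) := by
    intro n
    obtain ⟨Q, α₁, β₁, α₂, β₂, h1, h2⟩ := approx s hχ hKc hK hKK hs (ε := 1 / ((n : ℝ) + 1))
      (by positivity)
    exact ⟨fun p => (tp Q α₁ β₁ p, tp Q α₂ β₂ p),
      ⟨bm_of_continuous (tp_pot _ _ _).1.continuous (tp_pot _ _ _).2,
        bm_of_continuous (tp_pot _ _ _).1.continuous (tp_pot _ _ _).2⟩,
      h1, h2, H0 A D cc hw hK' hKc' hconv Q α₁ β₁ α₂ β₂ h1⟩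
  choose G hG1 hG2 hG3 hG4 using happ
  obtain ⟨e, he⟩ : ∃ e : ℕ → ℝ, e = fun n =>
    avg (fun p => ((G n p).1 - (s (χ p)).1) ^ 2 + ((G n p).2 - (s (χ p)).2) ^ 2) := ⟨_, rfl⟩
  have hen : ∀ n, e n =
      avg (fun p => ((G n p).1 - (s (χ p)).1) ^ 2 + ((G n p).2 - (s (χ p)).2) ^ 2) := by
    intro n
    rw [he]
  have he0 : ∀ n, 0 ≤ e n := by
    intro n
    rw [hen]
    exact avg_nonneg fun p => by positivity
  have helim : Tendsto e atTop (𝓝 0) := by
    refine squeeze_zero he0 (fun n => ?_) tendsto_one_div_add_atTop_nhds_zero_nat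
    rw [hen]
    exact hG3 n
  have hb1 : ∀ n, BM (fun p => (G n p).1 - (s (χ p)).1) := fun n => (hG1 n).1.sub hBs.1
  have hb2 : ∀ n, BM (fun p => (G n p).2 - (s (χ p)).2) := fun n => (hG1 n).2.sub hBs.2
  -- the means
  have hm1 : Tendsto (fun n => avg fun p => (G n p).1) atTop (𝓝 (avg fun p => (s (χ p)).1)) := by
    rw [tendsto_iff_dist_tendsto_zero]
    have h1 : Tendsto (fun n => Real.sqrt (e n)) atTop (𝓝 0) := by
      have := (Real.continuous_sqrt.tendsto 0).comp helim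
      rw [Real.sqrt_zero] at this
      exact this
    refine squeeze_zero (fun n => dist_nonneg) (fun n => ?_) h1
    rw [Real.dist_eq, ← avg_sub' (hG1 n).1 hBs.1]
    apply Real.abs_le_sqrt
    refine (hp_sq (hb1 n)).trans ?_
    rw [hen]
    exact avg_mono' (hb1 n).sq ((hb1 n).sq.add (hb2 n).sq) fun p => by
      have := sq_nonneg ((G n p).2 - (s (χ p)).2)
      linarith
  have hm2 : Tendsto (fun n => avg fun p => (G n p).2) atTop (𝓝 (avg fun p => (s (χ p)).2)) := by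
    rw [tendsto_iff_dist_tendsto_zero]
    have h1 : Tendsto (fun n => Real.sqrt (e n)) atTop (𝓝 0) := by
      have := (Real.continuous_sqrt.tendsto 0).comp helim
      rw [Real.sqrt_zero] at this
      exact this
    refine squeeze_zero (fun n => dist_nonneg) (fun n => ?_) h1
    rw [Real.dist_eq, ← avg_sub' (hG1 n).2 hBs.2]
    apply Real.abs_le_sqrt
    refine (hp_sq (hb2 n)).trans ?_
    rw [hen]
    exact avg_mono' (hb2 n).sq ((hb1 n).sq.add (hb2 n).sq) fun p => by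
      have := sq_nonneg ((G n p).1 - (s (χ p)).1)
      linarith
  have hmean : Tendsto (fun n => w (mean (G n))) atTop (𝓝 (w (mean fun p => s (χ p)))) :=
    (hwc.tendsto _).comp (hm1.prodMk_nhds hm2)
  -- the gains
  have hgain : ∀ i, Tendsto (fun n => A.gain (fun p => D i (G n p))) atTop
      (𝓝 (A.gain (fun p => D i (s (χ p))))) := by
    intro i
    rw [Metric.tendsto_atTop]
    intro ε hε
    obtain ⟨δ, hδ, h⟩ := gain_cont A (hp_BV_lin hBs (D i)) (ε := ε / 2) (by linarith)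
    obtain ⟨C, hC0, hC⟩ := hp_lin (D i)
    have h1 : Tendsto (fun n => C * e n) atTop (𝓝 0) := by
      simpa using helim.const_mul C
    obtain ⟨n0, hn0⟩ := (Metric.tendsto_atTop.1 h1) δ hδ
    refine ⟨n0, fun n hn => ?_⟩
    have h2 := hn0 n hn
    rw [Real.dist_eq, sub_zero] at h2
    have h3 : msq (fun p => D i (G n p) - D i (s (χ p))) ≤ δ := by
      refine le_trans ?_ ((le_abs_self _).trans h2.le)
      unfold msq
      rw [hen, ← avg_mul']
      have hb3 : BV (fun p => D i (G n p) - D i (s (χ p))) := by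
        refine ⟨?_, ?_⟩
        · exact (hp_BV_lin (hG1 n) (D i)).1.sub (hp_BV_lin hBs (D i)).1
        · exact (hp_BV_lin (hG1 n) (D i)).2.sub (hp_BV_lin hBs (D i)).2
      refine avg_mono' (hb3.1.sq.add hb3.2.sq)
        (((hb1 n).sq.add (hb2 n).sq).const_mul C) fun p => ?_
      have h4 := hC (G n p - s (χ p))
      rw [map_sub] at h4
      simpa using h4
    have h4 := h _ (hp_BV_lin (hG1 n) (D i)) h3
    rw [Real.dist_eq]
    linarith
  have hsum : Tendsto (fun n => ∑ i, cc i * A.gain (fun p => D i (G n p))) atTop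
      (𝓝 (∑ i, cc i * A.gain (fun p => D i (s (χ p))))) :=
    tendsto_finsetSum _ fun i _ => (hgain i).const_mul (cc i)
  -- the averages
  obtain ⟨M, hM⟩ := hK'.exists_bound_of_continuousOn hwc.continuousOn
  have hbw : ∀ n, BM (fun p => w (G n p)) := by
    intro n
    refine ⟨hwc.measurable.comp ((hG1 n).1.1.prodMk (hG1 n).2.1), M, fun p => ?_⟩
    have := hM _ (hG2 n p)
    rwa [Real.norm_eq_abs] at this
  have hbws : BM (fun p => w (s (χ p))) := BM.phase (fun j => w (s j)) hχ.1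
  have havg : Tendsto (fun n => avg fun p => w (G n p)) atTop (𝓝 (avg fun p => w (s (χ p)))) := by
    rw [Metric.tendsto_atTop]
    intro ε hε
    obtain ⟨C, hC0, hC⟩ := hp_uc hK' hwc.continuousOn (η := ε / 2) (by linarith)
    have h1 : Tendsto (fun n => C * e n) atTop (𝓝 0) := by
      simpa using helim.const_mul C
    obtain ⟨n0, hn0⟩ := (Metric.tendsto_atTop.1 h1) (ε / 2) (by linarith)
    refine ⟨n0, fun n hn => ?_⟩
    have h2 := hn0 n hn
    rw [Real.dist_eq, sub_zero, abs_of_nonneg (mul_nonneg hC0 (he0 n))] at h2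
    rw [Real.dist_eq, ← avg_sub' (hbw n) hbws]
    have hbC : BM (fun p => ε / 2 + C * (((G n p).1 - (s (χ p)).1) ^ 2 +
        ((G n p).2 - (s (χ p)).2) ^ 2)) :=
      (BM.const (ε / 2)).add (((hb1 n).sq.add (hb2 n).sq).const_mul C)
    have hval : avg (fun p => ε / 2 + C * (((G n p).1 - (s (χ p)).1) ^ 2 +
        ((G n p).2 - (s (χ p)).2) ^ 2)) = ε / 2 + C * e n := by
      rw [avg_add' (BM.const (ε / 2)) (((hb1 n).sq.add (hb2 n).sq).const_mul C), avg_const,
        avg_mul', hen]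
    have hup : avg (fun p => w (G n p) - w (s (χ p))) ≤ ε / 2 + C * e n := by
      rw [← hval]
      exact avg_mono' ((hbw n).sub hbws) hbC fun p =>
        (le_abs_self _).trans (hC _ (hG2 n p) _ (hsK' _))
    have hlo : -(ε / 2 + C * e n) ≤ avg (fun p => w (G n p) - w (s (χ p))) := by
      rw [← hval, ← avg_neg']
      exact avg_mono' hbC.neg ((hbw n).sub hbws) fun p => by
        have h3 := hC _ (hG2 n p) _ (hsK' (χ p))
        have h4 := neg_abs_le (w (G n p) - w (s (χ p)))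
        linarith
    have : |avg (fun p => w (G n p) - w (s (χ p)))| ≤ ε / 2 + C * e n := abs_le.2 ⟨hlo, hup⟩
    linarith
  exact le_of_tendsto_of_tendsto' (hmean.add hsum) havg hG4

theorem Hp (A : Mod) {ι : Type} [Fintype ι] (D : ι → (ℝ × ℝ) →ₗ[ℝ] (ℝ × ℝ)) (cc : ι → ℝ)
    {k : ℕ} (s : Fin k → ℝ × ℝ) {z0 : ℝ × ℝ} (hz0 : z0 ∈ Om s) {v : ℝ × ℝ → ℝ}
    (hv : Semi A D cc v (Om s)) {χ : ℝ × ℝ → Fin k} (hχ : IsPartition χ) {κ : ℝ} (h0 : 0 < κ)
    (h1 : κ < 1) :
    v ((1 - κ) • mean (fun p => s (χ p)) + κ • z0)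
        + (1 - κ) ^ 2 * ∑ i, cc i * A.gain (fun p => D i (s (χ p)))
      ≤ avg fun p => v ((1 - κ) • s (χ p) + κ • z0) := by
  obtain ⟨s', hs'⟩ : ∃ s' : Fin k → ℝ × ℝ, s' = fun j => (1 - κ) • s j + κ • z0 := ⟨_, rfl⟩
  have hsj : ∀ j, s' j = (1 - κ) • s j + κ • z0 := fun j => by rw [hs']
  have hOc : Convex ℝ (Om s) := (convex_convexHull ℝ _).interior
  have hOo : IsOpen (Om s) := isOpen_interior
  have hmem : ∀ j, s' j ∈ Om s := by
    intro j
    rw [hsj]
    exact (convex_convexHull ℝ (Set.range s)).combo_self_interior_mem_interior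
      (subset_convexHull ℝ _ ⟨j, rfl⟩) hz0 (by linarith) h0 (by ring)
  obtain ⟨K, hKdef⟩ : ∃ K : Set (ℝ × ℝ), K = convexHull ℝ (Set.range s') := ⟨_, rfl⟩
  have hKc : Convex ℝ K := by rw [hKdef]; exact convex_convexHull ℝ _
  have hK : IsCompact K := by rw [hKdef]; exact (Set.finite_range s').isCompact_convexHull ℝ
  have hsK : ∀ j, s' j ∈ K := by
    intro j
    rw [hKdef]
    exact subset_convexHull ℝ _ ⟨j, rfl⟩
  have hKO : K ⊆ Om s := by
    rw [hKdef]
    exact convexHull_min (by rintro _ ⟨j, rfl⟩; exact hmem j) hOc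
  obtain ⟨δ, hδ, hKO'⟩ := hK.exists_cthickening_subset_open hOo hKO
  obtain ⟨K', hK'def⟩ : ∃ K' : Set (ℝ × ℝ), K' = Metric.cthickening δ K := ⟨_, rfl⟩
  rw [← hK'def] at hKO'
  have hK' : IsCompact K' := by rw [hK'def]; exact hK.cthickening
  have hKc' : Convex ℝ K' := by rw [hK'def]; exact hKc.cthickening δ
  have hKK : K ⊆ interior K' := by
    rw [hK'def]
    exact (Metric.self_subset_thickening hδ K).trans (Metric.thickening_subset_interior_cthickening δ K)
  have hBs : BV (fun p => s (χ p)) := BV_phase s hχ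
  have hBs' : BV (fun p => s' (χ p)) := BV_phase s' hχ
  have hsK' : ∀ j, s' j ∈ K' := fun j => interior_subset (hKK (hsK j))
  -- the mean
  have hm : mean (fun p => s' (χ p)) = (1 - κ) • mean (fun p => s (χ p)) + κ • z0 := by
    refine Prod.ext ?_ ?_
    · show avg (fun p => (s' (χ p)).1) = (1 - κ) * avg (fun p => (s (χ p)).1) + κ * z0.1
      have e1 : (fun p => (s' (χ p)).1) = fun p => (1 - κ) * (s (χ p)).1 + κ * z0.1 := by
        funext p
        rw [hsj]
        simp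
      rw [e1, avg_add' (hBs.1.const_mul _) (BM.const _), avg_mul', avg_const]
    · show avg (fun p => (s' (χ p)).2) = (1 - κ) * avg (fun p => (s (χ p)).2) + κ * z0.2
      have e1 : (fun p => (s' (χ p)).2) = fun p => (1 - κ) * (s (χ p)).2 + κ * z0.2 := by
        funext p
        rw [hsj]
        simp
      rw [e1, avg_add' (hBs.2.const_mul _) (BM.const _), avg_mul', avg_const]
  have hmK : mean (fun p => s' (χ p)) ∈ K' := hp_mean hK'.isClosed hKc' hBs' fun p => hsK' _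
  -- the gains
  have hg : ∀ i, A.gain (fun p => D i (s' (χ p))) = (1 - κ) ^ 2 * A.gain (fun p => D i (s (χ p))) := by
    intro i
    have e1 : (fun p => D i (s' (χ p))) = fun p => (1 - κ) • D i (s (χ p)) + κ • D i z0 := by
      funext p
      rw [hsj, map_add, map_smul, map_smul]
    have hb : BV (fun p => D i (s (χ p))) := hp_BV_lin hBs (D i)
    have hb2 : BV (fun p => (1 - κ) • D i (s (χ p))) := by
      refine ⟨?_, ?_⟩
      · exact hb.1.const_mul (1 - κ)
      · exact hb.2.const_mul (1 - κ)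
    rw [e1, gain_add_const A hb2, gain_smul A hb]
  have hgs : ∑ i, cc i * A.gain (fun p => D i (s' (χ p))) =
      (1 - κ) ^ 2 * ∑ i, cc i * A.gain (fun p => D i (s (χ p))) := by
    rw [Finset.mul_sum]
    refine Finset.sum_congr rfl fun i _ => ?_
    rw [hg]
    ring
  -- conclusion
  have hvphase : BM (fun p => v (s' (χ p))) := BM.phase (fun j => v (s' j)) hχ.1
  have hfin : ∀ ε : ℝ, 0 < ε → v (mean fun p => s' (χ p))
      + ∑ i, cc i * A.gain (fun p => D i (s' (χ p))) ≤ (avg fun p => v (s' (χ p))) + 2 * ε := by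
    intro ε hε
    obtain ⟨w, hw, hwv, hconv⟩ := moll A D cc hOo hOc hv hK' hKO' hε
    have hmain := hp_core A D cc hw hK hKc hK' hKc' hKK hconv s' hχ hsK
    have hwphase : BM (fun p => w (s' (χ p))) := BM.phase (fun j => w (s' j)) hχ.1
    have a1 : v (mean fun p => s' (χ p)) ≤ w (mean fun p => s' (χ p)) + ε := by
      have := (abs_le.1 (hwv _ hmK)).1
      linarith
    have a2 : (avg fun p => w (s' (χ p))) ≤ (avg fun p => v (s' (χ p))) + ε := by
      have := avg_mono' hwphase (hvphase.add (BM.const ε)) fun p => by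
        have := (abs_le.1 (hwv _ (hsK' (χ p)))).2
        linarith
      rw [avg_add' hvphase (BM.const ε), avg_const] at this
      exact this
    linarith
  have hlim : v (mean fun p => s' (χ p)) + ∑ i, cc i * A.gain (fun p => D i (s' (χ p)))
      ≤ avg fun p => v (s' (χ p)) := by
    apply le_of_forall_pos_le_add
    intro ε hε
    have := hfin (ε / 2) (by linarith)
    linarith
  rw [hm, hgs] at hlim
  have e2 : (fun p => v (s' (χ p))) = fun p => v ((1 - κ) • s (χ p) + κ • z0) := by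
    funext p
    rw [hsj]
  rw [e2] at hlim
  exact hlim

end Pool.Agent.Lib.MP_2a9317_an.TP
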