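import Pool.Agent.Lib.MP_2a9317_an.TP.Q0

set_option autoImplicit false

/-!
# TP-KD: definitions for the affine problem with `n` fields
-/

namespace Pool.Agent.Lib.MP_2a9317_an.TP

open MeasureTheory Matrix Filter Topology
open scoped ContDiff Kronecker

/-- symmetric matrices on `S_n ⊕ ℝ` -/
abbrev Mn (n : ℕ) : Type := Matrix (Ent n ⊕ Unit) (Ent n ⊕ Unit) ℝ

/-- the 2 × 2 matrix of the moduli -/
def Mod.mat (A : Mod) : Matrix (Fin 2) (Fin 2) ℝ := !![A.a, A.b; A.b, A.c]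

/-- the linear block of a matrix on `S_n ⊕ ℝ` as a quadratic form -/
def lq {n : ℕ} (M : Mn n) (H : Ent n → ℝ) : ℝ := H ⬝ᵥ (M.toBlocks₁₁ *ᵥ H)

/-- the quadratic form of `A ⊗ 1` -/
def Mod.AA (A : Mod) {n : ℕ} (H : Ent n → ℝ) : ℝ := ∑ m, A.q (H (0, m), H (1, m))

/-- the column `m` of the vector `M (F, 1)` -/
def dv {n : ℕ} (M : Mn n) (F : Ent n → ℝ) (m : Fin n) : ℝ × ℝ :=
  ((M *ᵥ aff F) (Sum.inl (0, m)), (M *ᵥ aff F) (Sum.inl (1, m)))

/-- `P0 + x P1 + y P2` -/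
def pk {n : ℕ} (P0 P1 P2 : Mn n) (z : ℝ × ℝ) : Mn n := P0 + z.1 • P1 + z.2 • P2

/-- the linear part of `z ↦ dv (pk P0 P1 P2 z) F m` -/
def colD {n : ℕ} (P1 P2 : Mn n) (F : Ent n → ℝ) (m : Fin n) : (ℝ × ℝ) →ₗ[ℝ] (ℝ × ℝ) where
  toFun ζ := ζ.1 • dv P1 F m + ζ.2 • dv P2 F m
  map_add' x y := by simp only [Prod.fst_add, Prod.snd_add, add_smul]; abel
  map_smul' c x := by
    simp only [Prod.smul_fst, Prod.smul_snd, smul_eq_mul, RingHom.id_apply, smul_add, mul_smul]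

/-- the matrix with the single entry `1` at the position `(inr, inr)` -/
def EE (n : ℕ) : Mn n := Matrix.single (Sum.inr ()) (Sum.inr ()) 1

/-- the moduli are within the factor `1 ± δ` of `A ⊗ 1` -/
def Near (A : Mod) {n k : ℕ} (K : Fin k → Mn n) (δ : ℝ) : Prop :=
  ∀ j (H : Ent n → ℝ), |lq (K j) H - A.AA H| ≤ δ * A.AA H

/-- three of the phases span an affine plane that contains all of them -/
def Planar {n k : ℕ} (K : Fin k → Mn n) : Prop :=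
  ∃ j0 j1 j2 : Fin k, j0 ≠ j1 ∧ j0 ≠ j2 ∧ j1 ≠ j2 ∧
    ∀ j, ∃ x y : ℝ, K j = K j0 + x • (K j1 - K j0) + y • (K j2 - K j0)

end Pool.Agent.Lib.MP_2a9317_an.TP
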