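import Pool.Agent.Lib.MP_2a9317_an.TP.KL

set_option autoImplicit false

/-!
# TP-KE: laminates of phases with the moduli `A ⊗ 1`

Phases `pk P0 P1 P2 (s j)`, `P0.toBlocks₁₁ = A.mat ⊗ₖ 1`, `P1.toBlocks₁₁ = P2.toBlocks₁₁ = 0`, symmetric.
Let `Mq z x = pk P0 P1 P2 z - x • EE n`.
* `lq_mat`: `lq M H = A.AA H` if `M.toBlocks₁₁ = A.mat ⊗ₖ 1` (`Matrix.kroneckerMap_apply`, sums over
  `Fin 2 × Fin n`), `lq M H = 0` if the block vanishes.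
* `dv_const`: `dv P F m` does not depend on `F` if `P.toBlocks₁₁ = 0`; so `colD P1 P2 F m = colD P1 P2 0 m`.
* `layer_eq`: `AffLayer (Mq z x) (Mq z' x') θ ξ M ↔ M = Mq (θ • z + (1-θ) • z') (θ x + (1-θ) x' + θ (1-θ) ∑ NN)`:
  for every `F`: `affW (Mq z x) (F + H) = cmp A P0 P1 P2 F z x 1 H` (`affW_add`, `affW_sub_EE`, `lq_mat`), so by
  `cmp_layer` with `τ = 1`, `H = 0` the infimum over `a` is attained at `a_m = -(ξ·δ_m)/q ξ` and equals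
  `cmp .. 0 = affW (Mq ..) F`.  With symmetry, `eq_of_affW` gives `→`; `←` is the formula itself.
* `lam_eq`: `AffLaminate K M ↔ ∃ z q, LamT A s (fun m => colD P1 P2 0 m) z q ∧ M = Mq z (∑ m, q m)`: both directions
  by induction, with `layer_eq` (`ξ : Fin 2 → ℝ` and `(ξ 0, ξ 1) : ℝ × ℝ`; `∑ m` of the layer formula of `LamT`).
-/

namespace Pool.Agent.Lib.MP_2a9317_an.TP

open MeasureTheory Matrix Filter Topology
open scoped ContDiff Kronecker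

variable {n : ℕ}

theorem lq_mat (A : Mod) {M : Mn n} (h : M.toBlocks₁₁ = A.mat ⊗ₖ (1 : Matrix (Fin n) (Fin n) ℝ))
    (H : Ent n → ℝ) : lq M H = A.AA H := by
  unfold lq
  rw [h]
  simp only [dotProduct, mulVec, Fintype.sum_prod_type, Fin.sum_univ_two, kroneckerMap_apply,
    Matrix.one_apply, mul_ite, mul_one, mul_zero, ite_mul, zero_mul, Finset.sum_ite_eq,
    Finset.mem_univ, if_true]
  rw [← Finset.sum_add_distrib]
  unfold Mod.AA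
  refine Finset.sum_congr rfl fun m _ => ?_
  simp only [Mod.mat, Mod.q, Matrix.of_apply, Matrix.cons_val', Matrix.cons_val_zero,
    Matrix.cons_val_one, Matrix.cons_val_fin_one]
  ring

private theorem dv_const {P : Mn n} (h : P.toBlocks₁₁ = 0) (F : Ent n → ℝ) (m : Fin n) :
    dv P F m = dv P 0 m := by
  have h1 : ∀ q q', P (Sum.inl q) (Sum.inl q') = 0 := fun q q' => congrFun (congrFun h q) q'
  unfold dv aff
  simp [mulVec, dotProduct, Fintype.sum_sum_type, h1]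

theorem colD_const {P1 P2 : Mn n} (h1 : P1.toBlocks₁₁ = 0) (h2 : P2.toBlocks₁₁ = 0)
    (F : Ent n → ℝ) (m : Fin n) : colD P1 P2 F m = colD P1 P2 0 m := by
  apply LinearMap.ext
  intro ζ
  change ζ.1 • dv P1 F m + ζ.2 • dv P2 F m = ζ.1 • dv P1 0 m + ζ.2 • dv P2 0 m
  rw [dv_const h1 F m, dv_const h2 F m]

private theorem pk_symm {P0 P1 P2 : Mn n} (s0 : P0.IsSymm) (s1 : P1.IsSymm) (s2 : P2.IsSymm)
    (z : ℝ × ℝ) : (pk P0 P1 P2 z).IsSymm := by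
  unfold pk
  exact (s0.add (s1.smul _)).add (s2.smul _)

private theorem EE_symm : (EE n).IsSymm := by
  unfold EE Matrix.IsSymm
  rw [Matrix.transpose_single]

private theorem pk_block {A : Mod} {P0 P1 P2 : Mn n}
    (h0 : P0.toBlocks₁₁ = A.mat ⊗ₖ (1 : Matrix (Fin n) (Fin n) ℝ)) (h1 : P1.toBlocks₁₁ = 0)
    (h2 : P2.toBlocks₁₁ = 0) (z : ℝ × ℝ) :
    (pk P0 P1 P2 z).toBlocks₁₁ = A.mat ⊗ₖ (1 : Matrix (Fin n) (Fin n) ℝ) := by
  rw [← h0]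
  ext q q'
  have e1 : P1 (Sum.inl q) (Sum.inl q') = 0 := congrFun (congrFun h1 q) q'
  have e2 : P2 (Sum.inl q) (Sum.inl q') = 0 := congrFun (congrFun h2 q) q'
  simp [pk, toBlocks₁₁, e1, e2]

private theorem affW_cmp (A : Mod) {P0 P1 P2 : Mn n} (s0 : P0.IsSymm) (s1 : P1.IsSymm)
    (s2 : P2.IsSymm) (h0 : P0.toBlocks₁₁ = A.mat ⊗ₖ (1 : Matrix (Fin n) (Fin n) ℝ))
    (h1 : P1.toBlocks₁₁ = 0) (h2 : P2.toBlocks₁₁ = 0) (F : Ent n → ℝ) (z : ℝ × ℝ) (x : ℝ)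
    (H : Ent n → ℝ) :
    affW (pk P0 P1 P2 z - x • EE n) (F + H) = cmp A P0 P1 P2 F z x 1 H := by
  rw [affW_sub_EE, affW_add (pk_symm s0 s1 s2 z), lq_mat A (pk_block h0 h1 h2 z)]
  unfold cmp
  rw [one_mul, div_one]

private theorem layer_inf (A : Mod) {P0 P1 P2 : Mn n} (s0 : P0.IsSymm) (s1 : P1.IsSymm)
    (s2 : P2.IsSymm) (h0 : P0.toBlocks₁₁ = A.mat ⊗ₖ (1 : Matrix (Fin n) (Fin n) ℝ))
    (h1 : P1.toBlocks₁₁ = 0) (h2 : P2.toBlocks₁₁ = 0) (z z' : ℝ × ℝ) (x x' : ℝ) {θ : ℝ}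
    (t0 : 0 < θ) (t1 : θ < 1) {ξ : Fin 2 → ℝ} (hξ : ξ ≠ 0) (F : Ent n → ℝ) :
    (⨅ a : Fin n → ℝ, (θ * affW (pk P0 P1 P2 z - x • EE n) (F + (1 - θ) • tens ξ a)
      + (1 - θ) * affW (pk P0 P1 P2 z' - x' • EE n) (F - θ • tens ξ a))) =
      affW (pk P0 P1 P2 (θ • z + (1 - θ) • z') - (θ * x + (1 - θ) * x'
        + θ * (1 - θ) * ∑ m, A.NN (ξ 0, ξ 1) (colD P1 P2 0 m (z - z'))) • EE n) F := by
  have t2 : 0 < 1 - θ := by linarith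
  have hq := q_nonneg A (ξ 0, ξ 1)
  have key : ∀ a : Fin n → ℝ, θ * affW (pk P0 P1 P2 z - x • EE n) (F + (1 - θ) • tens ξ a)
      + (1 - θ) * affW (pk P0 P1 P2 z' - x' • EE n) (F - θ • tens ξ a) =
      affW (pk P0 P1 P2 (θ • z + (1 - θ) • z') - (θ * x + (1 - θ) * x'
        + θ * (1 - θ) * ∑ m, A.NN (ξ 0, ξ 1) (colD P1 P2 0 m (z - z'))) • EE n) F
      + θ * (1 - θ) * 1 * A.q (ξ 0, ξ 1)
          * ∑ m, (a m + (ξ 0 * (colD P1 P2 F m (z - z')).1 + ξ 1 * (colD P1 P2 F m (z - z')).2)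
              / (1 * A.q (ξ 0, ξ 1))) ^ 2 := by
    intro a
    have e1 := affW_cmp A s0 s1 s2 h0 h1 h2 F z x (0 + (1 - θ) • tens ξ a)
    have e2 := affW_cmp A s0 s1 s2 h0 h1 h2 F z' x' (0 - θ • tens ξ a)
    have e3 := cmp_layer A P0 P1 P2 F z z' x x' one_pos θ hξ 0 a
    have e4 := affW_cmp A s0 s1 s2 h0 h1 h2 F (θ • z + (1 - θ) • z') (θ * x + (1 - θ) * x'
        + θ * (1 - θ) * ∑ m, A.NN (ξ 0, ξ 1) (colD P1 P2 F m (z - z'))) 0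
    have e5 : ∑ m, A.NN (ξ 0, ξ 1) (colD P1 P2 F m (z - z')) =
        ∑ m, A.NN (ξ 0, ξ 1) (colD P1 P2 0 m (z - z')) :=
      Finset.sum_congr rfl fun m _ => by rw [colD_const h1 h2 F m]
    rw [zero_add] at e1
    rw [zero_sub, ← sub_eq_add_neg] at e2
    rw [zero_add, zero_sub] at e3
    rw [add_zero] at e4
    rw [e1, e2, e3, ← e4, e5]
  apply le_antisymm
  · refine ciInf_le_of_le ?_ (fun m => -((ξ 0 * (colD P1 P2 F m (z - z')).1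
      + ξ 1 * (colD P1 P2 F m (z - z')).2) / (1 * A.q (ξ 0, ξ 1)))) ?_
    · refine ⟨affW (pk P0 P1 P2 (θ • z + (1 - θ) • z') - (θ * x + (1 - θ) * x'
        + θ * (1 - θ) * ∑ m, A.NN (ξ 0, ξ 1) (colD P1 P2 0 m (z - z'))) • EE n) F, ?_⟩
      rintro _ ⟨a, rfl⟩
      change _ ≤ θ * affW (pk P0 P1 P2 z - x • EE n) (F + (1 - θ) • tens ξ a)
        + (1 - θ) * affW (pk P0 P1 P2 z' - x' • EE n) (F - θ • tens ξ a)
      rw [key a]
      have : 0 ≤ θ * (1 - θ) * 1 * A.q (ξ 0, ξ 1)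
          * ∑ m, (a m + (ξ 0 * (colD P1 P2 F m (z - z')).1 + ξ 1 * (colD P1 P2 F m (z - z')).2)
              / (1 * A.q (ξ 0, ξ 1))) ^ 2 := by positivity
      linarith
    · rw [key]
      simp
  · apply le_ciInf
    intro a
    rw [key a]
    have : 0 ≤ θ * (1 - θ) * 1 * A.q (ξ 0, ξ 1)
        * ∑ m, (a m + (ξ 0 * (colD P1 P2 F m (z - z')).1 + ξ 1 * (colD P1 P2 F m (z - z')).2)
            / (1 * A.q (ξ 0, ξ 1))) ^ 2 := by positivity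
    linarith

theorem layer_eq (A : Mod) {P0 P1 P2 : Mn n} (s0 : P0.IsSymm) (s1 : P1.IsSymm) (s2 : P2.IsSymm)
    (h0 : P0.toBlocks₁₁ = A.mat ⊗ₖ (1 : Matrix (Fin n) (Fin n) ℝ)) (h1 : P1.toBlocks₁₁ = 0)
    (h2 : P2.toBlocks₁₁ = 0) (z z' : ℝ × ℝ) (x x' : ℝ) {θ : ℝ} (t0 : 0 < θ) (t1 : θ < 1)
    {ξ : Fin 2 → ℝ} (hξ : ξ ≠ 0) (M : Mn n) :
    AffLayer (pk P0 P1 P2 z - x • EE n) (pk P0 P1 P2 z' - x' • EE n) θ ξ M ↔
      M = pk P0 P1 P2 (θ • z + (1 - θ) • z') - (θ * x + (1 - θ) * x'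
        + θ * (1 - θ) * ∑ m, A.NN (ξ 0, ξ 1) (colD P1 P2 0 m (z - z'))) • EE n := by
  have hT : (pk P0 P1 P2 (θ • z + (1 - θ) • z') - (θ * x + (1 - θ) * x'
        + θ * (1 - θ) * ∑ m, A.NN (ξ 0, ξ 1) (colD P1 P2 0 m (z - z'))) • EE n).IsSymm :=
    (pk_symm s0 s1 s2 _).sub (EE_symm.smul _)
  unfold AffLayer
  constructor
  · rintro ⟨hM, h⟩
    apply eq_of_affW hM hT
    intro F
    rw [h F, layer_inf A s0 s1 s2 h0 h1 h2 z z' x x' t0 t1 hξ F]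
  · rintro rfl
    exact ⟨hT, fun F => (layer_inf A s0 s1 s2 h0 h1 h2 z z' x x' t0 t1 hξ F).symm⟩

private theorem sum_layer (A : Mod) (P1 P2 : Mn n) (z z' : ℝ × ℝ) (q q' : Fin n → ℝ) (θ : ℝ)
    (ζ : ℝ × ℝ) :
    ∑ m, (θ * q m + (1 - θ) * q' m + θ * (1 - θ) * A.NN ζ (colD P1 P2 0 m (z - z'))) =
      θ * ∑ m, q m + (1 - θ) * ∑ m, q' m +
        θ * (1 - θ) * ∑ m, A.NN ζ (colD P1 P2 0 m (z - z')) := by
  rw [Finset.sum_add_distrib, Finset.sum_add_distrib, Finset.mul_sum, Finset.mul_sum,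
    Finset.mul_sum]

theorem lam_eq (A : Mod) {k : ℕ} {P0 P1 P2 : Mn n} (s : Fin k → ℝ × ℝ) (s0 : P0.IsSymm)
    (s1 : P1.IsSymm) (s2 : P2.IsSymm)
    (h0 : P0.toBlocks₁₁ = A.mat ⊗ₖ (1 : Matrix (Fin n) (Fin n) ℝ)) (h1 : P1.toBlocks₁₁ = 0)
    (h2 : P2.toBlocks₁₁ = 0) (M : Mn n) :
    AffLaminate (fun j => pk P0 P1 P2 (s j)) M ↔
      ∃ (z : ℝ × ℝ) (q : Fin n → ℝ), LamT A s (fun m : Fin n => colD P1 P2 0 m) z q ∧
        M = pk P0 P1 P2 z - (∑ m, q m) • EE n := by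
  constructor
  · intro h
    induction h with
    | phase j =>
      refine ⟨s j, _, LamT.phase j, ?_⟩
      simp
    | layer B B' M θ ξ _ _ t0 t1 hξ hL ih ih' =>
      obtain ⟨z, q, hz, rfl⟩ := ih
      obtain ⟨z', q', hz', rfl⟩ := ih'
      rw [layer_eq A s0 s1 s2 h0 h1 h2 z z' _ _ t0 t1 hξ] at hL
      have hne : ((ξ 0, ξ 1) : ℝ × ℝ) ≠ 0 := by
        intro he
        apply hξ
        rw [Prod.mk_eq_zero] at he
        funext i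
        fin_cases i
        · exact he.1
        · exact he.2
      refine ⟨_, _, LamT.layer z z' q q' θ (ξ 0, ξ 1) hz hz' t0 t1 hne, ?_⟩
      rw [hL, sum_layer]
  · rintro ⟨z, q, h, rfl⟩
    induction h with
    | phase j =>
      have e1 : pk P0 P1 P2 (s j) - (∑ _m : Fin n, (0 : ℝ)) • EE n = pk P0 P1 P2 (s j) := by
        simp
      rw [e1]
      exact AffLaminate.phase (K := fun j => pk P0 P1 P2 (s j)) j
    | layer z z' q q' θ ξ _ _ t0 t1 hξ ih ih' =>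
      have hne : (![ξ.1, ξ.2] : Fin 2 → ℝ) ≠ 0 := by
        intro he
        apply hξ
        exact Prod.ext (congrFun he 0) (congrFun he 1)
      refine AffLaminate.layer _ _ _ θ ![ξ.1, ξ.2] ih ih' t0 t1 hne ?_
      rw [layer_eq A s0 s1 s2 h0 h1 h2 z z' _ _ t0 t1 hne, sum_layer]
      rfl

end Pool.Agent.Lib.MP_2a9317_an.TP
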