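import Pool.Agent.Lib.MP_2a9317_an.TP.KU
import Pool.Agent.Lib.MP_2a9317_an.TP.G0
import Pool.Agent.Lib.MP_2a9317_an.N1.B1
import Pool.Agent.Lib.MP_2a9317_an.AffFinal

set_option autoImplicit false

/-!
# TP-KG: composites whose moduli are near `A ⊗ 1`

`u : ℝ × ℝ → Fin n → ℝ` is a potential iff its components are (`contDiff_pi`, compare
`N1.isPotential_iff`), `grad u p (0, m) = dX (u_m) p`, `grad u p (1, m) = dY (u_m) p`
(compare `N1.grad_one`).  Fix `F`, let `d m p = dv (K (χ p)) F m` (a phase field, `BV`) and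
`W̄ = ⟨affW (K (χ p)) F⟩`, `S = ∑ m, A.gain (d m)`.  By `affW_add` and `Near`
`affW K_χ (F + ∇u) = affW K_χ F + 2 ∑ d_m·∇u_m + lq K_χ (∇u)` with
`(1 - δ) ∑ q(∇u_m) ≤ lq K_χ (∇u) ≤ (1 + δ) ∑ q(∇u_m)`.
* lower bound: for every `u`: the average is `≥ W̄ - ∑ ⟨-2 d_m·∇u_m - (1-δ) q(∇u_m)⟩ ≥ W̄ - S/(1-δ)`
  (`gain_scale`); `le_ciInf`.
* upper bound: given `η > 0` choose `v_m` with `A.J (d m) v_m > gain (d m) - η` (`exists_J`) and
  `u_m = (1+δ)⁻¹ v_m`: `⟨-2 d_m·∇u_m - (1+δ) q(∇u_m)⟩ = (1+δ)⁻¹ A.J (d m) v_m`; so `affStar K χ F ≤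
  W̄ - (S - n η)/(1+δ)` (`ciInf_le`, bounded below by `0` or by the lower bound; `affStar_le` in `AffFinal` for
  `PosDef` phases).
Finally `affStar K χ F = affW M F`.
-/

namespace Pool.Agent.Lib.MP_2a9317_an.TP

open MeasureTheory Matrix Filter Topology Pool.Agent.Lib.MP_2a9317_an.N1
open scoped ContDiff Kronecker

private theorem pot_iff {n : ℕ} (u : ℝ × ℝ → Fin n → ℝ) :
    IsPotential u ↔ ∀ m, IsPot (fun p => u p m) := by
  constructor
  · rintro ⟨h1, h2⟩ m
    refine ⟨(contDiff_pi.1 h1) m, fun x y => ⟨?_, ?_⟩⟩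
    · show u (x + 1, y) m = u (x, y) m
      rw [(h2 x y).1]
    · show u (x, y + 1) m = u (x, y) m
      rw [(h2 x y).2]
  · intro h
    refine ⟨contDiff_pi.2 fun m => (h m).1, fun x y => ⟨?_, ?_⟩⟩
    · funext m
      exact ((h m).2 x y).1
    · funext m
      exact ((h m).2 x y).2

private theorem grad_comp {n : ℕ} {u : ℝ × ℝ → Fin n → ℝ} (hu : IsPotential u) (p : ℝ × ℝ)
    (m : Fin n) : grad u p (0, m) = dX (fun p => u p m) p ∧
      grad u p (1, m) = dY (fun p => u p m) p := by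
  have hd : DifferentiableAt ℝ u p := (hu.1.differentiable (by simp)).differentiableAt
  have h1 : ∀ v : ℝ × ℝ, fderiv ℝ (fun p => u p m) p v = fderiv ℝ u p v m := by
    intro v
    have h2 : HasFDerivAt (fun p => u p m)
        ((ContinuousLinearMap.proj (R := ℝ) (φ := fun _ : Fin n => ℝ) m).comp (fderiv ℝ u p)) p :=
      (hasFDerivAt_pi'.1 hd.hasFDerivAt) m
    rw [h2.fderiv]
    rfl
  constructor
  · show fderiv ℝ u p (dir 0) m = fderiv ℝ (fun p => u p m) p (1, 0)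
    rw [h1]
    rfl
  · show fderiv ℝ u p (dir 1) m = fderiv ℝ (fun p => u p m) p (0, 1)
    rw [h1]
    rfl

private theorem symm_of_posDef {n : ℕ} {M : Mn n} (hM : M.PosDef) : M.IsSymm := by
  have := hM.isHermitian
  rw [Matrix.IsHermitian, Matrix.conjTranspose_eq_transpose_of_trivial] at this
  exact this

private theorem pt_formula {n : ℕ} {M : Mn n} (hM : M.IsSymm) (F : Ent n → ℝ)
    {u : ℝ × ℝ → Fin n → ℝ} (hu : IsPotential u) (p : ℝ × ℝ) :
    affW M (F + grad u p) = affW M F + 2 * ∑ m, ((dv M F m).1 * dX (fun p => u p m) p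
      + (dv M F m).2 * dY (fun p => u p m) p) + lq M (grad u p) := by
  rw [affW_add hM]
  simp only [(grad_comp hu p _).1, (grad_comp hu p _).2]

private theorem AA_grad (A : Mod) {n : ℕ} {u : ℝ × ℝ → Fin n → ℝ} (hu : IsPotential u)
    (p : ℝ × ℝ) : A.AA (grad u p) =
      ∑ m, A.q (dX (fun p => u p m) p, dY (fun p => u p m) p) := by
  unfold Mod.AA
  simp only [(grad_comp hu p _).1, (grad_comp hu p _).2]

private theorem bv_phase {k : ℕ} (c : Fin k → ℝ × ℝ) {χ : ℝ × ℝ → Fin k} (hχ : Measurable χ) :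
    BV (fun p => c (χ p)) :=
  ⟨BM.phase (fun j => (c j).1) hχ, BM.phase (fun j => (c j).2) hχ⟩

private theorem bm_int (A : Mod) {G : ℝ × ℝ → ℝ × ℝ} (hG : BV G) (τ : ℝ) {u : ℝ × ℝ → ℝ}
    (hu : IsPot u) :
    BM (fun p => -2 * ((G p).1 * dX u p + (G p).2 * dY u p) - τ * A.q (dX u p, dY u p)) := by
  have h1 := bm_dX hu
  have h2 := bm_dY hu
  refine BM.sub (BM.const_mul _ ((hG.1.mul h1).add (hG.2.mul h2))) (BM.const_mul _ ?_)
  unfold Mod.q
  exact (((h1.sq.const_mul A.a)).add (((h1.const_mul (2 * A.b))).mul h2)).add (h2.sq.const_mul A.c)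

private theorem lower_pt (A : Mod) {n k : ℕ} {K : Fin k → Mn n} (hK : ∀ j, (K j).PosDef) {δ : ℝ}
    (hN : Near A K δ) (F : Ent n → ℝ) {u : ℝ × ℝ → Fin n → ℝ} (hu : IsPotential u)
    (p : ℝ × ℝ) (j : Fin k) :
    affW (K j) F - ∑ m, (-2 * ((dv (K j) F m).1 * dX (fun p => u p m) p
        + (dv (K j) F m).2 * dY (fun p => u p m) p)
        - (1 - δ) * A.q (dX (fun p => u p m) p, dY (fun p => u p m) p))
      ≤ affW (K j) (F + grad u p) := by
  rw [pt_formula (symm_of_posDef (hK j)) F hu p, Finset.sum_sub_distrib, ← Finset.mul_sum,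
    ← Finset.mul_sum, ← AA_grad A hu p]
  have h := (abs_le.1 (hN j (grad u p))).1
  linarith

private theorem upper_pt (A : Mod) {n k : ℕ} {K : Fin k → Mn n} (hK : ∀ j, (K j).PosDef) {δ : ℝ}
    (hN : Near A K δ) (F : Ent n → ℝ) {u : ℝ × ℝ → Fin n → ℝ} (hu : IsPotential u)
    (p : ℝ × ℝ) (j : Fin k) :
    affW (K j) (F + grad u p) ≤
      affW (K j) F - ∑ m, (-2 * ((dv (K j) F m).1 * dX (fun p => u p m) p
        + (dv (K j) F m).2 * dY (fun p => u p m) p)
        - (1 + δ) * A.q (dX (fun p => u p m) p, dY (fun p => u p m) p)) := by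
  rw [pt_formula (symm_of_posDef (hK j)) F hu p, Finset.sum_sub_distrib, ← Finset.mul_sum,
    ← Finset.mul_sum, ← AA_grad A hu p]
  have h := (abs_le.1 (hN j (grad u p))).2
  linarith

theorem eff_near (A : Mod) {n k : ℕ} (K : Fin k → Mn n) (hK : ∀ j, (K j).PosDef) {δ : ℝ}
    (h0 : 0 ≤ δ) (h1 : δ < 1) (hN : Near A K δ) {χ : ℝ × ℝ → Fin k} (hχ : IsPartition χ)
    {M : Mn n} (hM : AffEffective K χ M) (F : Ent n → ℝ) :
    (avg fun p => affW (K (χ p)) F) - (∑ m, A.gain (fun p => dv (K (χ p)) F m)) / (1 - δ)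
        ≤ affW M F ∧
      affW M F ≤ (avg fun p => affW (K (χ p)) F)
        - (∑ m, A.gain (fun p => dv (K (χ p)) F m)) / (1 + δ) := by
  have hd : ∀ m, BV (fun p => dv (K (χ p)) F m) := fun m =>
    bv_phase (fun j => dv (K j) F m) hχ.1
  have hW : BM (fun p => affW (K (χ p)) F) := BM.phase (fun j => affW (K j) F) hχ.1
  -- the average of the comparison function
  have hav : ∀ (τ : ℝ) (u : Fin n → ℝ × ℝ → ℝ), (∀ m, IsPot (u m)) →
      BM (fun p => affW (K (χ p)) F - ∑ m, (-2 * ((dv (K (χ p)) F m).1 * dX (u m) p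
        + (dv (K (χ p)) F m).2 * dY (u m) p) - τ * A.q (dX (u m) p, dY (u m) p))) ∧
      avg (fun p => affW (K (χ p)) F - ∑ m, (-2 * ((dv (K (χ p)) F m).1 * dX (u m) p
        + (dv (K (χ p)) F m).2 * dY (u m) p) - τ * A.q (dX (u m) p, dY (u m) p))) =
      avg (fun p => affW (K (χ p)) F) - ∑ m, avg (fun p => -2 * ((dv (K (χ p)) F m).1 * dX (u m) p
        + (dv (K (χ p)) F m).2 * dY (u m) p) - τ * A.q (dX (u m) p, dY (u m) p)) := by
    intro τ u hu
    have h1 : ∀ m ∈ (Finset.univ : Finset (Fin n)),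
        BM (fun p => -2 * ((dv (K (χ p)) F m).1 * dX (u m) p
        + (dv (K (χ p)) F m).2 * dY (u m) p) - τ * A.q (dX (u m) p, dY (u m) p)) :=
      fun m _ => bm_int A (hd m) τ (hu m)
    have h2 := BM.sum Finset.univ h1
    refine ⟨hW.sub h2, ?_⟩
    rw [avg_sub' hW h2, avg_sum' Finset.univ h1]
  constructor
  · rw [← hM.2 F]
    unfold affStar
    have : Nonempty {u : ℝ × ℝ → Fin n → ℝ // IsPotential u} :=
      ⟨⟨fun _ _ => 0, (pot_iff _).2 fun _ => IsPot.const 0⟩⟩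
    refine le_ciInf fun u => ?_
    have hu := (pot_iff _).1 u.2
    obtain ⟨hb, he⟩ := hav (1 - δ) (fun m p => u.1 p m) hu
    have h2 := avg_mono hb.integrableOn (integrable_affW K hχ F u.2)
      (fun p => lower_pt A hK hN F u.2 p (χ p))
    refine le_trans ?_ h2
    rw [he]
    refine sub_le_sub_left ?_ _
    rw [Finset.sum_div]
    exact Finset.sum_le_sum fun m _ => gain_scale A (hd m) (by linarith) (hu m)
  · rw [← hM.2 F]
    have hpos : 0 < 1 + δ := by linarith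
    apply le_of_forall_pos_le_add
    intro ε hε
    have hη : 0 < ε * (1 + δ) / (n + 1) := by positivity
    choose v hv hvJ using fun m => exists_J A (hd m) hη
    let u : ℝ × ℝ → Fin n → ℝ := fun p m => (1 + δ)⁻¹ * v m p
    have hu : ∀ m, IsPot (fun p => u p m) := fun m => (hv m).smul _
    have huP : IsPotential u := (pot_iff _).2 hu
    refine (affStar_le K hK χ F huP).trans ?_
    obtain ⟨hb, he⟩ := hav (1 + δ) (fun m p => u p m) hu
    have h2 := avg_mono (integrable_affW K hχ F huP) hb.integrableOn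
      (fun p => upper_pt A hK hN F huP p (χ p))
    refine h2.trans ?_
    rw [he]
    have h3 : ∀ m, avg (fun p => -2 * ((dv (K (χ p)) F m).1 * dX (fun p => u p m) p
        + (dv (K (χ p)) F m).2 * dY (fun p => u p m) p)
        - (1 + δ) * A.q (dX (fun p => u p m) p, dY (fun p => u p m) p)) =
        (1 + δ)⁻¹ * A.J (fun p => dv (K (χ p)) F m) (v m) := by
      intro m
      unfold Mod.J
      rw [← avg_mul']
      congr 1
      funext p
      have e1 : dX (fun p => u p m) p = (1 + δ)⁻¹ * dX (v m) p := dX_smul _ (hv m) p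
      have e2 : dY (fun p => u p m) p = (1 + δ)⁻¹ * dY (v m) p := dY_smul _ (hv m) p
      rw [e1, e2]
      unfold Mod.q
      field_simp
    have h4 : ∑ m, (A.gain (fun p => dv (K (χ p)) F m) - ε * (1 + δ) / (n + 1)) ≤
        ∑ m, A.J (fun p => dv (K (χ p)) F m) (v m) :=
      Finset.sum_le_sum fun m _ => (hvJ m).le
    rw [Finset.sum_sub_distrib, Finset.sum_const, Finset.card_univ, Fintype.card_fin,
      nsmul_eq_mul] at h4
    have h5 : (n : ℝ) * (ε * (1 + δ) / (n + 1)) ≤ ε * (1 + δ) := by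
      rw [← mul_div_assoc, div_le_iff₀ (by positivity)]
      have : 0 ≤ ε * (1 + δ) := by positivity
      nlinarith
    have h6 : (∑ m, A.gain (fun p => dv (K (χ p)) F m)) / (1 + δ) - ε ≤
        (1 + δ)⁻¹ * ∑ m, A.J (fun p => dv (K (χ p)) F m) (v m) := by
      rw [← sub_nonneg]
      have e : (1 + δ)⁻¹ * ∑ m, A.J (fun p => dv (K (χ p)) F m) (v m)
          - ((∑ m, A.gain (fun p => dv (K (χ p)) F m)) / (1 + δ) - ε) =
          (1 + δ)⁻¹ * (∑ m, A.J (fun p => dv (K (χ p)) F m) (v m)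
            - (∑ m, A.gain (fun p => dv (K (χ p)) F m)) + ε * (1 + δ)) := by
        field_simp
        ring
      rw [e]
      exact mul_nonneg (by positivity) (by linarith)
    rw [Finset.sum_congr rfl fun m _ => h3 m, ← Finset.mul_sum]
    linarith

/-- planar phases -/
theorem eff_near_pk (A : Mod) {n k : ℕ} (P0 P1 P2 : Mn n) (s : Fin k → ℝ × ℝ)
    (hK : ∀ j, (pk P0 P1 P2 (s j)).PosDef) {δ : ℝ}
    (h0 : 0 ≤ δ) (h1 : δ < 1) (hN : Near A (fun j => pk P0 P1 P2 (s j)) δ)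
    {χ : ℝ × ℝ → Fin k} (hχ : IsPartition χ)
    {M : Mn n} (hM : AffEffective (fun j => pk P0 P1 P2 (s j)) χ M) (F : Ent n → ℝ) :
    affW (pk P0 P1 P2 (mean fun p => s (χ p))) F
        - (∑ m, A.gain (fun p => colD P1 P2 F m (s (χ p)))) / (1 - δ) ≤ affW M F ∧
      affW M F ≤ affW (pk P0 P1 P2 (mean fun p => s (χ p))) F
        - (∑ m, A.gain (fun p => colD P1 P2 F m (s (χ p)))) / (1 + δ) := by
  have h := eff_near A (fun j => pk P0 P1 P2 (s j)) hK h0 h1 hN hχ hM F
  have hb1 : BM (fun p => (s (χ p)).1) := BM.phase (fun j => (s j).1) hχ.1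
  have hb2 : BM (fun p => (s (χ p)).2) := BM.phase (fun j => (s j).2) hχ.1
  have e1 : avg (fun p => affW (pk P0 P1 P2 (s (χ p))) F) =
      affW (pk P0 P1 P2 (mean fun p => s (χ p))) F := by
    simp only [affW_pk]
    rw [avg_add' ((BM.const _).add (hb1.mul_const _)) (hb2.mul_const _),
      avg_add' (BM.const _) (hb1.mul_const _), avg_mul_const', avg_mul_const', avg_const]
    rfl
  have e2 : ∀ m, A.gain (fun p => dv (pk P0 P1 P2 (s (χ p))) F m) =
      A.gain (fun p => colD P1 P2 F m (s (χ p))) := by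
    intro m
    have hbv : BV (fun p => colD P1 P2 F m (s (χ p))) :=
      bv_phase (fun j => colD P1 P2 F m (s j)) hχ.1
    rw [← gain_add_const A hbv (dv P0 F m)]
    congr 1
    funext p
    rw [dv_pk, add_comm]
  rw [e1, Finset.sum_congr rfl fun m _ => e2 m] at h
  exact h

end Pool.Agent.Lib.MP_2a9317_an.TP
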