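import Pool.Agent.Lib.MP_2a9317_an.TP.KU
import Pool.Agent.Lib.MP_2a9317_an.Quad

set_option autoImplicit false

/-!
# TP-KL: laminates of phases whose moduli are near `A ⊗ 1`

* `exists_layer`: `exists_matrix_of_iInf` (`Quad.lean`; see `exists_effective` in `Eff.lean` for its use) for
  `Q v a = θ (v + (1-θ) ξ⊗a) ⬝ A (..) + (1-θ) (v - θ ξ⊗a) ⬝ B (..)` on `v : Ent n ⊕ Unit → ℝ`, `a : Fin n → ℝ`
  (`ξ ⊗ a` extended by `0`) gives a symmetric `M` with `v ⬝ M v = inf_a Q v a`; `v = aff F` gives `AffLayer`.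
  `M` is positive definite: `A, B ≥ λ` (`λ > 0` the smaller of the least eigenvalues; e.g. by compactness of
  the unit sphere or `Matrix.PosDef` eigenvalues), so `Q v a ≥ λ (θ |v + (1-θ) w|² + (1-θ) |v - θ w|²)
  = λ (|v|² + θ (1-θ) |w|²) ≥ λ |v|²` with `w = ξ⊗a`.
* `cmp A P0 P1 P2 F z x λ H` is the comparison energy.  `cmp_layer` is an identity (`NN` is
  `(ξ·δ)²/q ξ`, `colD` linear, `dv_pk`): for `t_m = a_m + (ξ·(δ_m)) / (λ q ξ)`, `δ_m = colD .. (z - z')`,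
  `θ cmp z x (H + (1-θ) ξ⊗a) + (1-θ) cmp z' x' (H - θ ξ⊗a)
    = cmp (θz+(1-θ)z') (θx+(1-θ)x'+θ(1-θ)∑ NN) H + θ(1-θ) λ q(ξ) ∑ t_m²`.
* `lam_near`: induction on `LamT` with the statement: there is a positive definite `M` with `AffLaminate K M` and
  for all `i`, `H`: `cmp (F i) z (∑ m, q (i, m)) (1 - δ) H ≤ affW M (F i + H) ≤ cmp .. (1 + δ) H`.
  Phase: `affW_add`, `dv`, `Near` (`dv (pk .. (s j)) = ...`).  Layer: `exists_layer`; `le_ciInf` for the lower bound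
  (`cmp_layer`, last term nonnegative), `ciInf_le` with the optimal `a` (`t_m = 0`) for the upper bound.
  Finally `H = 0`: `cmp .. 0 = affW (pk z) F - x / λ`.
-/

namespace Pool.Agent.Lib.MP_2a9317_an.TP

open MeasureTheory Matrix Filter Topology
open scoped ContDiff Kronecker

variable {n : ℕ}

/-- coercivity of a positive definite matrix -/
private theorem kl_coer {ι : Type} [Fintype ι] {A : Matrix ι ι ℝ} (hA : A.PosDef) :
    ∃ c : ℝ, 0 < c ∧ ∀ v : ι → ℝ, c * ∑ i, v i ^ 2 ≤ v ⬝ᵥ (A *ᵥ v) := by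
  classical
  have hcont : Continuous (fun v : ι → ℝ => v ⬝ᵥ (A *ᵥ v)) := by
    simp only [dotProduct, mulVec]
    fun_prop
  have hc2 : Continuous (fun v : ι → ℝ => ∑ i, v i ^ 2) := by fun_prop
  have hpos : ∀ v : ι → ℝ, v ≠ 0 → 0 < v ⬝ᵥ (A *ᵥ v) := by
    intro v hv
    have := hA.dotProduct_mulVec_pos hv
    simpa using this
  have hS : IsCompact {v : ι → ℝ | ∑ i, v i ^ 2 = 1} := by
    refine Metric.isCompact_of_isClosed_isBounded (isClosed_eq hc2 continuous_const) ?_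
    refine (Metric.isBounded_closedBall (x := (0 : ι → ℝ)) (r := 1)).subset ?_
    intro v hv
    rw [Metric.mem_closedBall, dist_zero_right, pi_norm_le_iff_of_nonneg zero_le_one]
    intro i
    have hv' : ∑ i, v i ^ 2 = 1 := hv
    have h1 : v i ^ 2 ≤ 1 := by
      rw [← hv']
      exact Finset.single_le_sum (f := fun i => v i ^ 2) (fun _ _ => sq_nonneg _) (Finset.mem_univ i)
    rw [Real.norm_eq_abs]
    exact (sq_le_one_iff_abs_le_one _).1 h1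
  rcases Set.eq_empty_or_nonempty {v : ι → ℝ | ∑ i, v i ^ 2 = 1} with hE | hE
  · refine ⟨1, one_pos, fun v => ?_⟩
    have hv : ∑ i, v i ^ 2 = 0 := by
      by_contra hne
      have hp : 0 < ∑ i, v i ^ 2 := lt_of_le_of_ne (Finset.sum_nonneg fun _ _ => sq_nonneg _) (Ne.symm hne)
      have : (fun i => v i / Real.sqrt (∑ i, v i ^ 2)) ∈ {v : ι → ℝ | ∑ i, v i ^ 2 = 1} := by
        show ∑ i, (v i / Real.sqrt (∑ i, v i ^ 2)) ^ 2 = 1
        simp only [div_pow]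
        rw [← Finset.sum_div, Real.sq_sqrt hp.le, div_self hne]
      rw [hE] at this
      exact this
    rw [hv, mul_zero]
    by_cases h0 : v = 0
    · rw [h0]; simp
    · exact (hpos v h0).le
  · obtain ⟨w, hw, hmin⟩ := hS.exists_isMinOn hE hcont.continuousOn
    have hw1 : ∑ i, w i ^ 2 = 1 := hw
    have hw0 : w ≠ 0 := by
      intro h
      rw [h] at hw1
      simp at hw1
    refine ⟨w ⬝ᵥ (A *ᵥ w), hpos w hw0, fun v => ?_⟩
    by_cases hne : ∑ i, v i ^ 2 = 0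
    · rw [hne, mul_zero]
      by_cases h0 : v = 0
      · rw [h0]; simp
      · exact (hpos v h0).le
    · have hp : 0 < ∑ i, v i ^ 2 := lt_of_le_of_ne (Finset.sum_nonneg fun _ _ => sq_nonneg _) (Ne.symm hne)
      have hs : 0 < Real.sqrt (∑ i, v i ^ 2) := Real.sqrt_pos.2 hp
      obtain ⟨t, ht⟩ : ∃ t, t = (Real.sqrt (∑ i, v i ^ 2))⁻¹ := ⟨_, rfl⟩
      have ht2 : t ^ 2 * ∑ i, v i ^ 2 = 1 := by
        rw [ht, inv_pow, Real.sq_sqrt hp.le, inv_mul_cancel₀ hne]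
      have hmem : t • v ∈ {v : ι → ℝ | ∑ i, v i ^ 2 = 1} := by
        show ∑ i, (t • v) i ^ 2 = 1
        simp only [Pi.smul_apply, smul_eq_mul, mul_pow]
        rw [← Finset.mul_sum, ht2]
      have h1 : w ⬝ᵥ (A *ᵥ w) ≤ (t • v) ⬝ᵥ (A *ᵥ (t • v)) := hmin hmem
      rw [mulVec_smul, smul_dotProduct, dotProduct_smul, smul_eq_mul, smul_eq_mul, ← mul_assoc, ← sq] at h1
      calc (w ⬝ᵥ (A *ᵥ w)) * ∑ i, v i ^ 2 ≤ (t ^ 2 * (v ⬝ᵥ (A *ᵥ v))) * ∑ i, v i ^ 2 :=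
            mul_le_mul_of_nonneg_right h1 hp.le
        _ = (t ^ 2 * ∑ i, v i ^ 2) * (v ⬝ᵥ (A *ᵥ v)) := by ring
        _ = v ⬝ᵥ (A *ᵥ v) := by rw [ht2, one_mul]

private theorem kl_upper {ι : Type} [Fintype ι] (K : Matrix ι ι ℝ) (v : ι → ℝ) :
    v ⬝ᵥ (K *ᵥ v) ≤ (∑ i, ∑ j, |K i j|) * ∑ i, v i ^ 2 := by
  rw [Finset.sum_mul]
  show ∑ i, v i * ∑ j, K i j * v j ≤ _
  refine Finset.sum_le_sum fun i _ => ?_
  rw [Finset.mul_sum, Finset.sum_mul]
  refine Finset.sum_le_sum fun j _ => ?_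
  have hi : v i ^ 2 ≤ ∑ l, v l ^ 2 :=
    Finset.single_le_sum (f := fun l => v l ^ 2) (fun l _ => sq_nonneg _) (Finset.mem_univ i)
  have hj : v j ^ 2 ≤ ∑ l, v l ^ 2 :=
    Finset.single_le_sum (f := fun l => v l ^ 2) (fun l _ => sq_nonneg _) (Finset.mem_univ j)
  have hij : |v i * v j| ≤ ∑ l, v l ^ 2 := by
    rw [abs_le]
    constructor <;> nlinarith [sq_nonneg (v i + v j), sq_nonneg (v i - v j)]
  calc v i * (K i j * v j) = K i j * (v i * v j) := by ring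
    _ ≤ |K i j * (v i * v j)| := le_abs_self _
    _ = |K i j| * |v i * v j| := abs_mul _ _
    _ ≤ |K i j| * ∑ l, v l ^ 2 := mul_le_mul_of_nonneg_left hij (abs_nonneg _)

/-- the rank-one field as a vector on `S_n ⊕ ℝ` -/
private def kl_zer (ξ : Fin 2 → ℝ) (a : Fin n → ℝ) : Ent n ⊕ Unit → ℝ :=
  Sum.elim (tens ξ a) (fun _ => 0)

private theorem kl_zer_add (ξ : Fin 2 → ℝ) (a b : Fin n → ℝ) :
    kl_zer ξ (a + b) = kl_zer ξ a + kl_zer ξ b := by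
  funext i
  rcases i with i | i
  · simp [kl_zer, tens, mul_add]
  · simp [kl_zer]

private theorem kl_zer_sub (ξ : Fin 2 → ℝ) (a b : Fin n → ℝ) :
    kl_zer ξ (a - b) = kl_zer ξ a - kl_zer ξ b := by
  funext i
  rcases i with i | i
  · simp [kl_zer, tens, mul_sub]
  · simp [kl_zer]

private theorem kl_zer_zero (ξ : Fin 2 → ℝ) : kl_zer ξ (0 : Fin n → ℝ) = 0 := by
  funext i
  rcases i with i | i
  · simp [kl_zer, tens]
  · simp [kl_zer]

private theorem kl_aff (ξ : Fin 2 → ℝ) (F : Ent n → ℝ) (c : ℝ) (a : Fin n → ℝ) :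
    aff (F + c • tens ξ a) = aff F + c • kl_zer ξ a := by
  funext i
  rcases i with i | i
  · simp [kl_zer, aff]
  · simp [kl_zer, aff]

theorem exists_layer {A B : Mn n} (hA : A.PosDef) (hB : B.PosDef) {θ : ℝ} (h0 : 0 < θ)
    (h1 : θ < 1) (ξ : Fin 2 → ℝ) : ∃ M : Mn n, M.PosDef ∧ AffLayer A B θ ξ M := by
  classical
  have hAn : ∀ x : Ent n ⊕ Unit → ℝ, 0 ≤ x ⬝ᵥ (A *ᵥ x) := by
    intro x
    have := hA.posSemidef.dotProduct_mulVec_nonneg x
    simpa using this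
  have hBn : ∀ x : Ent n ⊕ Unit → ℝ, 0 ≤ x ⬝ᵥ (B *ᵥ x) := by
    intro x
    have := hB.posSemidef.dotProduct_mulVec_nonneg x
    simpa using this
  have h1' : 0 < 1 - θ := by linarith
  obtain ⟨Q, hQ⟩ : ∃ Q : (Ent n ⊕ Unit → ℝ) → (Fin n → ℝ) → ℝ, Q = fun v a =>
      θ * ((v + (1 - θ) • kl_zer ξ a) ⬝ᵥ (A *ᵥ (v + (1 - θ) • kl_zer ξ a)))
        + (1 - θ) * ((v - θ • kl_zer ξ a) ⬝ᵥ (B *ᵥ (v - θ • kl_zer ξ a))) := ⟨_, rfl⟩
  have hnn : ∀ v a, 0 ≤ Q v a := by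
    intro v a
    rw [hQ]
    exact add_nonneg (mul_nonneg h0.le (hAn _)) (mul_nonneg h1'.le (hBn _))
  obtain ⟨M, hMs, hM⟩ := exists_matrix_of_iInf Q (by
      intro v w u u'
      rw [hQ]
      have e1 : v + w + (1 - θ) • kl_zer ξ (u + u') =
          (v + (1 - θ) • kl_zer ξ u) + (w + (1 - θ) • kl_zer ξ u') := by
        rw [kl_zer_add, smul_add]; abel
      have e2 : v - w + (1 - θ) • kl_zer ξ (u - u') =
          (v + (1 - θ) • kl_zer ξ u) - (w + (1 - θ) • kl_zer ξ u') := by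
        rw [kl_zer_sub, smul_sub]; abel
      have e3 : v + w - θ • kl_zer ξ (u + u') = (v - θ • kl_zer ξ u) + (w - θ • kl_zer ξ u') := by
        rw [kl_zer_add, smul_add]; abel
      have e4 : v - w - θ • kl_zer ξ (u - u') = (v - θ • kl_zer ξ u) - (w - θ • kl_zer ξ u') := by
        rw [kl_zer_sub, smul_sub]; abel
      simp only [e1, e2, e3, e4]
      generalize v + (1 - θ) • kl_zer ξ u = x1
      generalize w + (1 - θ) • kl_zer ξ u' = x2
      generalize v - θ • kl_zer ξ u = x3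
      generalize w - θ • kl_zer ξ u' = x4
      simp only [mulVec_add, mulVec_sub, add_dotProduct, sub_dotProduct, dotProduct_add,
        dotProduct_sub]
      ring) hnn (θ * (∑ i, ∑ j, |A i j|) + (1 - θ) * (∑ i, ∑ j, |B i j|)) (by
      intro v
      rw [hQ]
      simp only [kl_zer_zero, smul_zero, add_zero, sub_zero]
      have ha := mul_le_mul_of_nonneg_left (kl_upper A v) h0.le
      have hb := mul_le_mul_of_nonneg_left (kl_upper B v) h1'.le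
      linarith)
  refine ⟨M, ?_, hMs, ?_⟩
  · obtain ⟨ca, hca, hca'⟩ := kl_coer hA
    obtain ⟨cb, hcb, hcb'⟩ := kl_coer hB
    obtain ⟨c, hc⟩ : ∃ c, c = min ca cb := ⟨_, rfl⟩
    have hc0 : 0 < c := by rw [hc]; exact lt_min hca hcb
    refine Matrix.PosDef.of_dotProduct_mulVec_pos (by
      rw [Matrix.IsHermitian, Matrix.conjTranspose_eq_transpose_of_trivial]; exact hMs) ?_
    intro v hv
    have hs : 0 < ∑ i, v i ^ 2 := by
      obtain ⟨i, hi⟩ := Function.ne_iff.1 hv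
      refine Finset.sum_pos' (fun _ _ => sq_nonneg _) ⟨i, Finset.mem_univ i, ?_⟩
      exact lt_of_le_of_ne (sq_nonneg _) (Ne.symm (pow_ne_zero 2 hi))
    have hlow : c * ∑ i, v i ^ 2 ≤ v ⬝ᵥ (M *ᵥ v) := by
      rw [← hM]
      refine le_ciInf fun a => ?_
      rw [hQ]
      have i1 : c * ∑ i, (v + (1 - θ) • kl_zer ξ a) i ^ 2 ≤
          (v + (1 - θ) • kl_zer ξ a) ⬝ᵥ (A *ᵥ (v + (1 - θ) • kl_zer ξ a)) := by
        refine le_trans (mul_le_mul_of_nonneg_right (by rw [hc]; exact min_le_left _ _)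
          (Finset.sum_nonneg fun _ _ => sq_nonneg _)) (hca' _)
      have i2 : c * ∑ i, (v - θ • kl_zer ξ a) i ^ 2 ≤
          (v - θ • kl_zer ξ a) ⬝ᵥ (B *ᵥ (v - θ • kl_zer ξ a)) := by
        refine le_trans (mul_le_mul_of_nonneg_right (by rw [hc]; exact min_le_right _ _)
          (Finset.sum_nonneg fun _ _ => sq_nonneg _)) (hcb' _)
      have i3 : ∑ i, v i ^ 2 ≤ θ * ∑ i, (v + (1 - θ) • kl_zer ξ a) i ^ 2
          + (1 - θ) * ∑ i, (v - θ • kl_zer ξ a) i ^ 2 := by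
        rw [Finset.mul_sum, Finset.mul_sum, ← Finset.sum_add_distrib]
        refine Finset.sum_le_sum fun i _ => ?_
        simp only [Pi.add_apply, Pi.sub_apply, Pi.smul_apply, smul_eq_mul]
        have e : θ * (v i + (1 - θ) * kl_zer ξ a i) ^ 2 + (1 - θ) * (v i - θ * kl_zer ξ a i) ^ 2
            = v i ^ 2 + θ * (1 - θ) * (kl_zer ξ a i) ^ 2 := by ring
        rw [e]
        have := mul_nonneg (mul_nonneg h0.le h1'.le) (sq_nonneg (kl_zer ξ a i))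
        linarith
      have i4 := mul_le_mul_of_nonneg_left i1 h0.le
      have i5 := mul_le_mul_of_nonneg_left i2 h1'.le
      have i6 := mul_le_mul_of_nonneg_left i3 hc0.le
      linarith
    have := lt_of_lt_of_le (mul_pos hc0 hs) hlow
    simpa using this
  · intro F
    show aff F ⬝ᵥ (M *ᵥ aff F) = _
    rw [← hM]
    congr 1
    funext a
    rw [hQ]
    unfold affW
    have e : F - θ • tens ξ a = F + (-θ) • tens ξ a := by rw [neg_smul, sub_eq_add_neg]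
    rw [e, kl_aff, kl_aff, neg_smul, ← sub_eq_add_neg]

/-- the comparison energy -/
noncomputable def cmp (A : Mod) (P0 P1 P2 : Mn n) (F : Ent n → ℝ) (z : ℝ × ℝ) (x τ : ℝ)
    (H : Ent n → ℝ) : ℝ :=
  affW (pk P0 P1 P2 z) F
    + 2 * ∑ m, ((dv (pk P0 P1 P2 z) F m).1 * H (0, m) + (dv (pk P0 P1 P2 z) F m).2 * H (1, m))
    + τ * A.AA H - x / τ

private theorem kl_point (A : Mod) (θ τ : ℝ) (hτ : 0 < τ) (x0 x1 : ℝ) (hq : 0 < A.q (x0, x1))
    (a h0 h1 : ℝ) (p u u' : ℝ × ℝ) :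
    θ * (2 * ((p + u).1 * (h0 + (1 - θ) * (x0 * a)) + (p + u).2 * (h1 + (1 - θ) * (x1 * a)))
        + τ * A.q (h0 + (1 - θ) * (x0 * a), h1 + (1 - θ) * (x1 * a)))
      + (1 - θ) * (2 * ((p + u').1 * (h0 - θ * (x0 * a)) + (p + u').2 * (h1 - θ * (x1 * a)))
        + τ * A.q (h0 - θ * (x0 * a), h1 - θ * (x1 * a)))
    = 2 * ((p + (θ • u + (1 - θ) • u')).1 * h0 + (p + (θ • u + (1 - θ) • u')).2 * h1)
        + τ * A.q (h0, h1) - θ * (1 - θ) * A.NN (x0, x1) (u - u') / τ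
        + θ * (1 - θ) * τ * A.q (x0, x1)
          * (a + (x0 * (u - u').1 + x1 * (u - u').2) / (τ * A.q (x0, x1))) ^ 2 := by
  have hne : A.q (x0, x1) ≠ 0 := hq.ne'
  have hτ' : τ ≠ 0 := hτ.ne'
  have e1 : A.q (h0 + (1 - θ) * (x0 * a), h1 + (1 - θ) * (x1 * a)) = A.q (h0, h1)
      + 2 * (1 - θ) * a * (A.a * h0 * x0 + A.b * (h0 * x1 + h1 * x0) + A.c * h1 * x1)
      + (1 - θ) ^ 2 * a ^ 2 * A.q (x0, x1) := by
    unfold Mod.q; ring
  have e2 : A.q (h0 - θ * (x0 * a), h1 - θ * (x1 * a)) = A.q (h0, h1)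
      - 2 * θ * a * (A.a * h0 * x0 + A.b * (h0 * x1 + h1 * x0) + A.c * h1 * x1)
      + θ ^ 2 * a ^ 2 * A.q (x0, x1) := by
    unfold Mod.q; ring
  rw [e1, e2]
  unfold Mod.NN
  simp only [Prod.fst_add, Prod.snd_add, Prod.fst_sub, Prod.snd_sub, Prod.smul_fst, Prod.smul_snd,
    smul_eq_mul]
  generalize A.q (x0, x1) = Q at hne ⊢
  generalize A.q (h0, h1) = Q'
  field_simp
  ring

theorem cmp_layer (A : Mod) (P0 P1 P2 : Mn n) (F : Ent n → ℝ) (z z' : ℝ × ℝ) (x x' : ℝ)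
    {τ : ℝ} (hτ : 0 < τ) (θ : ℝ) {ξ : Fin 2 → ℝ} (hξ : ξ ≠ 0) (H : Ent n → ℝ) (a : Fin n → ℝ) :
    θ * cmp A P0 P1 P2 F z x τ (H + (1 - θ) • tens ξ a)
        + (1 - θ) * cmp A P0 P1 P2 F z' x' τ (H - θ • tens ξ a)
      = cmp A P0 P1 P2 F (θ • z + (1 - θ) • z')
          (θ * x + (1 - θ) * x'
            + θ * (1 - θ) * ∑ m, A.NN (ξ 0, ξ 1) (colD P1 P2 F m (z - z'))) τ H
        + θ * (1 - θ) * τ * A.q (ξ 0, ξ 1)
          * ∑ m, (a m + (ξ 0 * (colD P1 P2 F m (z - z')).1 + ξ 1 * (colD P1 P2 F m (z - z')).2)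
              / (τ * A.q (ξ 0, ξ 1))) ^ 2 := by
  have hq : 0 < A.q (ξ 0, ξ 1) := by
    refine q_pos A ?_
    intro h
    apply hξ
    funext i
    rw [Prod.mk_eq_zero] at h
    have hi : i = 0 ∨ i = 1 := by omega
    rcases hi with rfl | rfl
    · exact h.1
    · exact h.2
  have hp : ∀ m, _ := fun m => kl_point A θ τ hτ (ξ 0) (ξ 1) hq (a m) (H (0, m)) (H (1, m))
    (dv P0 F m) (colD P1 P2 F m z) (colD P1 P2 F m z')
  have hs := Finset.sum_congr (rfl : (Finset.univ : Finset (Fin n)) = Finset.univ) (fun m _ => hp m)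
  unfold cmp Mod.AA
  simp only [affW_pk, dv_pk, map_add, map_smul, map_sub, Pi.add_apply, Pi.sub_apply, Pi.smul_apply, tens,
    smul_eq_mul] at hs ⊢
  simp only [Finset.sum_add_distrib, Finset.sum_sub_distrib, ← Finset.mul_sum, ← Finset.sum_div] at hs ⊢
  have hz1 : (θ • z + (1 - θ) • z').1 = θ * z.1 + (1 - θ) * z'.1 := rfl
  have hz2 : (θ • z + (1 - θ) • z').2 = θ * z.2 + (1 - θ) * z'.2 := rfl
  rw [hz1, hz2]
  have hτ' : τ ≠ 0 := hτ.ne'
  rw [add_div, add_div]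
  linear_combination hs

private theorem kl_bdd {A B : Mn n} (hA : A.PosDef) (hB : B.PosDef) {θ : ℝ} (h0 : 0 < θ)
    (h1 : θ < 1) (ξ : Fin 2 → ℝ) (F : Ent n → ℝ) :
    BddBelow (Set.range fun a : Fin n → ℝ =>
      θ * affW A (F + (1 - θ) • tens ξ a) + (1 - θ) * affW B (F - θ • tens ξ a)) := by
  refine ⟨0, ?_⟩
  rintro _ ⟨a, rfl⟩
  have h2 : 0 ≤ affW A (F + (1 - θ) • tens ξ a) := by
    have := hA.posSemidef.dotProduct_mulVec_nonneg (aff (F + (1 - θ) • tens ξ a))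
    simpa [affW] using this
  have h3 : 0 ≤ affW B (F - θ • tens ξ a) := by
    have := hB.posSemidef.dotProduct_mulVec_nonneg (aff (F - θ • tens ξ a))
    simpa [affW] using this
  exact add_nonneg (mul_nonneg h0.le h2) (mul_nonneg (by linarith) h3)

private theorem kl_main (A : Mod) {k : ℕ} (P0 P1 P2 : Mn n) (s : Fin k → ℝ × ℝ)
    (hK : ∀ j, (pk P0 P1 P2 (s j)).PosDef) {δ : ℝ}
    (h0 : 0 ≤ δ) (h1 : δ < 1) (hN : Near A (fun j => pk P0 P1 P2 (s j)) δ)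
    {ι : Type} (F : ι → Ent n → ℝ) {z : ℝ × ℝ} {q : ι × Fin n → ℝ}
    (h : LamT A s (fun im : ι × Fin n => colD P1 P2 (F im.1) im.2) z q) :
    ∃ M : Mn n, M.PosDef ∧ AffLaminate (fun j => pk P0 P1 P2 (s j)) M ∧ ∀ i H,
      cmp A P0 P1 P2 (F i) z (∑ m, q (i, m)) (1 - δ) H ≤ affW M (F i + H) ∧
      affW M (F i + H) ≤ cmp A P0 P1 P2 (F i) z (∑ m, q (i, m)) (1 + δ) H := by
  induction h with
  | phase j =>
    refine ⟨pk P0 P1 P2 (s j), hK j, AffLaminate.phase j, fun i H => ?_⟩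
    have hs : (pk P0 P1 P2 (s j)).IsSymm := by
      have := (hK j).isHermitian
      rwa [Matrix.IsHermitian, Matrix.conjTranspose_eq_transpose_of_trivial] at this
    have h2 := abs_le.1 (hN j H)
    rw [affW_add hs]
    unfold cmp
    simp only [Finset.sum_const_zero, zero_div, sub_zero]
    constructor <;> nlinarith [h2.1, h2.2]
  | layer z z' q q' θ ξ _ _ hθ0 hθ1 hξ ih ih' =>
    obtain ⟨M1, hM1, hL1, hb1⟩ := ih
    obtain ⟨M2, hM2, hL2, hb2⟩ := ih'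
    have hξ' : (![ξ.1, ξ.2] : Fin 2 → ℝ) ≠ 0 := by
      intro h
      apply hξ
      have e0 := congrFun h 0
      have e1 := congrFun h 1
      exact Prod.ext (by simpa using e0) (by simpa using e1)
    obtain ⟨M, hM, hLay⟩ := exists_layer hM1 hM2 hθ0 hθ1 ![ξ.1, ξ.2]
    have h1θ : 0 < 1 - θ := by linarith
    refine ⟨M, hM, AffLaminate.layer M1 M2 M θ ![ξ.1, ξ.2] hL1 hL2 hθ0 hθ1 hξ' hLay, fun i H => ?_⟩
    have hxs : ∑ m, (θ * q (i, m) + (1 - θ) * q' (i, m)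
        + θ * (1 - θ) * A.NN ξ ((colD P1 P2 (F i) m) (z - z')))
        = θ * ∑ m, q (i, m) + (1 - θ) * ∑ m, q' (i, m) + θ * (1 - θ) *
          ∑ m, A.NN ((![ξ.1, ξ.2] : Fin 2 → ℝ) 0, (![ξ.1, ξ.2] : Fin 2 → ℝ) 1)
            ((colD P1 P2 (F i) m) (z - z')) := by
      have e : ((![ξ.1, ξ.2] : Fin 2 → ℝ) 0, (![ξ.1, ξ.2] : Fin 2 → ℝ) 1) = ξ := by simp
      rw [e, Finset.sum_add_distrib, Finset.sum_add_distrib, Finset.mul_sum, Finset.mul_sum,
        Finset.mul_sum]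
    have hc := fun (τ : ℝ) (hτ : 0 < τ) (a : Fin n → ℝ) => cmp_layer A P0 P1 P2 (F i) z z'
      (∑ m, q (i, m)) (∑ m, q' (i, m)) hτ θ hξ' H a
    have hqp : 0 < A.q ((![ξ.1, ξ.2] : Fin 2 → ℝ) 0, (![ξ.1, ξ.2] : Fin 2 → ℝ) 1) := by
      have e : ((![ξ.1, ξ.2] : Fin 2 → ℝ) 0, (![ξ.1, ξ.2] : Fin 2 → ℝ) 1) = ξ := by simp
      rw [e]
      exact q_pos A hξ
    simp only
    rw [hxs, hLay.2]
    constructor
    · refine le_ciInf fun a => ?_
      have e := hc (1 - δ) (by linarith) a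
      have hnn : 0 ≤ θ * (1 - θ) * (1 - δ) * A.q ((![ξ.1, ξ.2] : Fin 2 → ℝ) 0, (![ξ.1, ξ.2] : Fin 2 → ℝ) 1)
          * ∑ m, (a m + ((![ξ.1, ξ.2] : Fin 2 → ℝ) 0 * (colD P1 P2 (F i) m (z - z')).1
              + (![ξ.1, ξ.2] : Fin 2 → ℝ) 1 * (colD P1 P2 (F i) m (z - z')).2)
              / ((1 - δ) * A.q ((![ξ.1, ξ.2] : Fin 2 → ℝ) 0, (![ξ.1, ξ.2] : Fin 2 → ℝ) 1))) ^ 2 :=
        mul_nonneg (mul_nonneg (mul_nonneg (mul_nonneg hθ0.le h1θ.le) (by linarith)) hqp.le)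
          (Finset.sum_nonneg fun _ _ => sq_nonneg _)
      have l1 := (hb1 i (H + (1 - θ) • tens ![ξ.1, ξ.2] a)).1
      have l2 := (hb2 i (H - θ • tens ![ξ.1, ξ.2] a)).1
      rw [← add_assoc] at l1
      rw [← add_sub_assoc] at l2
      have m1 := mul_le_mul_of_nonneg_left l1 hθ0.le
      have m2 := mul_le_mul_of_nonneg_left l2 h1θ.le
      linarith
    · obtain ⟨a, ha⟩ : ∃ a : Fin n → ℝ, ∀ m, a m + ((![ξ.1, ξ.2] : Fin 2 → ℝ) 0
          * (colD P1 P2 (F i) m (z - z')).1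
              + (![ξ.1, ξ.2] : Fin 2 → ℝ) 1 * (colD P1 P2 (F i) m (z - z')).2)
              / ((1 + δ) * A.q ((![ξ.1, ξ.2] : Fin 2 → ℝ) 0, (![ξ.1, ξ.2] : Fin 2 → ℝ) 1)) = 0 :=
        ⟨fun m => -(((![ξ.1, ξ.2] : Fin 2 → ℝ) 0 * (colD P1 P2 (F i) m (z - z')).1
              + (![ξ.1, ξ.2] : Fin 2 → ℝ) 1 * (colD P1 P2 (F i) m (z - z')).2)
              / ((1 + δ) * A.q ((![ξ.1, ξ.2] : Fin 2 → ℝ) 0, (![ξ.1, ξ.2] : Fin 2 → ℝ) 1))),
          fun m => neg_add_cancel _⟩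
      refine le_trans (ciInf_le (kl_bdd hM1 hM2 hθ0 hθ1 ![ξ.1, ξ.2] (F i + H)) a) ?_
      have e := hc (1 + δ) (by linarith) a
      simp only [ha] at e
      simp only [ne_eq, OfNat.ofNat_ne_zero, not_false_eq_true, zero_pow, Finset.sum_const_zero,
        mul_zero, add_zero] at e
      have l1 := (hb1 i (H + (1 - θ) • tens ![ξ.1, ξ.2] a)).2
      have l2 := (hb2 i (H - θ • tens ![ξ.1, ξ.2] a)).2
      rw [← add_assoc] at l1
      rw [← add_sub_assoc] at l2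
      have m1 := mul_le_mul_of_nonneg_left l1 hθ0.le
      have m2 := mul_le_mul_of_nonneg_left l2 h1θ.le
      linarith

theorem lam_near (A : Mod) {k : ℕ} (P0 P1 P2 : Mn n) (s : Fin k → ℝ × ℝ)
    (hK : ∀ j, (pk P0 P1 P2 (s j)).PosDef) {δ : ℝ}
    (h0 : 0 ≤ δ) (h1 : δ < 1) (hN : Near A (fun j => pk P0 P1 P2 (s j)) δ)
    {ι : Type} (F : ι → Ent n → ℝ) {z : ℝ × ℝ} {q : ι × Fin n → ℝ}
    (h : LamT A s (fun im : ι × Fin n => colD P1 P2 (F im.1) im.2) z q) :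
    ∃ M : Mn n, M.PosDef ∧ AffLaminate (fun j => pk P0 P1 P2 (s j)) M ∧ ∀ i,
      affW (pk P0 P1 P2 z) (F i) - (∑ m, q (i, m)) / (1 - δ) ≤ affW M (F i) ∧
      affW M (F i) ≤ affW (pk P0 P1 P2 z) (F i) - (∑ m, q (i, m)) / (1 + δ) := by
  obtain ⟨M, hM, hL, hb⟩ := kl_main A P0 P1 P2 s hK h0 h1 hN F h
  refine ⟨M, hM, hL, fun i => ?_⟩
  have hz := hb i 0
  have hA0 : A.AA (0 : Ent n → ℝ) = 0 := by
    unfold Mod.AA Mod.q
    simp
  unfold cmp at hz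
  simp only [hA0, Pi.zero_apply, mul_zero, add_zero, Finset.sum_const_zero] at hz
  exact hz

end Pool.Agent.Lib.MP_2a9317_an.TP
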