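import Pool.Agent.Lib.MP_2a9317_an.TP.KD

set_option autoImplicit false

/-!
# TP-KU: elementary facts on `affW`

* `affW_add`: expand `(aff F + zer H) ⬝ M (aff F + zer H)` with `zer H = Sum.elim H 0` and the symmetry of `M`:
  `affW M (F + H) = affW M F + 2 ∑_m (dv M F m)·(H (0,m), H (1,m)) + lq M H`.
* `affW_pk`, `dv_pk`: linearity.
* `affW_sub_EE`: `aff F (inr ()) = 1`.
* `test F` family: `tst none = 0`, `tst (some (inl q)) = e_q`, `tst (some (inr (inl q))) = -e_q`,
  `tst (some (inr (inr (q, q')))) = e_q + e_{q'}` (`e_q = Pi.single q 1`).  For symmetric `M`: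
  `M (inr) (inr) = W 0`, `4 M (inl q) (inr) = W (e_q) - W (-e_q)`,
  `2 M (inl q) (inl q') = W (e_q + e_q') - W (e_q) - W (e_q') + W 0`.  Hence `entries`.
* `eq_of_affW`: from `entries` with `η = 0`.
-/

namespace Pool.Agent.Lib.MP_2a9317_an.TP

open MeasureTheory Matrix Filter Topology
open scoped ContDiff Kronecker

variable {n : ℕ}

private theorem affW_expand (M : Mn n) (F : Ent n → ℝ) :
    affW M F = (∑ q, ∑ q', F q * (M (Sum.inl q) (Sum.inl q') * F q'))
      + (∑ q, F q * M (Sum.inl q) (Sum.inr ())) + (∑ q, M (Sum.inr ()) (Sum.inl q) * F q)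
      + M (Sum.inr ()) (Sum.inr ()) := by
  unfold affW aff
  simp only [dotProduct, mulVec, Fintype.sum_sum_type, Sum.elim_inl, Sum.elim_inr,
    Finset.univ_unique, Finset.sum_singleton, PUnit.default_eq_unit, mul_one, one_mul, mul_add,
    Finset.sum_add_distrib, Finset.mul_sum]
  ring

private theorem lq_expand (M : Mn n) (H : Ent n → ℝ) :
    lq M H = ∑ q, ∑ q', H q * (M (Sum.inl q) (Sum.inl q') * H q') := by
  unfold lq
  simp only [dotProduct, mulVec, toBlocks₁₁, of_apply, Finset.mul_sum]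

private theorem dv_fst (M : Mn n) (F : Ent n → ℝ) (m : Fin n) :
    (dv M F m).1 = (∑ q, M (Sum.inl (0, m)) (Sum.inl q) * F q) + M (Sum.inl (0, m)) (Sum.inr ()) := by
  unfold dv aff
  simp only [dotProduct, mulVec, Fintype.sum_sum_type, Sum.elim_inl, Sum.elim_inr,
    Finset.univ_unique, Finset.sum_singleton, PUnit.default_eq_unit, mul_one]

private theorem dv_snd (M : Mn n) (F : Ent n → ℝ) (m : Fin n) :
    (dv M F m).2 = (∑ q, M (Sum.inl (1, m)) (Sum.inl q) * F q) + M (Sum.inl (1, m)) (Sum.inr ()) := by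
  unfold dv aff
  simp only [dotProduct, mulVec, Fintype.sum_sum_type, Sum.elim_inl, Sum.elim_inr,
    Finset.univ_unique, Finset.sum_singleton, PUnit.default_eq_unit, mul_one]

private theorem sum_ent (f : Ent n → ℝ) : ∑ q, f q = ∑ m, (f (0, m) + f (1, m)) := by
  rw [Fintype.sum_prod_type, Fin.sum_univ_two, Finset.sum_add_distrib]

theorem affW_add {M : Mn n} (hM : M.IsSymm) (F H : Ent n → ℝ) :
    affW M (F + H) = affW M F
      + 2 * ∑ m, ((dv M F m).1 * H (0, m) + (dv M F m).2 * H (1, m)) + lq M H := by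
  have hs : ∀ i j, M i j = M j i := fun i j => (hM.apply j i)
  have h1 : ∑ m, ((dv M F m).1 * H (0, m) + (dv M F m).2 * H (1, m)) =
      ∑ q, ((∑ q', M (Sum.inl q) (Sum.inl q') * F q') + M (Sum.inl q) (Sum.inr ())) * H q := by
    rw [sum_ent]
    refine Finset.sum_congr rfl fun m _ => ?_
    rw [dv_fst, dv_snd]
  rw [h1, affW_expand, affW_expand, lq_expand]
  have h2 : ∑ q, M (Sum.inr ()) (Sum.inl q) * (F + H) q = ∑ q, (F q * M (Sum.inl q) (Sum.inr ()) +
      H q * M (Sum.inl q) (Sum.inr ())) := by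
    refine Finset.sum_congr rfl fun q _ => ?_
    rw [hs (Sum.inr ()) (Sum.inl q), Pi.add_apply]
    ring
  have h3 : ∑ q, M (Sum.inr ()) (Sum.inl q) * F q = ∑ q, F q * M (Sum.inl q) (Sum.inr ()) := by
    refine Finset.sum_congr rfl fun q _ => ?_
    rw [hs (Sum.inr ()) (Sum.inl q)]
    ring
  have h4 : ∑ q, ∑ q', (F + H) q * (M (Sum.inl q) (Sum.inl q') * (F + H) q') =
      (∑ q, ∑ q', F q * (M (Sum.inl q) (Sum.inl q') * F q')) +
      (∑ q, ∑ q', H q * (M (Sum.inl q) (Sum.inl q') * F q')) +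
      (∑ q, ∑ q', F q * (M (Sum.inl q) (Sum.inl q') * H q')) +
      (∑ q, ∑ q', H q * (M (Sum.inl q) (Sum.inl q') * H q')) := by
    simp only [← Finset.sum_add_distrib]
    refine Finset.sum_congr rfl fun q _ => Finset.sum_congr rfl fun q' _ => ?_
    rw [Pi.add_apply, Pi.add_apply]
    ring
  have h5 : ∑ q, ∑ q', F q * (M (Sum.inl q) (Sum.inl q') * H q') =
      ∑ q, ∑ q', H q * (M (Sum.inl q) (Sum.inl q') * F q') := by
    rw [Finset.sum_comm]
    refine Finset.sum_congr rfl fun q _ => Finset.sum_congr rfl fun q' _ => ?_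
    rw [hs (Sum.inl q') (Sum.inl q)]
    ring
  have h6 : ∑ q, ((∑ q', M (Sum.inl q) (Sum.inl q') * F q') + M (Sum.inl q) (Sum.inr ())) * H q =
      (∑ q, ∑ q', H q * (M (Sum.inl q) (Sum.inl q') * F q')) +
        ∑ q, H q * M (Sum.inl q) (Sum.inr ()) := by
    rw [← Finset.sum_add_distrib]
    refine Finset.sum_congr rfl fun q _ => ?_
    rw [add_mul, Finset.sum_mul]
    congr 1
    · exact Finset.sum_congr rfl fun q' _ => by ring
    · ring
  have h7 : ∑ q, (F + H) q * M (Sum.inl q) (Sum.inr ()) =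
      (∑ q, F q * M (Sum.inl q) (Sum.inr ())) + ∑ q, H q * M (Sum.inl q) (Sum.inr ()) := by
    rw [← Finset.sum_add_distrib]
    refine Finset.sum_congr rfl fun q _ => ?_
    rw [Pi.add_apply]
    ring
  rw [h2, h3, h4, h5, h6, h7, Finset.sum_add_distrib]
  ring

theorem affW_pk (P0 P1 P2 : Mn n) (z : ℝ × ℝ) (F : Ent n → ℝ) :
    affW (pk P0 P1 P2 z) F = affW P0 F + z.1 * affW P1 F + z.2 * affW P2 F := by
  unfold affW pk
  rw [add_mulVec, add_mulVec, smul_mulVec, smul_mulVec, dotProduct_add, dotProduct_add,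
    dotProduct_smul, dotProduct_smul, smul_eq_mul, smul_eq_mul]

theorem dv_pk (P0 P1 P2 : Mn n) (z : ℝ × ℝ) (F : Ent n → ℝ) (m : Fin n) :
    dv (pk P0 P1 P2 z) F m = dv P0 F m + colD P1 P2 F m z := by
  unfold dv pk colD
  rw [add_mulVec, add_mulVec, smul_mulVec, smul_mulVec]
  ext
  · simp [dv]
    ring
  · simp [dv]
    ring

theorem affW_sub_EE (M : Mn n) (x : ℝ) (F : Ent n → ℝ) :
    affW (M - x • EE n) F = affW M F - x := by
  have h : ∀ i j, EE n i j = if i = Sum.inr () ∧ j = Sum.inr () then 1 else 0 := by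
    intro i j
    unfold EE
    rw [single_apply]
    congr 1
    ext
    constructor
    · rintro ⟨h1, h2⟩
      exact ⟨h1.symm, h2.symm⟩
    · rintro ⟨h1, h2⟩
      exact ⟨h1.symm, h2.symm⟩
  rw [affW_expand, affW_expand]
  simp only [Matrix.sub_apply, Matrix.smul_apply, h, smul_eq_mul, reduceCtorEq, false_and, and_false, if_false,
    and_self, if_true, mul_zero, sub_zero, mul_one]
  ring

/-- the fields that determine a symmetric matrix -/
def tst (n : ℕ) : Option (Ent n ⊕ Ent n ⊕ Ent n × Ent n) → Ent n → ℝ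
  | none => 0
  | some (Sum.inl q) => Pi.single q 1
  | some (Sum.inr (Sum.inl q)) => -Pi.single q 1
  | some (Sum.inr (Sum.inr (q, q'))) => Pi.single q 1 + Pi.single q' 1

private theorem affW_zero (M : Mn n) : affW M 0 = M (Sum.inr ()) (Sum.inr ()) := by
  rw [affW_expand]
  simp

private theorem dv_single {M : Mn n} (F : Ent n → ℝ) (q : Ent n) (x : ℝ) :
    ∑ m, ((dv M F m).1 * (Pi.single q x : Ent n → ℝ) (0, m) +
      (dv M F m).2 * (Pi.single q x : Ent n → ℝ) (1, m)) =
      ((∑ q', M (Sum.inl q) (Sum.inl q') * F q') + M (Sum.inl q) (Sum.inr ())) * x := by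
  have h1 : ∑ m, ((dv M F m).1 * (Pi.single q x : Ent n → ℝ) (0, m) +
      (dv M F m).2 * (Pi.single q x : Ent n → ℝ) (1, m)) =
      ∑ p, ((∑ q', M (Sum.inl p) (Sum.inl q') * F q') + M (Sum.inl p) (Sum.inr ())) *
        (Pi.single q x : Ent n → ℝ) p := by
    rw [sum_ent]
    refine Finset.sum_congr rfl fun m _ => ?_
    rw [dv_fst, dv_snd]
  rw [h1, Finset.sum_eq_single q]
  · rw [Pi.single_eq_same]
  · intro b _ hb
    rw [Pi.single_eq_of_ne hb, mul_zero]
  · intro h
    exact absurd (Finset.mem_univ q) h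

private theorem lq_single (M : Mn n) (q : Ent n) (x : ℝ) :
    lq M (Pi.single q x) = x ^ 2 * M (Sum.inl q) (Sum.inl q) := by
  rw [lq_expand, Finset.sum_eq_single q, Finset.sum_eq_single q]
  · rw [Pi.single_eq_same]
    ring
  · intro b _ hb
    rw [Pi.single_eq_of_ne hb, mul_zero, mul_zero]
  · intro h
    exact absurd (Finset.mem_univ q) h
  · intro b _ hb
    refine Finset.sum_eq_zero fun q' _ => ?_
    rw [Pi.single_eq_of_ne hb, zero_mul]
  · intro h
    exact absurd (Finset.mem_univ q) h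

private theorem affW_single {M : Mn n} (hM : M.IsSymm) (F : Ent n → ℝ) (q : Ent n) (x : ℝ) :
    affW M (F + Pi.single q x) = affW M F +
      2 * (((∑ q', M (Sum.inl q) (Sum.inl q') * F q') + M (Sum.inl q) (Sum.inr ())) * x) +
      x ^ 2 * M (Sum.inl q) (Sum.inl q) := by
  rw [affW_add hM, dv_single, lq_single]

private theorem rr_eq (M : Mn n) : M (Sum.inr ()) (Sum.inr ()) = affW M (tst n none) :=
  (affW_zero M).symm

private theorem lr_eq {M : Mn n} (hM : M.IsSymm) (q : Ent n) :
    4 * M (Sum.inl q) (Sum.inr ()) =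
      affW M (tst n (some (Sum.inl q))) - affW M (tst n (some (Sum.inr (Sum.inl q)))) := by
  have h1 : affW M (tst n (some (Sum.inl q))) = affW M (0 + Pi.single q 1) := by
    rw [zero_add]
    rfl
  have h2 : affW M (tst n (some (Sum.inr (Sum.inl q)))) = affW M (0 + Pi.single q (-1)) := by
    rw [zero_add, Pi.single_neg]
    rfl
  rw [h1, h2, affW_single hM, affW_single hM]
  simp
  ring

private theorem ll_eq {M : Mn n} (hM : M.IsSymm) (q q' : Ent n) :
    2 * M (Sum.inl q) (Sum.inl q') =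
      affW M (tst n (some (Sum.inr (Sum.inr (q, q'))))) - affW M (tst n (some (Sum.inl q))) -
        affW M (tst n (some (Sum.inl q'))) + affW M (tst n none) := by
  have h1 : ∀ q, affW M (tst n (some (Sum.inl q))) = affW M (0 + Pi.single q 1) := by
    intro q
    rw [zero_add]
    rfl
  have h2 : affW M (tst n (some (Sum.inr (Sum.inr (q, q'))))) =
      affW M (Pi.single q' 1 + Pi.single q 1) := by
    rw [add_comm]
    rfl
  have h3 : affW M (Pi.single q' 1) = affW M (0 + Pi.single q' 1) := by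
    rw [zero_add]
  have h4 : ∑ p, M (Sum.inl q) (Sum.inl p) * (Pi.single q' 1 : Ent n → ℝ) p =
      M (Sum.inl q) (Sum.inl q') := by
    rw [Finset.sum_eq_single q']
    · rw [Pi.single_eq_same, mul_one]
    · intro b _ hb
      rw [Pi.single_eq_of_ne hb, mul_zero]
    · intro h
      exact absurd (Finset.mem_univ q') h
  rw [h2, h1, h1, affW_single hM (Pi.single q' 1) q 1, h3, affW_single hM, affW_single hM, h4]
  show _ = _ + affW M 0
  simp
  ring

theorem entries {M M' : Mn n} (hM : M.IsSymm) (hM' : M'.IsSymm) {η : ℝ}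
    (h : ∀ i, |affW M (tst n i) - affW M' (tst n i)| ≤ η) (r t : Ent n ⊕ Unit) :
    |M r t - M' r t| ≤ 2 * η := by
  have hη : 0 ≤ η := (abs_nonneg _).trans (h none)
  have hlr : ∀ q, |M (Sum.inl q) (Sum.inr ()) - M' (Sum.inl q) (Sum.inr ())| ≤ 2 * η := by
    intro q
    have h1 := lr_eq hM q
    have h2 := lr_eq hM' q
    have h3 := abs_le.1 (h (some (Sum.inl q)))
    have h4 := abs_le.1 (h (some (Sum.inr (Sum.inl q))))
    rw [abs_le]
    constructor <;> linarith
  rcases r with q | u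
  · rcases t with q' | u
    · have h1 := ll_eq hM q q'
      have h2 := ll_eq hM' q q'
      have h3 := abs_le.1 (h (some (Sum.inl q)))
      have h4 := abs_le.1 (h (some (Sum.inl q')))
      have h5 := abs_le.1 (h (some (Sum.inr (Sum.inr (q, q')))))
      have h6 := abs_le.1 (h none)
      rw [abs_le]
      constructor <;> linarith
    · exact hlr q
  · rcases t with q' | u'
    · rw [← hM.apply, ← hM'.apply]
      exact hlr q'
    · have h6 := h none
      rw [← rr_eq, ← rr_eq] at h6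
      exact h6.trans (by linarith)

theorem eq_of_affW {M M' : Mn n} (hM : M.IsSymm) (hM' : M'.IsSymm)
    (h : ∀ F, affW M F = affW M' F) : M = M' := by
  ext r t
  have h1 := entries hM hM' (η := 0) (fun i => by rw [h, sub_self, abs_zero]) r t
  rw [mul_zero] at h1
  exact sub_eq_zero.1 (abs_eq_zero.1 (le_antisymm h1 (abs_nonneg _)))

end Pool.Agent.Lib.MP_2a9317_an.TP
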