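import Pool.Agent.Lib.MP_2a9317_an.TP.KU
import Pool.Agent.Lib.MP_2a9317_an.Aff
import Pool.Agent.Lib.MP_2a9317_an.AffFinal

set_option autoImplicit false

/-!
# TP-Shp: four phases with equal moduli separate the closures (three fields)

`ρ = √Lam`, `NN x y = x² - x y + y²` (`Alg.lean`), `a = sa j`, `b = sb j` (signs, `Aff.lean`).  Phase `j < k`:
`W_j(F) = NN (x1 - ρ a) y1 + NN x2 (y2 - ρ b) + NN (x3 - a b) (y3 - a b) + 1 + (j - 3)` (`j - 3` in `ℕ`), where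
`x_m = F (0, m)`, `y_m = F (1, m)`: the moduli are `!![1, -1/2; -1/2, 1] ⊗ₖ 1`, `K j` is the symmetric matrix of the
quadratic form `z² W_j(F/z)`, positive definite since `W_j ≥ 1` and `NN` is positive definite.  Distinct phases:
`(a, b)` determine `j ∈ {0,1,2}` and for `j ≥ 3` the last entry does (`V_j` and `c_j` entries).
* Laminates (compare `AffInv`, `affInv_layer`, `low_step` in `Alg.lean`/`Aff.lean`): for an `AffLaminate` `M` there are
  `r s w e` with `|r|, |s|, |w| ≤ 1`, `(3/4) gg r s w ≤ e` and for all `F`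
  `NN (x1 - ρ r) y1 + NN x2 (y2 - ρ s) + NN (x3 - w) (y3 - w) + e + 1 ≤ affW M F`.  Phases: `e = 0`
  (`gg_phase`).  Layer with normal `ξ = (x, y)`: `NN_split` for each field and `NN_wedge`:
  `θ(1-θ) NN (p, q)`-terms `≥ θ(1-θ) (3/4) (x q - y p)² / NN x y` with the jumps of
  `(x1 - ρ r, y1)`, ...; the wedge product kills the part `ξ ⊗ a` of the jump, leaving
  `Lam y² (r1-r2)²`, `Lam x² (s1-s2)²`, `(x-y)² (w1-w2)²`; `e_new = exc ...`, and `gg_layer` gives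
  `(3/4) gg ≤ e_new`.  At `F = 0`: `affW M 0 ≥ 1 + Lam r² + Lam s² + w² + e ≥ 1 + 27900/40000` (`gg_root`); closed
  condition, so it holds on `affGL`.
* (One may scale the shifts by `ee`, i.e. `NN (x1 - ee ρ a) y1 + NN x2 (y2 - ee ρ b) + NN (x3 - ee a b) (y3 - ee a b)`,
  to reuse `Low`, `u1`, `u2`, `u3`, `UB`, `UB_avg` literally; then the gap is `ee² * 673/1000 < ee² * 27900/40000`.)
* Upper bound: `χ = chi k hk`; the potentials `u_1 = ρ·(..)` with gradient `(ρ DD c x, 0)`, `u_2` with gradient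
  `(0, ρ DD c y)`, `u_3` with gradient `(TT p, TT p)` (`Test.lean`: `u1`, `u2`, `u3`, `u1_grad`, ... there scaled by `ee`),
  `F = 0`: the energy is `1 + Lam ((D1 - a)² + (D2 - b)²) + (TT - a b)²`, whose average is `≤ 1 + 673/1000`
  (`UB_avg` divided by `ee²`; the linear term `-2 Lam ee (D1 + D2)` has average zero, `int_DD`).
* `673/1000 < 27900/40000`; the effective matrix `M` of `χ` (`exists_affEffective`) satisfies
  `affW M 0 ≤ 1 + 673/1000`, so `M ∉ affGL K`.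
-/

namespace Pool.Agent.Lib.MP_2a9317_an.TP

open MeasureTheory Matrix Filter Topology
open scoped ContDiff Kronecker

/-- fields with the columns `(x1, y1)`, `(x2, y2)`, `(x3, y3)` -/
private def shF (x1 y1 x2 y2 x3 y3 : ℝ) : Ent 3 → ℝ :=
  fun q => (![![x1, x2, x3], ![y1, y2, y3]] : Fin 2 → Fin 3 → ℝ) q.1 q.2

/-- the weight of the first two fields -/
private noncomputable def shR : ℝ := Real.sqrt Lam

private theorem shR_pos : 0 < shR := Real.sqrt_pos.2 Lam_pos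

private theorem shR_sq : shR ^ 2 = Lam := Real.sq_sqrt Lam_pos.le

/-- the matrix of the form `NN (α · v) (β · v)` -/
private noncomputable def shN (α β : Ent 3 ⊕ Unit → ℝ) : Mn 3 :=
  vecMulVec α α - (1 / 2 : ℝ) • (vecMulVec α β + vecMulVec β α) + vecMulVec β β

private theorem shN_quad (α β v : Ent 3 ⊕ Unit → ℝ) :
    v ⬝ᵥ (shN α β *ᵥ v) = NN (α ⬝ᵥ v) (β ⬝ᵥ v) := by
  unfold shN NN
  simp only [add_mulVec, sub_mulVec, smul_mulVec, vecMulVec_mulVec, dotProduct_add, dotProduct_sub,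
    dotProduct_smul, smul_eq_mul, op_smul_eq_smul]
  rw [dotProduct_comm v α, dotProduct_comm v β]
  ring

private theorem shN_symm (α β : Ent 3 ⊕ Unit → ℝ) : (shN α β).IsSymm := by
  ext i j
  simp only [Matrix.transpose_apply, shN, Matrix.add_apply, Matrix.sub_apply, Matrix.smul_apply,
    vecMulVec_apply, smul_eq_mul]
  ring

/-- unit vectors -/
private def shE (i : Ent 3 ⊕ Unit) : Ent 3 ⊕ Unit → ℝ := Pi.single i 1

/-- the matrix of the phase `(a, b)` with the constant `m` -/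
private noncomputable def shK (a b m : ℝ) : Mn 3 :=
  shN (shE (Sum.inl (0, 0)) - (shR * (ee * a)) • shE (Sum.inr ())) (shE (Sum.inl (1, 0)))
  + shN (shE (Sum.inl (0, 1))) (shE (Sum.inl (1, 1)) - (shR * (ee * b)) • shE (Sum.inr ()))
  + shN (shE (Sum.inl (0, 2)) - (ee * (a * b)) • shE (Sum.inr ()))
      (shE (Sum.inl (1, 2)) - (ee * (a * b)) • shE (Sum.inr ()))
  + (1 + m) • vecMulVec (shE (Sum.inr ())) (shE (Sum.inr ()))

private theorem shE_dot (i : Ent 3 ⊕ Unit) (v : Ent 3 ⊕ Unit → ℝ) : shE i ⬝ᵥ v = v i := by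
  unfold shE
  simp

private theorem shK_quad (a b m : ℝ) (v : Ent 3 ⊕ Unit → ℝ) :
    v ⬝ᵥ (shK a b m *ᵥ v) =
      NN (v (Sum.inl (0, 0)) - shR * (ee * a) * v (Sum.inr ())) (v (Sum.inl (1, 0)))
      + NN (v (Sum.inl (0, 1))) (v (Sum.inl (1, 1)) - shR * (ee * b) * v (Sum.inr ()))
      + NN (v (Sum.inl (0, 2)) - ee * (a * b) * v (Sum.inr ()))
          (v (Sum.inl (1, 2)) - ee * (a * b) * v (Sum.inr ()))
      + (1 + m) * v (Sum.inr ()) ^ 2 := by
  unfold shK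
  simp only [add_mulVec, smul_mulVec, dotProduct_add, dotProduct_smul, shN_quad, smul_eq_mul,
    sub_dotProduct, smul_dotProduct, shE_dot, vecMulVec_mulVec, op_smul_eq_smul]
  rw [dotProduct_comm v (shE (Sum.inr ())), shE_dot]
  ring

private theorem shK_symm (a b m : ℝ) : (shK a b m).IsSymm := by
  unfold shK
  refine Matrix.IsSymm.add (Matrix.IsSymm.add (Matrix.IsSymm.add (shN_symm _ _) (shN_symm _ _))
    (shN_symm _ _)) (Matrix.IsSymm.smul ?_ _)
  ext i j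
  simp only [Matrix.transpose_apply, vecMulVec_apply]
  ring

private theorem shK_posDef {a b m : ℝ} (hm : 0 ≤ m) : (shK a b m).PosDef := by
  refine Matrix.PosDef.of_dotProduct_mulVec_pos ?_ ?_
  · rw [Matrix.IsHermitian, Matrix.conjTranspose_eq_transpose_of_trivial]
    exact shK_symm a b m
  · intro v hv
    rw [star_trivial, shK_quad]
    have n1 := Pool.Agent.Lib.MP_2a9317_an.NN_nonneg (v (Sum.inl (0, 0)) - shR * (ee * a) * v (Sum.inr ())) (v (Sum.inl (1, 0)))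
    have n2 := Pool.Agent.Lib.MP_2a9317_an.NN_nonneg (v (Sum.inl (0, 1))) (v (Sum.inl (1, 1)) - shR * (ee * b) * v (Sum.inr ()))
    have n3 := Pool.Agent.Lib.MP_2a9317_an.NN_nonneg (v (Sum.inl (0, 2)) - ee * (a * b) * v (Sum.inr ()))
      (v (Sum.inl (1, 2)) - ee * (a * b) * v (Sum.inr ()))
    by_cases hz : v (Sum.inr ()) = 0
    · rw [hz] at n1 n2 n3 ⊢
      simp only [mul_zero, sub_zero] at n1 n2 n3 ⊢
      have key : 0 < NN (v (Sum.inl (0, 0))) (v (Sum.inl (1, 0))) ∨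
          0 < NN (v (Sum.inl (0, 1))) (v (Sum.inl (1, 1))) ∨
          0 < NN (v (Sum.inl (0, 2))) (v (Sum.inl (1, 2))) := by
        by_contra hcon
        push Not at hcon
        apply hv
        have z1 : v (Sum.inl (0, 0)) = 0 ∧ v (Sum.inl (1, 0)) = 0 := by
          by_contra h
          exact absurd hcon.1 (not_le.2 (NN_pos _ _ h))
        have z2 : v (Sum.inl (0, 1)) = 0 ∧ v (Sum.inl (1, 1)) = 0 := by
          by_contra h
          exact absurd hcon.2.1 (not_le.2 (NN_pos _ _ h))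
        have z3 : v (Sum.inl (0, 2)) = 0 ∧ v (Sum.inl (1, 2)) = 0 := by
          by_contra h
          exact absurd hcon.2.2 (not_le.2 (NN_pos _ _ h))
        funext i
        rcases i with ⟨i, l⟩ | i
        · fin_cases i <;> fin_cases l
          · exact z1.1
          · exact z2.1
          · exact z3.1
          · exact z1.2
          · exact z2.2
          · exact z3.2
        · exact hz
      rcases key with h | h | h <;> nlinarith
    · have h2 : 0 < (1 + m) * v (Sum.inr ()) ^ 2 :=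
        mul_pos (by linarith) (lt_of_le_of_ne (sq_nonneg _) (Ne.symm (pow_ne_zero 2 hz)))
      linarith

/-- the phases -/
private noncomputable def shP (k : ℕ) (j : Fin k) : Mn 3 :=
  shK (sa j.val) (sb j.val) ((j.val - 3 : ℕ) : ℝ)

private theorem shP_aff (k : ℕ) (j : Fin k) (x1 y1 x2 y2 x3 y3 : ℝ) :
    affW (shP k j) (shF (shR * x1) (shR * y1) (shR * x2) (shR * y2) x3 y3) =
      Low (sa j.val) (sb j.val) (sa j.val * sb j.val) 0 x1 y1 x2 y2 x3 y3 + 2 * Lam * (x1 + y2) + 1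
        + ((j.val - 3 : ℕ) : ℝ) := by
  unfold affW shP
  rw [shK_quad]
  have e1 : aff (shF (shR * x1) (shR * y1) (shR * x2) (shR * y2) x3 y3) (Sum.inl (0, 0)) = shR * x1 := rfl
  have e2 : aff (shF (shR * x1) (shR * y1) (shR * x2) (shR * y2) x3 y3) (Sum.inl (1, 0)) = shR * y1 := rfl
  have e3 : aff (shF (shR * x1) (shR * y1) (shR * x2) (shR * y2) x3 y3) (Sum.inl (0, 1)) = shR * x2 := rfl
  have e4 : aff (shF (shR * x1) (shR * y1) (shR * x2) (shR * y2) x3 y3) (Sum.inl (1, 1)) = shR * y2 := rfl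
  have e5 : aff (shF (shR * x1) (shR * y1) (shR * x2) (shR * y2) x3 y3) (Sum.inl (0, 2)) = x3 := rfl
  have e6 : aff (shF (shR * x1) (shR * y1) (shR * x2) (shR * y2) x3 y3) (Sum.inl (1, 2)) = y3 := rfl
  have e7 : aff (shF (shR * x1) (shR * y1) (shR * x2) (shR * y2) x3 y3) (Sum.inr ()) = 1 := rfl
  rw [e1, e2, e3, e4, e5, e6, e7]
  unfold Low NN
  have hs := shR_sq
  rw [← hs]
  ring

private theorem shP_blocks (k : ℕ) (j : Fin k) :
    (shP k j).toBlocks₁₁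
      = (!![1, -1 / 2; -1 / 2, 1] : Matrix (Fin 2) (Fin 2) ℝ) ⊗ₖ (1 : Matrix (Fin 3) (Fin 3) ℝ) := by
  ext ⟨i, l⟩ ⟨i', l'⟩
  rw [Matrix.toBlocks₁₁, Matrix.of_apply]
  unfold shP shK shN shE
  fin_cases i <;> fin_cases l <;> fin_cases i' <;> fin_cases l' <;>
    simp [vecMulVec_apply, Matrix.kroneckerMap_apply] <;> norm_num

private theorem shP_signs (i j : ℕ) (ha : sa i = sa j) (hb : sb i = sb j)
    (hm : ((i - 3 : ℕ) : ℝ) = ((j - 3 : ℕ) : ℝ)) : i = j := by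
  have h3 : i - 3 = j - 3 := by exact_mod_cast hm
  have s0 : sa 0 = 1 ∧ sb 0 = 1 := by unfold sa sb; norm_num
  have s1 : sa 1 = 1 ∧ sb 1 = -1 := by unfold sa sb; norm_num
  have s2 : sa 2 = -1 ∧ sb 2 = 1 := by unfold sa sb; norm_num
  have s3 : ∀ l, 3 ≤ l → sa l = -1 ∧ sb l = -1 := by
    intro l hl
    unfold sa sb
    constructor
    · rw [if_neg]; omega
    · rw [if_neg]; omega
  have cases4 : ∀ l : ℕ, l = 0 ∨ l = 1 ∨ l = 2 ∨ 3 ≤ l := by intro l; omega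
  rcases cases4 i with rfl | rfl | rfl | hi <;> rcases cases4 j with rfl | rfl | rfl | hj
  · rfl
  · exfalso; rw [s0.2, s1.2] at hb; norm_num at hb
  · exfalso; rw [s0.1, s2.1] at ha; norm_num at ha
  · exfalso; rw [s0.1, (s3 j hj).1] at ha; norm_num at ha
  · exfalso; rw [s0.2, s1.2] at hb; norm_num at hb
  · rfl
  · exfalso; rw [s1.1, s2.1] at ha; norm_num at ha
  · exfalso; rw [s1.1, (s3 j hj).1] at ha; norm_num at ha
  · exfalso; rw [s0.1, s2.1] at ha; norm_num at ha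
  · exfalso; rw [s1.1, s2.1] at ha; norm_num at ha
  · rfl
  · exfalso; rw [s2.2, (s3 j hj).2] at hb; norm_num at hb
  · exfalso; rw [s0.1, (s3 i hi).1] at ha; norm_num at ha
  · exfalso; rw [s1.1, (s3 i hi).1] at ha; norm_num at ha
  · exfalso; rw [s2.2, (s3 i hi).2] at hb; norm_num at hb
  · omega

private theorem shP_inj (k : ℕ) : Function.Injective (shP k) := by
  intro i j hij
  apply Fin.ext
  have hL := Lam_pos
  have hE := ee_pos
  have sq : ∀ l : ℕ, sa l ^ 2 = 1 ∧ sb l ^ 2 = 1 := by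
    intro l
    constructor
    · rcases sa_sign l with h | h <;> rw [h] <;> norm_num
    · rcases sb_sign l with h | h <;> rw [h] <;> norm_num
  have h0 := shP_aff k i 0 0 0 0 0 0
  rw [hij, shP_aff k j] at h0
  have h1 := shP_aff k i 1 0 0 0 0 0
  rw [hij, shP_aff k j] at h1
  have h2 := shP_aff k i 0 0 0 1 0 0
  rw [hij, shP_aff k j] at h2
  unfold Low NN at h0 h1 h2
  have hLE : 2 * (Lam * ee) ≠ 0 := by positivity
  refine shP_signs _ _ ?_ ?_ ?_
  · apply mul_left_cancel₀ hLE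
    linear_combination h1 - h0
  · apply mul_left_cancel₀ hLE
    linear_combination h2 - h0
  · have a1 := (sq i.val).1
    have b1 := (sq i.val).2
    have a2 := (sq j.val).1
    have b2 := (sq j.val).2
    linear_combination (-1) * h0 + (Lam * ee ^ 2) * (a2 - a1) + (Lam * ee ^ 2) * (b2 - b1)
      + ee ^ 2 * (sb j.val ^ 2) * a2 + ee ^ 2 * b2 - ee ^ 2 * (sb i.val ^ 2) * a1 - ee ^ 2 * b1

/-- the invariant of laminates -/
private def shI (M : Mn 3) : Prop :=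
  ∃ r s w e : ℝ, |r| ≤ 1 ∧ |s| ≤ 1 ∧ |w| ≤ 1 ∧ 3 / 4 * gg r s w ≤ e ∧
    ∀ x1 y1 x2 y2 x3 y3 : ℝ, Low r s w e x1 y1 x2 y2 x3 y3 + 2 * Lam * (x1 + y2) + 1 ≤
      affW M (shF (shR * x1) (shR * y1) (shR * x2) (shR * y2) x3 y3)

private theorem shI_phase (k : ℕ) (j : Fin k) : shI (shP k j) := by
  refine ⟨sa j.val, sb j.val, sa j.val * sb j.val, 0, sign_abs (sa_sign _), sign_abs (sb_sign _),
    sign_mul_abs (sa_sign _) (sb_sign _), gg_phase (sa_sign _) (sb_sign _), ?_⟩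
  intro x1 y1 x2 y2 x3 y3
  rw [shP_aff]
  have : (0 : ℝ) ≤ ((j.val - 3 : ℕ) : ℝ) := Nat.cast_nonneg _
  linarith

private theorem shF_add (x1 y1 x2 y2 x3 y3 c : ℝ) (ξ : Fin 2 → ℝ) (a : Fin 3 → ℝ) :
    shF (shR * x1) (shR * y1) (shR * x2) (shR * y2) x3 y3 + c • tens ξ a =
      shF (shR * (x1 + c * (ξ 0 * (a 0 / shR)))) (shR * (y1 + c * (ξ 1 * (a 0 / shR))))
        (shR * (x2 + c * (ξ 0 * (a 1 / shR)))) (shR * (y2 + c * (ξ 1 * (a 1 / shR))))
        (x3 + c * (ξ 0 * a 2)) (y3 + c * (ξ 1 * a 2)) := by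
  have h := shR_pos.ne'
  funext q
  obtain ⟨i, l⟩ := q
  fin_cases i <;> fin_cases l <;> simp [shF, tens] <;> field_simp

private theorem shI_layer {A B M : Mn 3} {θ : ℝ} {ξ : Fin 2 → ℝ}
    (hA : shI A) (hB : shI B) (h0 : 0 < θ) (h1 : θ < 1) (hξ : ξ ≠ 0)
    (hM : AffLayer A B θ ξ M) : shI M := by
  obtain ⟨r1, s1, w1, e1, hr1, hs1, hw1, he1, H1⟩ := hA
  obtain ⟨r2, s2, w2, e2, hr2, hs2, hw2, he2, H2⟩ := hB
  have hN : 0 < NN (ξ 0) (ξ 1) := by
    apply NN_pos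
    rintro ⟨h2, h3⟩
    apply hξ
    ext i
    fin_cases i
    · exact h2
    · exact h3
  refine ⟨θ * r1 + (1 - θ) * r2, θ * s1 + (1 - θ) * s2, θ * w1 + (1 - θ) * w2,
    exc θ r1 s1 w1 e1 r2 s2 w2 e2 (ξ 0) (ξ 1), abs_comb h0.le h1.le hr1 hr2,
    abs_comb h0.le h1.le hs1 hs2, abs_comb h0.le h1.le hw1 hw2,
    exc_ge h0.le h1.le hr1 hs1 hw1 hr2 hs2 hw2 hN he1 he2, ?_⟩
  intro x1 y1 x2 y2 x3 y3
  rw [hM.2]
  refine le_ciInf fun a => ?_
  have e : shF (shR * x1) (shR * y1) (shR * x2) (shR * y2) x3 y3 - θ • tens ξ a =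
      shF (shR * x1) (shR * y1) (shR * x2) (shR * y2) x3 y3 + (-θ) • tens ξ a := by
    rw [neg_smul, sub_eq_add_neg]
  rw [e, shF_add, shF_add]
  have hstep := low_step θ r1 s1 w1 e1 r2 s2 w2 e2 (ξ 0) (ξ 1) x1 y1 x2 y2 x3 y3
    (a 0 / shR) (a 1 / shR) (a 2) h0.le h1.le hN
  have g1 := mul_le_mul_of_nonneg_left (H1 (x1 + (1 - θ) * (ξ 0 * (a 0 / shR)))
    (y1 + (1 - θ) * (ξ 1 * (a 0 / shR))) (x2 + (1 - θ) * (ξ 0 * (a 1 / shR)))
    (y2 + (1 - θ) * (ξ 1 * (a 1 / shR))) (x3 + (1 - θ) * (ξ 0 * a 2))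
    (y3 + (1 - θ) * (ξ 1 * a 2))) h0.le
  have g2 := mul_le_mul_of_nonneg_left (H2 (x1 + (-θ) * (ξ 0 * (a 0 / shR)))
    (y1 + (-θ) * (ξ 1 * (a 0 / shR))) (x2 + (-θ) * (ξ 0 * (a 1 / shR)))
    (y2 + (-θ) * (ξ 1 * (a 1 / shR))) (x3 + (-θ) * (ξ 0 * a 2))
    (y3 + (-θ) * (ξ 1 * a 2))) (sub_nonneg.2 h1.le)
  simp only [neg_mul, ← sub_eq_add_neg] at g2 ⊢
  nlinarith [hstep, g1, g2]

private theorem shI_lam {k : ℕ} {M : Mn 3} (h : AffLaminate (shP k) M) : shI M := by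
  induction h with
  | phase j => exact shI_phase k j
  | layer A B M θ ξ _ _ h0 h1 hξ hM ihA ihB => exact shI_layer ihA ihB h0 h1 hξ hM

private theorem shF_zero : shF (shR * 0) (shR * 0) (shR * 0) (shR * 0) 0 0 = 0 := by
  funext q
  obtain ⟨i, l⟩ := q
  fin_cases i <;> fin_cases l <;> simp [shF]

private theorem sh_lower {k : ℕ} {M : Mn 3} (h : M ∈ affGL (shP k)) :
    1 + ee ^ 2 * (27900 / 40000) ≤ affW M 0 := by
  have hc : IsClosed {M : Mn 3 | 1 + ee ^ 2 * (27900 / 40000) ≤ affW M 0} :=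
    isClosed_le continuous_const (continuous_affW _)
  refine closure_minimal (fun M hM => ?_) hc h
  obtain ⟨r, s, w, e, _, _, _, he, H⟩ := shI_lam hM
  have h1 := H 0 0 0 0 0 0
  rw [shF_zero] at h1
  have h2 := low_root r s w e he
  show 1 + ee ^ 2 * (27900 / 40000) ≤ affW M 0
  linarith

private theorem sh_upper (k : ℕ) (hk : 4 ≤ k) :
    affStar (shP k) (chi k hk) 0 ≤ 1 + ee ^ 2 * (673 / 1000) := by
  obtain ⟨c, h0, h1, hint, hUB⟩ := UB_avg
  have hχ := chi_partition k hk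
  have hPD : ∀ j, (shP k j).PosDef := fun j => shK_posDef (Nat.cast_nonneg _)
  have p1 := u1_pot (shR • (Pi.single 0 1 : Fin 3 → ℝ)) h0 h1
  have p2 := u2_pot (shR • (Pi.single 1 1 : Fin 3 → ℝ)) h0 h1
  have p3 := u3_pot (Pi.single 2 1 : Fin 3 → ℝ)
  have p12 : IsPotential (u1 c (shR • (Pi.single 0 1 : Fin 3 → ℝ)) + u2 c (shR • (Pi.single 1 1 : Fin 3 → ℝ))) :=
    (potSub 3).add_mem p1 p2
  have p123 : IsPotential (u1 c (shR • (Pi.single 0 1 : Fin 3 → ℝ)) + u2 c (shR • (Pi.single 1 1 : Fin 3 → ℝ))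
      + u3 (Pi.single 2 1 : Fin 3 → ℝ)) := (potSub 3).add_mem p12 p3
  refine (affStar_le (shP k) hPD (chi k hk) 0 p123).trans ?_
  have hgrad : ∀ p, (0 : Ent 3 → ℝ) + grad (u1 c (shR • (Pi.single 0 1 : Fin 3 → ℝ))
      + u2 c (shR • (Pi.single 1 1 : Fin 3 → ℝ)) + u3 (Pi.single 2 1 : Fin 3 → ℝ)) p =
      shF (shR * (ee * DD c p.1)) (shR * 0) (shR * 0) (shR * (ee * DD c p.2)) (ee * TT p) (ee * TT p) := by
    intro p
    rw [zero_add, grad_add p12 p3, grad_add p1 p2, u1_grad _ h0 h1, u2_grad _ h0 h1, u3_grad]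
    funext q
    obtain ⟨i, l⟩ := q
    fin_cases i <;> fin_cases l <;> simp [shF, tens] <;> ring
  have hpt : ∀ p, affW (shP k (chi k hk p)) ((0 : Ent 3 → ℝ) + grad (u1 c (shR • (Pi.single 0 1 : Fin 3 → ℝ))
      + u2 c (shR • (Pi.single 1 1 : Fin 3 → ℝ)) + u3 (Pi.single 2 1 : Fin 3 → ℝ)) p) =
      (UB c p + (2 * Lam * ee * (DD c p.1 * 1) + 2 * Lam * ee * (1 * DD c p.2))) + 1 := by
    intro p
    obtain ⟨g1, g2, g3⟩ := chi_spec k hk p
    rw [hgrad, shP_aff, g1, g2, g3]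
    unfold UB Low NN
    push_cast
    ring
  have i1 := HasAvg.prod (2 * Lam * ee) (good_DD h0 h1) good_one (int_DD h0 h1) int_one
  have i2 := HasAvg.prod (2 * Lam * ee) good_one (good_DD h0 h1) int_one (int_DD h0 h1)
  have iU : HasAvg (UB c) (avg (UB c)) := ⟨hint, rfl⟩
  have i3 : HasAvg (fun _ : ℝ × ℝ => (1 : ℝ)) 1 :=
    ⟨(continuous_const.continuousOn).integrableOn_compact isCompact_cell, avg_const 1⟩
  have hsum := (iU.add (i1.add i2)).add i3
  have hfun : (fun p => affW (shP k (chi k hk p)) ((0 : Ent 3 → ℝ) + grad (u1 c (shR • (Pi.single 0 1 : Fin 3 → ℝ))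
      + u2 c (shR • (Pi.single 1 1 : Fin 3 → ℝ)) + u3 (Pi.single 2 1 : Fin 3 → ℝ)) p)) =
      fun p => (UB c p + (2 * Lam * ee * (DD c p.1 * 1) + 2 * Lam * ee * (1 * DD c p.2))) + 1 :=
    funext hpt
  rw [hfun, hsum.2]
  linarith

theorem sharp (k : ℕ) (hk : 4 ≤ k) :
    ∃ K : Fin k → Mn 3, Function.Injective K ∧ (∀ j, (K j).PosDef) ∧
      (∀ j, (K j).toBlocks₁₁
        = (!![1, -1 / 2; -1 / 2, 1] : Matrix (Fin 2) (Fin 2) ℝ) ⊗ₖ (1 : Matrix (Fin 3) (Fin 3) ℝ)) ∧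
      ∃ M ∈ affG K, M ∉ affGL K := by
  have hPD : ∀ j, (shP k j).PosDef := fun j => shK_posDef (Nat.cast_nonneg _)
  refine ⟨shP k, shP_inj k, hPD, shP_blocks k, ?_⟩
  obtain ⟨M, hM⟩ := exists_affEffective (shP k) hPD (chi_partition k hk)
  refine ⟨M, subset_closure ⟨_, chi_partition k hk, hM⟩, fun hcon => ?_⟩
  have h1 := sh_lower hcon
  have h2 := sh_upper k hk
  rw [hM.2] at h2
  have h4 : ee ^ 2 * (673 / 1000) < ee ^ 2 * (27900 / 40000) :=
    mul_lt_mul_of_pos_left (by norm_num) (pow_pos ee_pos 2)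
  linarith

end Pool.Agent.Lib.MP_2a9317_an.TP
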