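import Pool.Agent.Lib.MP_2a9317_an.TP.T2
import Pool.Agent.Lib.MP_2a9317_an.TP.Shp

set_option autoImplicit false

/-!
# TP-Main: assembly (helper61)
-/

namespace Pool.Agent.Lib.MP_2a9317_an.TP

open MeasureTheory Matrix Filter Topology
open scoped ContDiff Kronecker

theorem planar_three {n : ℕ} (K : Fin 3 → Mn n) : Planar K := by
  refine ⟨0, 1, 2, by decide, by decide, by decide, fun j => ?_⟩
  fin_cases j
  · exact ⟨0, 0, by simp⟩
  · exact ⟨1, 0, by simp⟩
  · exact ⟨0, 1, by simp⟩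

/-- repeating phases does not change the G-closure -/
theorem affG_comp {n k l : ℕ} (K : Fin k → Mn n) {π : Fin l → Fin k}
    (hπ : Function.Surjective π) : affG (fun i => K (π i)) = affG K := by
  obtain ⟨σ, hσ⟩ := hπ.hasRightInverse
  unfold affG
  congr 1
  ext M
  constructor
  · rintro ⟨χ, hχ, hM⟩
    refine ⟨fun p => π (χ p), ⟨measurable_from_top.comp hχ.1, fun x y => ?_⟩, hM⟩
    exact ⟨congrArg π (hχ.2 x y).1, congrArg π (hχ.2 x y).2⟩
  · rintro ⟨χ, hχ, hM⟩
    refine ⟨fun p => σ (χ p), ⟨measurable_from_top.comp hχ.1, fun x y => ?_⟩, ?_⟩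
    · exact ⟨congrArg σ (hχ.2 x y).1, congrArg σ (hχ.2 x y).2⟩
    · refine ⟨hM.1, fun F => ?_⟩
      rw [← hM.2 F]
      unfold affStar
      simp only [hσ (χ _)]

/-- repeating phases does not change the lamination closure -/
theorem affGL_comp {n k l : ℕ} (K : Fin k → Mn n) {π : Fin l → Fin k}
    (hπ : Function.Surjective π) : affGL (fun i => K (π i)) = affGL K := by
  unfold affGL
  congr 1
  ext M
  constructor
  · intro h
    have h' : AffLaminate (fun i => K (π i)) M := h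
    show AffLaminate K M
    induction h' with
    | phase j => exact AffLaminate.phase (π j)
    | layer A B M θ ξ hA hB h0 h1 hξ hM ihA ihB =>
      exact AffLaminate.layer A B M θ ξ (ihA hA) (ihB hB) h0 h1 hξ hM
  · intro h
    have h' : AffLaminate K M := h
    show AffLaminate (fun i => K (π i)) M
    induction h' with
    | phase j =>
      obtain ⟨i, rfl⟩ := hπ j
      exact AffLaminate.phase (K := fun i => K (π i)) i
    | layer A B M θ ξ hA hB h0 h1 hξ hM ihA ihB =>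
      exact AffLaminate.layer A B M θ ξ (ihA hA) (ihB hB) h0 h1 hξ hM

theorem no_phase {n : ℕ} (K : Fin 0 → Mn n) : affG K = affGL K := by
  have h1 : affG K = ∅ := by
    unfold affG
    rw [closure_empty_iff, Set.eq_empty_iff_forall_notMem]
    rintro M ⟨χ, -, -⟩
    exact (χ (0, 0)).elim0
  have h2 : affGL K = ∅ := by
    unfold affGL
    rw [closure_empty_iff, Set.eq_empty_iff_forall_notMem]
    intro M hM
    have hM' : AffLaminate K M := hM
    clear hM
    induction hM' with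
    | phase j => exact j.elim0
    | layer A B M θ ξ hA hB h0 h1 hξ hM ihA ihB => exact ihA
  rw [h1, h2]

/-- At most three phases with common moduli. -/
theorem le_three {n k : ℕ} (hk : k ≤ 3) {A : Matrix (Fin 2) (Fin 2) ℝ} (hA0 : A.PosDef)
    (K : Fin k → Mn n) (hK : ∀ j, (K j).PosDef)
    (hA : ∀ j, (K j).toBlocks₁₁ = A ⊗ₖ (1 : Matrix (Fin n) (Fin n) ℝ)) : affG K = affGL K := by
  rcases Nat.eq_zero_or_pos k with rfl | h0
  · exact no_phase K
  · let π : Fin 3 → Fin k := fun i => ⟨min i.val (k - 1), by omega⟩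
    have hπ : Function.Surjective π := by
      intro j
      refine ⟨⟨j.val, by omega⟩, ?_⟩
      apply Fin.ext
      show min j.val (k - 1) = j.val
      omega
    rw [← affG_comp K hπ, ← affGL_comp K hπ]
    exact T1 hA0 (fun i => K (π i)) (fun i => hK _) (fun i => hA _) (planar_three _)

theorem main :
    (∀ (n k : ℕ) (A : Matrix (Fin 2) (Fin 2) ℝ) (K : Fin k → Mn n), A.PosDef →
      (∀ j, (K j).PosDef) → (∀ j, (K j).toBlocks₁₁ = A ⊗ₖ (1 : Matrix (Fin n) (Fin n) ℝ)) →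
      (k ≤ 3 ∨ Planar K) → affG K = affGL K) ∧
    (∀ k : ℕ, 4 ≤ k → ∃ (A : Matrix (Fin 2) (Fin 2) ℝ) (K : Fin k → Mn 3), A.PosDef ∧
      Function.Injective K ∧ (∀ j, (K j).PosDef) ∧
      (∀ j, (K j).toBlocks₁₁ = A ⊗ₖ (1 : Matrix (Fin 3) (Fin 3) ℝ)) ∧
      ∃ M ∈ affG K, M ∉ affGL K) ∧
    (∀ (n : ℕ), 1 ≤ n → ∀ A : Matrix (Fin 2) (Fin 2) ℝ, A.PosDef → ∃ C δ₀ : ℝ, 0 < δ₀ ∧
      ∀ (k : ℕ) (K : Fin k → Mn n), (∀ j, (K j).PosDef) → (k = 3 ∨ Planar K) →
      ∀ δ δ' : ℝ, 0 ≤ δ → δ ≤ δ₀ →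
      (∀ j q q', |(K j).toBlocks₁₁ q q' - (A ⊗ₖ (1 : Matrix (Fin n) (Fin n) ℝ)) q q'| ≤ δ) →
      (∀ i j q, |K i (Sum.inl q) (Sum.inr ()) - K j (Sum.inl q) (Sum.inr ())| ≤ δ') →
      ∀ M ∈ affG K, ∃ M' ∈ affGL K, ∀ r t, |M r t - M' r t| ≤ C * δ * (δ + δ') ^ 2) := by
  refine ⟨?_, ?_, ?_⟩
  · rintro n k A K hA0 hK hA (hk | hP)
    · exact le_three hk hA0 K hK hA
    · exact T1 hA0 K hK hA hP
  · intro k hk
    obtain ⟨K, hi, hK, hA, h⟩ := sharp k hk
    refine ⟨_, K, ?_, hi, hK, hA, h⟩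
    refine Matrix.PosDef.of_dotProduct_mulVec_pos ?_ ?_
    · rw [Matrix.IsHermitian]
      ext i l
      fin_cases i <;> fin_cases l <;> simp
    · intro v hv
      simp only [star_trivial, dotProduct, mulVec, Fin.sum_univ_two, Matrix.cons_val',
        Matrix.cons_val_zero, Matrix.cons_val_one, Matrix.of_apply]
      have hne : ¬ (v 0 = 0 ∧ v 1 = 0) := by
        rintro ⟨e0, e1⟩
        apply hv
        ext i
        fin_cases i
        · exact e0
        · exact e1
      simp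
      by_contra hcon
      push Not at hcon
      apply hne
      constructor <;> nlinarith [sq_nonneg (v 0 - v 1), sq_nonneg (v 0), sq_nonneg (v 1)]
  · intro n hn A hA
    obtain ⟨C, δ₀, h0, H⟩ := T2 hn hA
    refine ⟨C, δ₀, h0, fun k K hK hk => ?_⟩
    rcases hk with rfl | hP
    · exact H 3 K hK (planar_three K)
    · exact H k K hK hP

end Pool.Agent.Lib.MP_2a9317_an.TP
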