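import Pool.Agent.Lib.MP_2a9317_an.TP.Defs

set_option autoImplicit false

/-!
# TP-Q0: the quadratic form of the moduli
-/

namespace Pool.Agent.Lib.MP_2a9317_an.TP

open MeasureTheory Matrix Filter Topology Pool.Agent.Lib.MP_2a9317_an.N1
open scoped ContDiff

theorem c_pos (A : Mod) : 0 < A.c := by
  have h1 := A.hd
  have h2 := A.ha
  by_contra h
  push Not at h
  nlinarith [sq_nonneg A.b, mul_nonneg h2.le (neg_nonneg.2 h)]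

theorem lo_pos (A : Mod) : 0 < A.lo := by
  unfold Mod.lo
  have h1 := A.hd
  have h2 := A.ha
  have h3 := c_pos A
  positivity

/-- `lo * |ξ|² ≤ q ξ` -/
theorem lo_le (A : Mod) (x y : ℝ) : A.lo * (x ^ 2 + y ^ 2) ≤ A.q (x, y) := by
  have h1 := A.hd
  have h2 := A.ha
  have h3 := c_pos A
  have h4 : 0 < A.a + A.c := by linarith
  unfold Mod.lo Mod.q
  rw [div_mul_eq_mul_div, div_le_iff₀ h4]
  have e : (A.a * x ^ 2 + 2 * A.b * x * y + A.c * y ^ 2) * (A.a + A.c)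
      - (A.a * A.c - A.b ^ 2) * (x ^ 2 + y ^ 2)
      = (A.a * x + A.b * y) ^ 2 + (A.b * x + A.c * y) ^ 2 := by ring
  have := sq_nonneg (A.a * x + A.b * y)
  have := sq_nonneg (A.b * x + A.c * y)
  simp only
  linarith

theorem q_nonneg (A : Mod) (ξ : ℝ × ℝ) : 0 ≤ A.q ξ := by
  have h := lo_le A ξ.1 ξ.2
  have h1 := lo_pos A
  have h2 : 0 ≤ A.lo * (ξ.1 ^ 2 + ξ.2 ^ 2) := by positivity
  exact h2.trans h

theorem q_pos (A : Mod) {ξ : ℝ × ℝ} (h : ξ ≠ 0) : 0 < A.q ξ := by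
  have h0 := lo_le A ξ.1 ξ.2
  have h1 := lo_pos A
  have h2 : 0 < ξ.1 ^ 2 + ξ.2 ^ 2 := by
    by_contra hcon
    push Not at hcon
    apply h
    have e1 : ξ.1 = 0 := by nlinarith [sq_nonneg ξ.1, sq_nonneg ξ.2]
    have e2 : ξ.2 = 0 := by nlinarith [sq_nonneg ξ.1, sq_nonneg ξ.2]
    exact Prod.ext e1 e2
  exact (mul_pos h1 h2).trans_le h0

theorem NN_nonneg (A : Mod) (ξ δ : ℝ × ℝ) : 0 ≤ A.NN ξ δ :=
  div_nonneg (sq_nonneg _) (q_nonneg A ξ)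

theorem NN_le (A : Mod) (ξ δ : ℝ × ℝ) : A.NN ξ δ ≤ (δ.1 ^ 2 + δ.2 ^ 2) / A.lo := by
  have h1 := lo_pos A
  rcases eq_or_ne ξ 0 with h | h
  · subst h
    unfold Mod.NN
    simp
    positivity
  · have h2 := q_pos A h
    have h0 : A.lo * (ξ.1 ^ 2 + ξ.2 ^ 2) ≤ A.q ξ := lo_le A ξ.1 ξ.2
    unfold Mod.NN
    rw [div_le_div_iff₀ h2 h1]
    have h3 : (ξ.1 * δ.1 + ξ.2 * δ.2) ^ 2 ≤ (ξ.1 ^ 2 + ξ.2 ^ 2) * (δ.1 ^ 2 + δ.2 ^ 2) := by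
      nlinarith [sq_nonneg (ξ.1 * δ.2 - ξ.2 * δ.1)]
    calc (ξ.1 * δ.1 + ξ.2 * δ.2) ^ 2 * A.lo
        ≤ ((ξ.1 ^ 2 + ξ.2 ^ 2) * (δ.1 ^ 2 + δ.2 ^ 2)) * A.lo :=
          mul_le_mul_of_nonneg_right h3 h1.le
      _ = (δ.1 ^ 2 + δ.2 ^ 2) * (A.lo * (ξ.1 ^ 2 + ξ.2 ^ 2)) := by ring
      _ ≤ (δ.1 ^ 2 + δ.2 ^ 2) * A.q ξ := mul_le_mul_of_nonneg_left h0 (by positivity)

theorem NN_smul (A : Mod) (ξ δ : ℝ × ℝ) (t : ℝ) : A.NN ξ (t • δ) = t ^ 2 * A.NN ξ δ := by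
  unfold Mod.NN
  simp only [Prod.smul_fst, Prod.smul_snd, smul_eq_mul]
  rw [← mul_div_assoc]
  congr 1
  ring

theorem NN_zero (A : Mod) (ξ : ℝ × ℝ) : A.NN ξ 0 = 0 := by
  unfold Mod.NN
  simp

/-- Fenchel's inequality -/
theorem fen (A : Mod) (g h x y : ℝ) :
    -2 * (g * x + h * y) - A.q (x, y) ≤ (g ^ 2 + h ^ 2) / A.lo := by
  have h1 := lo_pos A
  have h2 := lo_le A x y
  have e : (g ^ 2 + h ^ 2) / A.lo + 2 * (g * x + h * y) + A.lo * (x ^ 2 + y ^ 2)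
      = ((g + A.lo * x) ^ 2 + (h + A.lo * y) ^ 2) / A.lo := by
    field_simp
    ring
  have h3 : 0 ≤ ((g + A.lo * x) ^ 2 + (h + A.lo * y) ^ 2) / A.lo := by positivity
  linarith

end Pool.Agent.Lib.MP_2a9317_an.TP
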