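import Pool.Agent.Lib.MP_2a9317_an.TP.Eq
import Pool.Agent.Lib.MP_2a9317_an.N1.C5

set_option autoImplicit false

/-!
# TP-Rev: laminates of states are limits of composites (simultaneously for finitely many fields)

* `simul`: for a finite family `K i : Fin k → Ph` of elliptic phases let
  `R = {M : ι → Ph | ∃ χ, IsPartition χ ∧ ∀ i, Eff (K i) χ (M i)}`.  `closure R` is stable under layering, all
  `i` at the same time.  Follow the proof of `N1.lay_mem_GE` (`N1/C5.lean`): (1) exact elements,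
  direction `(p, q)` with integers `p > 0`: the microstructures `layP p q (θ/2) (n * p.toNat + 1) χ₁ χ₂` are
  the same for all `i`, `exists_eff`, `layer_tendsto` for every `i`, `tendsto_pi_nhds`.  (2) elements of the
  closure: sequences (`mem_closure_iff_seq_limit`), `layM_tendsto` for every `i` (ellipticity of the limits
  `M i`: `M i ∈ GE (K i)`, because the projection to `i` is continuous, `ell_of_mem_GE`).  (3) general
  directions: `N1.dense_dir` gives sequences depending on the phases, so redo it: for `ξ ≠ 0`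
  `layM .. ξ η = layM .. 1 (η/ξ)` (`c5_layM_smul`), take rationals `q_n / p_n → η / ξ`, e.g. `p_n = n + 1`,
  `q_n = ⌊(n+1) η/ξ⌋`, `layM .. p_n q_n = layM .. 1 (q_n/p_n)`, `layM_tendsto`; for `ξ = 0`:
  `layM .. 0 η = layM .. 0 1`, the limit of `layM .. (1/(n+1)) 1 = layM .. 1 (n+1)`.
* `core_rev`: index set `ι ⊕ Fin 2` (or `Option (Option ι)`): phases `kp A (D i (s j)) 0` (`i : ι`),
  `kp A 0 (s j).1`, `kp A 0 (s j).2`.  By induction on `LamT` the tuple `kp A (D i z) (-q i)`, `kp A 0 z.1`,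
  `kp A 0 z.2` is in `closure R`: phases: `χ` constant, `eff_homog`; layer: `simul` and `layM` of two `kp`
  (differences of the first three coefficients vanish; the last coefficient is
  `θ (-q) + (1-θ) (-q') - θ (1-θ) (ξ·(D z - D z'))² / A.q ξ`).  An element of `R` close to the tuple is
  given by a `χ`, and by `eff_gain` and `eff_unique` its entries are `kp A (D i (mean s_χ)) (- gain (D i s_χ))`
  (`mean (D i s_χ)` = `D i (mean s_χ)` is not even needed), `kp A 0 (mean s_χ).1` (the gain of the field `0` is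
  `0`: `gain_smul` with `κ = 0`, or `gain_le` and `gain_nonneg`), ...; compare the last coefficients
  (`dist` in `Fin 6 → ℝ` bounds each coordinate).
-/

namespace Pool.Agent.Lib.MP_2a9317_an.TP

open MeasureTheory Matrix Filter Topology Pool.Agent.Lib.MP_2a9317_an.N1
open scoped ContDiff

/-- simultaneous effective tensors of finitely many problems -/
def RR {k : ℕ} {ι : Type} (K : ι → Fin k → Ph) : Set (ι → Ph) :=
  {M | ∃ χ : ℝ × ℝ → Fin k, IsPartition χ ∧ ∀ i, Eff (K i) χ (M i)}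

private theorem rev_ell {k : ℕ} {ι : Type} (K : ι → Fin k → Ph) (hK : ∀ i j, Ell (K i j))
    {M : ι → Ph} (hM : M ∈ closure (RR K)) (i : ι) : Ell (M i) := by
  apply ell_of_mem_GE (K i) (hK i)
  have hc : Continuous (fun M : ι → Ph => M i) := continuous_apply i
  have h1 : Set.MapsTo (fun M : ι → Ph => M i) (RR K) {M | ∃ χ, IsPartition χ ∧ Eff (K i) χ M} := by
    rintro N ⟨χ, hχ, hN⟩
    exact ⟨χ, hχ, hN i⟩
  exact map_mem_closure (f := fun M : ι → Ph => M i) hc hM h1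

/-- common sequences of rational directions -/
private theorem rev_dir {ξ η : ℝ} (hξ : ξ ≠ 0 ∨ η ≠ 0) : ∃ (p q : ℕ → ℤ), (∀ n, 0 < p n) ∧
    ∀ {A B : Ph}, Ell A → Ell B → ∀ {θ : ℝ}, 0 < θ → θ < 1 →
      Tendsto (fun n => layM A B θ (p n) (q n)) atTop (𝓝 (layM A B θ ξ η)) := by
  by_cases hx : ξ = 0
  · have hη : η ≠ 0 := by
      rcases hξ with h | h
      · exact absurd hx h
      · exact h
    refine ⟨fun _ => 1, fun n => (n : ℤ) + 1, fun _ => one_pos, ?_⟩
    intro A B hA hB θ h0 h1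
    have e1 : layM A B θ ξ η = layM A B θ 0 1 := by
      rw [hx]
      have := c5_layM_smul A B θ 0 1 hη
      rwa [mul_zero, mul_one] at this
    have e2 : ∀ n : ℕ, layM A B θ ((1 : ℤ) : ℝ) (((n : ℤ) + 1 : ℤ) : ℝ)
        = layM A B θ (1 / ((n : ℝ) + 1)) 1 := by
      intro n
      have hn : ((n : ℝ) + 1) ≠ 0 := by positivity
      have := c5_layM_smul A B θ (1 / ((n : ℝ) + 1)) 1 hn
      rw [← this]
      congr 1
      · field_simp
        simp
      · push_cast
        ring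
    rw [e1]
    simp only [e2]
    exact layM_tendsto hA hB h0 h1 (Or.inr one_ne_zero) tendsto_const_nhds tendsto_const_nhds
      tendsto_one_div_add_atTop_nhds_zero_nat tendsto_const_nhds tendsto_const_nhds
  · refine ⟨fun n => (n : ℤ) + 1, fun n => ⌊((n : ℝ) + 1) * (η / ξ)⌋, fun n => by positivity, ?_⟩
    intro A B hA hB θ h0 h1
    have e1 : layM A B θ ξ η = layM A B θ 1 (η / ξ) := by
      have := c5_layM_smul A B θ 1 (η / ξ) hx
      rw [← this, mul_one, mul_div_cancel₀ _ hx]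
    have e2 : ∀ n : ℕ, layM A B θ (((n : ℤ) + 1 : ℤ) : ℝ)
        ((⌊((n : ℝ) + 1) * (η / ξ)⌋ : ℤ) : ℝ)
        = layM A B θ 1 (((⌊((n : ℝ) + 1) * (η / ξ)⌋ : ℤ) : ℝ) / ((n : ℝ) + 1)) := by
      intro n
      have hn : ((n : ℝ) + 1) ≠ 0 := by positivity
      have := c5_layM_smul A B θ 1 (((⌊((n : ℝ) + 1) * (η / ξ)⌋ : ℤ) : ℝ) / ((n : ℝ) + 1)) hn
      rw [← this, mul_one, mul_div_cancel₀ _ hn]
      push_cast
      rfl
    rw [e1]
    simp only [e2]
    have hlim : Tendsto (fun n : ℕ => ((⌊((n : ℝ) + 1) * (η / ξ)⌋ : ℤ) : ℝ) / ((n : ℝ) + 1))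
        atTop (𝓝 (η / ξ)) := by
      have h2 : Tendsto (fun n : ℕ => η / ξ - 1 / ((n : ℝ) + 1)) atTop (𝓝 (η / ξ - 0)) :=
        tendsto_one_div_add_atTop_nhds_zero_nat.const_sub _
      rw [sub_zero] at h2
      refine tendsto_of_tendsto_of_tendsto_of_le_of_le h2 tendsto_const_nhds ?_ ?_
      · intro n
        have hn : 0 < ((n : ℝ) + 1) := by positivity
        show η / ξ - 1 / ((n : ℝ) + 1) ≤ _
        rw [le_div_iff₀ hn, sub_mul, div_mul_cancel₀ _ hn.ne']
        have := (Int.sub_one_lt_floor (((n : ℝ) + 1) * (η / ξ))).le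
        linarith
      · intro n
        have hn : 0 < ((n : ℝ) + 1) := by positivity
        show _ ≤ η / ξ
        rw [div_le_iff₀ hn]
        have := Int.floor_le (((n : ℝ) + 1) * (η / ξ))
        linarith
    exact layM_tendsto hA hB h0 h1 (Or.inl one_ne_zero) tendsto_const_nhds tendsto_const_nhds
      tendsto_const_nhds hlim tendsto_const_nhds

theorem simul {k : ℕ} {ι : Type} [Fintype ι] (K : ι → Fin k → Ph) (hK : ∀ i j, Ell (K i j))
    {M M' : ι → Ph} (hM : M ∈ closure (RR K)) (hM' : M' ∈ closure (RR K)) {θ : ℝ} (h0 : 0 < θ)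
    (h1 : θ < 1) {ξ : ℝ × ℝ} (hξ : ξ ≠ 0) :
    (fun i => layM (M i) (M' i) θ ξ.1 ξ.2) ∈ closure (RR K) := by
  have hξ' : ξ.1 ≠ 0 ∨ ξ.2 ≠ 0 := by
    by_contra hcon
    push Not at hcon
    exact hξ (Prod.ext hcon.1 hcon.2)
  have hEA := fun i => rev_ell K hK hM i
  have hEB := fun i => rev_ell K hK hM' i
  have s0 : 0 < θ / 2 := by linarith
  have s1 : θ / 2 < 1 / 2 := by linarith
  have e2 : 2 * (θ / 2) = θ := by ring
  -- effective tensors, rational directions
  have step1 : ∀ (A B : ι → Ph), A ∈ RR K → B ∈ RR K → ∀ p q : ℤ, 0 < p →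
      (fun i => layM (A i) (B i) θ p q) ∈ closure (RR K) := by
    rintro A B ⟨χ₁, hχ₁, hA⟩ ⟨χ₂, hχ₂, hB⟩ p q hp
    have hex : ∀ (n : ℕ) (i : ι),
        ∃ N, Eff (K i) (layP p q (θ / 2) (n * p.toNat + 1) χ₁ χ₂) N := fun n i =>
      exists_eff (K i) (hK i) (layP_partition p q (θ / 2) _ hχ₁ hχ₂)
    choose N hN using hex
    have ht : Tendsto N atTop (𝓝 (fun i => layM (A i) (B i) θ p q)) := by
      rw [tendsto_pi_nhds]
      intro i
      have hL : Lay (A i) (B i) (2 * (θ / 2)) p q (layM (A i) (B i) θ p q) := by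
        rw [e2]
        exact (lay_iff _ _ _ _ _ _).2 rfl
      exact layer_tendsto (K i) (hK i) hχ₁ hχ₂ (hA i) (hB i) p q hp s0 s1 hL (fun n => hN n i)
    exact mem_closure_of_tendsto ht (Eventually.of_forall fun n =>
      ⟨_, layP_partition p q (θ / 2) _ hχ₁ hχ₂, hN n⟩)
  -- closure, rational directions
  have step2 : ∀ p q : ℤ, 0 < p → (fun i => layM (M i) (M' i) θ p q) ∈ closure (RR K) := by
    intro p q hp
    obtain ⟨a, ha, hal⟩ := mem_closure_iff_seq_limit.1 hM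
    obtain ⟨b, hb, hbl⟩ := mem_closure_iff_seq_limit.1 hM'
    have hp' : ((p : ℤ) : ℝ) ≠ 0 ∨ ((q : ℤ) : ℝ) ≠ 0 := Or.inl (by exact_mod_cast hp.ne')
    have ht : Tendsto (fun n i => layM (a n i) (b n i) θ p q) atTop
        (𝓝 (fun i => layM (M i) (M' i) θ p q)) := by
      rw [tendsto_pi_nhds]
      intro i
      exact layM_tendsto (hEA i) (hEB i) h0 h1 hp' ((tendsto_pi_nhds.1 hal) i)
        ((tendsto_pi_nhds.1 hbl) i) (tendsto_const_nhds (x := (p : ℝ)))
        (tendsto_const_nhds (x := (q : ℝ))) (tendsto_const_nhds (x := θ))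
    exact isClosed_closure.mem_of_tendsto ht (Eventually.of_forall fun n =>
      step1 (a n) (b n) (ha n) (hb n) p q hp)
  obtain ⟨p, q, hp, ht⟩ := rev_dir hξ'
  have ht' : Tendsto (fun n i => layM (M i) (M' i) θ (p n) (q n)) atTop
      (𝓝 (fun i => layM (M i) (M' i) θ ξ.1 ξ.2)) := by
    rw [tendsto_pi_nhds]
    intro i
    exact ht (hEA i) (hEB i) h0 h1
  exact isClosed_closure.mem_of_tendsto ht' (Eventually.of_forall fun n =>
    step2 (p n) (q n) (hp n))

private theorem rev_layM_kp (A : Mod) (v v' : ℝ × ℝ) (e e' θ : ℝ) (ξ : ℝ × ℝ) :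
    layM (kp A v e) (kp A v' e') θ ξ.1 ξ.2
      = kp A (θ • v + (1 - θ) • v') (θ * e + (1 - θ) * e' - θ * (1 - θ) * A.NN ξ (v - v')) := by
  have hD : (1 - θ) * Q (kp A v e) ξ.1 ξ.2 + θ * Q (kp A v' e') ξ.1 ξ.2 = A.q ξ := by
    simp only [Q, kp, Mod.q, Matrix.cons_val]
    ring
  unfold layM
  rw [hD]
  simp only [kp, Matrix.cons_val, Mod.NN, Prod.fst_sub, Prod.snd_sub, Prod.fst_add, Prod.snd_add,
    Prod.smul_fst, Prod.smul_snd, smul_eq_mul, sub_self, mul_zero, add_zero, zero_mul, zero_div,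
    sub_zero]
  congr 1
  · ring
  · congr 1
    · ring
    · congr 1
      · ring
      · congr 3
        ring_nf

/-- the phases of the simultaneous problem -/
private def rK (A : Mod) {ι : Type} (D : ι → (ℝ × ℝ) →ₗ[ℝ] (ℝ × ℝ)) {k : ℕ}
    (s : Fin k → ℝ × ℝ) : ι ⊕ Fin 2 → Fin k → Ph
  | Sum.inl i => fun j => kp A (D i (s j)) 0
  | Sum.inr m => fun j => kp A 0 (![(s j).1, (s j).2] m)

/-- the tuple of a laminate -/
private def rT (A : Mod) {ι : Type} (D : ι → (ℝ × ℝ) →ₗ[ℝ] (ℝ × ℝ)) (z : ℝ × ℝ)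
    (q : ι → ℝ) : ι ⊕ Fin 2 → Ph
  | Sum.inl i => kp A (D i z) (-q i)
  | Sum.inr m => kp A 0 (![z.1, z.2] m)

private theorem rK_ell (A : Mod) {ι : Type} (D : ι → (ℝ × ℝ) →ₗ[ℝ] (ℝ × ℝ)) {k : ℕ}
    (s : Fin k → ℝ × ℝ) (i : ι ⊕ Fin 2) (j : Fin k) : Ell (rK A D s i j) := by
  rcases i with i | m
  · exact kp_ell A _ _
  · exact kp_ell A _ _

private theorem rT_mem (A : Mod) {ι : Type} [Fintype ι] (D : ι → (ℝ × ℝ) →ₗ[ℝ] (ℝ × ℝ)) {k : ℕ}
    (s : Fin k → ℝ × ℝ) {z : ℝ × ℝ} {q : ι → ℝ} (h : LamT A s D z q) :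
    rT A D z q ∈ closure (RR (rK A D s)) := by
  induction h with
  | phase j =>
    apply subset_closure
    refine ⟨fun _ => j, ⟨measurable_const, fun _ _ => ⟨rfl, rfl⟩⟩, fun i => ?_⟩
    have h1 := eff_homog (rK A D s i) (rK_ell A D s i) j
    have h2 : rT A D (s j) (fun _ => 0) i = rK A D s i j := by
      rcases i with i | m
      · simp only [rT, rK, neg_zero]
      · rfl
    rw [h2]
    exact h1
  | layer z z' q q' θ ξ _ _ h0 h1 hξ ih ih' =>
    have h2 := simul (rK A D s) (rK_ell A D s) ih ih' h0 h1 hξ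
    refine (congrArg (· ∈ closure (RR (rK A D s))) ?_).mp h2
    funext i
    rcases i with i | m
    · simp only [rT]
      rw [rev_layM_kp, ← map_smul, ← map_smul, ← map_add, ← map_sub]
      congr 1
      ring
    · simp only [rT]
      rw [rev_layM_kp, sub_self, NN_zero]
      fin_cases m <;> simp

theorem core_rev (A : Mod) {ι : Type} [Fintype ι] (D : ι → (ℝ × ℝ) →ₗ[ℝ] (ℝ × ℝ))
    {k : ℕ} (s : Fin k → ℝ × ℝ) {z : ℝ × ℝ} {q : ι → ℝ} (h : LamT A s D z q) {ε : ℝ}
    (hε : 0 < ε) :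
    ∃ χ : ℝ × ℝ → Fin k, IsPartition χ ∧ ‖mean (fun p => s (χ p)) - z‖ ≤ ε ∧
      ∀ i, |A.gain (fun p => D i (s (χ p))) - q i| ≤ ε := by
  obtain ⟨N, ⟨χ, hχ, hN⟩, hd⟩ := Metric.mem_closure_iff.1 (rT_mem A D s h) ε hε
  have hd5 : ∀ i, |rT A D z q i 5 - N i 5| ≤ ε := by
    intro i
    have h1 := (dist_le_pi_dist (rT A D z q) N i)
    have h2 := (dist_le_pi_dist (rT A D z q i) (N i) 5)
    rw [Real.dist_eq] at h2
    linarith
  have h0BV : BV (fun _ : ℝ × ℝ => (0 : ℝ × ℝ)) := ⟨BM.const 0, BM.const 0⟩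
  have hg0 : A.gain (fun _ => (0 : ℝ × ℝ)) = 0 := by
    have h1 := gain_smul A h0BV 0
    simpa using h1
  refine ⟨χ, hχ, ?_, ?_⟩
  · have hm : ∀ m : Fin 2, |![z.1, z.2] m - avg (fun p => ![(s (χ p)).1, (s (χ p)).2] m)| ≤ ε := by
      intro m
      have h1 : Eff (rK A D s (Sum.inr m)) χ _ := eff_gain A (fun _ => 0)
        (fun j => ![(s j).1, (s j).2] m) hχ
      have h2 := eff_unique (hN (Sum.inr m)) h1
      have h3 := hd5 (Sum.inr m)
      rw [h2] at h3
      simp only [rT, kp, Matrix.cons_val, hg0, sub_zero] at h3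
      exact h3
    have h0 := hm 0
    have h1 := hm 1
    simp only [Matrix.cons_val_zero, Matrix.cons_val_one] at h0 h1
    rw [Prod.norm_def, max_le_iff]
    refine ⟨?_, ?_⟩
    · rw [Real.norm_eq_abs]
      rw [abs_sub_comm] at h0
      exact h0
    · rw [Real.norm_eq_abs]
      rw [abs_sub_comm] at h1
      exact h1
  · intro i
    have h1 : Eff (rK A D s (Sum.inl i)) χ _ := eff_gain A (fun j => D i (s j)) (fun _ => 0) hχ
    have h2 := eff_unique (hN (Sum.inl i)) h1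
    have h3 := hd5 (Sum.inl i)
    rw [h2] at h3
    simp only [rT, kp, Matrix.cons_val, avg_const] at h3
    have e : -q i - (0 - A.gain (fun p => D i (s (χ p)))) = A.gain (fun p => D i (s (χ p))) - q i := by
      ring
    rwa [e] at h3

end Pool.Agent.Lib.MP_2a9317_an.TP
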