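import Pool.Agent.Lib.MP_2a9317_an.TP.Q0

set_option autoImplicit false

/-!
# TP-Sem: semiconvex functions on an open convex set are continuous

`Semi A D cc v O`: the layering inequality with the coefficients `cc` (of any sign).
Let `M = ∑ i |cc i| C_i / lo` with `(D i ζ).1² + (D i ζ).2² ≤ C_i (ζ.1² + ζ.2²)`
(`D i ζ = ζ.1 • D i (1,0) + ζ.2 • D i (0,1)`, `C_i = 2 (|D i (1,0)|² + |D i (0,1)|²)`), so
`|∑ cc i NN ξ (D i ζ)| ≤ M (ζ.1² + ζ.2²)` by `NN_le`, `NN_nonneg`.  With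
`θ|z|² + (1-θ)|z'|² - |θ z + (1-θ) z'|² = θ(1-θ)|z - z'|²` the function `v + M |z|²` is convex on `O`
(take `ξ = (1, 0)`), hence continuous on the open set `O` (`ConvexOn.continuousOn` in finite
dimension), and so is `v`.
-/

namespace Pool.Agent.Lib.MP_2a9317_an.TP

open MeasureTheory Matrix Filter Topology Pool.Agent.Lib.MP_2a9317_an.N1
open scoped ContDiff

/-- the layering inequality for `v` on the set `O` -/
def Semi (A : Mod) {ι : Type} [Fintype ι] (D : ι → (ℝ × ℝ) →ₗ[ℝ] (ℝ × ℝ)) (cc : ι → ℝ)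
    (v : ℝ × ℝ → ℝ) (O : Set (ℝ × ℝ)) : Prop :=
  ∀ z ∈ O, ∀ z' ∈ O, ∀ θ : ℝ, 0 < θ → θ < 1 → ∀ ξ : ℝ × ℝ, ξ ≠ 0 →
    v (θ • z + (1 - θ) • z') ≤ θ * v z + (1 - θ) * v z'
      - θ * (1 - θ) * ∑ i, cc i * A.NN ξ (D i (z - z'))

private noncomputable def semC (T : (ℝ × ℝ) →ₗ[ℝ] (ℝ × ℝ)) : ℝ :=
  2 * ((T (1, 0)).1 ^ 2 + (T (1, 0)).2 ^ 2 + ((T (0, 1)).1 ^ 2 + (T (0, 1)).2 ^ 2))

private lemma semC_le (T : (ℝ × ℝ) →ₗ[ℝ] (ℝ × ℝ)) (ζ : ℝ × ℝ) :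
    (T ζ).1 ^ 2 + (T ζ).2 ^ 2 ≤ semC T * (ζ.1 ^ 2 + ζ.2 ^ 2) := by
  have h1 : ζ = ζ.1 • ((1 : ℝ), (0 : ℝ)) + ζ.2 • ((0 : ℝ), (1 : ℝ)) := by
    ext <;> simp
  have h2 : T ζ = ζ.1 • T (1, 0) + ζ.2 • T (0, 1) := by
    conv_lhs => rw [h1]
    rw [map_add, map_smul, map_smul]
  have h3 : (T ζ).1 = ζ.1 * (T (1, 0)).1 + ζ.2 * (T (0, 1)).1 := by rw [h2]; rfl
  have h4 : (T ζ).2 = ζ.1 * (T (1, 0)).2 + ζ.2 * (T (0, 1)).2 := by rw [h2]; rfl
  rw [h3, h4]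
  unfold semC
  nlinarith [sq_nonneg (ζ.1 * (T (1, 0)).1 - ζ.2 * (T (0, 1)).1),
    sq_nonneg (ζ.1 * (T (1, 0)).2 - ζ.2 * (T (0, 1)).2), sq_nonneg (ζ.1 * (T (0, 1)).1),
    sq_nonneg (ζ.1 * (T (0, 1)).2), sq_nonneg (ζ.2 * (T (1, 0)).1), sq_nonneg (ζ.2 * (T (1, 0)).2)]

theorem semi_cont (A : Mod) {ι : Type} [Fintype ι] (D : ι → (ℝ × ℝ) →ₗ[ℝ] (ℝ × ℝ)) (cc : ι → ℝ)
    {v : ℝ × ℝ → ℝ} {O : Set (ℝ × ℝ)} (hO : IsOpen O) (hOc : Convex ℝ O)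
    (hv : Semi A D cc v O) : ContinuousOn v O := by
  obtain ⟨M, hM⟩ : ∃ M : ℝ, M = ∑ i, |cc i| * (semC (D i) / A.lo) := ⟨_, rfl⟩
  have hlo := lo_pos A
  have hbound : ∀ (ξ ζ : ℝ × ℝ), -(M * (ζ.1 ^ 2 + ζ.2 ^ 2)) ≤ ∑ i, cc i * A.NN ξ (D i ζ) := by
    intro ξ ζ
    rw [hM, Finset.sum_mul, ← Finset.sum_neg_distrib]
    refine Finset.sum_le_sum fun i _ => ?_
    have h1 := NN_nonneg A ξ (D i ζ)
    have h2 := NN_le A ξ (D i ζ)
    have h3 := semC_le (D i) ζ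
    have h4 : A.NN ξ (D i ζ) ≤ semC (D i) / A.lo * (ζ.1 ^ 2 + ζ.2 ^ 2) := by
      refine h2.trans ?_
      rw [div_mul_eq_mul_div]
      exact div_le_div_of_nonneg_right h3 hlo.le
    have h5 : -|cc i| ≤ cc i := neg_abs_le _
    have h6 : -(|cc i| * A.NN ξ (D i ζ)) ≤ cc i * A.NN ξ (D i ζ) := by
      have := mul_le_mul_of_nonneg_right h5 h1
      linarith
    have h7 : |cc i| * A.NN ξ (D i ζ) ≤ |cc i| * (semC (D i) / A.lo * (ζ.1 ^ 2 + ζ.2 ^ 2)) :=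
      mul_le_mul_of_nonneg_left h4 (abs_nonneg _)
    linarith
  have hconv : ConvexOn ℝ O (fun z : ℝ × ℝ => v z + M * (z.1 ^ 2 + z.2 ^ 2)) := by
    refine ⟨hOc, ?_⟩
    intro z hz z' hz' a b ha hb hab
    rcases ha.eq_or_lt with h0 | h0
    · subst h0
      have hb1 : b = 1 := by linarith
      subst hb1
      simp
    · rcases hb.eq_or_lt with h1 | h1
      · subst h1
        have ha1 : a = 1 := by linarith
        subst ha1
        simp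
      · have hb' : b = 1 - a := by linarith
        subst hb'
        have h2 := hv z hz z' hz' a h0 (by linarith) (1, 0) (by
          intro h
          have := congrArg Prod.fst h
          simp at this)
        have h3 := hbound (1, 0) (z - z')
        have h4 : 0 < a * (1 - a) := mul_pos h0 h1
        have h5 := mul_le_mul_of_nonneg_left h3 h4.le
        have e1 : (a • z + (1 - a) • z').1 = a * z.1 + (1 - a) * z'.1 := rfl
        have e2 : (a • z + (1 - a) • z').2 = a * z.2 + (1 - a) * z'.2 := rfl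
        have e3 : (z - z').1 = z.1 - z'.1 := rfl
        have e4 : (z - z').2 = z.2 - z'.2 := rfl
        simp only [smul_eq_mul]
        rw [e1, e2]
        rw [e3, e4] at h5
        have e5 : a * (M * (z.1 ^ 2 + z.2 ^ 2)) + (1 - a) * (M * (z'.1 ^ 2 + z'.2 ^ 2)) -
            M * ((a * z.1 + (1 - a) * z'.1) ^ 2 + (a * z.2 + (1 - a) * z'.2) ^ 2) =
            a * (1 - a) * (M * ((z.1 - z'.1) ^ 2 + (z.2 - z'.2) ^ 2)) := by ring
        linarith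
  have hcont := hconv.continuousOn hO
  have h6 : ContinuousOn (fun z : ℝ × ℝ => M * (z.1 ^ 2 + z.2 ^ 2)) O := by
    apply Continuous.continuousOn
    fun_prop
  have h7 := hcont.sub h6
  refine h7.congr fun z _ => ?_
  simp

end Pool.Agent.Lib.MP_2a9317_an.TP
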