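import Pool.Agent.Lib.MP_2a9317_an.TP.KE
import Pool.Agent.Lib.MP_2a9317_an.TP.KG
import Pool.Agent.Lib.MP_2a9317_an.TP.Cor
import Pool.Agent.Lib.MP_2a9317_an.TP.Rev

set_option autoImplicit false

/-!
# TP-T1: planar phases with equal moduli: `G = G^L`

* `planar_pk`: from `Planar K` take `P0 = K j0`, `P1 = K j1 - K j0`, `P2 = K j2 - K j0` and `s j0 = (0, 0)`,
  `s j1 = (1, 0)`, `s j2 = (0, 1)`, `s j = (x, y)` (`choose`) otherwise.  `Om s` is nonempty: the hull contains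
  the triangle with the vertices `(0,0), (1,0), (0,1)`; a small ball around `(1/4, 1/4)` lies in it
  (`(x, y) = (1-x-y) (0,0) + x (1,0) + y (0,1)`), `mem_interior`.
* `eff_eq`: `eff_near_pk` with `δ = 0` (`Near A K 0` by `lq_mat`) for all `F`, `colD_const`, `eq_of_affW`
  (`pk` symmetric): `AffEffective K χ M → M = pk (mean s_χ) - (∑ gain) • EE`; with the existence
  `exists_affEffective` (`AffFinal`) also the converse.
* `T1`: `⊆`: `affG = closure {..}`; an effective `M` is `pk (mean s_χ) - (∑ gain) • EE`; by `core` there are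
  `(z, q)` in `LamT` arbitrarily close, and `pk z - (∑ q) • EE` is an `AffLaminate` (`lam_eq`) close to `M`
  (continuity of `(z, x) ↦ pk z - x • EE`): `M ∈ closure`.  `⊇`: `lam_eq`, `core_rev`.
* `mod_of`: the entries of `A`: `a = A 0 0 > 0`, `a c - b² = det A > 0` (`Matrix.PosDef.det_pos`), symmetric.
-/

namespace Pool.Agent.Lib.MP_2a9317_an.TP

open MeasureTheory Matrix Filter Topology
open scoped ContDiff Kronecker

theorem mod_of {A : Matrix (Fin 2) (Fin 2) ℝ} (hA : A.PosDef) : ∃ A' : Mod, A'.mat = A := by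
  have h1 : 0 < A 0 0 := hA.diag_pos
  have h2 := hA.det_pos
  have h3 : A 1 0 = A 0 1 := by
    have := hA.1.apply 0 1
    simpa using this
  rw [Matrix.det_fin_two, h3] at h2
  refine ⟨⟨A 0 0, A 0 1, A 1 1, h1, by nlinarith⟩, ?_⟩
  ext i j
  fin_cases i <;> fin_cases j <;> simp [Mod.mat, h3]

private theorem T1_tri {S : Set (ℝ × ℝ)} (hS : Convex ℝ S) (h0 : ((0 : ℝ), (0 : ℝ)) ∈ S)
    (h1 : ((1 : ℝ), (0 : ℝ)) ∈ S) (h2 : ((0 : ℝ), (1 : ℝ)) ∈ S) : (interior S).Nonempty := by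
  have hU : IsOpen {p : ℝ × ℝ | 0 < p.1 ∧ 0 < p.2 ∧ p.1 + p.2 < 1} := by
    refine (isOpen_lt continuous_const continuous_fst).inter
      ((isOpen_lt continuous_const continuous_snd).inter
        (isOpen_lt (continuous_fst.add continuous_snd) continuous_const))
  have hsub : {p : ℝ × ℝ | 0 < p.1 ∧ 0 < p.2 ∧ p.1 + p.2 < 1} ⊆ S := by
    rintro ⟨x, y⟩ ⟨hx, hy, hxy⟩
    simp only at hx hy hxy
    have hs : 0 < x + y := by linarith
    have hw := hS h1 h2 (a := x / (x + y)) (b := y / (x + y)) (by positivity) (by positivity)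
      (by field_simp)
    have hp := hS hw h0 (a := x + y) (b := 1 - (x + y)) hs.le (by linarith) (by ring)
    have e : (x + y) • ((x / (x + y)) • ((1 : ℝ), (0 : ℝ)) + (y / (x + y)) • ((0 : ℝ), (1 : ℝ)))
        + (1 - (x + y)) • ((0 : ℝ), (0 : ℝ)) = (x, y) := by
      ext
      · simp
        field_simp
      · simp
        field_simp
    rw [e] at hp
    exact hp
  refine ⟨(1 / 4, 1 / 4), interior_maximal hsub hU ?_⟩
  refine ⟨?_, ?_, ?_⟩ <;> norm_num

theorem planar_pk {n k : ℕ} {K : Fin k → Mn n} (h : Planar K) :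
    ∃ (j0 j1 j2 : Fin k) (s : Fin k → ℝ × ℝ), (Om s).Nonempty ∧
      ∀ j, K j = pk (K j0) (K j1 - K j0) (K j2 - K j0) (s j) := by
  obtain ⟨j0, j1, j2, h01, h02, h12, H⟩ := h
  choose x y hxy using H
  refine ⟨j0, j1, j2, fun j => if j = j0 then (0, 0) else if j = j1 then (1, 0)
    else if j = j2 then (0, 1) else (x j, y j), ?_, ?_⟩
  · have hc := convex_convexHull ℝ (Set.range fun j => if j = j0 then ((0 : ℝ), (0 : ℝ))
      else if j = j1 then (1, 0) else if j = j2 then (0, 1) else (x j, y j))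
    have hsub := subset_convexHull ℝ (Set.range fun j => if j = j0 then ((0 : ℝ), (0 : ℝ))
      else if j = j1 then (1, 0) else if j = j2 then (0, 1) else (x j, y j))
    refine T1_tri hc (hsub ⟨j0, ?_⟩) (hsub ⟨j1, ?_⟩) (hsub ⟨j2, ?_⟩)
    · simp
    · simp [h01.symm]
    · simp [h02.symm, h12.symm]
  · intro j
    unfold pk
    by_cases e0 : j = j0
    · subst e0; simp
    · by_cases e1 : j = j1
      · subst e1; simp [e0]
      · by_cases e2 : j = j2
        · subst e2; simp [e0, e1]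
        · simp only [if_neg e0, if_neg e1, if_neg e2]
          exact hxy j

private theorem T1_pk_symm {n : ℕ} {P0 P1 P2 : Mn n} (s0 : P0.IsSymm)
    (s1 : P1.IsSymm) (s2 : P2.IsSymm) (z : ℝ × ℝ) : (pk P0 P1 P2 z).IsSymm := by
  unfold pk
  exact (s0.add (s1.smul _)).add (s2.smul _)

private theorem T1_EE_symm (n : ℕ) (x : ℝ) : (x • EE n).IsSymm := by
  have : (EE n).IsSymm := by
    unfold EE
    rw [Matrix.IsSymm, Matrix.transpose_single]
  exact this.smul x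

theorem eff_eq (A : Mod) {n k : ℕ} {P0 P1 P2 : Mn n} (s : Fin k → ℝ × ℝ) (s0 : P0.IsSymm)
    (s1 : P1.IsSymm) (s2 : P2.IsSymm)
    (h0 : P0.toBlocks₁₁ = A.mat ⊗ₖ (1 : Matrix (Fin n) (Fin n) ℝ)) (h1 : P1.toBlocks₁₁ = 0)
    (h2 : P2.toBlocks₁₁ = 0) (hK : ∀ j, (pk P0 P1 P2 (s j)).PosDef) {χ : ℝ × ℝ → Fin k}
    (hχ : IsPartition χ) (M : Mn n) :
    AffEffective (fun j => pk P0 P1 P2 (s j)) χ M ↔
      M = pk P0 P1 P2 (mean fun p => s (χ p))
        - (∑ m, A.gain (fun p => colD P1 P2 0 m (s (χ p)))) • EE n := by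
  have hb : ∀ z, (pk P0 P1 P2 z).toBlocks₁₁ = A.mat ⊗ₖ (1 : Matrix (Fin n) (Fin n) ℝ) := by
    intro z
    have : (pk P0 P1 P2 z).toBlocks₁₁
        = P0.toBlocks₁₁ + z.1 • P1.toBlocks₁₁ + z.2 • P2.toBlocks₁₁ := by
      ext i j
      rfl
    rw [this, h0, h1, h2, smul_zero, smul_zero, add_zero, add_zero]
  have hN : Near A (fun j => pk P0 P1 P2 (s j)) 0 := by
    intro j H
    rw [lq_mat A (hb _), sub_self, abs_zero, zero_mul]
  have key : ∀ M, AffEffective (fun j => pk P0 P1 P2 (s j)) χ M →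
      M = pk P0 P1 P2 (mean fun p => s (χ p))
        - (∑ m, A.gain (fun p => colD P1 P2 0 m (s (χ p)))) • EE n := by
    intro M hM
    refine eq_of_affW hM.1 ((T1_pk_symm s0 s1 s2 _).sub (T1_EE_symm n _)) fun F => ?_
    obtain ⟨e1, e2⟩ := eff_near_pk A P0 P1 P2 s hK le_rfl zero_lt_one hN hχ hM F
    rw [sub_zero, div_one] at e1
    rw [add_zero, div_one] at e2
    rw [affW_sub_EE]
    have e3 : ∀ m, colD P1 P2 F m = colD P1 P2 0 m := fun m => colD_const h1 h2 F m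
    simp only [e3] at e1 e2
    exact le_antisymm e2 e1
  constructor
  · exact key M
  · intro hM
    obtain ⟨M', hM'⟩ := exists_affEffective (fun j => pk P0 P1 P2 (s j)) hK hχ
    rw [hM, ← key M' hM']
    exact hM'

private theorem T1_cont {n : ℕ} (P0 P1 P2 : Mn n) :
    Continuous (fun x : (ℝ × ℝ) × ℝ => pk P0 P1 P2 x.1 - x.2 • EE n) := by
  unfold pk
  fun_prop

private theorem T1_sum {ι : Type} [Fintype ι] {g : ι → ℝ} {q : ℕ → ι → ℝ}
    (h : ∀ l i, |q l i - g i| ≤ 1 / ((l : ℝ) + 1)) :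
    Tendsto (fun l => ∑ i, q l i) atTop (𝓝 (∑ i, g i)) := by
  refine tendsto_finsetSum _ fun i _ => ?_
  rw [tendsto_iff_dist_tendsto_zero]
  exact squeeze_zero (fun l => dist_nonneg) (fun l => by rw [Real.dist_eq]; exact h l i)
    tendsto_one_div_add_atTop_nhds_zero_nat

private theorem T1_pt {z : ℕ → ℝ × ℝ} {w : ℝ × ℝ} (h : ∀ l, ‖z l - w‖ ≤ 1 / ((l : ℝ) + 1)) :
    Tendsto z atTop (𝓝 w) := by
  rw [tendsto_iff_norm_sub_tendsto_zero]
  exact squeeze_zero (fun l => norm_nonneg _) h tendsto_one_div_add_atTop_nhds_zero_nat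

private theorem T1_aux (A : Mod) {n k : ℕ} {P0 P1 P2 : Mn n} (s : Fin k → ℝ × ℝ) (s0 : P0.IsSymm)
    (s1 : P1.IsSymm) (s2 : P2.IsSymm)
    (h0 : P0.toBlocks₁₁ = A.mat ⊗ₖ (1 : Matrix (Fin n) (Fin n) ℝ)) (h1 : P1.toBlocks₁₁ = 0)
    (h2 : P2.toBlocks₁₁ = 0) (hK : ∀ j, (pk P0 P1 P2 (s j)).PosDef) (hs : (Om s).Nonempty) :
    affG (fun j => pk P0 P1 P2 (s j)) = affGL (fun j => pk P0 P1 P2 (s j)) := by
  apply Set.Subset.antisymm
  · refine closure_minimal ?_ isClosed_closure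
    rintro M ⟨χ, hχ, hM⟩
    rw [eff_eq A s s0 s1 s2 h0 h1 h2 hK hχ] at hM
    have hc : ∀ l : ℕ, ∃ (z : ℝ × ℝ) (q : Fin n → ℝ),
        LamT A s (fun m : Fin n => colD P1 P2 0 m) z q ∧
        ‖z - mean (fun p => s (χ p))‖ ≤ 1 / ((l : ℝ) + 1) ∧
        ∀ i, |q i - A.gain (fun p => colD P1 P2 0 i (s (χ p)))| ≤ 1 / ((l : ℝ) + 1) := fun l =>
      core A (fun m : Fin n => colD P1 P2 0 m) s hs hχ (by positivity)
    choose z q hL hz hq using hc
    have ht := (T1_cont P0 P1 P2).tendsto ((mean fun p => s (χ p)),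
      ∑ m, A.gain (fun p => colD P1 P2 0 m (s (χ p))))
    have ht2 := ht.comp ((T1_pt hz).prodMk_nhds (T1_sum hq))
    rw [hM]
    refine mem_closure_of_tendsto ht2 (Eventually.of_forall fun l => ?_)
    exact (lam_eq A s s0 s1 s2 h0 h1 h2 _).2 ⟨z l, q l, hL l, rfl⟩
  · refine closure_minimal ?_ isClosed_closure
    intro M hM
    obtain ⟨z, q, hL, rfl⟩ := (lam_eq A s s0 s1 s2 h0 h1 h2 M).1 hM
    have hc : ∀ l : ℕ, ∃ χ : ℝ × ℝ → Fin k, IsPartition χ ∧
        ‖mean (fun p => s (χ p)) - z‖ ≤ 1 / ((l : ℝ) + 1) ∧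
        ∀ i, |A.gain (fun p => colD P1 P2 0 i (s (χ p))) - q i| ≤ 1 / ((l : ℝ) + 1) := fun l =>
      core_rev A (fun m : Fin n => colD P1 P2 0 m) s hL (by positivity)
    choose χ hχ hz hq using hc
    have ht := (T1_cont P0 P1 P2).tendsto (z, ∑ m, q m)
    have ht2 := ht.comp ((T1_pt hz).prodMk_nhds (T1_sum hq))
    refine mem_closure_of_tendsto ht2 (Eventually.of_forall fun l => ?_)
    exact ⟨χ l, hχ l, (eff_eq A s s0 s1 s2 h0 h1 h2 hK (hχ l) _).2 rfl⟩

theorem T1 {n k : ℕ} {A : Matrix (Fin 2) (Fin 2) ℝ} (hA0 : A.PosDef) (K : Fin k → Mn n)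
    (hK : ∀ j, (K j).PosDef) (hA : ∀ j, (K j).toBlocks₁₁ = A ⊗ₖ (1 : Matrix (Fin n) (Fin n) ℝ))
    (hP : Planar K) : affG K = affGL K := by
  obtain ⟨A', rfl⟩ := mod_of hA0
  obtain ⟨j0, j1, j2, s, hs, hKs⟩ := planar_pk hP
  have hsym : ∀ j, (K j).IsSymm := by
    intro j
    have := (hK j).1
    rwa [Matrix.IsHermitian, Matrix.conjTranspose_eq_transpose_of_trivial] at this
  have hfun : K = fun j => pk (K j0) (K j1 - K j0) (K j2 - K j0) (s j) := funext hKs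
  have hz : ∀ i j, (K i - K j).toBlocks₁₁ = 0 := by
    intro i j
    have : (K i - K j).toBlocks₁₁ = (K i).toBlocks₁₁ - (K j).toBlocks₁₁ := by
      ext a b
      rfl
    rw [this, hA i, hA j, sub_self]
  have hK' : ∀ j, (pk (K j0) (K j1 - K j0) (K j2 - K j0) (s j)).PosDef := by
    intro j
    rw [← hKs j]
    exact hK j
  have := T1_aux A' s (hsym j0) ((hsym j1).sub (hsym j0)) ((hsym j2).sub (hsym j0)) (hA j0)
    (hz j1 j0) (hz j2 j0) hK' hs
  rw [← hfun] at this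
  exact this

end Pool.Agent.Lib.MP_2a9317_an.TP
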