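import Pool.Agent.Lib.MP_2a9317_an.TP.T1

set_option autoImplicit false

/-!
# TP-T2: planar phases with nearly equal moduli

* `near_of`: `|lq (K j) H - A.AA H| ≤ δ (∑ |H q|)² ≤ 2 n δ ∑ (H q)² ≤ (2 n δ / lo) A.AA H` (`lq_mat` for the matrix
  `A.mat ⊗ₖ 1`, i.e. the difference of the blocks has entries `≤ δ`; Cauchy-Schwarz; `lo_le`).
* `gain_bound`: for `F` with `∑ |F q| ≤ 2` the columns `dv (K j) F m - dv (K j') F m` have entries
  `≤ 2 δ * 2 + δ' ≤ 4 (δ + δ')` (the linear blocks of two phases differ by `≤ 2 δ`), so by `gain_add_const`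
  (`colD .. (s j) = dv (K j) F m - dv P0 F m`) and `gain_le`: `gain ≤ 32 (δ + δ')² / lo` (subtract the
  constant `dv (K j0) F m`).
* `T2`: let `δ₁ = 2 n δ / lo ≤ 1/2` (`δ₀ = lo / (4 n)`), `B = 32 n (δ + δ')² / lo`.  If `δ = 0` use `T1` (`M' = M`).  Let
  `δ > 0`, so `η = δ (δ + δ')² > 0`.  Let `M` be effective for `χ`, `K j = pk (s j)` (`planar_pk`).  For all test fields
  `F_i = tst n i` (`∑ |F q| ≤ 2`), by `eff_near_pk`, with `S_i = ∑ m gain (colD F_i m s_χ) ∈ [0, B]`,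
  `affW M F_i ∈ [W_i - S_i/(1-δ₁), W_i - S_i/(1+δ₁)]`, `W_i = affW (pk (mean s_χ)) F_i`.  `core` (index set
  `ι × Fin n`, `ι` the index set of `tst`) and `lam_near` give, for any `ε`, an `AffLaminate` `M'` with
  `affW M' F_i ∈ [W'_i - S'_i/(1-δ₁), W'_i - S'_i/(1+δ₁)]`, `|S'_i - S_i| ≤ n ε`, `|W'_i - W_i| ≤ ε C'`.  Since
  `1/(1-δ₁) - 1/(1+δ₁) ≤ (8/3) δ₁`, `1/(1-δ₁) ≤ 2`: `|affW M F_i - affW M' F_i| ≤ (8/3) δ₁ B + ε (C' + 2 n)`, and
  by `entries` `|M - M'| ≤ (16/3) δ₁ B + 2 ε (..) ≤ C₁ η + η` for small `ε`, `C₁ = (16/3) (2 n / lo) (32 n / lo)`.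
  An arbitrary `M ∈ affG K` is within `η` of an effective one: `C = C₁ + 2`.
-/

namespace Pool.Agent.Lib.MP_2a9317_an.TP

open MeasureTheory Matrix Filter Topology
open scoped ContDiff Kronecker

private lemma bm_state {k : ℕ} (s : Fin k → ℝ × ℝ) (D : (ℝ × ℝ) →ₗ[ℝ] (ℝ × ℝ))
    {χ : ℝ × ℝ → Fin k} (hχ : IsPartition χ) : BV (fun p => D (s (χ p))) :=
  ⟨N1.BM.phase (fun j => (D (s j)).1) hχ.1, N1.BM.phase (fun j => (D (s j)).2) hχ.1⟩

private lemma sum_ent {n : ℕ} (f : Ent n → ℝ) : ∑ q, f q = ∑ m, (f (0, m) + f (1, m)) := by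
  rw [Fintype.sum_prod_type, Fin.sum_univ_two, ← Finset.sum_add_distrib]

theorem near_of (A : Mod) {n k : ℕ} (K : Fin k → Mn n) {δ : ℝ} (hδ : 0 ≤ δ)
    (h : ∀ j q q', |(K j).toBlocks₁₁ q q' - (A.mat ⊗ₖ (1 : Matrix (Fin n) (Fin n) ℝ)) q q'| ≤ δ) :
    Near A K (2 * n * δ / A.lo) := by
  intro j H
  have hlo := lo_pos A
  have e1 : A.AA H = H ⬝ᵥ ((A.mat ⊗ₖ (1 : Matrix (Fin n) (Fin n) ℝ)) *ᵥ H) := by
    have := lq_mat A (M := Matrix.fromBlocks (A.mat ⊗ₖ (1 : Matrix (Fin n) (Fin n) ℝ)) 0 0 0)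
      (Matrix.toBlocks_fromBlocks₁₁ _ _ _ _) H
    rw [← this, lq, Matrix.toBlocks_fromBlocks₁₁]
  have e2 : lq (K j) H - A.AA H
      = ∑ q, H q * ∑ q', ((K j).toBlocks₁₁ q q'
        - (A.mat ⊗ₖ (1 : Matrix (Fin n) (Fin n) ℝ)) q q') * H q' := by
    rw [e1, lq, ← dotProduct_sub, ← Matrix.sub_mulVec]
    rfl
  have e3 : |lq (K j) H - A.AA H| ≤ δ * (∑ q, |H q|) ^ 2 := by
    rw [e2]
    calc |∑ q, H q * ∑ q', ((K j).toBlocks₁₁ q q'
        - (A.mat ⊗ₖ (1 : Matrix (Fin n) (Fin n) ℝ)) q q') * H q'|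
        ≤ ∑ q, |H q| * (δ * ∑ q', |H q'|) := by
          refine (Finset.abs_sum_le_sum_abs _ _).trans (Finset.sum_le_sum fun q _ => ?_)
          rw [abs_mul]
          refine mul_le_mul_of_nonneg_left ?_ (abs_nonneg _)
          refine (Finset.abs_sum_le_sum_abs _ _).trans ?_
          rw [Finset.mul_sum]
          refine Finset.sum_le_sum fun q' _ => ?_
          rw [abs_mul]
          exact mul_le_mul_of_nonneg_right (h j q q') (abs_nonneg _)
      _ = δ * (∑ q, |H q|) ^ 2 := by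
          rw [← Finset.sum_mul]; ring
  have e4 : (∑ q, |H q|) ^ 2 ≤ (2 * n) * ∑ q, H q ^ 2 := by
    have h1 := sq_sum_le_card_mul_sum_sq (s := (Finset.univ : Finset (Ent n)))
      (f := fun q => |H q|)
    have h2 : ((Finset.univ : Finset (Ent n)).card : ℝ) = 2 * n := by
      simp [Ent]
    rw [h2] at h1
    simpa [sq_abs] using h1
  have e5 : A.lo * ∑ q, H q ^ 2 ≤ A.AA H := by
    rw [sum_ent, Finset.mul_sum]
    exact Finset.sum_le_sum fun m _ => lo_le A _ _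
  have e6 : ∑ q, H q ^ 2 ≤ A.AA H / A.lo := by
    rw [le_div_iff₀ hlo]; linarith
  calc |lq (K j) H - A.AA H| ≤ δ * (∑ q, |H q|) ^ 2 := e3
    _ ≤ δ * ((2 * n) * (A.AA H / A.lo)) := by
        refine mul_le_mul_of_nonneg_left (e4.trans ?_) hδ
        exact mul_le_mul_of_nonneg_left e6 (by positivity)
    _ = 2 * n * δ / A.lo * A.AA H := by ring

private lemma dv_sub {n : ℕ} (M M' : Mn n) (F : Ent n → ℝ) (i : Fin 2) (m : Fin n) {δ δ' : ℝ}
    (hδ0 : 0 ≤ δ) (hδ0' : 0 ≤ δ')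
    (h : ∀ q q', |M (Sum.inl q) (Sum.inl q') - M' (Sum.inl q) (Sum.inl q')| ≤ 2 * δ)
    (h' : ∀ q, |M (Sum.inl q) (Sum.inr ()) - M' (Sum.inl q) (Sum.inr ())| ≤ δ')
    (hF : ∑ q, |F q| ≤ 2) :
    |(M *ᵥ aff F) (Sum.inl (i, m)) - (M' *ᵥ aff F) (Sum.inl (i, m))| ≤ 4 * (δ + δ') := by
  have e : (M *ᵥ aff F) (Sum.inl (i, m)) - (M' *ᵥ aff F) (Sum.inl (i, m))
      = ∑ q, (M (Sum.inl (i, m)) (Sum.inl q) - M' (Sum.inl (i, m)) (Sum.inl q)) * F q
        + (M (Sum.inl (i, m)) (Sum.inr ()) - M' (Sum.inl (i, m)) (Sum.inr ())) := by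
    simp only [Matrix.mulVec, dotProduct, Fintype.sum_sum_type, aff, Sum.elim_inl, Sum.elim_inr,
      Finset.univ_unique, Finset.sum_singleton, sub_mul, Finset.sum_sub_distrib, mul_one]
    ring_nf
  rw [e]
  refine (abs_add_le _ _).trans ?_
  have e1 : |∑ q, (M (Sum.inl (i, m)) (Sum.inl q) - M' (Sum.inl (i, m)) (Sum.inl q)) * F q|
      ≤ 2 * δ * 2 := by
    refine (Finset.abs_sum_le_sum_abs _ _).trans ?_
    calc ∑ q, |(M (Sum.inl (i, m)) (Sum.inl q) - M' (Sum.inl (i, m)) (Sum.inl q)) * F q|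
        ≤ ∑ q, 2 * δ * |F q| := by
          refine Finset.sum_le_sum fun q _ => ?_
          rw [abs_mul]
          exact mul_le_mul_of_nonneg_right (h _ _) (abs_nonneg _)
      _ = 2 * δ * ∑ q, |F q| := by rw [Finset.mul_sum]
      _ ≤ 2 * δ * 2 := mul_le_mul_of_nonneg_left hF (by positivity)
  have e2 := h' (i, m)
  linarith

theorem gain_bound (A : Mod) {n k : ℕ} (P0 P1 P2 : Mn n) (s : Fin k → ℝ × ℝ) {δ δ' : ℝ}
    (h : ∀ j q q', |(pk P0 P1 P2 (s j)).toBlocks₁₁ q q'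
      - (A.mat ⊗ₖ (1 : Matrix (Fin n) (Fin n) ℝ)) q q'| ≤ δ)
    (h' : ∀ i j q, |pk P0 P1 P2 (s i) (Sum.inl q) (Sum.inr ())
      - pk P0 P1 P2 (s j) (Sum.inl q) (Sum.inr ())| ≤ δ')
    {F : Ent n → ℝ} (hF : ∑ q, |F q| ≤ 2) (m : Fin n) {χ : ℝ × ℝ → Fin k} (hχ : IsPartition χ) :
    A.gain (fun p => colD P1 P2 F m (s (χ p))) ≤ 32 * (δ + δ') ^ 2 / A.lo := by
  have hlo := lo_pos A
  set j0 : Fin k := χ (0, 0) with hj0
  have hδ0 : 0 ≤ δ := (abs_nonneg _).trans (h j0 (0, m) (0, m))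
  have hδ0' : 0 ≤ δ' := (abs_nonneg _).trans (h' j0 j0 (0, m))
  have hBV := bm_state s (colD P1 P2 F m) hχ
  have hBV2 : BV (fun p => colD P1 P2 F m (s (χ p)) + -(colD P1 P2 F m (s j0))) :=
    ⟨N1.BM.phase (fun j => (colD P1 P2 F m (s j) + -(colD P1 P2 F m (s j0))).1) hχ.1,
      N1.BM.phase (fun j => (colD P1 P2 F m (s j) + -(colD P1 P2 F m (s j0))).2) hχ.1⟩
  rw [← gain_add_const A hBV (-(colD P1 P2 F m (s j0)))]
  refine (gain_le A hBV2).trans ?_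
  refine (div_le_div_iff_of_pos_right hlo).2 ?_
  have key : ∀ j, (colD P1 P2 F m (s j) + -(colD P1 P2 F m (s j0)))
      = dv (pk P0 P1 P2 (s j)) F m - dv (pk P0 P1 P2 (s j0)) F m := by
    intro j
    rw [dv_pk, dv_pk]
    abel
  have hb : ∀ j q q', |(pk P0 P1 P2 (s j)) (Sum.inl q) (Sum.inl q')
      - (pk P0 P1 P2 (s j0)) (Sum.inl q) (Sum.inl q')| ≤ 2 * δ := by
    intro j q q'
    have h1 := h j q q'
    have h2 := h j0 q q'
    have h3 : (pk P0 P1 P2 (s j)) (Sum.inl q) (Sum.inl q')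
        = (pk P0 P1 P2 (s j)).toBlocks₁₁ q q' := rfl
    have h4 : (pk P0 P1 P2 (s j0)) (Sum.inl q) (Sum.inl q')
        = (pk P0 P1 P2 (s j0)).toBlocks₁₁ q q' := rfl
    rw [h3, h4]
    rw [abs_le] at h1 h2 ⊢
    constructor <;> linarith [h1.1, h1.2, h2.1, h2.2]
  have hp : ∀ j, (colD P1 P2 F m (s j) + -(colD P1 P2 F m (s j0))).1 ^ 2
      + (colD P1 P2 F m (s j) + -(colD P1 P2 F m (s j0))).2 ^ 2 ≤ 32 * (δ + δ') ^ 2 := by
    intro j
    rw [key]
    have c1 := dv_sub (pk P0 P1 P2 (s j)) (pk P0 P1 P2 (s j0)) F 0 m hδ0 hδ0' (hb j)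
      (fun q => h' j j0 q) hF
    have c2 := dv_sub (pk P0 P1 P2 (s j)) (pk P0 P1 P2 (s j0)) F 1 m hδ0 hδ0' (hb j)
      (fun q => h' j j0 q) hF
    have d1 := sq_le_sq' (abs_le.1 c1).1 (abs_le.1 c1).2
    have d2 := sq_le_sq' (abs_le.1 c2).1 (abs_le.1 c2).2
    have : (dv (pk P0 P1 P2 (s j)) F m - dv (pk P0 P1 P2 (s j0)) F m).1
        = (pk P0 P1 P2 (s j) *ᵥ aff F) (Sum.inl (0, m))
          - (pk P0 P1 P2 (s j0) *ᵥ aff F) (Sum.inl (0, m)) := rfl
    rw [this]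
    have : (dv (pk P0 P1 P2 (s j)) F m - dv (pk P0 P1 P2 (s j0)) F m).2
        = (pk P0 P1 P2 (s j) *ᵥ aff F) (Sum.inl (1, m))
          - (pk P0 P1 P2 (s j0) *ᵥ aff F) (Sum.inl (1, m)) := rfl
    rw [this]
    nlinarith
  unfold msq
  calc avg (fun p => (colD P1 P2 F m (s (χ p)) + -(colD P1 P2 F m (s j0))).1 ^ 2
      + (colD P1 P2 F m (s (χ p)) + -(colD P1 P2 F m (s j0))).2 ^ 2)
      ≤ avg (fun _ => 32 * (δ + δ') ^ 2) :=
        N1.avg_mono' (hBV2.1.sq.add hBV2.2.sq) (N1.BM.const _) fun p => hp (χ p)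
    _ = 32 * (δ + δ') ^ 2 := avg_const _

private lemma sum_abs_single {n : ℕ} (q : Ent n) :
    ∑ r, |(Pi.single q (1 : ℝ) : Ent n → ℝ) r| = 1 := by
  rw [Finset.sum_eq_single q]
  · simp
  · intro b _ hb
    simp [Pi.single_eq_of_ne hb]
  · intro h; exact absurd (Finset.mem_univ _) h

theorem tst_le (n : ℕ) (i : Option (Ent n ⊕ Ent n ⊕ Ent n × Ent n)) :
    ∑ q, |tst n i q| ≤ 2 := by
  rcases i with _ | q | q | ⟨q, q'⟩
  · simp [tst]
  · have := sum_abs_single q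
    simp only [tst]
    linarith
  · have := sum_abs_single q
    simp only [tst, Pi.neg_apply, abs_neg]
    linarith
  · have h1 := sum_abs_single q
    have h2 := sum_abs_single q'
    simp only [tst, Pi.add_apply]
    calc ∑ r, |(Pi.single q (1 : ℝ) : Ent n → ℝ) r + (Pi.single q' (1 : ℝ) : Ent n → ℝ) r|
        ≤ ∑ r, (|(Pi.single q (1 : ℝ) : Ent n → ℝ) r| + |(Pi.single q' (1 : ℝ) : Ent n → ℝ) r|) :=
          Finset.sum_le_sum fun r _ => abs_add_le _ _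
      _ = 2 := by rw [Finset.sum_add_distrib, h1, h2]; norm_num

/-- approximation of points of the closure of a set of matrices -/
private lemma closure_near {n : ℕ} {S : Set (Mn n)} {M : Mn n} (hM : M ∈ closure S) {η : ℝ}
    (hη : 0 < η) : ∃ N ∈ S, ∀ r t, |M r t - N r t| ≤ η := by
  rw [mem_closure_iff] at hM
  have ho : IsOpen {N : Mn n | ∀ r t, |M r t - N r t| < η} := by
    have : {N : Mn n | ∀ r t, |M r t - N r t| < η}
        = ⋂ r, ⋂ t, {N : Mn n | |M r t - N r t| < η} := by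
      ext N; simp
    rw [this]
    refine isOpen_iInter_of_finite fun r => isOpen_iInter_of_finite fun t => ?_
    exact isOpen_lt ((continuous_const.sub (continuous_id.matrix_elem r t)).abs) continuous_const
  obtain ⟨N, hN1, hN2⟩ := hM _ ho (by intro r t; simpa using hη)
  exact ⟨N, hN2, fun r t => (hN1 r t).le⟩

private lemma symm_of_posDef {n : ℕ} {M : Mn n} (h : M.PosDef) : M.IsSymm := by
  have h1 := h.1
  rw [Matrix.IsHermitian] at h1
  ext i j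
  have := congrFun (congrFun h1 i) j
  simpa [Matrix.conjTranspose_apply] using this

/-- the final numerical estimate -/
private lemma num {d W W' S S' x y B e C' N : ℝ} (hd0 : 0 ≤ d) (hd : d ≤ 1 / 2)
    (hS0 : 0 ≤ S) (hSB : S ≤ B) (hSS : |S' - S| ≤ N * e) (hN : 0 ≤ N * e)
    (hWW : |W' - W| ≤ C' * e)
    (x1 : W - S / (1 - d) ≤ x) (x2 : x ≤ W - S / (1 + d))
    (y1 : W' - S' / (1 - d) ≤ y) (y2 : y ≤ W' - S' / (1 + d)) :
    |x - y| ≤ 8 / 3 * d * B + (C' + 2 * N) * e := by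
  have p1 : 0 < 1 - d := by linarith
  have p2 : 0 < 1 + d := by linarith
  have a1 : S / (1 - d) - S / (1 + d) ≤ 8 / 3 * d * B := by
    have : S / (1 - d) - S / (1 + d) = S * (2 * d / (1 - d ^ 2)) := by
      have : 1 - d ^ 2 ≠ 0 := by nlinarith
      field_simp
      ring
    rw [this]
    have h1 : 2 * d / (1 - d ^ 2) ≤ 8 / 3 * d := by
      rw [div_le_iff₀ (by nlinarith)]
      nlinarith [mul_nonneg hd0 hd0, mul_nonneg hd0 (mul_nonneg hd0 hd0)]
    calc S * (2 * d / (1 - d ^ 2)) ≤ S * (8 / 3 * d) := mul_le_mul_of_nonneg_left h1 hS0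
      _ ≤ B * (8 / 3 * d) := mul_le_mul_of_nonneg_right hSB (by positivity)
      _ = 8 / 3 * d * B := by ring
  have a2 : (S' - S) / (1 - d) ≤ 2 * (N * e) := by
    rw [div_le_iff₀ p1]
    have := (abs_le.1 hSS).2
    nlinarith
  have a3 : (S - S') / (1 + d) ≤ N * e := by
    rw [div_le_iff₀ p2]
    have := (abs_le.1 hSS).1
    nlinarith
  have a4 : (S' - S) / (1 - d) = S' / (1 - d) - S / (1 - d) := sub_div _ _ _
  have a5 : (S - S') / (1 + d) = S / (1 + d) - S' / (1 + d) := sub_div _ _ _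
  have w1 := (abs_le.1 hWW).1
  have w2 := (abs_le.1 hWW).2
  rw [abs_le]
  constructor <;> nlinarith

theorem T2 {n : ℕ} (hn : 1 ≤ n) {A : Matrix (Fin 2) (Fin 2) ℝ} (hA : A.PosDef) :
    ∃ C δ₀ : ℝ, 0 < δ₀ ∧ ∀ (k : ℕ) (K : Fin k → Mn n), (∀ j, (K j).PosDef) → Planar K →
      ∀ δ δ' : ℝ, 0 ≤ δ → δ ≤ δ₀ →
      (∀ j q q', |(K j).toBlocks₁₁ q q' - (A ⊗ₖ (1 : Matrix (Fin n) (Fin n) ℝ)) q q'| ≤ δ) →
      (∀ i j q, |K i (Sum.inl q) (Sum.inr ()) - K j (Sum.inl q) (Sum.inr ())| ≤ δ') →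
      ∀ M ∈ affG K, ∃ M' ∈ affGL K, ∀ r t, |M r t - M' r t| ≤ C * δ * (δ + δ') ^ 2 := by
  obtain ⟨A', rfl⟩ := mod_of hA
  have hlo := lo_pos A'
  have hn0 : (0 : ℝ) < n := by exact_mod_cast hn
  refine ⟨16 / 3 * (2 * n / A'.lo) * (32 * n / A'.lo) + 2, A'.lo / (4 * n), by positivity, ?_⟩
  intro k K hK hP δ δ' hδ hδ₀ hb hc M hM
  rcases hδ.eq_or_lt with h0 | hδ1
  · -- equal moduli
    have hE : affG K = affGL K := by
      refine T1 hA K hK (fun j => ?_) hP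
      ext q q'
      have := hb j q q'
      rw [← h0] at this
      have := abs_nonpos_iff.1 this
      linarith
    refine ⟨M, hE ▸ hM, fun r t => ?_⟩
    rw [← h0]
    simp
  obtain ⟨j0, j1, j2, s, hOm, hs⟩ := planar_pk hP
  have hδ' : 0 ≤ δ' := by
    have := hc j0 j0 (0, ⟨0, hn⟩)
    exact (abs_nonneg _).trans this
  set P0 := K j0 with hP0
  set P1 := K j1 - K j0 with hP1
  set P2 := K j2 - K j0 with hP2
  clear_value P0 P1 P2
  obtain rfl : K = fun j => pk P0 P1 P2 (s j) := funext hs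
  set η : ℝ := δ * (δ + δ') ^ 2 with hη
  have hη0 : 0 < η := by positivity
  obtain ⟨M₁, ⟨χ, hχ, hM₁⟩, hMM⟩ := closure_near hM hη0
  set d : ℝ := 2 * n * δ / A'.lo with hd
  have hd0 : 0 ≤ d := by positivity
  have hd2 : d ≤ 1 / 2 := by
    rw [hd, div_le_iff₀ hlo]
    rw [le_div_iff₀ (by positivity)] at hδ₀
    linarith
  have hNear : Near A' (fun j => pk P0 P1 P2 (s j)) d := near_of A' _ hδ hb
  -- constants
  let ι : Type := Option (Ent n ⊕ Ent n ⊕ Ent n × Ent n)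
  set C' : ℝ := ∑ i : ι, (|affW P1 (tst n i)| + |affW P2 (tst n i)|) with hC'
  have hC0 : 0 ≤ C' := Finset.sum_nonneg fun i _ => by positivity
  set ε : ℝ := η / (2 * (C' + 2 * n)) with hε
  have hε0 : 0 < ε := by positivity
  obtain ⟨z, q, hL, hz, hq⟩ := core A'
    (fun im : ι × Fin n => colD P1 P2 (tst n im.1) im.2) s hOm hχ hε0
  obtain ⟨M', hPD', hLam, hb'⟩ := lam_near A' P0 P1 P2 s hK hd0 (by linarith) hNear
    (fun i : ι => tst n i) hL
  refine ⟨M', subset_closure hLam, fun r t => ?_⟩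
  set B : ℝ := n * (32 * (δ + δ') ^ 2 / A'.lo) with hB
  have key : ∀ i : ι, |affW M₁ (tst n i) - affW M' (tst n i)|
      ≤ 8 / 3 * d * B + (C' + 2 * n) * ε := by
    intro i
    have g := eff_near_pk A' P0 P1 P2 s hK hd0 (by linarith) hNear hχ hM₁ (tst n i)
    have g' := hb' i
    refine num (W := affW (pk P0 P1 P2 (mean fun p => s (χ p))) (tst n i))
      (W' := affW (pk P0 P1 P2 z) (tst n i))
      (S := ∑ m, A'.gain (fun p => colD P1 P2 (tst n i) m (s (χ p))))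
      (S' := ∑ m, q (i, m)) hd0 hd2 ?_ ?_ ?_ ?_ ?_ g.1 g.2 g'.1 g'.2
    · exact Finset.sum_nonneg fun m _ => gain_nonneg A' (bm_state s _ hχ)
    · calc ∑ m, A'.gain (fun p => colD P1 P2 (tst n i) m (s (χ p)))
          ≤ ∑ m : Fin n, 32 * (δ + δ') ^ 2 / A'.lo :=
            Finset.sum_le_sum fun m _ => gain_bound A' P0 P1 P2 s hb hc (tst_le n i) m hχ
        _ = B := by simp [hB]
    · rw [← Finset.sum_sub_distrib]
      calc |∑ m, (q (i, m) - A'.gain (fun p => colD P1 P2 (tst n i) m (s (χ p))))|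
          ≤ ∑ m : Fin n, |q (i, m) - A'.gain (fun p => colD P1 P2 (tst n i) m (s (χ p)))| :=
            Finset.abs_sum_le_sum_abs _ _
        _ ≤ ∑ m : Fin n, ε := Finset.sum_le_sum fun m _ => hq (i, m)
        _ = n * ε := by simp
    · positivity
    · rw [affW_pk, affW_pk]
      have z1 : |z.1 - (mean fun p => s (χ p)).1| ≤ ε := (norm_fst_le _).trans hz
      have z2 : |z.2 - (mean fun p => s (χ p)).2| ≤ ε := (norm_snd_le _).trans hz
      have e : affW P0 (tst n i) + z.1 * affW P1 (tst n i) + z.2 * affW P2 (tst n i)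
          - (affW P0 (tst n i) + (mean fun p => s (χ p)).1 * affW P1 (tst n i)
            + (mean fun p => s (χ p)).2 * affW P2 (tst n i))
          = (z.1 - (mean fun p => s (χ p)).1) * affW P1 (tst n i)
            + (z.2 - (mean fun p => s (χ p)).2) * affW P2 (tst n i) := by ring
      rw [e]
      refine (abs_add_le _ _).trans ?_
      rw [abs_mul, abs_mul]
      have c1 := mul_le_mul_of_nonneg_right z1 (abs_nonneg (affW P1 (tst n i)))
      have c2 := mul_le_mul_of_nonneg_right z2 (abs_nonneg (affW P2 (tst n i)))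
      have c3 : |affW P1 (tst n i)| + |affW P2 (tst n i)| ≤ C' :=
        Finset.single_le_sum (f := fun i : ι => |affW P1 (tst n i)| + |affW P2 (tst n i)|)
          (fun _ _ => by positivity) (Finset.mem_univ i)
      have c4 := mul_le_mul_of_nonneg_right c3 hε0.le
      linarith
  have hent := entries hM₁.1 (symm_of_posDef hPD') key r t
  have t1 := hMM r t
  have t2 : (C' + 2 * n) * ε = η / 2 := by
    rw [hε]
    have : C' + 2 * n ≠ 0 := by positivity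
    field_simp
  have t3 : 8 / 3 * d * B = (8 / 3 * (2 * n / A'.lo) * (32 * n / A'.lo)) * η := by
    rw [hd, hB, hη]; ring
  rw [t2, t3] at hent
  have t4 : M r t - M' r t = (M r t - M₁ r t) + (M₁ r t - M' r t) := by ring
  rw [t4]
  refine (abs_add_le _ _).trans ?_
  have t5 : (16 / 3 * (2 * n / A'.lo) * (32 * n / A'.lo) + 2) * δ * (δ + δ') ^ 2
      = 2 * ((8 / 3 * (2 * n / A'.lo) * (32 * n / A'.lo)) * η) + 2 * η := by
    rw [hη]; ring
  rw [t5]
  linarith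

end Pool.Agent.Lib.MP_2a9317_an.TP
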