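import Pool.Agent.Lib.MP_2a9317_an.TP.Q0

set_option autoImplicit false

/-!
# TP-Trig: calculus of real trigonometric polynomials and of the heat flow

`tp Q α β p = ∑ q ∈ Q, (α q cos (ph q p) + β q sin (ph q p))`, `ph k l p = 2π (k p.1 + l p.2)` (`N1.F2`; see
`psi_pot`, `psi_fderiv` there for periodicity and derivatives).  The coefficients at time `t` are
`A.hf α t q = exp (-(A.lam q * t)) * α q`.
* `avg_tp`: `avg` of `cos (ph k l)` and `sin (ph k l)` vanishes for `(k, l) ≠ (0, 0)`: it is a multiple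
  of `avg (dX ·)` or `avg (dY ·)` of a smooth periodic function (`dX_tp`, `dY_tp` for one frequency),
  `avg_dX`, `avg_dY`.  For `(0, 0)` the function is the constant `α (0, 0)`.
* `lap_tp`: `4π² (a k² + 2 b k l + c l²) = A.lam`.
* `tp_div`: `∇·(G)` and the potential `u` with `∇·(A∇u) = -∇·G`; for `q = (0, 0)` all coefficients vanish
  (`x / 0 = 0`), for `q ≠ 0` `A.lam q ≠ 0` (`q_pos`).
* `tp_hf_lim`: the frequency `(0,0)` has `lam = 0` and contributes the mean `avg_tp`; the others
  decay: `|exp (-(lam q) t)| → 0`, `|α q cos + β q sin| ≤ |α q| + |β q|`.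
-/

namespace Pool.Agent.Lib.MP_2a9317_an.TP

open MeasureTheory Matrix Filter Topology Pool.Agent.Lib.MP_2a9317_an.N1
open scoped ContDiff

variable (Q : Finset (ℤ × ℤ)) (α β α' β' : ℤ × ℤ → ℝ)

private theorem tg_ph (k l : ℤ) (p : ℝ × ℝ) : HasFDerivAt (ph k l)
      ((2 * Real.pi) • ((k : ℝ) • ContinuousLinearMap.fst ℝ ℝ ℝ +
        (l : ℝ) • ContinuousLinearMap.snd ℝ ℝ ℝ)) p := by
  unfold ph
  have h2 := ((ContinuousLinearMap.fst ℝ ℝ ℝ).hasFDerivAt (x := p)).const_mul (k : ℝ)
  have h3 := ((ContinuousLinearMap.snd ℝ ℝ ℝ).hasFDerivAt (x := p)).const_mul (l : ℝ)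
  exact (h2.add h3).const_mul (2 * Real.pi)

private theorem tg_fd (p v : ℝ × ℝ) : fderiv ℝ (tp Q α β) p v =
    ∑ q ∈ Q, 2 * Real.pi * (q.1 * v.1 + q.2 * v.2) *
      (β q * Real.cos (ph q.1 q.2 p) - α q * Real.sin (ph q.1 q.2 p)) := by
  have h := HasFDerivAt.fun_sum (u := Q)
    (A := fun (q : ℤ × ℤ) (p : ℝ × ℝ) =>
      α q * Real.cos (ph q.1 q.2 p) + β q * Real.sin (ph q.1 q.2 p)) (x := p)
    (fun q _ => (((tg_ph q.1 q.2 p).cos).const_mul (α q)).fun_add
      (((tg_ph q.1 q.2 p).sin).const_mul (β q)))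
  have e : tp Q α β = fun p => ∑ q ∈ Q,
      (α q * Real.cos (ph q.1 q.2 p) + β q * Real.sin (ph q.1 q.2 p)) := rfl
  rw [e, h.fderiv, ContinuousLinearMap.sum_apply]
  refine Finset.sum_congr rfl fun q _ => ?_
  simp only [ContinuousLinearMap.smul_apply, ContinuousLinearMap.add_apply, smul_eq_mul,
    ContinuousLinearMap.coe_fst', ContinuousLinearMap.coe_snd']
  ring

private theorem tg_per (k l : ℤ) (x y : ℝ) :
    (Real.cos (ph k l (x + 1, y)) = Real.cos (ph k l (x, y)) ∧
      Real.sin (ph k l (x + 1, y)) = Real.sin (ph k l (x, y))) ∧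
    (Real.cos (ph k l (x, y + 1)) = Real.cos (ph k l (x, y)) ∧
      Real.sin (ph k l (x, y + 1)) = Real.sin (ph k l (x, y))) := by
  have e : ph k l (x + 1, y) = ph k l (x, y) + k * (2 * Real.pi) := by
    unfold ph; ring
  have e' : ph k l (x, y + 1) = ph k l (x, y) + l * (2 * Real.pi) := by
    unfold ph; ring
  rw [e, e', Real.sin_add_int_mul_two_pi, Real.cos_add_int_mul_two_pi,
    Real.sin_add_int_mul_two_pi, Real.cos_add_int_mul_two_pi]
  exact ⟨⟨rfl, rfl⟩, ⟨rfl, rfl⟩⟩

theorem tp_pot : IsPot (tp Q α β) := by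
  refine ⟨?_, fun x y => ⟨?_, ?_⟩⟩
  · unfold tp ph
    refine ContDiff.sum fun q _ => ?_
    fun_prop
  · unfold tp
    refine Finset.sum_congr rfl fun q _ => ?_
    rw [(tg_per q.1 q.2 x y).1.1, (tg_per q.1 q.2 x y).1.2]
  · unfold tp
    refine Finset.sum_congr rfl fun q _ => ?_
    rw [(tg_per q.1 q.2 x y).2.1, (tg_per q.1 q.2 x y).2.2]

theorem dX_tp : dX (tp Q α β) = tp Q (fun q => 2 * Real.pi * q.1 * β q)
    (fun q => -(2 * Real.pi * q.1 * α q)) := by
  funext p
  unfold dX
  rw [tg_fd]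
  unfold tp
  refine Finset.sum_congr rfl fun q _ => ?_
  simp only
  ring

theorem dY_tp : dY (tp Q α β) = tp Q (fun q => 2 * Real.pi * q.2 * β q)
    (fun q => -(2 * Real.pi * q.2 * α q)) := by
  funext p
  unfold dY
  rw [tg_fd]
  unfold tp
  refine Finset.sum_congr rfl fun q _ => ?_
  simp only
  ring

theorem tp_lin (x y : ℝ) (p : ℝ × ℝ) : tp Q (fun q => x * α q + y * α' q)
    (fun q => x * β q + y * β' q) p = x * tp Q α β p + y * tp Q α' β' p := by
  unfold tp
  rw [Finset.mul_sum, Finset.mul_sum, ← Finset.sum_add_distrib]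
  refine Finset.sum_congr rfl fun q _ => ?_
  ring

private theorem tg_avg (k l : ℤ) (a b : ℝ) :
    avg (fun p => a * Real.cos (ph k l p) + b * Real.sin (ph k l p)) =
      if (k, l) = (0, 0) then a else 0 := by
  split_ifs with h
  · have hk : k = 0 := congrArg Prod.fst h
    have hl : l = 0 := congrArg Prod.snd h
    have e : (fun p => a * Real.cos (ph k l p) + b * Real.sin (ph k l p)) = fun _ => a := by
      funext p
      have : ph k l p = 0 := by unfold ph; rw [hk, hl]; simp
      rw [this]; simp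
    rw [e, avg_const]
  · by_cases hk : k = 0
    · have hl : l ≠ 0 := by
        rintro rfl
        exact h (by rw [hk])
      have hl' : (l : ℝ) ≠ 0 := by exact_mod_cast hl
      have e : (fun p => a * Real.cos (ph k l p) + b * Real.sin (ph k l p)) =
          dY (psi k l a b (1 / l)) := by
        funext p
        unfold dY
        rw [psi_fderiv]
        simp only
        field_simp
        ring
      rw [e, avg_dY (psi_pot _ _ _ _ _)]
    · have hk' : (k : ℝ) ≠ 0 := by exact_mod_cast hk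
      have e : (fun p => a * Real.cos (ph k l p) + b * Real.sin (ph k l p)) =
          dX (psi k l a b (1 / k)) := by
        funext p
        unfold dX
        rw [psi_fderiv]
        simp only
        field_simp
        ring
      rw [e, avg_dX (psi_pot _ _ _ _ _)]

private theorem tg_bm (k l : ℤ) (a b : ℝ) :
    BM (fun p => a * Real.cos (ph k l p) + b * Real.sin (ph k l p)) := by
  apply bm_of_continuous
  · unfold ph
    fun_prop
  · intro x y
    have h := tg_per k l x y
    simp only [h.1.1, h.1.2, h.2.1, h.2.2, and_self]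

theorem avg_tp : avg (tp Q α β) = if (0, 0) ∈ Q then α (0, 0) else 0 := by
  have h : avg (tp Q α β) = ∑ q ∈ Q,
      avg (fun p => α q * Real.cos (ph q.1 q.2 p) + β q * Real.sin (ph q.1 q.2 p)) := by
    unfold tp
    exact avg_sum' Q (fun q _ => tg_bm q.1 q.2 (α q) (β q))
  rw [h]
  have h2 : ∀ q ∈ Q, avg (fun p => α q * Real.cos (ph q.1 q.2 p) + β q * Real.sin (ph q.1 q.2 p))
      = if q = (0, 0) then α (0, 0) else 0 := by
    intro q _
    rw [tg_avg q.1 q.2 (α q) (β q)]
    by_cases hq : q = (0, 0)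
    · rw [if_pos hq, if_pos hq, hq]
    · rw [if_neg hq, if_neg hq]
  rw [Finset.sum_congr rfl h2, Finset.sum_ite_eq']

theorem lap_tp (A : Mod) : A.lap (tp Q α β)
    = tp Q (fun q => -(A.lam q * α q)) (fun q => -(A.lam q * β q)) := by
  funext p
  unfold Mod.lap
  rw [dY_tp, dX_tp, dX_tp, dX_tp, dY_tp]
  unfold tp
  rw [Finset.mul_sum, Finset.mul_sum, Finset.mul_sum, ← Finset.sum_add_distrib,
    ← Finset.sum_add_distrib]
  refine Finset.sum_congr rfl fun q _ => ?_
  unfold Mod.lam Mod.q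
  simp only
  ring

theorem lam_zero (A : Mod) : A.lam (0, 0) = 0 := by
  unfold Mod.lam Mod.q
  simp

theorem lam_pos (A : Mod) {q : ℤ × ℤ} (h : q ≠ (0, 0)) : 0 < A.lam q := by
  unfold Mod.lam
  have h1 : ((q.1 : ℝ), (q.2 : ℝ)) ≠ 0 := by
    intro h2
    apply h
    have e1 : (q.1 : ℝ) = 0 := congrArg Prod.fst h2
    have e2 : (q.2 : ℝ) = 0 := congrArg Prod.snd h2
    exact Prod.ext (by exact_mod_cast e1) (by exact_mod_cast e2)
  have := q_pos A h1
  have := Real.pi_pos
  positivity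

/-- the potential with `∇·(A∇u) = -∇·(tp α β, tp α' β')` -/
theorem tp_div (A : Mod) (p : ℝ × ℝ) :
    A.lap (tp Q (fun q => 2 * Real.pi * (q.1 * β q + q.2 * β' q) / A.lam q)
      (fun q => -(2 * Real.pi * (q.1 * α q + q.2 * α' q)) / A.lam q)) p
    = -(dX (tp Q α β) p + dY (tp Q α' β') p) := by
  rw [lap_tp, dX_tp, dY_tp]
  unfold tp
  rw [← Finset.sum_add_distrib, ← Finset.sum_neg_distrib]
  refine Finset.sum_congr rfl fun q _ => ?_
  by_cases hq : q = (0, 0)
  · subst hq
    simp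
  · have h := (lam_pos A hq).ne'
    field_simp
    ring

theorem hf_zero (A : Mod) : A.hf α 0 = α := by
  funext q
  unfold Mod.hf
  simp

/-- joint continuity -/
theorem tp_hf_cont (A : Mod) :
    Continuous (fun x : ℝ × (ℝ × ℝ) => tp Q (A.hf α x.1) (A.hf β x.1) x.2) := by
  unfold tp Mod.hf ph
  refine continuous_finsetSum _ fun q _ => ?_
  fun_prop

/-- time derivative: the heat equation -/
theorem tp_hf_deriv (A : Mod) (t : ℝ) (p : ℝ × ℝ) :
    HasDerivAt (fun t => tp Q (A.hf α t) (A.hf β t) p)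
      (A.lap (tp Q (A.hf α t) (A.hf β t)) p) t := by
  rw [lap_tp]
  unfold tp
  refine HasDerivAt.fun_sum fun q _ => ?_
  have h1 : HasDerivAt (fun t => Real.exp (-(A.lam q * t)))
      (Real.exp (-(A.lam q * t)) * (-(A.lam q * 1))) t :=
    (((hasDerivAt_id t).const_mul (A.lam q)).fun_neg).exp
  have h2 := (((h1.mul_const (α q)).mul_const (Real.cos (ph q.1 q.2 p))).fun_add
    ((h1.mul_const (β q)).mul_const (Real.sin (ph q.1 q.2 p))))
  unfold Mod.hf
  convert h2 using 1
  ring

/-- convergence to the mean, uniformly in `p` -/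
theorem tp_hf_lim (A : Mod) {ε : ℝ} (hε : 0 < ε) :
    ∀ᶠ t in atTop, ∀ p : ℝ × ℝ, |tp Q (A.hf α t) (A.hf β t) p - avg (tp Q α β)| ≤ ε := by
  have hg : Tendsto (fun t : ℝ => ∑ q ∈ Q, (if q = (0, 0) then (0 : ℝ) else
      Real.exp (-(A.lam q * t)) * (|α q| + |β q|))) atTop (𝓝 0) := by
    have hq : ∀ q ∈ Q, Tendsto (fun t : ℝ => if q = (0, 0) then (0 : ℝ) else
        Real.exp (-(A.lam q * t)) * (|α q| + |β q|)) atTop (𝓝 0) := by
      intro q _
      by_cases hq : q = (0, 0)
      · simp only [if_pos hq]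
        exact tendsto_const_nhds
      · simp only [if_neg hq]
        have h1 : Tendsto (fun t : ℝ => Real.exp (-(A.lam q * t))) atTop (𝓝 0) :=
          Real.tendsto_exp_neg_atTop_nhds_zero.comp (tendsto_id.const_mul_atTop (lam_pos A hq))
        simpa using h1.mul_const (|α q| + |β q|)
    simpa using tendsto_finsetSum Q hq
  filter_upwards [hg.eventually (ge_mem_nhds hε)] with t ht p
  refine le_trans ?_ ht
  have e : tp Q (A.hf α t) (A.hf β t) p - avg (tp Q α β) = ∑ q ∈ Q,
      ((A.hf α t q * Real.cos (ph q.1 q.2 p) + A.hf β t q * Real.sin (ph q.1 q.2 p)) -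
        if q = (0, 0) then α (0, 0) else 0) := by
    rw [avg_tp, Finset.sum_sub_distrib, Finset.sum_ite_eq']
    rfl
  rw [e]
  refine (Finset.abs_sum_le_sum_abs _ _).trans (Finset.sum_le_sum fun q _ => ?_)
  by_cases hq : q = (0, 0)
  · subst hq
    have h0 : ph 0 0 p = 0 := by unfold ph; simp
    simp [Mod.hf, lam_zero, h0]
  · rw [if_neg hq, if_neg hq, sub_zero]
    unfold Mod.hf
    have e2 : Real.exp (-(A.lam q * t)) * α q * Real.cos (ph q.1 q.2 p) +
        Real.exp (-(A.lam q * t)) * β q * Real.sin (ph q.1 q.2 p) =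
        Real.exp (-(A.lam q * t)) * (α q * Real.cos (ph q.1 q.2 p) +
          β q * Real.sin (ph q.1 q.2 p)) := by ring
    rw [e2, abs_mul, abs_of_pos (Real.exp_pos _)]
    refine mul_le_mul_of_nonneg_left ?_ (Real.exp_pos _).le
    refine (abs_add_le _ _).trans (add_le_add ?_ ?_)
    · rw [abs_mul]
      exact mul_le_of_le_one_right (abs_nonneg _) (Real.abs_cos_le_one _)
    · rw [abs_mul]
      exact mul_le_of_le_one_right (abs_nonneg _) (Real.abs_sin_le_one _)

theorem avg_tp_hf (A : Mod) (t : ℝ) : avg (tp Q (A.hf α t) (A.hf β t)) = avg (tp Q α β) := by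
  rw [avg_tp, avg_tp]
  simp [Mod.hf, lam_zero]

end Pool.Agent.Lib.MP_2a9317_an.TP
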